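import Pool.Agent.Lib.MP_696deb_nt.B7.D9

/-! Three lemmas on power series. -/

set_option autoImplicit false

open PowerSeries

namespace Pool.Agent.B8

open Pool.Agent.B6

theorem reg8 : D9.RegStmt := by
  classical
  intro R _ h F G n hn e
  have ex : ∃ n, IsUnit (coeff n F) := ⟨n, hn⟩
  obtain ⟨U, hU⟩ : X ^ Nat.find ex ∣ F - ∑ i ∈ Finset.range (Nat.find ex), monomial i (coeff i F) :=
    X_pow_dvd_iff.2 fun m hm => by simp [coeff_monomial, hm]
  have u : IsUnit U := by
    have := congrArg (coeff (0 + Nat.find ex)) hU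
    rw [coeff_X_pow_mul, coeff_zero_eq_constantCoeff_apply] at this
    rw [isUnit_iff_constantCoeff, ← this]
    simpa [coeff_monomial] using Nat.find_spec ex
  obtain ⟨k, hk⟩ : IsNilpotent (∑ i ∈ Finset.range (Nat.find ex), monomial i (coeff i F)) :=
    isNilpotent_sum fun i hi => by
      rw [monomial_eq_C_mul_X_pow]
      exact (Commute.all _ _).isNilpotent_mul_right
        (((h _).resolve_left (Nat.find_min ex (Finset.mem_range.1 hi))).map C)
  have a : ∀ j : ℕ, (X ^ Nat.find ex * U) ^ j * G =
      (-∑ i ∈ Finset.range (Nat.find ex), monomial i (coeff i F)) ^ j * G := fun j => by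
    induction j with
    | zero => simp
    | succ j ih =>
      rw [pow_succ', mul_assoc, ih, ← hU]
      linear_combination (-∑ i ∈ Finset.range (Nat.find ex), monomial i (coeff i F)) ^ j * e
  have b := a k
  rw [neg_pow, hk, mul_zero, zero_mul, mul_pow, ← pow_mul, mul_assoc] at b
  exact (u.pow k).mul_right_eq_zero.1 (X_pow_mul_cancel (b.trans (mul_zero _).symm))

theorem root8 : D9.RootStmt := by
  intro R _ _ h Φ Y Y' n a b c d
  obtain ⟨K, hK⟩ := Φ.binomExpansion Y' (Y - Y')
  rw [add_sub_cancel, a, b, zero_add] at hK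
  refine sub_eq_zero.1 (h (Φ.derivative.eval Y' + K * (Y - Y')) _ n ?_ (by linear_combination -hK))
  by_contra e
  have m : coeff n (K * (Y - Y')) ∈ IsLocalRing.maximalIdeal R := by
    rw [coeff_mul]
    exact Ideal.sum_mem _ fun i _ => Ideal.mul_mem_left _ _ (c _)
  have := sub_mem (show _ ∈ IsLocalRing.maximalIdeal R from e) m
  rw [map_add, add_sub_cancel_right] at this
  exact this d

theorem shift8 : D9.ShiftStmt := by
  intro R _ e K hK
  have ha : HasSubst (C e + X : R⟦X⟧) := ⟨K, by
    change (constantCoeff (C e + X : R⟦X⟧)) ^ K = 0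
    simpa using hK⟩
  refine ⟨(substAlgHom ha).toRingHom, fun c => ?_, substAlgHom_X ha, fun F => ?_, fun F n => ?_⟩
  · exact (substAlgHom ha).commutes c
  · change coeff 0 (substAlgHom ha F : R⟦X⟧) = _
    rw [coe_substAlgHom, coeff_subst' ha, finsum_eq_sum_of_support_subset (s := Finset.range K)]
    · simp
    · intro d hd
      by_contra k
      obtain ⟨j, rfl⟩ := Nat.exists_eq_add_of_le (not_lt.1 fun l => k (by simpa using l))
      exact hd (by simp [pow_add, hK])
  · change e ∣ coeff n ((substAlgHom ha F : R⟦X⟧) - F)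
    rw [← Ideal.mem_span_singleton, ← Ideal.Quotient.eq_zero_iff_mem, ← coeff_map, map_sub,
      coe_substAlgHom]
    have := map_subst ha (h := Ideal.Quotient.mk (Ideal.span {e})) F
    have z : Ideal.Quotient.mk (Ideal.span {e}) e = 0 :=
      Ideal.Quotient.eq_zero_iff_mem.2 (Ideal.mem_span_singleton_self e)
    have w : MvPowerSeries.map (Ideal.Quotient.mk (Ideal.span {e})) (C e + X : R⟦X⟧) =
        (X : (R ⧸ Ideal.span {e})⟦X⟧) := by
      change PowerSeries.map _ (C e + X : R⟦X⟧) = _
      simp [z]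
    rw [w, X_subst] at this
    rw [show PowerSeries.map _ (subst (C e + X : R⟦X⟧) F) = _ from this, sub_self, map_zero]

end Pool.Agent.B8
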