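import Pool.Agent.Lib.MP_696deb_nt.B8.ZB
import Pool.Agent.Lib.MP_696deb_nt.B7.D9a
import Pool.Agent.Lib.MP_696deb_nt.B5.QPc

/-! The parametrization on a residue disc: definitions and statements. -/

set_option autoImplicit false

open Filter Topology PowerSeries
open scoped Classical NNReal

namespace Pool.Agent.B8
open Pool.Agent.Lib.MP_696deb_nt Pool.Agent.Lib.MP_696deb_nt.B2 Pool.Agent.B6 Pool.Agent.B4
  Pool.Agent.B4.GE Pool.Agent.Shared.Weier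
open Pool.Agent.B6.D9 (tt dd Dv Ty IM Gf)
open Pool.Agent.B5 (GN)

/-- The Taylor coefficients of `ζ (G t - G τ)` at `t = τ`. -/
noncomputable def cN (ζ G : ℂ → ℂ) (n : ℕ) (τ : ℂ) : ℂ := Dv n (fun t => ζ (G t - G τ)) τ

/-- The parameter at the origin. -/
structure Zt (L : PeriodPair) (W : WeierstrassCurve ℂ) (ζ : ℂ → ℂ) : Prop where
  an : AnalyticAt ℂ ζ 0
  zero : ζ 0 = 0
  one : deriv ζ 0 = 1
  eq : ∀ᶠ w in 𝓝[≠] 0, ζ w * uy L W w = -ux L W w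

section
variable (V : Valuation ℂ ℝ≥0)

/-- Modular functions with integral expansion at infinity. -/
structure Ar (L : ℕ) (F : ℂ → ℂ) : Prop where
  mf : MF L F
  int : F ∈ LR V.integer

/-- Integral series. -/
def Si (a : ℂ⟦X⟧) : Prop := ∀ n, V (coeff n a) ≤ 1

/-- Series with a unit coefficient. -/
def Su (a : ℂ⟦X⟧) : Prop := ∃ n, V (coeff n a) = 1

/-- `b (X) = a (X + ε)` modulo the square of `ε`. -/
def Sh (ε : ℂ) (a b : ℂ⟦X⟧) : Prop :=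
  ∀ n, V (coeff n (b - a - C ε * d⁄dX ℂ a)) ≤ V ε ^ 2

theorem av_le {x y : ℂ} : V.valuationSubring.valuation x ≤ V.valuationSubring.valuation y ↔
    V x ≤ V y := (V.isEquiv_valuation_valuationSubring x y).symm

theorem av_le_one {x : ℂ} : V.valuationSubring.valuation x ≤ 1 ↔ V x ≤ 1 := by
  simpa using av_le V (y := 1)

theorem av_lt_one {x : ℂ} : V.valuationSubring.valuation x < 1 ↔ V x < 1 := by
  simpa only [map_one, not_le] using (av_le V (x := 1) (y := x)).not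

theorem av_eq_one {x : ℂ} : V.valuationSubring.valuation x = 1 ↔ V x = 1 :=
  V.isEquiv_valuation_valuationSubring.eq_one_iff_eq_one.symm

theorem av_int : V.valuationSubring.valuation.integer = V.integer :=
  Subring.ext fun _ => av_le_one V

end

/-- Homogeneous coordinates of the parametrization. -/
structure Xy {W : WeierstrassCurve ℚ} {N : ℕ} (P : Par W N) (Xf Yf Bf : ℂ → ℂ) : Prop where
  x : MF N Xf
  y : MF N Yf
  b : MF N Bf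
  ne : ∃ z : ℂ, 0 < z.im ∧ Bf z ≠ 0
  eq : ∀ z : ℂ, 0 < z.im → Bf z ≠ 0 → P.F z ∉ P.L.lattice ∧
    Xf z = Bf z * ux P.L (W.baseChange ℂ) (P.F z) ∧ Yf z = Bf z * uy P.L (W.baseChange ℂ) (P.F z)

/-- The Taylor series is a homomorphism. -/
def TYaStmt : Prop := ∀ z : ℂ, 0 < z.im → deriv tt z ≠ 0 ∧ AnalyticAt ℂ tt z ∧
  Ty z tt = C (tt z) + X ∧ (∀ g h : ℂ → ℂ, g =ᶠ[𝓝 z] h → Ty z g = Ty z h) ∧
  (∀ (n : ℕ) (g : ℂ → ℂ), AnalyticAt ℂ g z → AnalyticAt ℂ (Dv n g) z) ∧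
  ∃ (S : Subalgebra ℂ (ℂ → ℂ)) (T : S →ₐ[ℂ] ℂ⟦X⟧), (∀ g, g ∈ S ↔ AnalyticAt ℂ g z) ∧
    ∀ g, T g = Ty z g

/-- The derivatives of modular functions are modular functions. -/
def TYbStmt : Prop := MF 9 tt ∧ (∀ (M N : ℕ) (F : ℂ → ℂ), M ≠ 0 → N ∣ M → MF N F → MF M F) ∧
  ∀ (L : ℕ) (F : ℂ → ℂ), L ≠ 0 → 9 ∣ L → MF L F → MF L (dd F) ∧ ∀ n, MF L (Dv n F)

/-- Integrality at one cusp gives integrality at all cusps. -/
def AIStmt : Prop := ∀ (A : ValuationSubring ℂ) (L : ℕ) (F : ℂ → ℂ), A.valuation L = 1 →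
  MF L F → F ∈ LR A.valuation.integer → IM A L F

/-- The divided derivatives are integral. -/
def TYcStmt : Prop := ∀ (L : ℕ) (V : Valuation ℂ ℝ≥0), V L = 1 → 9 ∣ L → Ar V L tt ∧
  ∀ F, Ar V L F → Ar V L (dd F) ∧ ∀ n, Ar V L (Dv n F)

/-- Series with a unit coefficient can be cancelled. -/
def RGStmt : Prop := ∀ (V : Valuation ℂ ℝ≥0) (c : ℝ≥0) (a b : ℂ⟦X⟧), Si V a → Si V b → Su V b →
  (∀ n, V (coeff n (a * b)) ≤ c) → ∀ n, V (coeff n a) ≤ c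

/-- The Taylor series at integral points. -/
def UCStmt : Prop := ∀ (L : ℕ) (V : Valuation ℂ ℝ≥0) (z : ℂ), V L = 1 → 9 ∣ L →
  0 < z.im → V (jf z) ≤ 1 → (∀ F, Ar V L F → Si V (Ty z F)) ∧
    ∀ F, MF L F → GN V F 1 → Su V (Ty z F)

/-- The transport of the Taylor series. -/
def TRStmt : Prop := ∀ (L : ℕ) (V : Valuation ℂ ℝ≥0) (z z' : ℂ), V L = 1 → 9 ∣ L → 0 < z.im →
  0 < z'.im → V (jf z) ≤ 1 → V (jf z') ≤ 1 → V (tt z' - tt z) < 1 →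
  (∀ n, V (Dv n (jN L) z' - Dv n (jN L) z) < 1) →
  ∀ F, Ar V L F → Sh V (tt z' - tt z) (Ty z F) (Ty z' F)

/-- The parameter exists. -/
def ZTStmt : Prop := ∀ (L : PeriodPair) (W : WeierstrassCurve ℂ), ∃ ζ, Zt L W ζ

/-- The coefficients are modular functions. -/
def WEaStmt : Prop := ∀ (L n : ℕ) (ζ G : ℂ → ℂ), L ≠ 0 → 9 ∣ L → Hol G → MF L (dd G) →
  AnalyticAt ℂ ζ 0 → MF L (cN ζ G n)

/-- The derivative of the integral of the form. -/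
def HFStmt : Prop := ∀ (W : WeierstrassCurve ℚ) (N : ℕ) (D : MD W N), MF (9 * N) (dd D.par.F) ∧
  ∀ (k : ℤ) (V : Valuation ℂ ℝ≥0), D.k = k → Odd k → V 2 < 1 → GN V (dd D.par.F) 1 ∧
    ∀ z : ℂ, 0 < z.im → V (jf z) ≤ 1 → V (B4.cf D.f z ^ 6 / Dl z) = 1 → V (dd D.par.F z) = 1

/-- Coordinates exist. -/
def XYaStmt : Prop := ∀ (W : WeierstrassCurve ℚ) (N : ℕ) (P : Par W N), ∃ Xf Yf Bf, Xy P Xf Yf Bf

/-- The equations of the coordinates. -/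
def XYbStmt : Prop := ∀ (W : WeierstrassCurve ℚ) (N : ℕ) (P : Par W N) (Xf Yf Bf : ℂ → ℂ),
  Xy P Xf Yf Bf → ∀ z : ℂ, 0 < z.im →
  Yf z ^ 2 * Bf z + W.a₁ * Xf z * Yf z * Bf z + W.a₃ * Yf z * Bf z ^ 2 =
    Xf z ^ 3 + W.a₂ * Xf z ^ 2 * Bf z + W.a₄ * Xf z * Bf z ^ 2 + W.a₆ * Bf z ^ 3 ∧
  Bf z * dd Xf z - Xf z * dd Bf z =
    dd P.F z * (Bf z * (2 * Yf z + W.a₁ * Xf z + W.a₃ * Bf z)) ∧
  Xf z * dd Yf z - Yf z * dd Xf z =
    dd P.F z * (Yf z ^ 2 + W.a₁ * Xf z * Yf z + 2 * W.a₃ * Yf z * Bf z -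
      W.a₂ * Xf z ^ 2 - 2 * W.a₄ * Xf z * Bf z - 3 * W.a₆ * Bf z ^ 2)

/-- Integral coordinates. -/
def XYStmt : Prop := ∀ [Ce] (P : Par Wu NN) (V : Valuation ℂ ℝ≥0), V 2 < 1 →
  MF (9 * NN) (dd P.F) → GN V (dd P.F) 1 →
  ∃ Xf Yf Bf, Xy P Xf Yf Bf ∧ Xf ∈ LR V.integer ∧ GN V Yf 1 ∧ GN V Bf 1

/-- The subtraction formula. -/
def GLStmt : Prop := ∀ (L : PeriodPair) (W : WeierstrassCurve ℂ) (a b x y x' y' m n : ℂ),
  IsPer L W → a ∉ L.lattice → b ∉ L.lattice → a - b ∉ L.lattice → x = ux L W b → y = uy L W b →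
  x' = ux L W a → y' = uy L W a → m = x' - x → n = y' + y + W.a₁ * x + W.a₃ →
  ux L W (a - b) * m ^ 2 = n ^ 2 + W.a₁ * n * m - (W.a₂ + x + x') * m ^ 2 ∧
  uy L W (a - b) * m ^ 3 = -(n + W.a₁ * m) * (n ^ 2 + W.a₁ * n * m - (W.a₂ + x + x') * m ^ 2) +
    n * x' * m ^ 2 - (y' + W.a₃) * m ^ 3

/-- The coefficients are integral. -/
def WEbStmt : Prop := ∀ [Ce] (P : Par Wu NN) (V : Valuation ℂ ℝ≥0) (Xf Yf Bf ζ : ℂ → ℂ),
  V 2 < 1 → Xy P Xf Yf Bf → Xf ∈ LR V.integer → Yf ∈ LR V.integer → GN V Bf 1 →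
  Zt P.L (Wu.baseChange ℂ) ζ → (∀ n, MF (9 * NN) (cN ζ P.F n)) → ∀ n, cN ζ P.F n ∈ LR V.integer

/-- The parameter does not vanish twice. -/
def EVaStmt : Prop := ∀ (V : Valuation ℂ ℝ≥0) (ε : ℂ) (u x y u' x' y' : ℂ⟦X⟧), V ε < 1 →
  Si V u → Si V x → Si V y → Si V u' → Si V y' → Su V y' → u * y = -x → u' * y' = -x' →
  Sh V ε x x' → Sh V ε y y' → coeff 0 u = 0 → coeff 0 u' = 0 → V (coeff 1 u) = 1 → ε = 0

/-- Conjugation by the inertia group preserves the residue disc. -/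
def EVbStmt : Prop := ∀ (L : ℕ) (w : Plc) (V : Valuation ℂ ℝ≥0) (g : Gam) (σ : ℂ ≃+* ℂ) (z z' : ℂ)
  (y : Qbar), L ≠ 0 → ¬ w.p ∣ L → Ov V w → g ∈ Ine w → CM.Ex g σ → G5.Pc L σ z z' →
  jC y = jf z → V (jf z) ≤ 1 → V (jf z') ≤ 1 ∧
    ∀ F, (∀ A : ValuationSubring ℂ, A.valuation L = 1 → Gf A L F) → V (F z' - F z) < 1

/-- The expansion of the parameter at a point that is mapped to the origin. -/
def EVcStmt : Prop := ∀ (W : WeierstrassCurve ℚ) (N : ℕ) (P : Par W N) (Xf Yf Bf ζ : ℂ → ℂ)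
  (z : ℂ), Xy P Xf Yf Bf → Zt P.L (W.baseChange ℂ) ζ → 0 < z.im → P.φ z = 0 →
  (PowerSeries.mk fun n => cN ζ P.F n z) * Ty z Yf = -Ty z Xf ∧ cN ζ P.F 0 z = 0 ∧
    cN ζ P.F 1 z = dd P.F z

end Pool.Agent.B8
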