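import Pool.Agent.Lib.MP_696deb_nt.B8.ZB
import Pool.Agent.Lib.MP_696deb_nt.B5.RVa

/-! Places of the algebraic numbers extend to the complex numbers. -/

set_option autoImplicit false

open scoped Classical NNReal

namespace Pool.Agent.B8
open Pool.Agent.Lib.MP_696deb_nt Pool.Agent.Lib.MP_696deb_nt.B2 Pool.Agent.Lib.MP_f8d36e_nt

/-- The absolute value of a place. -/
noncomputable def ovAbv (w : Plc) : AbsoluteValue Qbar ℝ where
  toFun x := w.V x
  map_mul' x y := by rw [map_mul, NNReal.coe_mul]
  nonneg' x := NNReal.coe_nonneg _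
  eq_zero' x := by rw [NNReal.coe_eq_zero, map_eq_zero]
  add_le' x y := by
    have h : w.V (x + y) ≤ w.V x + w.V y :=
      (w.V.map_add x y).trans (max_le le_self_add le_add_self)
    exact_mod_cast h

theorem ovAbv_apply (w : Plc) (x : Qbar) : ovAbv w x = w.V x := rfl

theorem ovAbv_na (w : Plc) : IsNonarchimedean (ovAbv w) := fun x y => by
  have h := w.V.map_add x y
  simp only [ovAbv_apply]
  exact_mod_cast h

theorem ov_stmt : OVStmt := by
  intro w
  have : Countable Qbar := by
    have h := Algebraic.countable ℚ Qbar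
    rw [Set.eq_univ_of_forall (s := {x : Qbar | IsAlgebraic ℚ x})
      fun x => Algebra.IsAlgebraic.isAlgebraic x] at h
    exact Set.countable_univ_iff.1 h
  obtain ⟨v, hv, h⟩ := B5.exists_abv jC (ovAbv_na w) (x₀ := (w.p : Qbar)⁻¹) (by
    rw [ovAbv_apply, map_inv₀, w.hV, inv_inv]
    exact_mod_cast w.prime.one_lt)
  exact ⟨B5.valOf hv, fun x => NNReal.eq (by rw [B5.coe_valOf, h, ovAbv_apply])⟩

end Pool.Agent.B8
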