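import Pool.Agent.Lib.MP_696deb_nt.B8.ZC
import Pool.Agent.Lib.MP_696deb_nt.B6.TAi

/-! The action of the Galois group on the roots of the two-division cubic. -/

set_option autoImplicit false

open NumberField NumberTheorySymbols
open scoped NNReal

namespace Pool.Agent.B8
open Pool.Agent.Lib.MP_696deb_nt Pool.Agent.Lib.MP_696deb_nt.B2 Pool.Agent.Lib.MP_696deb_nt.B2.CM
  Pool.Agent.B6 Pool.Agent.B4

theorem cfa_add : ∀ a b : Equiv.Perm (Fin 3), ((∀ i, a i = i) ∨ Nf a) → a (b 0) = a 0 + b 0 := by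
  decide +kernel

theorem cfa_cube : ∀ a : Equiv.Perm (Fin 3), (∃ i, a i = i) ∨ a ^ 3 = 1 := by decide +kernel

section
variable [Cs] {w : Plc} {g : Gam}

theorem cfa_gk : g ∈ GK NN ↔ chi WZ.Δ g = 1 := by
  obtain ⟨s, s0, hs⟩ := WZ_disc
  have n0 : (-NN : ℤ) ≠ 0 := neg_ne_zero.2 (Int.natCast_ne_zero.2 NN_ne)
  rw [hs, ← neg_mul, chi_mul n0 (pow_ne_zero 2 s0), chi_sq, mul_one]
  rfl

theorem cfa_all (hg : g ∈ GK NN) {i : Fin 3} (h : g (er i) = er i) (j : Fin 3) :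
    g (er j) = er j :=
  (un_even (cfa_gk.1 hg)).elim (fun k => k j) fun k => absurd h (k i)

theorem cfa_odd (hg : g ∉ GK NN) : ∃ i, g (er i) = er i := by
  obtain ⟨σ, hσ⟩ := exists_pr
  rcases cfa_cube (σ g) with ⟨i, e⟩ | e
  · exact ⟨i, by rw [hσ, e]⟩
  have h : chi WZ.Δ (g ^ 3) = 1 := tad_chi fun i => by rw [hσ, map_pow, e]; rfl
  rw [map_pow, pow_succ, Int.units_sq, one_mul] at h
  exact absurd (cfa_gk.2 h) hg

theorem cfa_chi : ∃ χ : Gam → ZMod 3, Sm (GK NN) χ ∧ IsHom (GK NN) χ ∧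
    ∀ g ∈ GK NN, χ g = 0 ↔ ∀ i, g (er i) = er i := by
  obtain ⟨σ, hσ⟩ := exists_pr
  refine ⟨fun g => σ g 0, ((sm_apply (er 0)).comp (Function.invFun er)).congr fun g _ => ?_,
    fun g hg h _ => ?_, fun g hg => ⟨fun e => cfa_all hg (i := 0) ?_, fun e => ?_⟩⟩
  · rw [hσ]
    exact Function.leftInverse_invFun er_inj _
  · refine (congrArg (fun a : Equiv.Perm (Fin 3) => a 0) (map_mul σ g h)).trans (cfa_add _ _ ?_)
    exact (un_even (cfa_gk.1 hg)).imp (fun k i => er_inj ((hσ g i).symm.trans (k i)))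
      fun k i e => k i (by rw [hσ, e])
  · rw [hσ, show σ g 0 = 0 from e]
  · exact er_inj ((hσ g 0).symm.trans (e 0))

theorem cfa_unit (h2 : w.p ≠ 2) (hw : ¬ w.p ∣ NN) {i j : Fin 3} (k1 : w.V (er i - er j) < 1) :
    i = j := by
  by_contra e
  have m : ∀ i, er i ∈ w.V.integer := fun i => V_root h2 (cub_er i)
  have k3 : w.V ((er 0 - er 1) * ((er 0 - er 2) * (er 1 - er 2))) < 1 := by
    have s : ∀ i j, er i - er j ∈ w.V.integer := fun i j => sub_mem (m i) (m j)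
    have k2 := k1
    rw [w.V.map_sub_swap] at k2
    fin_cases i <;> fin_cases j <;> first
      | exact absurd rfl e
      | exact r0_mul w k1 (mul_mem (s _ _) (s _ _))
      | exact r0_mul w k2 (mul_mem (s _ _) (s _ _))
      | exact mul_left_comm (er 0 - er 2) _ _ ▸ r0_mul w k1 (mul_mem (s _ _) (s _ _))
      | exact mul_left_comm (er 0 - er 2) _ _ ▸ r0_mul w k2 (mul_mem (s _ _) (s _ _))
      | exact mul_rotate' (er 1 - er 2) _ _ ▸ r0_mul w k1 (mul_mem (s _ _) (s _ _))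
      | exact mul_rotate' (er 1 - er 2) _ _ ▸ r0_mul w k2 (mul_mem (s _ _) (s _ _))
  have k4 := w.V_int_eq_one.2 fun k => hw ((dvd_Δ w.prime).1 k)
  rw [er_Δ, mul_comm, sq, mul_assoc] at k4
  exact (r0_mul w k3 (mul_mem k3.le (ofNat_mem _ 16))).ne k4

theorem cfa_frob (hw : ¬ w.p ∣ 2 * NN) (hφ : IsFrob w w.p g) :
    Rt w.p ↔ ∃ i, g (er i) = er i := by
  have h2 : w.p ≠ 2 := fun k => hw (k ▸ dvd_mul_right _ _)
  have hN : ¬ w.p ∣ NN := fun k => hw (k.mul_left _)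
  refine ⟨fun ⟨x, hx⟩ => un_frob h2 (fun k => hN ((dvd_Δ w.prime).1 k)) hφ.1 hx, fun ⟨i, f⟩ => ?_⟩
  have m : ∀ i, er i ∈ w.V.integer := fun i => V_root h2 (cub_er i)
  have k := hφ.2 _ (m i)
  rw [f, w.V.map_sub_swap] at k
  obtain ⟨n, hn⟩ := tai_int (m i) k
  rw [w.V.map_sub_swap] at hn
  have a1 := map_cub (Int.castRingHom Qbar) n
  have a2 := map_cub (Int.castRingHom (ZMod w.p)) n
  rw [eq_intCast, eq_intCast] at a1 a2
  refine ⟨n, ?_⟩
  rw [← a2, ZMod.intCast_zmod_eq_zero_iff_dvd, ← b2c_lt, a1]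
  have rt : ∀ {a b c : Qbar}, Rts a b c → w.V (n - a) < 1 → w.V (cub (n : Qbar)) < 1 :=
    fun {a b c} h k => by
      rw [h.cub_eq, mul_left_comm]
      exact r0_mul w k (mul_mem (ofNat_mem _ 4) (mul_mem
        (sub_mem (intCast_mem _ _) (V_root h2 (h.root.2 (.inr (.inl rfl)))))
        (sub_mem (intCast_mem _ _) (V_root h2 (h.root.2 (.inr (.inr rfl)))))))
  fin_cases i
  exacts [rt rts_er hn, rt rts_er.rot hn, rt rts_er.rot.rot hn]

theorem cfa_ine (h2 : w.p ≠ 2) (hg : g ∈ GK NN ⊓ Ine w) (i : Fin 3) : g (er i) = er i := by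
  by_cases hw : w.p ∣ NN
  · obtain ⟨a, b, c, h⟩ := exists_bad hw
    have k := (h.act hg.2.1).1
    rcases cub_eq_zero.1 (h.root.2 (.inl rfl)) with e | e | e <;> rw [e] at k <;>
      exact cfa_all hg.1 k i
  · obtain ⟨σ, hσ⟩ := exists_pr
    have k := hg.2.2 _ (V_root h2 (cub_er i))
    rw [hσ] at k ⊢
    rw [cfa_unit h2 hw k]

end

variable [Ce] {w : Plc}

omit [Ce] in
theorem cfa_V2 (hw : w.p = 2) : w.V 2 = 2⁻¹ := by
  have h := w.hV
  rw [hw] at h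
  exact_mod_cast h

/-- The doubles of the roots satisfy an Eisenstein equation. -/
theorem cfa_eis : ∃ κ : ℤ, ∀ x : Qbar, cub x = 0 →
    (2 * x) ^ 3 = -2 * (WZ.b₆ + (2 * x) * (κ * (2 * x) + WZ.b₄)) := by
  obtain ⟨k, hk⟩ := a1_even
  refine ⟨k ^ 2 + WZ.a₂, fun x h => ?_⟩
  rw [cub, WeierstrassCurve.b₂, hk] at h
  push_cast at h ⊢
  linear_combination 2 * h

theorem cfa_b6 : ¬ (2 : ℤ) ∣ WZ.b₆ := by
  obtain ⟨k, hk⟩ := a3_odd
  rw [WeierstrassCurve.b₆, hk]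
  rintro ⟨t, ht⟩
  have : 2 * (2 * k ^ 2 + 2 * k + 2 * WZ.a₆ - t) + 1 = 0 := by linear_combination ht
  omega

theorem cfa_val (hw : w.p = 2) {x : Qbar} (hx : cub x = 0) : w.V (2 * x) ^ 3 = w.V 2 := by
  obtain ⟨κ, h⟩ := cfa_eis
  have e := congrArg w.V (h x hx)
  generalize 2 * x = θ at e ⊢
  have b6 : w.V (WZ.b₆ : Qbar) = 1 := w.V_int_eq_one.2 (by rw [hw]; exact cfa_b6)
  have v2 : w.V 2 < 1 := by rw [cfa_V2 hw]; exact two_inv_lt_one
  rw [map_pow, map_mul, w.V.map_neg] at e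
  have h1 : w.V θ < 1 := not_le.1 fun k => by
    have k0 : 0 < w.V θ := one_pos.trans_le k
    have k1 : w.V (κ * θ + WZ.b₄) ≤ w.V θ := w.V.map_add_le
      (by rw [map_mul]; exact mul_le_of_le_one_left' (w.V_int_le _)) ((w.V_int_le _).trans k)
    have k2 : w.V (WZ.b₆ + θ * (κ * θ + WZ.b₄)) ≤ w.V θ ^ 3 := w.V.map_add_le
      (b6.le.trans (one_le_pow₀ k)) (by
        rw [map_mul, pow_succ']
        exact mul_le_mul_right (k1.trans (le_self_pow₀ k two_ne_zero)) _)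
    exact (e.trans_lt ((mul_le_mul_right k2 _).trans_lt
      (mul_lt_of_lt_one_left (pow_pos k0 3) v2))).false
  rw [e, w.V.map_add_eq_of_lt_left (by
    rw [b6]
    exact r0_mul w h1 (add_mem (mul_mem (intCast_mem _ _) h1.le) (intCast_mem _ _))), b6, mul_one]

theorem cfa_le (hw : w.p = 2) : Ine w ≤ GK NN := fun _ hg =>
  chi_ine_two hw (by have := nk.m8; omega) hg

theorem cfa_ram (hw : w.p = 2) : ∃ σ ∈ Ine w, ∀ i, σ (er i) ≠ er i := by
  by_contra! h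
  have h1 := cfa_val hw (cub_er 0)
  obtain ⟨k, hk⟩ := V_of_fx_ine (w := w) (x := 2 * er 0) (fun g hg => by
    obtain ⟨i, hi⟩ := h g hg
    rw [map_mul, map_ofNat, cfa_all (cfa_le hw hg) hi]) fun k => by
      rw [k, map_zero, cfa_V2 hw] at h1
      simp at h1
  rw [hk, cfa_V2 hw, hw, inv_pow, inv_inj, ← zpow_natCast, ← zpow_mul, Nat.cast_ofNat] at h1
  have := zpow_right_injective₀ (a := (2 : ℝ≥0)) two_pos (by norm_num) (h1.trans (zpow_one _).symm)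
  omega

omit [Ce] in
theorem cfa_stmt : CFaStmt := fun [Ce] =>
  ⟨cfa_chi.imp fun _ h => ⟨h.1, h.2.1, h.2.2⟩, fun _ hg _ h => cfa_all hg h, fun _ => cfa_odd,
    fun _ _ => cfa_frob, fun _ h _ => cfa_ine h,
    fun _ hw => ⟨fun i => cfa_val hw (cub_er i), cfa_le hw, cfa_ram hw⟩⟩

end Pool.Agent.B8
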