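import Pool.Agent.Lib.MP_696deb_nt.B8.ZC
import Pool.Agent.Lib.MP_23455a_nt.H3.RCr
import Pool.Agent.Lib.MP_23455a_nt.H3.CF

/-! The reciprocity law for principal primes of the order of conductor two. -/

set_option autoImplicit false

open scoped Classical NNReal

namespace Pool.Agent.B8
open Pool.Agent.Lib.MP_696deb_nt Pool.Agent.Lib.MP_696deb_nt.B2 Pool.Agent.Lib.MP_696deb_nt.B2.CM
  Pool.Agent.B6

/-- A cubic character that is unramified outside two kills the principal primes of the order of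
conductor two. -/
theorem cfb_main {n : ℕ} (hn : n % 4 = 3) {χ : Gam → ZMod (3 ^ 1)} (h1 : Sm (GK n) χ)
    (h2 : IsHom (GK n) χ) (h3 : ∀ v : Plc, v.p ≠ 2 → ∀ σ ∈ GK n ⊓ Ine v, χ σ = 0) {w : Plc}
    {φ : Gam} {x y : ℤ} (hw : ¬ w.p ∣ 2 * n) (hy : 2 ∣ y) (e : nrm n x y = w.p)
    (hφ : IsFrob w w.p φ) (ha : w.V (elQ n x y) < 1) : χ φ = 0 := by
  obtain ⟨F⟩ := H3.exists_cft
  have n0 : 0 < n := by omega
  have pz := Nat.prime_iff_prime_int.1 w.prime
  have w2 : w.p ≠ 2 := fun h => hw (h ▸ dvd_mul_right 2 n)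
  have wn : ¬ w.p ∣ n := fun h => hw (h.mul_left 2)
  have hm := elQ_mul hn x y
  rw [e, Int.cast_natCast] at hm
  have hnc : ¬ ((w.p : ℤ) ∣ x ∧ (w.p : ℤ) ∣ y) := by
    rintro ⟨⟨s, rfl⟩, t, rfl⟩
    refine pz.not_dvd_one ⟨nrm n s t, mul_left_cancel₀ pz.ne_zero ?_⟩
    rw [mul_one]
    refine e.symm.trans ?_
    simp only [nrm]
    ring
  have hb : w.V (elQ n (x + y) (-y)) = 1 :=
    (V_elQ_le hn _ _ _).eq_or_lt.resolve_right fun k => hnc (cmr_both hn wn ha k)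
  have hD : Dec w ≤ GK n := fun g hg => by
    by_contra k
    exact ha.ne (V_elQ_inert hn wn hg k hnc)
  have a0 : elQ n x y ≠ 0 := fun k => by
    rw [k, zero_mul] at hm
    exact w.prime.ne_zero (Nat.cast_eq_zero.1 hm.symm)
  obtain ⟨κ, hκ⟩ := H3.exists_kum 1 a0 (fx_elQ x y)
  have s1 : ∀ v : Plc, Sm (GK n ⊓ Dec v) χ := fun v => h1.mono inf_le_left
  have s2 : ∀ v : Plc, IsHom (GK n ⊓ Dec v) χ := fun v g hg k hk => h2 g hg.1 k hk.1
  have hc : cc⁻¹ ∉ GK n := fun h => cc_notMem n0 (inv_mem_iff.1 h)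
  have key := F.recip {w} (op_GK n) (H3.c2_cup h1 h2 hκ.sm hκ.coc)
    (fun u hu u' hu' _ _ _ => by rw [Finset.mem_singleton.1 hu, Finset.mem_singleton.1 hu'])
    fun u hu => by
      by_cases k : u.p = 2
      · refine F.cup_pow (op_GK n) (s1 u) (s2 u) (hκ.mono inf_le_left) (H3.CM.rcr_root inf_le_right 1
          (fun j hj => fx_elQ x y j hj.1) ?_)
        have x2 : (2 : ℤ) ∣ x - 1 := by
          obtain ⟨t, rfl⟩ := hy
          obtain ⟨s, hs⟩ := w.prime.odd_of_ne_two w2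
          rcases Int.even_or_odd' x with ⟨r, rfl | rfl⟩
          · have : (2 : ℤ) ∣ w.p := e ▸ ⟨nrm n r t * 2, by simp only [nrm]; ring⟩
            omega
          · exact ⟨r, by ring⟩
        have h9 : u.V (3 ^ (1 + 1)) = 1 := by
          have h8 : u.V ((3 : ℤ) : Qbar) = 1 := u.V_int_eq_one.2 (by rw [k]; norm_num)
          rw [map_pow, ← Int.cast_ofNat, h8, one_pow]
        rw [h9, show elQ n x y - 1 = elQ n (x - 1) y by simp only [elQ]; push_cast; ring]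
        refine (cmu_V hn u (e := 1) (by simpa [k] using x2) (by simpa [k] using hy)).trans_lt ?_
        simpa using b2a_p_lt u
      refine F.unit (op_GK n) (s1 u) (s2 u) (h3 u k) (hκ.mono inf_le_left)
        ((V_elQ_le hn u x y).eq_or_lt.resolve_right fun h => ?_)
      have h4 := b2a_mul_lt u (V_elQ_le hn u (x + y) (-y)) h
      rw [mul_comm, hm, ← Int.cast_natCast, b2c_lt, Int.natCast_dvd_natCast,
        Nat.prime_dvd_prime_iff_eq u.prime w.prime] at h4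
      obtain ⟨j, h5, h6 | h6⟩ := conj_or n0 h4
      · exact hu _ (Finset.mem_singleton_self w) j h5 h6
      · rw [← h6, smul_V, fx_elQ x y _ (inv_mem h5), smul_V, cmr_conj hc, hb] at h
        exact h.ne rfl
  rw [Finset.sum_singleton, F.kum 1 (op_GK n) ((Ine_le w).trans hD) (hD hφ.1)
    (by rwa [Subgroup.relIndex_eq_one.2 (le_inf hD le_rfl), pow_one]) (s1 w) (s2 w)
    (fun σ hσ => h3 w w2 σ ⟨hD (Ine_le w hσ), hσ⟩) (hκ.mono inf_le_left)
    (by rw [zpow_one, ← w.hV, ← hm, map_mul, hb, mul_one])] at key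
  simpa using key

theorem cfb_stmt : CFbStmt := by
  intro a _ χ w φ x y hχ hw hy e hφ
  have hn : NN % 4 = 3 := by have := nk.m8; omega
  have h3 : ∀ v : Plc, v.p ≠ 2 → ∀ σ ∈ GK NN ⊓ Ine v, χ σ = 0 := fun v hv σ hσ =>
    (hχ.ker σ hσ.1).2 (a.2.2.2.2.1 v hv σ hσ)
  by_cases k : w.V (elQ NN x y) < 1
  · exact cfb_main hn hχ.sm hχ.hom h3 hw hy e hφ k
  have h4 := b2a_p_lt w
  rw [← Int.cast_natCast, ← e, ← elQ_mul hn, map_mul,
    (V_elQ_le hn w x y).eq_or_lt.resolve_right k, one_mul] at h4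
  exact cfb_main hn hχ.sm hχ.hom h3 hw (dvd_neg.2 hy) (by rw [← e]; simp only [nrm]; ring) hφ h4

end Pool.Agent.B8
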