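import Pool.Agent.Lib.MP_696deb_nt.B8.ZC
import Pool.Agent.Lib.MP_696deb_nt.B3.CMe
import Pool.Agent.Lib.MP_23455a_nt.H3.CH
import Pool.Agent.Lib.MP_23455a_nt.H3.CF
import Pool.Agent.Lib.MP_23455a_nt.H3.RCe
import Pool.Agent.Lib.MP_23455a_nt.H3.RCu

/-! The cubic character factors through the ring class group of conductor two. -/

set_option autoImplicit false

open NumberField NumberTheorySymbols
open scoped Classical NNReal

namespace Pool.Agent.B8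
open Pool.Agent.Lib.MP_696deb_nt Pool.Agent.Lib.MP_696deb_nt.B2 Pool.Agent.Lib.MP_696deb_nt.B2.CM
  Pool.Agent.B6 Pool.Agent.B4

open Pool.Agent.Lib.MP_696deb_nt.B3.CM (norm_rel exists_frob_idl kerR op_kerR)

theorem cfc_normal {n c : ℕ} (ok : Ok n c) : (kerR ok).Normal := by
  refine ⟨fun g hg t => ⟨(normal_GK n).conj_mem g hg.1 t, ?_⟩⟩
  by_cases ht : t ∈ GK n
  · rw [rho_mul ok (mul_mem ht hg.1), rho_mul ok ht, hg.2, mul_one, rho_inv ok ht, mul_inv_cancel]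
  · rw [rho_conj ok ht hg.1, hg.2, inv_one]

/-- A split prime whose Frobenius element acts trivially is a norm from the order. -/
theorem cfc_norm {n c : ℕ} (ok : Ok n c) {w : Plc} {φ : Gam} (h2 : w.p ≠ 2) (hn : ¬ w.p ∣ n)
    (hc : ¬ w.p ∣ c) (hφ : IsFrob w w.p φ) (h : φ ∈ kerR ok) :
    ∃ x y : ℤ, (c : ℤ) ∣ y ∧ nrm n x y = w.p := by
  have h8 := chi_frob (a := -n) (fun e => by
    rcases (Nat.prime_iff_prime_int.1 w.prime).dvd_mul.1 e with e | e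
    · exact h2 ((Nat.prime_dvd_prime_iff_eq w.prime Nat.prime_two).1 (by exact_mod_cast e))
    · exact hn (by exact_mod_cast (dvd_neg.1 e))) hφ
  rw [B4c_mem.1 h.1] at h8
  obtain ⟨b, k, e, hb⟩ := exists_root_split ok.m4 w.prime h2 h8.symm hc
  have h9 : cl (Oc n c) (idl n c w.p b) = 1 := by
    rcases (exists_frob_idl ok w.prime h2 e hb rfl hφ).2 with e1 | e1
    · rw [← e1, h.2]
    · rw [← inv_eq_one, ← e1, h.2]
  obtain ⟨q, hq⟩ : ∃ q : ℤ, (n : ℤ) + 1 = 4 * q := ⟨(n + 1) / 4, by have := ok.m4; omega⟩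
  obtain ⟨x, y, hy, h10⟩ := norm_rel ok e (by exact_mod_cast w.prime.pos) (cmf_prim w.prime hb k)
    (A' := 1) (b' := c) (k' := c ^ 2 * q) (by linear_combination c ^ 2 * hq) one_pos
    ⟨1, 0, 0, by ring⟩ (by rw [h9, idl, Int.cast_one, ← cmd_ot ok.m4, cl_one])
  exact ⟨x, y, hy, by rw [h10, mul_one]⟩

/-- The three-primary part of the Hilbert class field is unramified at two. -/
theorem cfc_unr {n : ℕ} (hn : Nk n) {w : Plc} (hw : w.p = 2) {s : Gam} (hs : s ∈ GK n ⊓ Ine w) :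
    ∃ k : ℕ, ¬ 3 ∣ k ∧ rho n 1 s ^ k = 1 := by
  have ok : Ok n 1 := hn.ok one_ne_zero
  have h8 := hn.m8
  have := finite_Pc ok.m4 ok.gt 1
  obtain ⟨F⟩ := H3.exists_cft
  obtain ⟨φ, hφ⟩ := B2.exists_frob w
  have h0 : φ ∉ GK n := fun k => by
    have h1 := chi_dec_two (a := -n * 5) hw (by omega) hφ.1
    rw [chi_mul (by omega) (by norm_num), B4c_mem.1 k, chi_frob_two hw (hw ▸ hφ)] at h1
    exact absurd h1 (by decide)
  refine H3.CM.tq_eq_one.1 (by_contra fun k => ?_)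
  obtain ⟨m, θ, -, h2⟩ := H3.CM.exists_char H3.CM.tw_three ⊥ (a := H3.CM.tq _ (rho n 1 s)) k
  exact h2 (H3.CM.unr_inert F ok (θ.comp (H3.CM.tq _)) (by rw [hw]; omega) (by rw [hw]; decide)
    hφ.1 h0 hs)

variable [Ce] {χ : Gam → ZMod 3}

theorem Cx.pow (h : Cx χ) {g : Gam} (hg : g ∈ GK NN) (k : ℕ) : χ (g ^ k) = k * χ g := by
  induction k with
  | zero => rw [pow_zero, (h.ker 1 (one_mem _)).2 fun _ => rfl, Nat.cast_zero, zero_mul]
  | succ k ih => rw [pow_succ, h.hom _ (pow_mem hg k) _ hg, ih, Nat.cast_succ, add_mul, one_mul]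

/-- The character is trivial on the group of the ring class field. -/
theorem Cx.of_rho (h : Cx χ) (a : CFaStmt) (b : CFbStmt) {g : Gam} (hg : g ∈ GK NN)
    (h1 : rho NN 2 g = 1) : χ g = 0 := by
  have ok : Ok NN 2 := nk.ok two_ne_zero
  obtain ⟨σ, hσ⟩ := exists_pr
  have m : ∀ g : Gam, g ∈ σ.ker ↔ ∀ i, g (er i) = er i := fun g =>
    ⟨fun e i => by rw [hσ, show σ g = 1 from e]; rfl,
      fun e => Equiv.ext fun i => er_inj ((hσ g i).symm.trans (e i))⟩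
  have o : Op σ.ker := by
    have o1 : ∀ i, Op (MulAction.stabilizer Gam (er i)) := fun i =>
      stabilizer_isOpen_of_isIntegral _
    refine Subgroup.isOpen_mono (fun g hg => (m g).2 fun i => ?_) (((o1 0).inf (o1 1)).inf (o1 2))
    fin_cases i
    exacts [hg.1.1, hg.1.2, hg.2]
  have := cfc_normal ok
  have hk : g ∈ kerR ok := ⟨hg, h1⟩
  obtain ⟨w, φ, k, h2, hφ, h3, h4⟩ := H3.cheb (kerR ok ⊓ σ.ker) g 1 (2 * NN).primeFactors
    ((op_kerR ok).inf o) inferInstance ⟨pow_mem hk _, (m _).2 ((h.ker _ (pow_mem hg _)).1 (by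
      rw [h.pow hg, show ((2 * 3 ^ 1 : ℕ) : ZMod 3) = 0 from rfl, zero_mul]))⟩
  have h5 : ¬ w.p ∣ 2 * NN := fun e =>
    h2 (Nat.mem_primeFactors.2 ⟨w.prime, e, mul_ne_zero two_ne_zero NN_ne⟩)
  have h6 : φ ∈ kerR ok := by
    have := mul_mem (pow_mem hk k) (inv_mem h4.1)
    rwa [mul_inv_rev, inv_inv, mul_inv_cancel_left] at this
  obtain ⟨x, y, hy, h7⟩ := cfc_norm ok (fun e => h5 (by rw [e]; exact dvd_mul_right _ _))
    (fun e => h5 (e.mul_left _)) (fun e => h5 (e.mul_right _)) hφ h6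
  have h8 := b a χ w φ x y h h5 (by exact_mod_cast hy) h7 hφ
  have h9 := h.hom φ h6.1 _ h4.1.1
  rw [mul_inv_cancel_left, h.pow hg, h8, (h.ker _ h4.1.1).2 ((m _).1 h4.2), add_zero] at h9
  refine (mul_eq_zero.1 h9).resolve_left fun e => ?_
  have h10 := (ZMod.natCast_eq_zero_iff k 3).1 e
  exact absurd (Nat.dvd_gcd h10 (by norm_num : 3 ∣ 6)) (by rw [h3]; decide)

theorem Cx.exists_psi (h : Cx χ) (a : CFaStmt) (b : CFbStmt) :
    ∃ ψ : Pc NN 2 →* Z3, ∀ g ∈ GK NN, ψ (rho NN 2 g) = .ofAdd (χ g) := by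
  have ok : Ok NN 2 := nk.ok two_ne_zero
  obtain ⟨ψ, hψ⟩ := exists_lift (Γ := GK NN) ⊤ (fun g => rho NN 2 g)
    (MonoidHom.mk' (fun g : GK NN => Multiplicative.ofAdd (χ g)) fun g k =>
      congrArg Multiplicative.ofAdd (h.hom g g.2 k k.2))
    (fun g _ k _ => rho_mul ok g.2 k)
    (fun x => by
      obtain ⟨g, hg, e⟩ := rho_surj ok x
      exact ⟨⟨g, hg⟩, trivial, e⟩)
    fun g _ e => congrArg Multiplicative.ofAdd (h.of_rho a b g.2 e)
  exact ⟨ψ, fun g hg => hψ ⟨g, hg⟩ trivial⟩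

omit [Ce]

theorem rm_stmt (a : CFaStmt) (b : CFbStmt) : RMStmt := by
  intro _ w hw
  obtain ⟨⟨χ, h⟩, -, -, -, -, a6⟩ := @a _
  obtain ⟨-, h1, σ, h2, h3⟩ := a6 w hw
  exact ⟨σ, h2, fun e => h3 0 ((h.ker σ (h1 h2)).1 (h.of_rho a b (h1 h2) e) 0)⟩

theorem cf_stmt (a : CFaStmt) (b : CFbStmt) : CFStmt := by
  intro _
  have ok : Ok NN 2 := nk.ok two_ne_zero
  obtain ⟨⟨χ, h⟩, a2, a3, a4, -, a6⟩ := @a _
  obtain ⟨ψ, hψ⟩ := h.exists_psi a b
  refine ⟨ψ, ?_, fun l x k hl h1 e => ?_, fun l hl h1 hJ => ?_⟩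
  · obtain ⟨w, hw⟩ := exists_plc Nat.prime_two
    obtain ⟨-, h1, σ, h2, h3⟩ := a6 w hw
    obtain ⟨k, h4, h5⟩ := cfc_unr nk hw ⟨h1 h2, h2⟩
    refine ⟨rho NN 2 σ ^ k, by rw [map_pow, pj_rho ok (one_dvd 2), h5], fun e => ?_⟩
    rw [← rho_pow ok (h1 h2), hψ _ (pow_mem (h1 h2) k), ofAdd_eq_one, h.pow (h1 h2)] at e
    exact h3 0 ((h.ker σ (h1 h2)).1 ((mul_eq_zero.1 e).resolve_left fun e' =>
      h4 ((ZMod.natCast_eq_zero_iff k 3).1 e')) 0)
  · obtain ⟨w, rfl⟩ := exists_plc hl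
    obtain ⟨φ, hφ⟩ := B2.exists_frob w
    have hp := Nat.prime_iff_prime_int.1 hl
    have h2 : ¬ (w.p : ℤ) ∣ x := fun e' => by
      have h3 : (w.p : ℤ) ∣ 2 * (2 * NN) := by
        have h4 : (2 : ℤ) * (2 * NN) = w.p * (4 * k) - x ^ 2 := by
          push_cast at e
          linear_combination e
        rw [h4]
        exact dvd_sub (dvd_mul_right _ _) (e'.pow two_ne_zero)
      rcases hp.dvd_mul.1 h3 with h3 | h3
      · exact h1 (by exact_mod_cast h3.mul_right (NN : ℤ))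
      · exact h1 (by exact_mod_cast h3)
    obtain ⟨h3, h4⟩ := exists_frob_idl ok hl (fun e' => h1 (by rw [e']; exact dvd_mul_right _ _))
      e h2 rfl hφ
    have h5 : ψ (cl _ (idl NN 2 w.p x)) = 1 ↔ ψ (rho NN 2 φ) = 1 := by
      rcases h4 with h4 | h4 <;> simp [h4]
    rw [h5, hψ φ h3, ofAdd_eq_one, h.ker φ h3, a4 w φ h1 hφ]
    exact ⟨fun e' => ⟨0, e' 0⟩, fun ⟨i, e'⟩ => a2 φ h3 i e'⟩
  · obtain ⟨w, rfl⟩ := exists_plc hl
    obtain ⟨φ, hφ⟩ := B2.exists_frob w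
    refine (a4 w φ h1 hφ).2 (a3 φ (B4c_notMem.2 (Units.ext ((chi_frob (fun e => h1 ?_) hφ).trans hJ))))
    rw [mul_neg, dvd_neg] at e
    exact_mod_cast e

end Pool.Agent.B8
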