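import Pool.Agent.Lib.MP_696deb_nt.B8.ZA
import Pool.Agent.Lib.MP_696deb_nt.B3.CMb

/-! Points of the classes, and the three neighbours of a point. -/

set_option autoImplicit false

open Complex
open scoped Classical

namespace Pool.Agent.B8
open Pool.Agent.Lib.MP_696deb_nt Pool.Agent.Lib.MP_696deb_nt.B2.CM
open Pool.Agent.Lib.MP_696deb_nt.B3.CM

theorem nb_rp {n c : ℕ} {τ a : ℂ} {J : Lt} (hτ : 0 < τ.im) (ha : a ≠ 0) (hJ : IsIv (Oc n c) J)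
    (e : J = sc a (sp2 τ 1)) : Rp n c τ (cl _ J) := by
  have h1 : sp2 τ 1 = sc a⁻¹ J := by rw [e, sc_inv_sc ha]
  exact ⟨hτ, h1 ▸ hJ.sc (inv_ne_zero ha), by rw [h1, cl_sc hJ (inv_ne_zero ha)]⟩

theorem nb_point {n c : ℕ} (h : Ok n c) (x : Pc n c) : ∃ τ, Rp n c τ x := by
  obtain ⟨J, hJ, rfl⟩ := cl_surj x
  obtain ⟨τ, a, hτ, ha, e⟩ := (hJ.isLat h).exists_tau
  exact ⟨τ, nb_rp hτ ha hJ e⟩

theorem nb_x0 {n : ℕ} (h : Nk n) : Rp n 2 (x0 n) 1 := by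
  have h4 : n % 4 = 3 := by have := h.m8; omega
  have hn : (0 : ℝ) < √(n : ℝ) := Real.sqrt_pos.2 (by have := h.gt; positivity)
  have hc : ((√(n : ℝ) : ℝ) : ℂ) ≠ 0 := ofReal_ne_zero.2 hn.ne'
  have hd : dl n ≠ 0 := mul_ne_zero hc I_ne_zero
  have hp : 0 < (x0 n).im := by
    rw [x0, div_ofReal_im, I_im]
    positivity
  have e1 : -dl n * x0 n = 1 := by
    rw [dl, x0]
    field_simp
    rw [I_sq, neg_neg]
  have e2 : be n 2 0 = dl n := by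
    rw [be]
    push_cast
    ring
  have e : ot (Oc n 2) = sc (-dl n) (sp2 (x0 n) 1) := by
    rw [sc_sp2, e1, mul_one, cmb_sp2_neg, ot_Oc (b := 0) h4 (by norm_num), e2]
  have := nb_rp hp (neg_ne_zero.2 hd) (isIv_one (Oc n 2)) e
  rwa [cl_one] at this

theorem nb_hk (τ : ℂ) (i : Option (Fin 2)) :
    ∃ a : ℂ, a ≠ 0 ∧ nb 2 1 τ i = sc a (sp2 (hk 2 τ i) 1) := by
  cases i with
  | none => exact ⟨1, one_ne_zero, by rw [sc_one]; rfl⟩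
  | some k =>
    refine ⟨2, two_ne_zero, ?_⟩
    rw [sc_sp2, nb, hk]
    congr 1
    · push_cast
      ring
    · push_cast
      ring

theorem nb_hk_pos {τ : ℂ} (hτ : 0 < τ.im) (i : Option (Fin 2)) : 0 < (hk 2 τ i).im := by
  cases i with
  | none => simpa [hk] using hτ
  | some k => simpa [hk] using hτ

theorem nb_iv {n : ℕ} (h : Nk n) {τ : ℂ} (hτ : 0 < τ.im) (hI : IsIv (Oc n 1) (sp2 τ 1))
    (i : Option (Fin 2)) :
    IsIv (Oc n 2) (nb 2 1 τ i) ∧ nb 2 1 τ i * ot (Oc n 1) = sp2 τ 1 := by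
  have ok : Ok n 1 := h.ok one_ne_zero
  have hm := nb_mid (s := 1) Nat.prime_two hτ.ne' i
  have := isIv_of_not_st ok Nat.prime_two hI hm.1 hm.2
    (not_st_inert ok Nat.prime_two (inert_two h.m8) (by norm_num) hI hm.1 hm.2)
  rwa [Nat.one_mul] at this

theorem nb_fib {n m : ℕ} (hm : m = 1 * 2) (ok : Ok n 1) {τ : ℂ} (hτ : 0 < τ.im)
    (hI : IsIv (Oc n 1) (sp2 τ 1)) {x : Pc n m} (hx : pj n 1 m x = cl _ (sp2 τ 1)) :
    ∃ i, cl (Oc n m) (nb 2 1 τ i) = x := by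
  subst hm
  obtain ⟨i, e⟩ := nb_cl_surj (s := 1) (a := 1) (x := x) ok Nat.prime_two (by norm_num) hτ.ne'
    one_ne_zero (by rwa [sc_one]) (by rwa [sc_one])
  rw [sc_one] at e
  exact ⟨i, e.symm⟩

theorem nb_z3 (a b c : Z3) (ha : a ≠ 1) : ∃ k : Fin 3, b * a ^ (k : ℕ) = c := by
  revert a b c
  decide

theorem nb_stmt : NBStmt := by
  intro n h
  have ok : Ok n 1 := h.ok one_ne_zero
  refine ⟨fun c x hc => nb_point (h.ok hc) x, nb_x0 h, fun τ B hB => ?_⟩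
  obtain ⟨hτ, hI, rfl⟩ := hB
  have hv := nb_iv h hτ hI
  have hs : ¬ ((2 : ℕ) : ℤ) ∣ 1 := by norm_num
  have hf : ∀ x : Pc n 2, pj n 1 2 x = cl _ (sp2 τ 1) ↔ ∃ i, cl (Oc n 2) (nb 2 1 τ i) = x := by
    refine fun x => ⟨nb_fib (by norm_num) ok hτ hI, ?_⟩
    rintro ⟨i, rfl⟩
    rw [pj_cl (one_dvd 2) (hv i).1, (hv i).2]
  refine ⟨fun i => cl _ (nb 2 1 τ i), fun i => ⟨?_, (hv i).1, rfl⟩, fun i j e => ?_, hf,
    fun ψ hψ => ?_⟩
  · obtain ⟨a, ha, e⟩ := nb_hk τ i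
    exact nb_rp (nb_hk_pos hτ i) ha (hv i).1 e
  · obtain ⟨t, -, e⟩ := (cl_eq_iff (hv i).1 (hv j).1).1 e
    have e2 := (hv j).2
    rw [e, sc_mul, (hv i).2] at e2
    refine (cmd_nb_eq Nat.prime_two hs hτ.ne' (e.le.trans fun z hz => ?_)).symm
    obtain ⟨y, hy, rfl⟩ := mem_sc.1 hz
    rcases hI.unit ok e2 with rfl | rfl
    · rwa [one_mul]
    · rw [neg_one_mul]
      exact neg_mem hy
  · obtain ⟨x, hx, hx'⟩ := hψ
    refine (Fintype.bijective_iff_surjective_and_card _).2 ⟨fun c => ?_, by decide⟩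
    obtain ⟨k, e⟩ := nb_z3 (ψ x) (ψ (cl _ (nb 2 1 τ none))) c hx'
    obtain ⟨i, hi⟩ := (hf (cl _ (nb 2 1 τ none) * x ^ (k : ℕ))).1 (by
      rw [map_mul, map_pow, hx, one_pow, mul_one]
      exact (hf _).2 ⟨none, rfl⟩)
    exact ⟨i, by rw [← e, ← map_pow, ← map_mul, ← hi]⟩

end Pool.Agent.B8
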