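import Pool.Agent.Lib.MP_696deb_nt.B8.LKa

/-! The expansion of the square of the series, and the value at the fixed point. -/

set_option autoImplicit false

open Complex PowerSeries
open scoped Classical Real

namespace Pool.Agent.B8
open Pool.Agent.Lib.MP_696deb_nt Pool.Agent.Lib.MP_696deb_nt.B2.CM Pool.Agent.Dih

variable {n : ℕ} {τ z : ℂ} {Q : Fm} {g : ℕ → ℤ}

theorem lk_odd (h0 : ∀ k, Even k → g k = 0) {j : ℕ} (hj : Odd j) :
    coeff j (PowerSeries.mk g ^ 2) = 0 := by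
  rw [sq, coeff_mul]
  refine Finset.sum_eq_zero fun p hp => ?_
  rw [coeff_mk, coeff_mk]
  have e := Finset.HasAntidiagonal.mem_antidiagonal.1 hp
  rcases Nat.even_or_odd p.1 with h | h
  · rw [h0 _ h, zero_mul]
  · rw [h0 p.2 (by
      rcases hj with ⟨a, ha⟩
      rcases h with ⟨b, hb⟩
      exact ⟨a - b, by omega⟩), mul_zero]

/-- The expansion of the square. -/
theorem lk_qe (h0 : ∀ k, Even k → g k = 0)
    (hs : ∀ z : ℂ, 0 < z.im → Summable fun k : ℕ => (g k : ℂ) * q1 (k * z / 2)) :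
    ∃ A : PowerSeries ℤ, QE (fun z => Th g z ^ 2) (toC A) ∧ ∀ k, Even (A.coeff k - g k) := by
  have h1 : QE (fun z => Th g (2 * z)) (toC (PowerSeries.mk g)) := QE.of_hasSum fun z hz => by
    have := (hs (2 * z) (by simpa using hz)).hasSum
    refine (funext fun k => ?_ : _ = fun k : ℕ => coeff k (toC (PowerSeries.mk g)) * q1 z ^ k) ▸ this
    rw [coeff_map, coeff_mk, eq_intCast, ← q1_nat_mul]
    congr 2
    ring
  have h2 := h1.pow 2
  rw [← map_pow] at h2
  refine ⟨PowerSeries.mk fun k => coeff (2 * k) (PowerSeries.mk g ^ 2),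
    QE.of_hasSum fun z hz => ?_, fun k => ?_⟩
  · have h3 := h2.hasSum (z := z / 2) (by simpa using hz)
    rw [show 2 * (z / 2) = z by ring] at h3
    have h4 := ((mul_right_injective₀ (two_ne_zero' ℕ)).hasSum_iff fun j hj => ?_).2 h3
    · refine (funext fun k => ?_ : _ = fun k : ℕ => coeff k (toC (PowerSeries.mk fun k =>
        coeff (2 * k) (PowerSeries.mk g ^ 2))) * q1 z ^ k) ▸ h4
      simp only [Function.comp, coeff_map, coeff_mk]
      rw [← q1_nat_mul, ← q1_nat_mul]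
      congr 2
      push_cast
      ring
    · rw [coeff_map, lk_odd h0 (Nat.not_even_iff_odd.1 fun ⟨a, ha⟩ => hj ⟨a, by
        beta_reduce; omega⟩), map_zero, zero_mul]
  · obtain ⟨B, hB⟩ := exists_expand_sub_pow Nat.prime_two (PowerSeries.mk g)
    have h3 := congrArg (coeff (2 * k)) hB
    rw [map_sub, coeff_expand_mul, coeff_mk, ← map_natCast C, coeff_C_mul] at h3
    rw [coeff_mk]
    exact ⟨-coeff (2 * k) B, by push_cast at h3; linear_combination -h3⟩

theorem lk_x0 (hn : Nk n) : 0 < (x0 n).im := by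
  have : (0 : ℝ) < n := by
    have := hn.gt
    exact_mod_cast (by omega : 0 < n)
  rw [x0, div_ofReal_im, I_im]
  positivity

/-- The series of a class at the fixed point. -/
theorem lk_pz {x : Pc n 2} (hn : Nk n) (h : Rp n 2 τ x) : TC n 2 x (x0 n) = Pz τ := by
  have ok : Ok n 2 := hn.ok two_ne_zero
  obtain ⟨Q, hQ⟩ := lk_form ok hn.sqf h
  have n0 : (0 : ℝ) < √n := Real.sqrt_pos.2 (by
    have := hn.gt
    exact_mod_cast (by omega : 0 < n))
  rw [hQ.tc ok (lk_x0 hn), Pz, ofReal_tsum]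
  refine tsum_congr fun v => ?_
  have h1 : -π * normSq (v.1 * τ + v.2) / τ.im = -π * fval Q v.1 v.2 / √n := by
    rw [div_eq_div_iff h.pos.ne' n0.ne']
    have := hQ.val v.1 v.2
    push_cast at this
    linear_combination π * this
  have n1 : ((√n : ℝ) : ℂ) ≠ 0 := ofReal_ne_zero.2 n0.ne'
  rw [h1, ofReal_exp, q1, x0]
  congr 1
  push_cast
  field_simp
  rw [I_sq]
  ring

theorem lk_val [Fintype (Pc n 2)] {ψ : Pc n 2 →* Z3} (nb : NBStmt) (hn : Nk n)
    (hg : ∀ k, gS ψ k = 2 * g k) {t : Pc n 2 → ℂ} (ht : ∀ x, Rp n 2 (t x) x) :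
    2 * Th g (x0 n) = ((∑ x, bw (ψ x) * Pz (t x) : ℝ) : ℂ) := by
  rw [lk_th nb hn hg (lk_x0 hn)]
  push_cast
  exact Finset.sum_congr rfl fun x _ => by rw [lk_pz hn (ht x)]

end Pool.Agent.B8
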