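import Pool.Agent.Lib.MP_696deb_nt.B8.ZE

/-! Taylor series in the coordinate: glue. -/

set_option autoImplicit false

open Filter Topology PowerSeries
open scoped NNReal

namespace Pool.Agent.B8
open Pool.Agent.Lib.MP_696deb_nt Pool.Agent.B4.GE Pool.Agent.B6
open Pool.Agent.B6.D9 (tt dd Dv Ty IM Gf)

theorem tyg_hol : Hol tt := fun z hz => by
  have p : 0 < (9 * z).im := by simpa using hz
  exact (((hol_eta z hz).div ((hol_eta _ p).comp z (by fun_prop)) (eta_ne p)).pow 3).const_add 3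

theorem tyg_dd (F : ℂ → ℂ) : dd F = Dv 1 F := funext fun z => (D9.dv_one F z).symm

theorem tyg_dv (n : ℕ) (F : ℂ → ℂ) (z : ℂ) : Dv 1 (Dv n F) z = Dv (n + 1) F z * (n + 1) := by
  have h1 : (n.factorial : ℂ) ≠ 0 := Nat.cast_ne_zero.2 n.factorial_ne_zero
  have h2 : (n + 1 : ℂ) ≠ 0 := Nat.cast_add_one_ne_zero n
  rw [D9.dv_one, show Dv n F = fun u => dd^[n] F u / n.factorial from rfl, deriv_div_const, Dv,
    Function.iterate_succ_apply', dd, Nat.factorial_succ, Nat.cast_mul, Nat.cast_succ,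
    div_right_comm, ← div_div, div_right_comm _ (n + 1 : ℂ), div_mul_cancel₀ _ h2]

theorem tya_stmt (der : D9.DerStmt) (tay : D9.TayStmt) : TYaStmt := fun z hz => by
  obtain ⟨h1, h2, h3, h4⟩ := tay z hz
  let S : Subalgebra ℂ (ℂ → ℂ) :=
    { carrier := {g | AnalyticAt ℂ g z}
      mul_mem' := AnalyticAt.mul
      add_mem' := AnalyticAt.add
      algebraMap_mem' := fun _ => analyticAt_const }
  exact ⟨D9.deriv_tt_ne der hz, B4.gb_an tyg_hol hz, h1, h3, fun n g hg => (h4 g hg).1 n, S,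
    { toFun := fun g => Ty z g
      map_one' := (h2 1).trans (map_one _)
      map_mul' := fun g h => ((h4 g g.2).2 h h.2).2
      map_zero' := (h2 0).trans (map_zero _)
      map_add' := fun g h => ((h4 g g.2).2 h h.2).1
      commutes' := fun c => h2 c }, fun _ => Iff.rfl, fun _ => rfl⟩

theorem tyb_stmt (tim : D9.TimStmt) (dim : D9.DimStmt) : TYbStmt := by
  refine ⟨(tim ⊤ 9 dvd_rfl (D9.val_top (by norm_num))).1.mf,
    fun M N F hM hN h => ((D9.im_top h).lev hN hM).mf, fun L F hL h9 h => ?_⟩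
  have k : ∀ n, MF L (Dv n F) := fun n =>
    (dim ⊤ L n F h9 (D9.val_top (Nat.cast_ne_zero.2 hL)) (D9.im_top h)).mf
  exact ⟨tyg_dd F ▸ k 1, k⟩

variable {V : Valuation ℂ ℝ≥0} {L : ℕ} {F : ℂ → ℂ}

theorem tyg_ar (hL : L ≠ 0) (h : IM V.valuationSubring L F) : Ar V L F :=
  ⟨h.mf, LE.of_comp hL (fun z hz => by
    have := h.1 (ut 1 1 1) ⟨by simp [det_ut], by simp [ut]⟩ z hz
    rwa [show act (ut 1 1 1) z = z + 1 by simp [ut, act_of, mob]] at this) (by
      have := h.2 1 Matrix.det_one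
      simp only [av_int, act_one] at this
      exact this)⟩

theorem tyg_im (ai : AIStmt) (hL : V L = 1) (h : Ar V L F) : IM V.valuationSubring L F :=
  ai _ L F ((av_eq_one V).2 hL) h.mf (by rw [av_int]; exact h.int)

theorem tyc_stmt (ai : AIStmt) (tim : D9.TimStmt) (dim : D9.DimStmt) : TYcStmt :=
  fun L V hL h9 => by
    have hA := (av_eq_one V).2 hL
    have h0 := D9.ne_of_val hA
    refine ⟨tyg_ar h0 (tim _ L h9 hA).1, fun F h => ?_⟩
    have k : ∀ n, Ar V L (Dv n F) := fun n => tyg_ar h0 (dim _ L n F h9 hA (tyg_im ai hL h))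
    exact ⟨tyg_dd F ▸ k 1, k⟩

theorem tr8_stmt (ai : AIStmt) (dim : D9.DimStmt) (tr : D9.TrStmt) : TRStmt :=
  fun L V z z' hL h9 hz hz' hj hj' ht hN F h n => by
    have hA := (av_eq_one V).2 hL
    have k := tr _ L z z' h9 hA hz hz' ((av_le_one V).2 hj) ((av_le_one V).2 hj')
      ((av_lt_one V).2 ht) (or_iff_not_imp_left.2 fun e x hx => by
        obtain ⟨m, hm⟩ := exists_pow_lt_of_lt_one
          (zero_lt_iff.2 (V.ne_zero_iff.2 (sub_ne_zero.2 e))) ((av_lt_one V).1 hx)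
        exact ⟨m, by rw [← map_pow, av_le, map_pow]; exact hm.le⟩)
      (fun m => (av_lt_one V).2 (hN m)) _ (dim _ L n F h9 hA (tyg_im ai hL h)) 2
    rw [← map_pow, av_le, map_pow, Finset.sum_range_succ, Finset.sum_range_one, D9.dv_zero,
      tyg_dv, pow_zero, mul_one, pow_one, ← sub_sub, mul_comm] at k
    rwa [map_sub (coeff (R := ℂ) n), map_sub (coeff (R := ℂ) n), coeff_C_mul, coeff_derivative, Ty,
      Ty, coeff_mk, coeff_mk, coeff_mk]

end Pool.Agent.B8
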