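import Pool.Agent.Lib.MP_696deb_nt.B8.ZE
import Pool.Agent.Lib.MP_696deb_nt.B5.GAa

/-! The parametrization is injective on the disc. -/

set_option autoImplicit false

open PowerSeries
open scoped Classical NNReal

namespace Pool.Agent.B8
open Pool.Agent.Lib.MP_696deb_nt Pool.Agent.Lib.MP_696deb_nt.B2 Pool.Agent.B6 Pool.Agent.B4
  Pool.Agent.B4.GE
open Pool.Agent.B6.D9 (tt dd Dv Ty IM Gf)
open Pool.Agent.B5 (GN)

theorem gn_mem {V : Valuation ℂ ℝ≥0} {F : ℂ → ℂ} (h : GN V F 1) : F ∈ LR V.integer := by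
  simpa using h.mem

theorem di_stmt (tim : D9.TimStmt) (dim : D9.DimStmt) (dcq : D9.DcqStmt) (tyb : TYbStmt)
    (uc : UCStmt) (tr : TRStmt) (zt : ZTStmt) (wea : WEaStmt) (hf : HFStmt) (xy : XYStmt)
    (web : WEbStmt) (eva : EVaStmt) (evb : EVbStmt) (evc : EVcStmt) : DIStmt := by
  intro _ D k w V g σ z y hk ko w2 ov hg hσ hz hy hj hu h0
  have V2 : V 2 < 1 := by
    have h2 := w.hV
    rw [w2] at h2
    rw [← map_ofNat jC 2, ov, show w.V 2 = 2⁻¹ by exact_mod_cast h2]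
    exact inv_lt_one_of_one_lt₀ one_lt_two
  have L0 : 9 * NN ≠ 0 := mul_ne_zero (by decide) NN_ne
  have Lo : Odd (9 * NN) := Odd.mul (by decide) NN_odd
  have L9 : 9 ∣ 9 * NN := dvd_mul_right _ _
  have VL : V (9 * NN : ℕ) = 1 := (av_eq_one V).1 (D9.val_odd ((av_lt_one V).2 V2) Lo)
  have lev : ∀ F, MF NN F → MF (9 * NN) F := fun F => tyb.2.1 _ _ F L0 (dvd_mul_left _ _)
  obtain ⟨z', pc⟩ := G5.exists_pc G5.jf_surj L0 σ hz
  obtain ⟨j', cg⟩ := evb _ w V g σ z z' y L0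
    (w2 ▸ fun e => Nat.not_even_iff_odd.2 Lo (even_iff_two_dvd.2 e)) ov hg hσ pc hy hj.le
  obtain ⟨h1, h2⟩ := hf _ _ D
  obtain ⟨h2, h3⟩ := h2 k V hk ko V2
  obtain ⟨Xf, Yf, Bf, c, cx, cy, cb⟩ := xy D.par V V2 h1 h2
  obtain ⟨ζ, hζ⟩ := zt D.par.L (Wu.baseChange ℂ)
  have m := fun n => wea _ n ζ _ L0 L9 D.par.qe.hol h1 hζ.an
  have i := web D.par V Xf Yf Bf ζ V2 c cx (gn_mem cy) cb hζ m
  have h0' : D.par.φ z' = 0 := by
    rw [G5.Pc.φ D.par (σ := σ) ⟨hz, pc.pos', fun h h' e =>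
      pc.ev h h' ⟨lev _ e.mf, lev _ e.mf', e.ex⟩⟩, h0, map_zero]
  have e1 := cg tt fun A a => tim A _ L9 a
  have t := tr _ V z z' VL L9 hz pc.pos' hj.le j' e1 fun n =>
    cg _ fun A a => (D9.gf_jN dvd_rfl L0).dv dim dcq L9 a n
  have ax : Ar V (9 * NN) Xf := ⟨lev _ c.x, cx⟩
  have ay : Ar V (9 * NN) Yf := ⟨lev _ c.y, gn_mem cy⟩
  have s : ∀ x : ℂ, 0 < x.im → V (jf x) ≤ 1 → Si V (PowerSeries.mk fun n => cN ζ D.par.F n x) :=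
    fun x hx jx n => by
      rw [coeff_mk]
      exact B5.qp L0 (m n) (i n) (B5.Aff.of_unit L0 VL hx jx)
  obtain ⟨a1, a2, a3⟩ := evc _ _ D.par Xf Yf Bf ζ z c hζ hz h0
  obtain ⟨b1, b2, -⟩ := evc _ _ D.par Xf Yf Bf ζ z' c hζ pc.pos' h0'
  obtain ⟨u1, -⟩ := uc _ V z VL L9 hz hj.le
  obtain ⟨u2, u3⟩ := uc _ V z' VL L9 pc.pos' j'
  have e := eva V _ _ _ _ _ _ _ e1 (s z hz hj.le) (u1 _ ax) (u1 _ ay) (s z' pc.pos' j') (u2 _ ay)
    (u3 _ ay.mf cy) a1 b1 (t _ ax) (t _ ay) (by rwa [coeff_mk]) (by rwa [coeff_mk])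
    (by rw [coeff_mk, a3]; exact h3 z hz hj.le hu)
  have f := t jf ⟨B5.mf_jf L0, lz_jf.mem _⟩ 0
  rw [e, map_zero, map_zero, zero_mul, sub_zero, zero_pow two_ne_zero, nonpos_iff_eq_zero,
    _root_.map_eq_zero, map_sub, Ty, Ty, coeff_mk, coeff_mk, D9.dv_zero, sub_eq_zero,
    (pc.rj L0).j, ← hy, hσ] at f
  exact jC.injective f

end Pool.Agent.B8
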