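import Pool.Agent.Lib.MP_696deb_nt.B8.ZE
import Pool.Agent.Lib.MP_696deb_nt.B4.GEf

/-! Inertia preserves the residue disc; the expansion of the parameter at the origin. -/

set_option autoImplicit false

open Filter Topology PowerSeries
open scoped Classical NNReal

namespace Pool.Agent.B8
open Pool.Agent.Lib.MP_696deb_nt Pool.Agent.Lib.MP_696deb_nt.B2 Pool.Agent.B6 Pool.Agent.B4
  Pool.Agent.B4.GE Pool.Agent.Shared.Weier
open Pool.Agent.B6.D9 (tt dd Dv Ty IM Gf)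
open Pool.Agent.Lib.MP_696deb_nt.B4 (gb_an gb_ev)

theorem evb_unit {B : ValuationSubring ℂ} (h : ∀ x, B.valuation (jC x) ≤ 1) {L : ℕ}
    (hL : L ≠ 0) : B.valuation L = 1 := by
  have h1 := h L
  have h2 := h (L : Qbar)⁻¹
  rw [map_natCast] at h1
  rw [map_inv₀, map_natCast, map_inv₀] at h2
  have h0 : B.valuation (L : ℂ) ≠ 0 := by
    rw [Ne, _root_.map_eq_zero]
    exact_mod_cast hL
  exact le_antisymm h1 ((inv_le_one₀ (zero_lt_iff.2 h0)).1 h2)

theorem evb_stmt : EVbStmt := by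
  intro L w V g σ z z' y hL hp hV hg hσ hc hy hj
  have hVL : V L = 1 := by
    have h1 := hV L
    rw [map_natCast] at h1
    rw [h1]
    have h2 := (w.V_int_eq_one (a := L)).2 (by exact_mod_cast hp)
    rwa [Int.cast_natCast] at h2
  refine ⟨?_, fun F hF => ?_⟩
  · rw [hc.ev _ _ ((D9.gf_jf (A := ⊤) hL).2 σ), ← hy, hσ, hV, mem_Dec.1 hg.1, ← hV, hy]
    exact hj
  · obtain ⟨x, hx⟩ : ∃ x, jC x = F z := gef_alg fun B hB =>
      (hF B (evb_unit hB hL)).1.val hL hc.pos (hy ▸ hB y)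
    have h1 := hF V.valuationSubring ((av_eq_one V).2 hVL)
    have h2 : V (F z) ≤ 1 := (av_le_one V).1 (h1.1.val hL hc.pos ((av_le_one V).2 hj))
    rw [hc.ev _ _ (h1.2 σ), ← hx, hσ, ← map_sub, hV]
    exact hg.2 x (by rwa [← hV, hx])

theorem evc_ne {B : ℂ → ℂ} (h : Hol B) (hne : ∃ z : ℂ, 0 < z.im ∧ B z ≠ 0) {z : ℂ}
    (hz : 0 < z.im) : ∀ᶠ t in 𝓝[≠] z, B t ≠ 0 := by
  refine ((gb_an h hz).eventually_eq_zero_or_eventually_ne_zero).resolve_left fun k => ?_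
  obtain ⟨u, hu, h0⟩ := hne
  exact h0 (AnalyticOnNhd.eqOn_zero_of_preconnected_of_eventuallyEq_zero
    (U := {z : ℂ | 0 < z.im}) (fun _ => gb_an h) (convex_halfSpace_im_gt 0).isPreconnected hz k hu)

theorem evc_ux (L : PeriodPair) (W : WeierstrassCurve ℂ) (a : ℂ) {l : ℂ} (hl : l ∈ L.lattice) :
    ux L W (a - l) = ux L W a ∧ uy L W (a - l) = uy L W a := by
  have h1 := L.weierstrassP_add_coe (a - l) ⟨l, hl⟩
  have h2 := L.derivWeierstrassP_add_coe (a - l) ⟨l, hl⟩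
  simp only [sub_add_cancel] at h1 h2
  simp only [uy, ux, h1, h2, and_self]

theorem evc_stmt (a : TYaStmt) : EVcStmt := by
  intro W N P Xf Yf Bf ζ z hxy hζ hz h0
  have hl : P.F z ∈ P.L.lattice := P.per.unif_eq_zero_iff.1 h0
  have hF : AnalyticAt ℂ P.F z := gb_an P.qe.hol hz
  have hG : AnalyticAt ℂ (fun t => P.F t - P.F z) z := hF.sub analyticAt_const
  have hu : AnalyticAt ℂ (fun t => ζ (P.F t - P.F z)) z :=
    AnalyticAt.comp (g := ζ) (f := fun t => P.F t - P.F z) (by simpa using hζ.an) hG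
  have hX := D9.mf_an P.N0 hxy.x hz
  have hY := D9.mf_an P.N0 hxy.y hz
  have hB := evc_ne (D9.mf_hol P.N0 hxy.b) hxy.ne hz
  have hp : ∀ᶠ t in 𝓝[≠] z, 0 < t.im := mem_nhdsWithin_of_mem_nhds (gb_ev hz)
  have ht : Tendsto (fun t => P.F t - P.F z) (𝓝[≠] z) (𝓝[≠] 0) := by
    refine tendsto_nhdsWithin_iff.2 ⟨?_, ?_⟩
    · have h1 := hG.continuousAt.tendsto
      simp only [sub_self] at h1
      exact h1.mono_left nhdsWithin_le_nhds
    · filter_upwards [hB, hp] with t h1 h2 h3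
      have h4 : P.F t = P.F z := sub_eq_zero.1 h3
      exact (hxy.eq t h2 h1).1 (h4 ▸ hl)
  have he : (fun t => ζ (P.F t - P.F z) * Yf t) =ᶠ[𝓝 z] fun t => -Xf t := by
    refine ((hu.mul hY).continuousAt.eventuallyEq_nhds_iff_eventuallyEq_nhdsNE
      hX.neg.continuousAt).1 ?_
    filter_upwards [hB, hp, ht.eventually hζ.eq] with t h1 h2 h3
    obtain ⟨-, h4, h5⟩ := hxy.eq t h2 h1
    obtain ⟨h6, h7⟩ := evc_ux P.L (W.baseChange ℂ) (P.F t) hl
    rw [h6, h7] at h3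
    show ζ (P.F t - P.F z) * Yf t = -Xf t
    rw [h4, h5]
    linear_combination Bf t * h3
  obtain ⟨-, -, -, hcg, -, S, T, hS, hT⟩ := a z hz
  refine ⟨?_, ?_, ?_⟩
  · have h1 := map_mul T ⟨_, (hS _).2 hu⟩ ⟨_, (hS _).2 hY⟩
    have h2 := map_neg T ⟨_, (hS _).2 hX⟩
    rw [hT, hT, hT] at h1
    rw [hT, hT] at h2
    exact h1.symm.trans ((hcg _ _ he).trans h2)
  · rw [cN, D9.dv_zero, sub_self, hζ.zero]
  · have h1 : HasDerivAt ζ 1 (P.F z - P.F z) := by
      rw [sub_self, ← hζ.one]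
      exact hζ.an.differentiableAt.hasDerivAt
    have h2 := HasDerivAt.comp z (h₂ := ζ) (h := fun t => P.F t - P.F z) h1
      (hF.differentiableAt.hasDerivAt.sub_const (P.F z))
    have h3 : deriv (fun t => ζ (P.F t - P.F z)) z = deriv P.F z := by
      rw [← one_mul (deriv P.F z)]
      exact h2.deriv
    rw [cN, D9.dv_one, h3]
    rfl

end Pool.Agent.B8
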