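import Pool.Agent.Lib.MP_696deb_nt.B8.ZE
import Pool.Agent.Lib.MP_696deb_nt.B7.D9Dim
import Pool.Agent.Lib.MP_696deb_nt.B7.D9Du

/-! The derivative of the integral of the form with respect to the coordinate. -/

set_option autoImplicit false

open Filter Topology PowerSeries
open scoped Classical NNReal Real

namespace Pool.Agent.B8
open Pool.Agent.Lib.MP_696deb_nt Pool.Agent.B6 Pool.Agent.B4 Pool.Agent.B4.GE Pool.Agent.B5
open Pool.Agent.B6.D9

theorem hf_stmt (i : D9.InvStmt) (t : D9.TexStmt) (d : D9.DerStmt) (u : D9.DuStmt) : HFStmt := by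
  intro W N D
  obtain ⟨R, hR⟩ := t
  have tH : Hol tt := hol_of_pow_mul hR
  have fH : Hol D.par.F := D.par.qe.hol
  have p := Complex.two_pi_I_ne_zero
  have L0 : 9 * N ≠ 0 := mul_ne_zero (by decide) D.N0
  have e : ∀ z : ℂ, 0 < z.im → dd D.par.F z =
      D.k * B4.cf D.f z * (deriv tt z / (2 * π * Complex.I))⁻¹ := fun z hz => by
    have : HasDerivAt D.par.F _ z := (D.F_eq ▸ B4.gl_deriv D.qe D.S0 hz).const_mul (D.k : ℂ)
    rw [dd, this.deriv]
    field_simp
  refine ⟨⟨fun g hg z hz => ?_, fun g hg => ?_⟩, fun k V hk ho h2 => ?_⟩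
  · have q := act_pos (hg.1 ▸ one_pos) hz
    have g1 : ∀ {M : ℕ}, M ∣ 9 * N → G0 M g := fun h =>
      ⟨hg.1, (Int.natCast_dvd_natCast.2 h).trans hg.2⟩
    have hc := hasDerivAt_mob (a := g 0 0) (b := g 0 1) (c := g 1 0) (d := g 1 1)
      (by rw [← Matrix.det_fin_two, hg.1]; decide) hz
    rw [← Matrix.det_fin_two, hg.1] at hc
    rw [e _ q, e _ hz, B4.cf_act _ hg.1 (g1 (dvd_mul_left _ _)).2 hz,
      Dim.chain tH hz q hc fun w hw => (i g (g1 (dvd_mul_right _ _)) w hw).symm, den]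
    field_simp
    simp
  · obtain ⟨B, hB⟩ := D.par.cusp g hg
    obtain ⟨e, he⟩ := u ⊤ (9 * N) (dvd_mul_right _ _) (val_top (by exact_mod_cast L0)) g hg
    have k : ∀ z : ℂ, 0 < z.im → 0 < (act g ((9 * N : ℕ) * z)).im ∧
        ∃ c ≠ 0, HasDerivAt (fun u => act g ((9 * N : ℕ) * u)) c z := fun z hz => by
      obtain ⟨c, c0, hc⟩ := Dim.der_act hg (ga_pos L0 hz)
      exact ⟨act_pos (hg ▸ one_pos) (ga_pos L0 hz), _, mul_ne_zero c0 (by simpa using L0),
        hc.comp z ((hasDerivAt_id z).const_mul ((9 * N : ℕ) : ℂ))⟩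
    have h1 : (fun z => D.par.F (act g ((9 * N : ℕ) * z))) ∈ LR ⊤ :=
      ⟨0, _, (hB.expand 9 (by decide)).congr fun z _ => by
        rw [pow_zero, one_mul, Nat.cast_mul, mul_comm (_ : ℂ) (N : ℂ), ← mul_assoc],
        fun _ => trivial⟩
    refine (le_top_mul (Du.theta_mem h1) (LE.mono (Dim.inv_mem he fun z hz => ?_) le_top)).congr
      fun z hz => ?_ <;> obtain ⟨q, c, c0, hc⟩ := k z hz <;>
      rw [Dim.chain tH hz q hc fun _ _ => rfl]
    · exact div_ne_zero (mul_ne_zero (deriv_tt_ne d q) c0) p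
    · rw [Dim.chain fH hz q hc fun _ _ => rfl, dd]
      field_simp
  have v : ∀ n : ℤ, Odd n → V n = 1 := fun n hn => val_int_eq_one Nat.prime_two (by simpa using h2)
    (by have := Int.odd_iff.1 hn; omega)
  have vk : V D.k = 1 := by simpa [hk] using v k ho
  have t0 : ∀ z : ℂ, 0 < z.im → deriv tt z / (2 * π * Complex.I) ≠ 0 := fun z hz =>
    div_ne_zero (deriv_tt_ne d hz) p
  constructor
  · have m1 := Du.theta_mem (LZ.mem ⟨1, _, hR⟩ V.integer)
    have m2 : (fun z => (deriv tt z / (2 * π * Complex.I))⁻¹) ∈ LR V.integer :=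
      LE.congr (mul_mem (mul_mem (pow_mem m1 11)
        (pow_mem (lz_Dl.expand_mem V (a := 9) (by decide)) 3))
        (pow_mem (lz_Dl_inv.expand_mem V (a := 3) (by decide)) 5)) fun z hz => by
        have := t0 z hz
        have := Dl_ne (ga_pos (N := 3) (by decide) hz)
        have := d z hz
        simp only [Pi.mul_apply, Pi.pow_apply, Nat.cast_ofNat] at *
        generalize deriv tt z / (2 * π * Complex.I) = x at *
        generalize Dl (3 * z) = y at *
        field_simp
        linear_combination -this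
    have g1 : GN V (B4.cf D.f) 1 := ⟨one_ne_zero, ⟨0, _, D.qe.congr fun z _ => by simp, fun n => by
      simp [MD.S]⟩, fun h => by
        simpa [MD.S, D.hc] using le_cf (n := 0) h (D.qe.congr fun z _ => by simp) 1⟩
    have g2 : GN V (fun z => (deriv tt z / (2 * π * Complex.I))⁻¹) 1 :=
      ⟨one_ne_zero, by simpa only [inv_one, one_mul] using m2, fun h =>
        (Ideal.ne_top_iff_one _).1 (li_prime (V := V)).ne_top
          ((h.mul m1 fun s hs t ht => mul_comm t s ▸ ged_lt _ ht _ hs).congr fun z hz => by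
            simp [-inv_div, inv_mul_cancel₀ (t0 z hz)])⟩
    exact ((((gn_const (by exact_mod_cast D.hk)).mul g1).mul g2).congr e).of_val (by simp [vk])
  intro z hz hj hf
  have a3 := (val_Dl_div (d := 3) (by decide) hz hj).2.2 (v 3 (by decide))
  have a9 := (val_Dl_div (d := 9) (by decide) hz hj).2.2 (v 9 (by decide))
  have a := congrArg V (d z hz)
  have n := (V.ne_zero_iff).2 (t0 z hz)
  have n0 := (V.ne_zero_iff).2 (Dl_ne hz)
  simp only [map_div₀, map_pow, Nat.cast_ofNat] at hf a3 a9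
  rw [map_mul, map_pow, map_pow, map_pow, ← eq_of_div_eq_one a3, ← eq_of_div_eq_one a9,
    ← eq_of_div_eq_one hf] at a
  rw [← eq_of_div_eq_one hf] at n0
  rw [e z hz, map_mul, map_mul, vk, one_mul, map_inv₀, mul_inv_eq_one₀ n]
  refine (pow_left_inj₀ zero_le zero_le (n := 12) (by decide)).1
    (mul_right_cancel₀ (pow_ne_zero 3 n0) ?_)
  rw [a]
  ring

end Pool.Agent.B8
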