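import Pool.Agent.Lib.MP_696deb_nt.B8.ZE

/-! Cancellation of series with a unit coefficient. -/

set_option autoImplicit false

open PowerSeries
open scoped NNReal

namespace Pool.Agent.B8

namespace RG

variable {V : Valuation ℂ ℝ≥0} {c d : ℝ≥0} {a b : ℂ⟦X⟧}

/-- Series with bounded coefficients. -/
def Bd (V : Valuation ℂ ℝ≥0) (c : ℝ≥0) (a : ℂ⟦X⟧) : Prop := ∀ n, V (coeff n a) ≤ c

theorem Bd.add (h : Bd V c a) (k : Bd V c b) : Bd V c (a + b) := fun n => by
  rw [map_add]
  exact V.map_add_le (h n) (k n)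

theorem Bd.sub (h : Bd V c a) (k : Bd V c b) : Bd V c (a - b) := fun n => by
  rw [map_sub]
  exact V.map_sub_le (h n) (k n)

theorem Bd.mul (h : Bd V c a) (k : Bd V d b) : Bd V (c * d) (a * b) := fun n => by
  rw [coeff_mul]
  exact V.map_sum_le fun p _ => by rw [map_mul]; exact mul_le_mul' (h _) (k _)

theorem Bd.smul (h : Bd V c a) (e : ℂ) : Bd V (V e * c) (C e * a) := fun n => by
  rw [coeff_C_mul, map_mul]
  exact mul_le_mul_right (h n) _

theorem Bd.der (h : Bd V c a) : Bd V c (d⁄dX ℂ a) := fun n => by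
  have k : ∀ m : ℕ, V m ≤ 1 := fun m => by
    induction m with
    | zero => simp
    | succ m ih => rw [Nat.cast_succ]; exact V.map_add_le ih V.map_one.le
  rw [coeff_derivative, map_mul, ← Nat.cast_succ]
  exact (mul_le_of_le_one_right' (k _)).trans (h _)

end RG

theorem rg_stmt : RGStmt := by
  classical
  intro V c a b ha hb hu h
  obtain ⟨ρ, h1, h2⟩ : ∃ ρ < 1, ∀ j < Nat.find hu, V (coeff j b) ≤ ρ :=
    ⟨(Finset.range (Nat.find hu)).sup fun j => V (coeff j b),
      (Finset.sup_lt_iff (zero_lt_one (α := ℝ≥0))).2 fun j hj =>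
        (hb j).lt_of_ne (Nat.find_min hu (Finset.mem_range.1 hj)),
      fun j hj => Finset.le_sup (f := fun j => V (coeff j b)) (Finset.mem_range.2 hj)⟩
  have h0 := Nat.find_spec hu
  generalize Nat.find hu = m at h0 h2
  have h3 : ∀ n, V (coeff n a) ≤ ⨆ n, V (coeff n a) :=
    le_ciSup (f := fun n => V (coeff n a)) ⟨1, by rintro _ ⟨n, rfl⟩; exact ha n⟩
  have h4 : ∀ n, V (coeff n a) ≤ max c ((⨆ n, V (coeff n a)) * ρ) := fun n => by
    induction n using Nat.strong_induction_on with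
    | _ n ih =>
      have e := coeff_mul (n + m) a b
      rw [← Finset.add_sum_erase _ _ (a := (n, m)) (by simp), ← sub_eq_iff_eq_add] at e
      rw [← mul_one (V _), ← h0, ← map_mul, ← e]
      refine V.map_sub_le ((h _).trans (le_max_left _ _)) (V.map_sum_le fun p hp => ?_)
      obtain ⟨p1, p2⟩ := Finset.mem_erase.1 hp
      replace p2 : p.1 + p.2 = n + m := by simpa using p2
      rw [map_mul]
      rcases lt_or_ge p.2 m with k | k
      · exact (mul_le_mul' (h3 _) (h2 _ k)).trans (le_max_right _ _)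
      · refine (mul_le_of_le_one_right' (hb _)).trans (ih _ (lt_of_le_of_ne (by omega) fun k' =>
          p1 (Prod.ext k' (by omega))))
  intro n
  refine (h3 n).trans ((le_max_iff.1 (ciSup_le h4)).elim id fun k => ?_)
  by_contra k'
  exact (mul_lt_of_lt_one_right (pos_of_gt (not_le.1 k')) h1).not_ge k

theorem eva_stmt (rg : RGStmt) : EVaStmt := by
  intro V ε u x y u' x' y' h hu _ hy hu' hy' hs e e' sx sy z z' h1
  have k1 : RG.Bd V 1 (u + C ε * d⁄dX ℂ u) := RG.Bd.add hu fun n =>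
    (((RG.Bd.der hu).smul ε) n).trans (by simpa using h.le)
  have k2 := congrArg (d⁄dX ℂ) e
  rw [Derivation.leibniz, map_neg, smul_eq_mul, smul_eq_mul] at k2
  have k3 : RG.Bd V (V ε ^ 2) ((u + C ε * d⁄dX ℂ u - u') * y') := by
    rw [show (u + C ε * d⁄dX ℂ u - u') * y' = (u + C ε * d⁄dX ℂ u) * (y' - y - C ε * d⁄dX ℂ y) +
      (x' - x - C ε * d⁄dX ℂ x) + C ε * d⁄dX ℂ u * (C ε * d⁄dX ℂ y) by
        linear_combination e - e' + C ε * k2]
    refine RG.Bd.add (RG.Bd.add ?_ sx) ?_
    · simpa only [one_mul] using k1.mul sy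
    · simpa only [mul_one, sq] using ((RG.Bd.der hu).smul ε).mul ((RG.Bd.der hy).smul ε)
  have k4 := rg V _ _ _ (k1.sub hu') hy' hs k3 0
  rw [map_sub, map_add, z, z', coeff_C_mul, coeff_derivative] at k4
  simp only [zero_add, sub_zero, Nat.cast_zero, mul_one, map_mul, h1, sq] at k4
  by_contra k
  exact (mul_lt_of_lt_one_right (zero_lt_iff.2 ((map_ne_zero V).2 k)) h).not_ge k4

end Pool.Agent.B8
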