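import Pool.Agent.Lib.MP_696deb_nt.B8.ZE

/-! The Taylor series at integral points. -/

set_option autoImplicit false

open Filter Topology PowerSeries
open scoped Classical NNReal Polynomial

namespace Pool.Agent.B8
open Pool.Agent.Lib.MP_696deb_nt Pool.Agent.B6 Pool.Agent.B4 Pool.Agent.B4.GE Pool.Agent.B5
open Pool.Agent.B6.D9 (tt dd Dv Ty)

namespace UC

variable {V : Valuation ℂ ℝ≥0} {a b J : ℂ⟦X⟧} {L : ℕ} {F G : ℂ → ℂ} {z : ℂ}

theorem si_iff : Si V a ↔ a ∈ (PowerSeries.map V.valuationSubring.subtype).range :=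
  ⟨fun h => ⟨PowerSeries.mk fun n => ⟨_, h n⟩, by ext; simp⟩, by
    rintro ⟨a, rfl⟩ n
    exact (coeff n a).2⟩

theorem su_map (a : V.valuationSubring⟦X⟧) : Su V (PowerSeries.map V.valuationSubring.subtype a) ↔
    PowerSeries.map (IsLocalRing.residue _) a ≠ 0 := by
  simp only [Su, Ne, PowerSeries.ext_iff, not_forall, coeff_map, map_zero,
    IsLocalRing.residue_eq_zero_iff, ValuationSubring.valuation_lt_one_iff, av_lt_one, not_lt]
  exact exists_congr fun n => ⟨fun h => h.ge, le_antisymm (coeff n a).2⟩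

theorem su_mul (ha : Si V a) (hb : Si V b) : Su V (a * b) ↔ Su V a ∧ Su V b := by
  obtain ⟨a, rfl⟩ := si_iff.1 ha
  obtain ⟨b, rfl⟩ := si_iff.1 hb
  rw [← map_mul, su_map, su_map, su_map, map_mul, mul_ne_zero_iff]

theorem si_aeval (ha : Si V a) {P : ℂ[X]} (hP : ∀ k, V (P.coeff k) ≤ 1) :
    Si V (Polynomial.aeval a P) := by
  rw [Polynomial.aeval_eq_sum_range, si_iff]
  refine sum_mem fun k _ => ?_
  rw [Algebra.smul_def]
  exact mul_mem ⟨C ⟨_, hP k⟩, by simp⟩ (pow_mem (si_iff.1 ha) k)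

theorem coeff_aeval (t : ℂ) (P : ℂ[X]) (n : ℕ) :
    coeff n (Polynomial.aeval (C t + X : ℂ⟦X⟧) P) = (Polynomial.taylor t P).coeff n := by
  have := Polynomial.aeval_algHom_apply (Polynomial.coeToPowerSeries.algHom ℂ)
    (Polynomial.X + Polynomial.C t) P
  rw [← Polynomial.coeff_coe, Polynomial.taylor_apply, Polynomial.comp_eq_aeval, add_comm]
  simpa using congrArg (coeff n) this

theorem exists_gd (hJ : Si V J) (h : ∀ r, V r ≤ 1 → Su V (J + C r)) {R : ℂ[X]} (h0 : R ≠ 0) :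
    ∃ c : ℂ, GN V (fun u => c * R.eval (jf u)) 1 ∧ Si V (C c * Polynomial.aeval J R) ∧
      Su V (C c * Polynomial.aeval J R) := by
  have k : ∀ (c : ℂ) (R : ℂ[X]) (n : ℕ), (∀ i, V ((Polynomial.C c * R).coeff i) ≤ 1) →
      (Polynomial.C c * R).coeff n = 1 → GN V (fun u => c * R.eval (jf u)) 1 ∧
        Si V (C c * Polynomial.aeval J R) := fun c R n h1 h2 =>
    ⟨by simpa using gn_eval h1 (k := n) (by rw [h2, map_one]), by simpa using si_aeval hJ h1⟩
  induction IsAlgClosed.splits R using Submonoid.closure_induction with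
  | mem x hx =>
    rcases hx with ⟨r, rfl⟩ | ⟨r, rfl⟩
    · have r0 : r ≠ 0 := by simpa using h0
      have e : Polynomial.C r⁻¹ * Polynomial.C r = 1 := by
        rw [← map_mul, inv_mul_cancel₀ r0, map_one]
      obtain ⟨h1, h2⟩ := k r⁻¹ _ 0 (fun i => by
        rw [e, Polynomial.coeff_one]; split_ifs <;> simp) (by rw [e, Polynomial.coeff_one_zero])
      exact ⟨_, h1, h2, 0, by simp [r0]⟩
    by_cases hr : V r ≤ 1
    · obtain ⟨h1, h2⟩ := k 1 (Polynomial.X + Polynomial.C r) 1 (fun i => by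
        rcases i with _ | _ | i <;> simp [hr, Polynomial.coeff_X]) (by simp)
      exact ⟨_, h1, h2, by simpa using h r hr⟩
    · have r0 : r ≠ 0 := fun e => hr (by simp [e])
      have r1 : V r⁻¹ < 1 := by rw [map_inv₀]; exact inv_lt_one_of_one_lt₀ (not_le.1 hr)
      obtain ⟨h1, h2⟩ := k r⁻¹ (Polynomial.X + Polynomial.C r) 0 (fun i => by
        rcases i with _ | _ | i
        · simp [r0]
        · simpa using r1.le
        · simp [Polynomial.coeff_X]) (by simp [r0])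
      refine ⟨_, h1, h2, 0, ?_⟩
      rw [coeff_C_mul, map_add, map_add, Polynomial.aeval_X, Polynomial.aeval_C, mul_add,
        show coeff 0 (algebraMap ℂ ℂ⟦X⟧ r) = r by simp, inv_mul_cancel₀ r0, add_comm]
      refine V.map_one_add_of_lt ?_
      rw [map_mul]
      exact mul_lt_one_of_nonneg_of_lt_one_left zero_le r1 (hJ 0)
  | one =>
    obtain ⟨h1, h2⟩ := k 1 1 0 (fun i => by
      rw [map_one, one_mul, Polynomial.coeff_one]; split_ifs <;> simp) (by simp)
    exact ⟨_, h1, h2, 0, by simp⟩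
  | mul x y _ _ hx hy =>
    obtain ⟨c, h1, h2, h3⟩ := hx (left_ne_zero_of_mul h0)
    obtain ⟨d, k1, k2, k3⟩ := hy (right_ne_zero_of_mul h0)
    refine ⟨c * d, ?_, ?_⟩
    · simpa [mul_mul_mul_comm] using h1.mul k1
    · rw [map_mul, map_mul, mul_mul_mul_comm]
      exact ⟨si_iff.2 (mul_mem (si_iff.1 h2) (si_iff.1 k2)), (su_mul h2 k2).2 ⟨h3, k3⟩⟩

theorem gn_ne {c : ℂ} (h : GN V F c) : ∃ u : ℂ, 0 < u.im ∧ F u ≠ 0 := by
  by_contra! k
  exact h.top ((LE.const (zero_mem _)).congr fun u hu => by rw [k u hu, mul_zero])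

theorem exists_norm (hL : L ≠ 0) (hF : MF L F) (h : GN V F 1) : ∃ (G : ℂ → ℂ) (R : ℂ[X]),
    MF L G ∧ R ≠ 0 ∧ ∀ u : ℂ, 0 < u.im → F u * G u = R.eval (jf u) := by
  obtain ⟨A, h0, hA⟩ := monic_rel hL hF
  replace h0 := h0.ne_zero
  induction A using Polynomial.recOnHorner with
  | M0 => exact absurd rfl h0
  | MC p a hp ha _ =>
    obtain ⟨q, rfl⟩ := Polynomial.X_dvd_iff.2 hp
    refine ⟨_, -a, G5.mf_evalEval (mf_jf hL) hF q, neg_ne_zero.2 ha, fun u hu => ?_⟩
    have := hA u hu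
    simp only [Polynomial.evalEval_add, Polynomial.evalEval_mul, Polynomial.evalEval_X,
      Polynomial.evalEval_C] at this
    rw [Polynomial.eval_neg]
    linear_combination this
  | MX p hp ih =>
    refine ih (fun u hu => ?_) hp
    by_contra k
    obtain ⟨d, hd⟩ := exists_gn V hL (G5.mf_evalEval (mf_jf hL) hF p) hu k
    obtain ⟨w, w1, w2⟩ := gn_ne (hd.mul h)
    exact w2 (by simpa [Polynomial.evalEval_mul] using hA w w1)

theorem ty_hom (a : TYaStmt) (hz : 0 < z.im) (hF : AnalyticAt ℂ F z) :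
    (∀ P : ℂ[X], Ty z (fun u => P.eval (F u)) = Polynomial.aeval (Ty z F) P) ∧
      ∀ G, AnalyticAt ℂ G z → Ty z (fun u => F u * G u) = Ty z F * Ty z G := by
  obtain ⟨-, -, -, -, -, S, T, h1, h2⟩ := a z hz
  refine ⟨fun P => ?_, fun G hG => ?_⟩
  · have := Polynomial.aeval_algHom_apply T ⟨F, (h1 F).2 hF⟩ P
    rw [h2, h2, Polynomial.aeval_subalgebra_coe] at this
    rw [this]
    congr 1
    ext u
    simp [Polynomial.aeval_fn_apply]
  · have := map_mul T ⟨F, (h1 F).2 hF⟩ ⟨G, (h1 G).2 hG⟩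
    rwa [h2, h2, h2] at this

end UC

open UC in
/-- The Taylor series at integral points. -/
theorem uc_stmt (a : TYaStmt) (_ : TYbStmt) (c : TYcStmt) (j : D9.JStmt) : UCStmt := by
  intro L V z hL h9 hz hj
  have L0 : L ≠ 0 := by rintro rfl; simp at hL
  have h1 : ∀ F, Ar V L F → Si V (Ty z F) := fun F hF n => by
    have := ((c L V hL h9).2 F hF).2 n
    simpa [Ty] using qp L0 this.mf this.int (Aff.of_unit L0 hL hz hj)
  refine ⟨h1, fun F hF hg => ?_⟩
  obtain ⟨-, t1, t2, t3, -⟩ := a z hz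
  have ev : ∀ {g h : ℂ → ℂ}, (∀ u : ℂ, 0 < u.im → g u = h u) → Ty z g = Ty z h := fun e =>
    t3 _ _ (Filter.mem_of_superset
      ((isOpen_lt continuous_const Complex.continuous_im).mem_nhds hz) e)
  have aj := D9.mf_an L0 (mf_jf L0) hz
  have sj := h1 jf ⟨mf_jf L0, lz_jf.mem _⟩
  obtain ⟨P, Q, p1, -, -, q2, e1, e2⟩ := j V.valuationSubring
    (D9.val_three ((av_eq_one V).2 hL) h9)
  have sq := si_aeval (t2 ▸ h1 tt (c L V hL h9).1) fun k => (av_le_one V).1 (q2 k)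
  have e3 := ev e2
  rw [(ty_hom a hz (F := fun u => Q.eval (tt u)) (t1.aeval_polynomial Q)).2 _ aj, (ty_hom a hz t1).1, (ty_hom a hz t1).1,
    t2] at e3
  obtain ⟨G, R, g1, g2, g3⟩ := exists_norm L0 hF hg
  obtain ⟨d, d1, -, d3⟩ := exists_gd sj (fun r hr => ((su_mul sq (si_iff.2 (add_mem (si_iff.1 sj)
    ⟨C ⟨r, hr⟩, by simp⟩))).1 ⟨P.natDegree, by
      rw [mul_add, e3, map_add, coeff_mul_C, coeff_aeval, coeff_aeval,
        Polynomial.coeff_taylor_natDegree, p1.leadingCoeff,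
        Polynomial.coeff_eq_zero_of_natDegree_lt (by rw [Polynomial.natDegree_taylor]; omega)]
      simp⟩).2) g2
  have g4 := mf_mul (mf_const d) g1
  replace d1 := d1.congr (G := fun u => F u * (d * G u)) fun u hu => by rw [← g3 u hu]; ring
  obtain ⟨w, w1, w2⟩ := gn_ne d1
  obtain ⟨e, he⟩ := exists_gn V L0 g4 w1 (right_ne_zero_of_mul w2)
  have g5 := (he.of_val (d := 1) (by simpa using d1.unique (hg.mul he))).mem
  refine ((su_mul (h1 F ⟨hF, by simpa using hg.mem⟩) (h1 _ ⟨g4, by simpa using g5⟩)).1 ?_).1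
  rw [← (ty_hom a hz (D9.mf_an L0 hF hz)).2 _ (D9.mf_an L0 g4 hz),
    ev (h := fun u => (Polynomial.C d * R).eval (jf u)) fun u hu => by
      rw [Polynomial.eval_mul, Polynomial.eval_C, ← g3 u hu]; ring, (ty_hom a hz aj).1]
  simpa using d3

end Pool.Agent.B8
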