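import Pool.Agent.Lib.MP_696deb_nt.B8.ZE

/-! The Taylor coefficients of the parameter are modular functions. -/

set_option autoImplicit false

open Filter Topology
open scoped Classical

namespace Pool.Agent.B8
open Pool.Agent.Lib.MP_696deb_nt Pool.Agent.Lib.MP_696deb_nt.B2 Pool.Agent.B6 Pool.Agent.B4
  Pool.Agent.B4.GE
open Pool.Agent.B6.D9 (tt dd Dv)

namespace WEa

variable {g h : ℂ → ℂ} {z : ℂ}

theorem dd_congr (e : g =ᶠ[𝓝 z] h) : dd g =ᶠ[𝓝 z] dd h := by
  filter_upwards [e.deriv] with t ht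
  simp only [dd, ht]

theorem it_congr (n : ℕ) (e : g =ᶠ[𝓝 z] h) : dd^[n] g =ᶠ[𝓝 z] dd^[n] h := by
  induction n generalizing g h with
  | zero => exact e
  | succ n ih => simpa only [Function.iterate_succ_apply] using ih (dd_congr e)

theorem dd_an (h0 : deriv tt z ≠ 0) (ht : AnalyticAt ℂ tt z) (hg : AnalyticAt ℂ g z) :
    AnalyticAt ℂ (dd g) z := hg.deriv.fun_div ht.deriv h0

theorem dd_add (hg : AnalyticAt ℂ g z) (hh : AnalyticAt ℂ h z) :
    dd (fun t => g t + h t) =ᶠ[𝓝 z] fun t => dd g t + dd h t := by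
  filter_upwards [hg.eventually_analyticAt, hh.eventually_analyticAt] with t h1 h2
  simp only [dd]
  rw [deriv_fun_add h1.differentiableAt h2.differentiableAt, add_div]

theorem it_add (h0 : deriv tt z ≠ 0) (ht : AnalyticAt ℂ tt z) (n : ℕ) (hg : AnalyticAt ℂ g z)
    (hh : AnalyticAt ℂ h z) :
    dd^[n] (fun t => g t + h t) =ᶠ[𝓝 z] fun t => dd^[n] g t + dd^[n] h t := by
  induction n generalizing g h with
  | zero => exact EventuallyEq.rfl
  | succ n ih =>
    simp only [Function.iterate_succ_apply]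
    exact (it_congr n (dd_add hg hh)).trans (ih (dd_an h0 ht hg) (dd_an h0 ht hh))

/-- The composite is analytic at the base point. -/
theorem comp_an {ψ G : ℂ → ℂ} (hψ : AnalyticAt ℂ ψ 0) (hG : AnalyticAt ℂ G z) :
    AnalyticAt ℂ (fun t => ψ (G t - G z)) z :=
  AnalyticAt.fun_comp_of_eq hψ (hG.sub analyticAt_const) (sub_self _)

/-- The product and chain rules. -/
theorem dd_step {m ψ G : ℂ → ℂ} (hm : AnalyticAt ℂ m z) (hψ : AnalyticAt ℂ ψ 0)
    (hG : AnalyticAt ℂ G z) : dd (fun t => m t * ψ (G t - G z)) =ᶠ[𝓝 z]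
      fun t => dd m t * ψ (G t - G z) + m t * dd G t * deriv ψ (G t - G z) := by
  have h0 : Tendsto (fun t => G t - G z) (𝓝 z) (𝓝 0) := by
    simpa using hG.continuousAt.tendsto.sub_const (G z)
  filter_upwards [hm.eventually_analyticAt, hG.eventually_analyticAt,
    h0.eventually hψ.eventually_analyticAt] with t h1 h2 h3
  have h4 : HasDerivAt (fun t => ψ (G t - G z)) (deriv ψ (G t - G z) * deriv G t) t :=
    h3.differentiableAt.hasDerivAt.comp t (h2.differentiableAt.hasDerivAt.sub_const (G z))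
  have h5 := (h1.differentiableAt.hasDerivAt.fun_mul h4).deriv
  simp only [dd]
  rw [h5]
  ring

theorem main (a : TYaStmt) (b : TYbStmt) {L : ℕ} {G : ℂ → ℂ} (hL : L ≠ 0) (h9 : 9 ∣ L)
    (hG : Hol G) (hd : MF L (dd G)) (n : ℕ) : ∀ m ψ : ℂ → ℂ, MF L m → AnalyticAt ℂ ψ 0 →
    MF L fun τ => dd^[n] (fun t => m t * ψ (G t - G τ)) τ := by
  induction n with
  | zero =>
    intro m ψ hm _
    simpa using B5.mf_mul hm (B5.mf_const (ψ 0))
  | succ n ih =>
    intro m ψ hm hψ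
    have hm' := (b.2.2 L m hL h9 hm).1
    have hmG := B5.mf_mul hm hd
    refine B5.mf_congr hL (B5.mf_add (ih _ _ hm' hψ) (ih _ _ hmG hψ.deriv)) fun τ hτ => ?_
    have hG' := Pool.Agent.Lib.MP_696deb_nt.B4.gb_an hG hτ
    rw [Function.iterate_succ_apply]
    exact ((it_congr n (dd_step (D9.mf_an hL hm hτ) hψ hG')).trans
      (it_add (a τ hτ).1 (a τ hτ).2.1 n ((D9.mf_an hL hm' hτ).fun_mul (comp_an hψ hG'))
        ((D9.mf_an hL hmG hτ).fun_mul (comp_an hψ.deriv hG')))).eq_of_nhds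

end WEa

theorem wea_stmt (a : TYaStmt) (b : TYbStmt) : WEaStmt := by
  intro L n ζ G hL h9 hG hd hζ
  refine B5.mf_congr hL (B5.mf_mul (WEa.main a b hL h9 hG hd n (fun _ => 1) ζ (B5.mf_const 1) hζ)
    (B5.mf_const ((n.factorial : ℂ)⁻¹))) fun τ _ => ?_
  simp only [cN, Dv, one_mul, div_eq_mul_inv]

end Pool.Agent.B8
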