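import Pool.Agent.Lib.MP_696deb_nt.B8.ZE

/-! The Taylor coefficients of the parameter have integral expansions. -/

set_option autoImplicit false

open Filter Topology PowerSeries
open scoped Classical NNReal

namespace Pool.Agent.B8
open Pool.Agent.Lib.MP_696deb_nt Pool.Agent.Lib.MP_696deb_nt.B2 Pool.Agent.B6 Pool.Agent.B4
  Pool.Agent.B4.GE Pool.Agent.Shared.Weier
open Pool.Agent.B6.D9 (tt dd Dv Ty IM Gf)
open Pool.Agent.B5 (GN)

section alg
variable {R S : Type*} [CommRing R] [CommRing S] (a₁ a₂ a₃ : ℤ)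

/-- The difference of the first coordinates. -/
def wM (x b x' b' : R) : R := x' * b - x * b'

/-- The numerator of the slope. -/
def wN (x y b y' b' : R) : R := y' * b + y * b' + a₁ * x * b' + a₃ * b * b'

/-- The first coordinate of the difference. -/
def wX (x y b x' y' b' : R) : R :=
  (wN a₁ a₃ x y b y' b' ^ 2 + a₁ * wN a₁ a₃ x y b y' b' * wM x b x' b') * (b * b') -
    (a₂ * (b * b') + x * b' + x' * b) * wM x b x' b' ^ 2

/-- The second coordinate of the difference, with a sign and a factor. -/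
def wP (x y b x' y' b' : R) : R :=
  b * ((wN a₁ a₃ x y b y' b' + a₁ * wM x b x' b') * wX a₁ a₂ a₃ x y b x' y' b' -
    wN a₁ a₃ x y b y' b' * (x' * b) * wM x b x' b' ^ 2 +
    (y' * b + a₃ * (b * b')) * wM x b x' b' ^ 3)

/-- The right side. -/
def wQ (x y b x' y' b' : R) : R := b * (wM x b x' b' * wX a₁ a₂ a₃ x y b x' y' b')

theorem map_wP {F : Type*} [FunLike F R S] [RingHomClass F R S] (f : F) (x y b x' y' b' : R) :
    f (wP a₁ a₂ a₃ x y b x' y' b') = wP a₁ a₂ a₃ (f x) (f y) (f b) (f x') (f y') (f b') := by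
  simp only [wP, wX, wN, wM, map_mul, map_add, map_sub, map_pow, map_intCast]

theorem map_wQ {F : Type*} [FunLike F R S] [RingHomClass F R S] (f : F) (x y b x' y' b' : R) :
    f (wQ a₁ a₂ a₃ x y b x' y' b') = wQ a₁ a₂ a₃ (f x) (f y) (f b) (f x') (f y') (f b') := by
  simp only [wQ, wX, wN, wM, map_mul, map_add, map_sub, map_pow, map_intCast]

theorem wP_diag (x y b : R) :
    wP a₁ a₂ a₃ x y b x y b = b ^ 6 * (2 * y + a₁ * x + a₃ * b) ^ 3 := by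
  simp only [wP, wX, wN, wM]
  ring

theorem web_alg {ζ u v x y b x' y' b' m n : R} (hm : m = x' - x) (hn : n = y' + y + a₁ * x + a₃)
    (h1 : u * m ^ 2 = n ^ 2 + a₁ * n * m - (a₂ + x + x') * m ^ 2)
    (h2 : v * m ^ 3 = -(n + a₁ * m) * (n ^ 2 + a₁ * n * m - (a₂ + x + x') * m ^ 2) +
      n * x' * m ^ 2 - (y' + a₃) * m ^ 3) (h3 : ζ * v = -u) :
    ζ * wP a₁ a₂ a₃ (b * x) (b * y) b (b' * x') (b' * y') b' =
      wQ a₁ a₂ a₃ (b * x) (b * y) b (b' * x') (b' * y') b' := by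
  have eM : wM (b * x) b (b' * x') b' = b * b' * m := by rw [wM, hm]; ring
  have eN : wN a₁ a₃ (b * x) (b * y) b (b' * y') b' = b * b' * n := by rw [wN, hn]; ring
  have eX : wX a₁ a₂ a₃ (b * x) (b * y) b (b' * x') (b' * y') b' = (b * b') ^ 3 * (u * m ^ 2) := by
    rw [wX, eM, eN, h1]; ring
  have eP : wP a₁ a₂ a₃ (b * x) (b * y) b (b' * x') (b' * y') b' =
      -(b * (b * b') ^ 4 * (v * m ^ 3)) := by
    rw [wP, eX, eM, eN, h2, h1]; ring
  rw [eP, wQ, eX, eM]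
  linear_combination -(b * (b * b') ^ 4 * m ^ 3) * h3

end alg

section val
variable {V : Valuation ℂ ℝ≥0}

theorem web_gn {F : ℂ → ℂ} : GN V F 1 ↔ F ∈ LR V.integer ∧ ¬ LE (V.ltAddSubgroup 1) F :=
  ⟨fun h => ⟨by simpa using h.mem, by simpa using h.top⟩,
    fun h => ⟨one_ne_zero, by simpa using h.1, by simpa using h.2⟩⟩

theorem web_odd (h2 : V 2 < 1) {n : ℕ} (hn : Odd n) : V n = 1 := by
  obtain ⟨k, rfl⟩ := hn
  rw [Nat.cast_add, Nat.cast_one, add_comm]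
  refine V.map_one_add_of_lt ?_
  rw [Nat.cast_mul, map_mul]
  exact mul_lt_one_of_nonneg_of_lt_one_left zero_le h2 (val_nat V k)

theorem web_unit (h2 : V 2 < 1) {a₁ a₃ : ℤ} (h1 : Even a₁) (h3 : Odd a₃) (x y b : LR V.integer)
    (hb : GN V b.1 1) : GN V (b ^ 6 * (2 * y + a₁ * x + a₃ * b) ^ 3 : LR V.integer).1 1 := by
  obtain ⟨k, rfl⟩ := h1
  obtain ⟨l, rfl⟩ := h3
  have hs : LE (V.ltAddSubgroup 1) fun z => 2 * (y + k * x + l * b : LR V.integer).1 z :=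
    B5.le_smul (y + k * x + l * b : LR V.integer).2 2 fun s hs => by
      rw [Valuation.mem_ltAddSubgroup_iff, map_mul]
      exact mul_lt_one_of_nonneg_of_lt_one_left zero_le h2 hs
  have hF : GN V (2 * y + (k + k : ℤ) * x + (2 * l + 1 : ℤ) * b : LR V.integer).1 1 := by
    refine web_gn.2 ⟨Subtype.property _, fun h => (web_gn.1 hb).2 ?_⟩
    refine (h.add hs.neg).congr fun z _ => ?_
    simp only [Pi.add_apply, Pi.neg_apply, ← evz_apply, map_add, map_mul, map_intCast, map_ofNat]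
    push_cast
    ring
  exact (((hb.pow 6).mul (hF.pow 3)).of_val (d := 1) (by simp)).congr fun z _ => rfl

theorem web_ind {L : ℕ} (hL : L ≠ 0) (c : ℕ → ℂ → ℂ) (p r : (LR V.integer)⟦X⟧)
    (hc : ∀ n, MF L (c n)) (h0 : GN V (constantCoeff p).1 1)
    (h : ∀ τ : ℂ, 0 < τ.im → (PowerSeries.mk fun n => c n τ) * PowerSeries.map (evz V τ) p =
      PowerSeries.map (evz V τ) r) (n : ℕ) : c n ∈ LR V.integer := by
  induction n using Nat.strong_induction_on with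
  | _ n ih =>
    have hm : ((coeff n r).1 - ∑ i ∈ Finset.range n, c i * (coeff (n - i) p).1) ∈ LR V.integer :=
      sub_mem (coeff n r).2 (sum_mem fun i hi =>
        mul_mem (ih i (Finset.mem_range.1 hi)) (coeff (n - i) p).2)
    have hm' : (fun z => c n z * (constantCoeff p).1 z) ∈ LR V.integer := by
      refine LE.congr hm fun z hz => ?_
      have := congrArg (coeff n) (h z hz)
      rw [coeff_mul, Finset.Nat.sum_antidiagonal_eq_sum_range_succ_mk, Finset.sum_range_succ,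
        Nat.sub_self] at this
      simp only [coeff_mk, coeff_map, coeff_zero_eq_constantCoeff, evz_apply] at this
      rw [Pi.sub_apply, Finset.sum_apply, ← this]
      simp only [Pi.mul_apply]
      ring
    by_cases hz : ∃ z : ℂ, 0 < z.im ∧ c n z ≠ 0
    · obtain ⟨z, hz, hz'⟩ := hz
      obtain ⟨d, hd⟩ := B5.exists_gn V hL (hc n) hz hz'
      have hv := (hd.mul h0).le one_ne_zero (by simpa using hm')
      rw [mul_one, map_one] at hv
      have : ((fun _ => d) * fun z => d⁻¹ * c n z) ∈ LR V.integer :=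
        mul_mem (LE.const hv) hd.mem
      exact LE.congr this fun z _ => by rw [Pi.mul_apply, mul_inv_cancel_left₀ hd.ne]
    · exact LE.congr (zero_mem (LR V.integer)) fun z h' => by_contra fun e => hz ⟨z, h', e⟩

end val

theorem web_an {F : ℂ → ℂ} {z : ℂ} (h : Hol F) (hz : 0 < z.im) : AnalyticAt ℂ F z :=
  DifferentiableOn.analyticAt (s := {t : ℂ | 0 < t.im})
    (fun t ht => (h t ht).differentiableWithinAt)
    (Complex.continuous_im.continuousAt.eventually (lt_mem_nhds hz))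

theorem web_germ [Ce] (gl : GLStmt) (P : Par Wu NN) {Xf Yf Bf ζ : ℂ → ℂ} (h : Xy P Xf Yf Bf)
    (hζ : Zt P.L (Wu.baseChange ℂ) ζ) {τ : ℂ} (hτ : 0 < τ.im) :
    ∀ᶠ t in 𝓝 τ, ζ (P.F t - P.F τ) *
      wP WZ.a₁ WZ.a₂ WZ.a₃ (Xf τ) (Yf τ) (Bf τ) (Xf t) (Yf t) (Bf t) =
      wQ WZ.a₁ WZ.a₂ WZ.a₃ (Xf τ) (Yf τ) (Bf τ) (Xf t) (Yf t) (Bf t) := by
  by_cases hb : Bf τ = 0
  · exact Eventually.of_forall fun t => by rw [wP, wQ, hb, zero_mul, zero_mul, mul_zero]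
  have hG : Tendsto (fun t => P.F t - P.F τ) (𝓝 τ) (𝓝 0) := by
    simpa using (P.qe.hol τ hτ).continuousAt.tendsto.sub_const (P.F τ)
  have e1 := hG.eventually (eventually_nhdsWithin_iff.1 hζ.eq)
  have e2 := hG.eventually (P.L.compl_lattice_sdiff_singleton_mem_nhds 0)
  have e3 := (D9.mf_an P.N0 h.b hτ).continuousAt.eventually_ne hb
  have e4 : ∀ᶠ t in 𝓝 τ, 0 < t.im := Complex.continuous_im.continuousAt.eventually (lt_mem_nhds hτ)
  filter_upwards [e1, e2, e3, e4] with t h1 h2 h3 h4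
  obtain ⟨l0, x0, y0⟩ := h.eq τ hτ hb
  obtain ⟨l1, x1, y1⟩ := h.eq t h4 h3
  by_cases e : P.F t - P.F τ = 0
  · rw [e, hζ.zero, zero_mul, wQ, wM, x0, x1, sub_eq_zero.1 e]
    ring
  · obtain ⟨g1, g2⟩ := gl P.L (Wu.baseChange ℂ) (P.F t) (P.F τ) _ _ _ _ _ _ P.per l1 l0
      (fun hl => h2 ⟨hl, e⟩) rfl rfl rfl rfl rfl rfl
    rw [x0, y0, x1, y1]
    simp only [Wu_a₁, Wu_a₂, Wu_a₃] at g1 g2
    exact web_alg _ _ _ rfl rfl g1 g2 (h1 e)

theorem web_ser [Ce] (gl : GLStmt) (a : TYaStmt) (P : Par Wu NN) {Xf Yf Bf ζ : ℂ → ℂ}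
    (h : Xy P Xf Yf Bf) (hζ : Zt P.L (Wu.baseChange ℂ) ζ) {τ : ℂ} (hτ : 0 < τ.im) :
    (PowerSeries.mk fun n => cN ζ P.F n τ) * wP WZ.a₁ WZ.a₂ WZ.a₃ (C (Xf τ)) (C (Yf τ)) (C (Bf τ))
      (Ty τ Xf) (Ty τ Yf) (Ty τ Bf) =
    wQ WZ.a₁ WZ.a₂ WZ.a₃ (C (Xf τ)) (C (Yf τ)) (C (Bf τ)) (Ty τ Xf) (Ty τ Yf) (Ty τ Bf) := by
  obtain ⟨-, -, -, hc, -, S, T, hS, hT⟩ := a τ hτ
  have hu : AnalyticAt ℂ (fun t => ζ (P.F t - P.F τ)) τ :=
    hζ.an.comp_of_eq ((web_an P.qe.hol hτ).sub analyticAt_const) (sub_self _)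
  let u : S := ⟨_, (hS _).2 hu⟩
  let x : S := ⟨Xf, (hS _).2 (D9.mf_an P.N0 h.x hτ)⟩
  let y : S := ⟨Yf, (hS _).2 (D9.mf_an P.N0 h.y hτ)⟩
  let b : S := ⟨Bf, (hS _).2 (D9.mf_an P.N0 h.b hτ)⟩
  let ev : ℂ → S →+* ℂ := fun t => (Pi.evalRingHom (fun _ => ℂ) t).comp S.val.toRingHom
  have hev : ∀ (t : ℂ) (g : S), ev t g = g.1 t := fun _ _ => rfl
  have e : T (u * wP WZ.a₁ WZ.a₂ WZ.a₃ (algebraMap ℂ S (Xf τ)) (algebraMap ℂ S (Yf τ))
      (algebraMap ℂ S (Bf τ)) x y b) = T (wQ WZ.a₁ WZ.a₂ WZ.a₃ (algebraMap ℂ S (Xf τ))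
      (algebraMap ℂ S (Yf τ)) (algebraMap ℂ S (Bf τ)) x y b) := by
    rw [hT, hT]
    refine hc _ _ ((web_germ gl P h hζ hτ).mono fun t ht => ?_)
    rw [← hev, ← hev, map_mul, map_wP, map_wQ]
    exact ht
  rw [map_mul, map_wP, map_wQ, hT u, hT x, hT y, hT b] at e
  simp only [AlgHom.commutes] at e
  exact e

theorem web_stmt (gl : GLStmt) (a : TYaStmt) (b : TYbStmt) (c : TYcStmt) : WEbStmt := by
  intro _ P V Xf Yf Bf ζ h2 h hX hY hB hζ hc
  have h0 : 9 * NN ≠ 0 := mul_ne_zero (by norm_num) P.N0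
  have hv : V (9 * NN : ℕ) = 1 :=
    web_odd h2 (Odd.mul (by decide) (Nat.odd_iff.2 (by have := nk.m8; omega)))
  have hD : ∀ F, MF NN F → F ∈ LR V.integer → ∀ n, Dv n F ∈ LR V.integer := fun F h1 h3 n =>
    (((c _ V hv (dvd_mul_right _ _)).2 F
      ⟨b.2.1 _ _ F h0 (dvd_mul_left _ _) h1, h3⟩).2 n).int
  have hB' := (web_gn.1 hB).1
  let x : LR V.integer := ⟨Xf, hX⟩
  let y : LR V.integer := ⟨Yf, hY⟩
  let z : LR V.integer := ⟨Bf, hB'⟩
  let x' : (LR V.integer)⟦X⟧ := PowerSeries.mk fun n => ⟨Dv n Xf, hD _ h.x hX n⟩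
  let y' : (LR V.integer)⟦X⟧ := PowerSeries.mk fun n => ⟨Dv n Yf, hD _ h.y hY n⟩
  let z' : (LR V.integer)⟦X⟧ := PowerSeries.mk fun n => ⟨Dv n Bf, hD _ h.b hB' n⟩
  refine web_ind h0 _ (wP WZ.a₁ WZ.a₂ WZ.a₃ (C x) (C y) (C z) x' y' z')
    (wQ WZ.a₁ WZ.a₂ WZ.a₃ (C x) (C y) (C z) x' y' z') hc ?_ fun τ hτ => ?_
  · have e1 : constantCoeff x' = x := Subtype.ext (D9.dv_zero Xf)
    have e2 : constantCoeff y' = y := Subtype.ext (D9.dv_zero Yf)
    have e3 : constantCoeff z' = z := Subtype.ext (D9.dv_zero Bf)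
    rw [map_wP, e1, e2, e3, constantCoeff_C, constantCoeff_C, constantCoeff_C, wP_diag]
    exact web_unit h2 a1_even a3_odd x y z hB
  · have e1 : PowerSeries.map (evz V τ) x' = Ty τ Xf := by
      ext n; rw [coeff_map, coeff_mk, D9.Ty, coeff_mk]; rfl
    have e2 : PowerSeries.map (evz V τ) y' = Ty τ Yf := by
      ext n; rw [coeff_map, coeff_mk, D9.Ty, coeff_mk]; rfl
    have e3 : PowerSeries.map (evz V τ) z' = Ty τ Bf := by
      ext n; rw [coeff_map, coeff_mk, D9.Ty, coeff_mk]; rfl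
    rw [map_wP, map_wQ, e1, e2, e3, map_C, map_C, map_C]
    exact web_ser gl a P h hζ hτ

end Pool.Agent.B8
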