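import Pool.Agent.Lib.MP_696deb_nt.B8.ZE

/-! Homogeneous coordinates of the parametrization exist. -/

set_option autoImplicit false

open Filter Topology Polynomial
open scoped Classical

namespace Pool.Agent.B8
open Pool.Agent.Lib.MP_696deb_nt Pool.Agent.B4.GE Pool.Agent.Shared.Weier Pool.Agent.B5

theorem xya_stmt : XYaStmt := fun W N P => by
  obtain ⟨c, hc⟩ := exists_fn P.CV_finite
  obtain ⟨m, hm, A, h⟩ := P.chart_rel c hc
  have a : ∀ i, MF N fun z => aevalAeval (jf z) (jN N z) (A i) := fun i =>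
    ((B6.D9.gf_jf (A := ⊤) P.N0).aeval (B6.D9.gf_jN dvd_rfl P.N0) (A i)).1.mf
  have b : MF N fun z => aeval (jf z) m := by simpa only [eval_m1] using mf_eval P.N0 (m1 m)
  have d := mf_add (mf_mul (mf_const c) (a true)) b
  have f : ∀ z : ℂ, 0 < z.im → aeval (jf z) m ≠ 0 → Fn (c : ℂ) (P.φ z) := fun z hz k =>
    not_not.1 fun e => k ((h z hz).2 e)
  refine ⟨_, _, _, mf_mul (mf_mul (mf_mul (mf_const 2) b) (a true)) d,
    mf_mul b (mf_sub (mf_sub (mf_mul (a false) b) (mf_mul (mf_mul (mf_const W.a₁) (a true)) d))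
      (mf_mul (mf_const W.a₃) (mf_pow (a true) 2))),
    mf_mul (mf_mul (mf_const 2) b) (mf_pow (a true) 2), ?_, fun z hz k => ?_⟩
  · have hI : 0 < Complex.I.im := by simp
    obtain ⟨z, ⟨hz, k1⟩, k2⟩ := ((geb_ne (b := m1 m) (mt (Polynomial.map_eq_zero_iff
      (Int.castRingHom ℂ).injective_int).1 hm) hI).and ((P.ig.nonconst hI).eventually
      (Shared.Weier.ev_notMem (L := P.L) _))).exists
    rw [eval_m1] at k1
    have k3 : P.φ z ≠ 0 := mt P.per.unif_eq_zero_iff.1 k2
    refine ⟨z, hz, mul_ne_zero (mul_ne_zero two_ne_zero k1) (pow_ne_zero _ ?_)⟩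
    rw [← (h z hz).1 (f z hz k1) true]
    refine mul_ne_zero k1 ?_
    rw [ch, cond_true, cu, if_neg k3]
    exact inv_ne_zero (sub_ne_zero.2 ((f z hz k1).resolve_left k3))
  · have k1 : aeval (jf z) m ≠ 0 := fun e => k (by simp [e])
    have e1 := (h z hz).1 (f z hz k1) true
    have e2 := (h z hz).1 (f z hz k1) false
    have k2 : P.F z ∉ P.L.lattice := fun e => k (by
      rw [← e1, ch, cond_true, cu, if_pos (show P.φ z = 0 from P.per.unif_eq_zero_iff.2 e)]
      simp)
    have k3 : P.φ z ≠ 0 := mt P.per.unif_eq_zero_iff.1 k2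
    have k4 := sub_ne_zero.2 ((f z hz k1).resolve_left k3)
    rw [ch, cond_false, cv] at e2
    rw [ch, cond_true] at e1
    rw [cu, if_neg k3] at e1 e2
    rw [Par.φ, P.per.unif_of_notMem k2] at e1 e2 k4
    simp only [xco_some, yco_some] at e1 e2 k4
    refine ⟨k2, ?_, ?_⟩ <;> simp only [← e1, ← e2] <;> field_simp <;> ring

end Pool.Agent.B8
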