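import Pool.Agent.Lib.MP_696deb_nt.B8.ZE

/-! The equations of the homogeneous coordinates of the parametrization. -/

set_option autoImplicit false

open Filter Topology
open scoped Classical NNReal

namespace Pool.Agent.B8
open Pool.Agent.Lib.MP_696deb_nt Pool.Agent.Lib.MP_696deb_nt.B2 Pool.Agent.B6 Pool.Agent.B4
  Pool.Agent.B4.GE Pool.Agent.Shared.Weier
open Pool.Agent.B6.D9 (tt dd mf_an)
open Pool.Agent.Lib.MP_696deb_nt.B4 (gb_ev gb_an)

namespace XYb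

theorem hasDerivAt_uy {L : PeriodPair} {W : WeierstrassCurve ℂ} (h : IsPer L W) {z : ℂ}
    (hz : z ∉ L.lattice) : HasDerivAt (uy L W)
      (3 * ux L W z ^ 2 + 2 * W.a₂ * ux L W z + W.a₄ - W.a₁ * uy L W z) z := by
  refine ((((hasDerivAt_wp' hz).sub ((hasDerivAt_ux (W := W) hz).const_mul W.a₁)).sub_const
    W.a₃).div_const 2).congr_deriv ?_
  have h4 : L.g₂ = W.c₄ / 12 := by rw [h.h4]; ring
  rw [h4]
  simp only [ux, WeierstrassCurve.c₄, WeierstrassCurve.b₂, WeierstrassCurve.b₄]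
  ring

variable {W : WeierstrassCurve ℚ} {N : ℕ} {P : Par W N} {Xf Yf Bf : ℂ → ℂ} {z : ℂ}

/-- The three equations with ordinary derivatives. -/
def Eqs (P : Par W N) (Xf Yf Bf : ℂ → ℂ) (z : ℂ) : Prop :=
  Yf z ^ 2 * Bf z + W.a₁ * Xf z * Yf z * Bf z + W.a₃ * Yf z * Bf z ^ 2 =
    Xf z ^ 3 + W.a₂ * Xf z ^ 2 * Bf z + W.a₄ * Xf z * Bf z ^ 2 + W.a₆ * Bf z ^ 3 ∧
  Bf z * deriv Xf z - Xf z * deriv Bf z =
    deriv P.F z * (Bf z * (2 * Yf z + W.a₁ * Xf z + W.a₃ * Bf z)) ∧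
  Xf z * deriv Yf z - Yf z * deriv Xf z =
    deriv P.F z * (Yf z ^ 2 + W.a₁ * Xf z * Yf z + 2 * W.a₃ * Yf z * Bf z -
      W.a₂ * Xf z ^ 2 - 2 * W.a₄ * Xf z * Bf z - 3 * W.a₆ * Bf z ^ 2)

theorem eqs_ne (h : Xy P Xf Yf Bf) (hz : 0 < z.im) (hB : Bf z ≠ 0) : Eqs P Xf Yf Bf z := by
  have aB := mf_an P.N0 h.b hz
  have ev : ∀ᶠ t in 𝓝 z, 0 < t.im ∧ Bf t ≠ 0 := (gb_ev hz).and (aB.continuousAt.eventually_ne hB)
  obtain ⟨h0, hx, hy⟩ := h.eq z hz hB
  have dF := (P.qe.hol z hz).hasDerivAt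
  have dB := aB.differentiableAt.hasDerivAt
  have dX := ((dB.mul ((hasDerivAt_ux (W := W.baseChange ℂ) h0).comp z dF)).congr_of_eventuallyEq
    (ev.mono fun t ht => (h.eq t ht.1 ht.2).2.1)).deriv
  have dY := ((dB.mul ((hasDerivAt_uy P.per h0).comp z dF)).congr_of_eventuallyEq
    (ev.mono fun t ht => (h.eq t ht.1 ht.2).2.2)).deriv
  have e := (WeierstrassCurve.Affine.equation_iff _ _).1 (P.per.nonsingular h0).1
  rw [Eqs, dX, dY, hx, hy]
  simp only [Function.comp]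
  generalize ux P.L (W.baseChange ℂ) (P.F z) = x at *
  generalize uy P.L (W.baseChange ℂ) (P.F z) = y at *
  simp only [WeierstrassCurve.toAffine, WeierstrassCurve.baseChange, WeierstrassCurve.map_a₁,
    WeierstrassCurve.map_a₂, WeierstrassCurve.map_a₃, WeierstrassCurve.map_a₄,
    WeierstrassCurve.map_a₆, eq_ratCast] at e ⊢
  refine ⟨?_, ?_, ?_⟩
  · linear_combination Bf z ^ 3 * e
  · ring
  · linear_combination -3 * Bf z ^ 2 * deriv P.F z * e

theorem ev_ne (h : Xy P Xf Yf Bf) (hz : 0 < z.im) : ∀ᶠ t in 𝓝[≠] z, 0 < t.im ∧ Bf t ≠ 0 := by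
  refine .and (mem_nhdsWithin_of_mem_nhds (gb_ev hz))
    ((mf_an P.N0 h.b hz).eventually_eq_zero_or_eventually_ne_zero.resolve_left fun k => ?_)
  obtain ⟨u, hu, e⟩ := h.ne
  exact e (AnalyticOnNhd.eqOn_zero_of_preconnected_of_eventuallyEq_zero (U := {z : ℂ | 0 < z.im})
    (fun _ => mf_an P.N0 h.b) (convex_halfSpace_im_gt 0).isPreconnected hz k hu)

theorem eqs (h : Xy P Xf Yf Bf) (hz : 0 < z.im) : Eqs P Xf Yf Bf z := by
  have ev := (ev_ne h hz).mono fun t ht => eqs_ne h ht.1 ht.2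
  have x0 := (mf_an P.N0 h.x hz).continuousAt
  have y0 := (mf_an P.N0 h.y hz).continuousAt
  have b0 := (mf_an P.N0 h.b hz).continuousAt
  have x1 := (mf_an P.N0 h.x hz).deriv.continuousAt
  have y1 := (mf_an P.N0 h.y hz).deriv.continuousAt
  have b1 := (mf_an P.N0 h.b hz).deriv.continuousAt
  have f1 := (gb_an P.qe.hol hz).deriv.continuousAt
  exact ⟨geb_eq (by fun_prop) (by fun_prop) (ev.mono fun t ht => ht.1),
    geb_eq (by fun_prop) (by fun_prop) (ev.mono fun t ht => ht.2.1),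
    geb_eq (by fun_prop) (by fun_prop) (ev.mono fun t ht => ht.2.2)⟩

end XYb

theorem xyb_stmt : XYbStmt := by
  intro W N P Xf Yf Bf h z hz
  obtain ⟨h1, h2, h3⟩ := XYb.eqs h hz
  refine ⟨h1, ?_, ?_⟩
  · simp only [dd]
    linear_combination (deriv tt z)⁻¹ * h2
  · simp only [dd]
    linear_combination (deriv tt z)⁻¹ * h3

end Pool.Agent.B8
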