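import Pool.Agent.Lib.MP_696deb_nt.B8.ZE

/-! The parameter at the origin and the subtraction formula. -/

set_option autoImplicit false

open Filter Topology WeierstrassCurve

namespace Pool.Agent.B8
open Pool.Agent.Shared.Weier

theorem zt_stmt : ZTStmt := by
  intro L W
  obtain ⟨A, hA⟩ : ∃ A : ℂ → ℂ,
    A = fun w => 1 + w ^ 2 * (L.weierstrassPExcept 0 w - W.b₂ / 12) := ⟨_, rfl⟩
  obtain ⟨B, hB⟩ : ∃ B : ℂ → ℂ, B = fun w =>
    (-2 + w ^ 3 * L.derivWeierstrassPExcept 0 w - W.a₁ * w * A w - W.a₃ * w ^ 3) / 2 := ⟨_, rfl⟩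
  have h1 := L.analyticAt_weierstrassPExcept 0
  have h2 := L.analyticAt_derivWeierstrassPExcept 0
  have aA : AnalyticAt ℂ A 0 := by rw [hA]; fun_prop
  have aB : AnalyticAt ℂ B 0 := by rw [hB]; fun_prop
  have A0 : A 0 = 1 := by simp [hA]
  have B0 : B 0 = -1 := by simp [hB]
  have Bn : B 0 ≠ 0 := by simp [B0]
  have aC : AnalyticAt ℂ (fun w => -A w / B w) 0 := aA.neg.div aB Bn
  refine ⟨fun w => w * (-A w / B w), analyticAt_id.mul aC, by simp, ?_, ?_⟩
  · refine ((hasDerivAt_id' (0 : ℂ)).fun_mul aC.differentiableAt.hasDerivAt).deriv.trans ?_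
    simp [A0, B0]
  · filter_upwards [self_mem_nhdsWithin,
      (aB.continuousAt.eventually_ne Bn).filter_mono nhdsWithin_le_nhds] with w hw hb
    have w0 : w ≠ 0 := hw
    have e1 : A w = w ^ 2 * ux L W w := by
      rw [hA, ux, wp_eq]
      field_simp
      ring
    have e2 : B w = w ^ 3 * uy L W w := by
      have := L.derivWeierstrassPExcept_sub 0 w
      simp only [ZeroMemClass.coe_zero, sub_zero] at this
      rw [hB, uy, ← this]
      simp only [e1]
      field_simp
      ring
    rw [e2] at hb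
    have := right_ne_zero_of_mul hb
    rw [e1, e2]
    field_simp

theorem gl_stmt : GLStmt := by
  intro L W a b x y x' y' m n h ha hb hab hx hy hx' hy' hm hn
  have nb : -b ∉ L.lattice := fun e => hb (by simpa using neg_mem e)
  have e1 : ux L W (-b) = x := by simp [hx, ux]
  have e2 : uy L W (-b) = -y - W.a₁ * x - W.a₃ := by
    simp only [hx, hy, uy, ux, PeriodPair.weierstrassP_neg, PeriodPair.derivWeierstrassP_neg]
    ring
  by_cases h0 : m = 0
  · have h1 : L.weierstrassP a = L.weierstrassP b := by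
      rw [hm, hx, hx', ux, ux] at h0
      linear_combination h0
    have h2 := ((wp_eq_iff ha hb).1 h1).resolve_right hab
    have h3 : h.pt a = h.pt (-b) := by
      rw [← h.pt_add_mem (-b) h2]; congr 1; ring
    rw [h.pt_of_notMem ha, h.pt_of_notMem nb, Affine.Point.some.injEq] at h3
    have h4 : n = 0 := by rw [hn, hy', h3.2, e2]; ring
    simp [h0, h4]
  · have hne : ux L W a ≠ ux L W (-b) := fun e => h0 (by rw [hm, hx', e, e1, sub_self])
    have h3 := h.pt_add a (-b)
    rw [← sub_eq_add_neg, h.pt_of_notMem ha, h.pt_of_notMem nb, h.pt_of_notMem hab,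
      Affine.Point.add_of_X_ne hne, Affine.Point.some.injEq, Affine.slope_of_X_ne hne, e1, e2,
      ← hx', ← hy', ← hm, show y' - (-y - W.a₁ * x - W.a₃) = n by rw [hn]; ring] at h3
    rw [h3.1, h3.2]
    simp only [Affine.addY, Affine.negY, Affine.negAddY, Affine.addX]
    constructor <;> field_simp <;> ring

end Pool.Agent.B8
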