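import Pool.Agent.Lib.MP_696deb_nt.B8.AI
import Pool.Agent.Lib.MP_696deb_nt.B8.DI
import Pool.Agent.Lib.MP_696deb_nt.B8.EVb
import Pool.Agent.Lib.MP_696deb_nt.B8.HF
import Pool.Agent.Lib.MP_696deb_nt.B8.RG
import Pool.Agent.Lib.MP_696deb_nt.B8.TYg
import Pool.Agent.Lib.MP_696deb_nt.B8.UC
import Pool.Agent.Lib.MP_696deb_nt.B8.WEa
import Pool.Agent.Lib.MP_696deb_nt.B8.WEb
import Pool.Agent.Lib.MP_696deb_nt.B8.XYa
import Pool.Agent.Lib.MP_696deb_nt.B8.XYb
import Pool.Agent.Lib.MP_696deb_nt.B8.XYz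
import Pool.Agent.Lib.MP_696deb_nt.B8.ZT
import Pool.Agent.Lib.MP_696deb_nt.B7.D9Cusp
import Pool.Agent.Lib.MP_696deb_nt.B7.D9Dcq
import Pool.Agent.Lib.MP_696deb_nt.B7.D9Der
import Pool.Agent.Lib.MP_696deb_nt.B7.D9Dim
import Pool.Agent.Lib.MP_696deb_nt.B7.D9Du
import Pool.Agent.Lib.MP_696deb_nt.B7.D9Fld
import Pool.Agent.Lib.MP_696deb_nt.B7.D9Has
import Pool.Agent.Lib.MP_696deb_nt.B7.D9Hq
import Pool.Agent.Lib.MP_696deb_nt.B7.D9Inv
import Pool.Agent.Lib.MP_696deb_nt.B7.D9J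
import Pool.Agent.Lib.MP_696deb_nt.B7.D9Poly
import Pool.Agent.Lib.MP_696deb_nt.B7.D9Tay
import Pool.Agent.Lib.MP_696deb_nt.B7.D9Tr

/-! The parametrization is injective on a disc where the newform is a unit. -/

set_option autoImplicit false

namespace Pool.Agent.B8

open Pool.Agent.B6

theorem cusp_all : D9.CuspStmt := D9.cusp_stmt D9.inv_stmt D9.tex_stmt

theorem der_all : D9.DerStmt := D9.der_stmt D9.inv_stmt D9.tex_stmt cusp_all

theorem tim_all : D9.TimStmt := D9.tim_stmt D9.inv_stmt D9.tex_stmt cusp_all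

theorem du_all : D9.DuStmt := D9.du_stmt der_all tim_all

theorem dim_all : D9.DimStmt := D9.dim_stmt D9.has_stmt D9.hq_stmt du_all der_all tim_all

theorem j_all : D9.JStmt :=
  D9.j_stmt D9.inv_stmt D9.tex_stmt cusp_all (D9.poly_stmt D9.inv_stmt D9.tex_stmt cusp_all)

theorem tya_all : TYaStmt := tya_stmt der_all (D9.tay_stmt der_all)

theorem tyb_all : TYbStmt := tyb_stmt tim_all dim_all

theorem tyc_all : TYcStmt := tyc_stmt ai_stmt tim_all dim_all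

theorem di_all (a : D9.RegStmt) (b : D9.RootStmt) (c : D9.ShiftStmt) : DIStmt :=
  di_stmt tim_all dim_all (D9.dcq_stmt dim_all D9.tex_stmt der_all) tyb_all
    (uc_stmt tya_all tyb_all tyc_all j_all)
    (tr8_stmt ai_stmt dim_all (D9.tr_stmt (D9.tay_stmt der_all) dim_all tim_all j_all D9.fld_stmt
      D9.phi_stmt a b c)) zt_stmt (wea_stmt tya_all tyb_all)
    (hf_stmt D9.inv_stmt D9.tex_stmt der_all du_all) (xy_stmt xya_stmt xyb_stmt tyb_all tyc_all)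
    (web_stmt gl_stmt tya_all tyb_all tyc_all) (eva_stmt rg_stmt) evb_stmt (evc_stmt tya_all)

end Pool.Agent.B8
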