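import Pool.Agent.Lib.MP_696deb_nt.B8.ZD
import Pool.Agent.Lib.MP_696deb_nt.B2.CMg

/-! The value of the series of weight one at the fixed point of the Fricke involution. -/

set_option autoImplicit false

open NumberField Complex
open scoped Classical NNReal

namespace Pool.Agent.B8
open Pool.Agent.Lib.MP_696deb_nt Pool.Agent.Lib.MP_696deb_nt.B2 Pool.Agent.Lib.MP_696deb_nt.B2.CM
  Pool.Agent.B6 Pool.Agent.B4
open Pool.Agent.H3.T (Lam)

namespace UNb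

variable {τ : ℂ} {n : ℕ}

theorem act_rP (τ : ℂ) (i : Option (Fin 2)) : act (rP 2 i) τ = hk 2 τ i := by
  rcases i with _ | k <;> simp [rP, ut, act_of, mob, hk]

theorem exp_Lam (hτ : 0 < τ.im) : Real.exp (Lam τ) = τ.im ^ 6 * ‖Dl τ‖ :=
  Real.exp_log (mul_pos (pow_pos hτ 6) (norm_pos_iff.2 (Dl_ne hτ)))

theorem exp_Lam_act {M : MZ} (hM : 0 < M.det) (hτ : 0 < τ.im) :
    Real.exp (Lam (act M τ)) * (M.det : ℝ) ^ 6 = ‖phiJ M τ‖ * Real.exp (Lam τ) := by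
  have h1 := norm_pos_iff.2 (den_ne' hM.ne' hτ)
  have h2 := norm_pos_iff.2 (Dl_ne hτ)
  have h3 : (0 : ℝ) < M.det := by exact_mod_cast hM
  have h4 : (act M τ).im = M.det * τ.im / ‖den M τ‖ ^ 2 := by
    rw [act, im_mob, Matrix.det_fin_two, den]
  rw [exp_Lam hτ, exp_Lam (act_pos hM hτ), h4, phiJ, norm_div, norm_mul, norm_mul, norm_pow,
    norm_pow, Complex.norm_intCast, abs_of_pos h3]
  field_simp

theorem exp_Lam_hk (hτ : 0 < τ.im) (i : Option (Fin 2)) :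
    Real.exp (Lam (hk 2 τ i)) * 64 = ‖ph 2 i τ‖ * Real.exp (Lam τ) := by
  have h := exp_Lam_act (rP_pos Nat.prime_two i) hτ
  rw [act_rP, (isReps_rP Nat.prime_two).det i] at h
  rw [ph, ← h]
  norm_num

theorem ph_pos (hτ : 0 < τ.im) (i : Option (Fin 2)) : 0 < ‖ph 2 i τ‖ :=
  norm_pos_iff.2 (phi_ne (rP_pos Nat.prime_two i) hτ)

theorem Wc_pos (hτ : 0 < τ.im) (i : Option (Fin 2)) : 0 < Wc τ i :=
  Real.rpow_pos_of_pos (mul_pos (pow_pos (ph_pos hτ i) 2) (Real.exp_pos _)) _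

theorem Wc_pow (τ : ℂ) (i : Option (Fin 2)) :
    Wc τ i ^ 12 = ‖ph 2 i τ‖ ^ 2 * Real.exp (Lam τ) := by
  rw [Wc, one_div]
  exact_mod_cast Real.rpow_inv_natCast_pow (n := 12) (by positivity) (by norm_num)

theorem Wc_pow' (hτ : 0 < τ.im) (i : Option (Fin 2)) :
    Wc τ i ^ 12 = ‖ph 2 i τ‖ * (Real.exp (Lam (hk 2 τ i)) * 64) := by
  rw [Wc_pow, exp_Lam_hk hτ]
  ring

theorem log_Wc (hτ : 0 < τ.im) (i : Option (Fin 2)) :
    12 * Real.log (Wc τ i) = 2 * Lam (hk 2 τ i) + 2 * Real.log 64 - Lam τ := by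
  have h1 := congrArg Real.log (Wc_pow τ i)
  have h2 := congrArg Real.log (exp_Lam_hk hτ i)
  rw [Real.log_pow, Real.log_mul (pow_pos (ph_pos hτ i) 2).ne' (Real.exp_pos _).ne', Real.log_pow,
    Real.log_exp] at h1
  rw [Real.log_mul (Real.exp_pos _).ne' (by norm_num),
    Real.log_mul (ph_pos hτ i).ne' (Real.exp_pos _).ne', Real.log_exp, Real.log_exp] at h2
  push_cast at h1
  linarith

theorem x0_im (n : ℕ) : (x0 n).im = 1 / √n := by
  rw [x0, div_ofReal_im, I_im]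

theorem x0_pow (hn : 0 < n) : (x0 n).im ^ 6 * (n : ℝ) ^ 3 = 1 := by
  have h : (0 : ℝ) < n := by exact_mod_cast hn
  have h1 : √(n : ℝ) ^ 6 = n ^ 3 := by
    rw [show 6 = 2 * 3 from rfl, pow_mul, Real.sq_sqrt h.le]
  rw [x0_im, div_pow, h1, one_pow, one_div, inv_mul_cancel₀ (pow_pos h 3).ne']

theorem conj_Dl (h : 0 < (x0 n).im) : starRingEnd ℂ (Dl (x0 n)) = Dl (x0 n) := by
  have h1 := qe_Dl.hasSum h
  have hq : starRingEnd ℂ (q1 (x0 n)) = q1 (x0 n) := by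
    rw [q1, ← Complex.exp_conj, x0]
    congr 1
    simp only [map_mul, map_div₀, conj_I, conj_ofReal, map_ofNat]
    ring
  refine (Complex.hasSum_conj'.2 h1).unique ?_
  convert h1 using 2 with k
  rw [map_mul, map_pow, hq, PowerSeries.coeff_map, eq_intCast, map_intCast]

theorem val_norm (V : Valuation ℂ ℝ≥0) {z : ℂ} {c : ℝ≥0} (h : V z = c)
    (h' : V (starRingEnd ℂ z) = c) : V (‖z‖ : ℝ) = c := by
  refine (pow_left_inj₀ zero_le zero_le two_ne_zero).1 ?_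
  rw [← map_pow, ← Complex.mul_conj', map_mul, h, h', sq]

theorem jf_eq {c : ℕ} {τ' : ℂ} {x : Pc n c} (hn : Nk n) (hc : c ≠ 0) (h : Rp n c τ x)
    (h' : Rp n c τ' x) : jf τ = jf τ' := by
  rw [← jL_tau h.pos, ← jL_tau h'.pos, ← jP_cl (hn.ok hc) h.iv, ← jP_cl (hn.ok hc) h'.iv, h.eq,
    h'.eq]

theorem sum_z3 (u : Z3 → ℝ) : ∑ a, bw a * u a = u 1 - u (.ofAdd 1) := by
  have h : (Finset.univ : Finset Z3) = {1, .ofAdd 1, .ofAdd 2} := by decide
  rw [h, Finset.sum_insert (by decide), Finset.sum_pair (by decide), show bw 1 = 1 by decide,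
    show bw (.ofAdd 1) = -1 by decide, show bw (.ofAdd 2) = 0 by decide]
  push_cast
  ring

theorem fin1 (nb : NBStmt) (hn : Nk n) [Finite (Pc n 2)] : Finite (Pc n 1) := by
  refine Finite.of_surjective (pj n 1 2) fun B => ?_
  obtain ⟨τ, hτ⟩ := (nb n hn).1 1 B one_ne_zero
  obtain ⟨y, -, -, h, -⟩ := (nb n hn).2.2 τ B hτ
  exact ⟨y none, (h _).2 ⟨_, rfl⟩⟩

/-- The classes of conductor two are the neighbours of the classes of conductor one. -/
theorem exists_fam (nb : NBStmt) (hn : Nk n) [Fintype (Pc n 2)] [Fintype (Pc n 1)]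
    {ψ : Pc n 2 →* Z3} (hψ : Ram ψ) :
    ∃ (τ : Pc n 1 → ℂ) (e : Pc n 1 → Z3 → Option (Fin 2)) (t : Pc n 2 → ℂ),
      (∀ B, Rp n 1 (τ B) B) ∧ (∀ x, Rp n 2 (t x) x) ∧ t 1 = hk 2 (τ 1) (e 1 1) ∧
      ∀ F : ℂ → ℝ, ∑ x, bw (ψ x) * F (t x) =
        ∑ B, (F (hk 2 (τ B) (e B 1)) - F (hk 2 (τ B) (e B (.ofAdd 1)))) := by
  choose τ hτ using fun B : Pc n 1 => (nb n hn).1 1 B one_ne_zero
  choose y h1 _ h3 h4 using fun B => (nb n hn).2.2 (τ B) B (hτ B)
  let e : Pc n 1 → Z3 → Option (Fin 2) := fun B => (Equiv.ofBijective _ (h4 B ψ hψ)).symm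
  have k1 : ∀ B a, ψ (y B (e B a)) = a := fun B a =>
    (Equiv.ofBijective _ (h4 B ψ hψ)).apply_symm_apply a
  have k2 : ∀ x, y (pj n 1 2 x) (e (pj n 1 2 x) (ψ x)) = x := fun x => by
    obtain ⟨i, hi⟩ := (h3 _ x).1 rfl
    have : e (pj n 1 2 x) (ψ x) = i := (h4 _ ψ hψ).1 ((k1 _ _).trans (congrArg ψ hi.symm))
    rw [this, hi]
  refine ⟨τ, e, fun x => hk 2 (τ (pj n 1 2 x)) (e (pj n 1 2 x) (ψ x)), hτ, fun x => ?_,
    by simp only [map_one], fun F => ?_⟩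
  · have := (h1 (pj n 1 2 x) (e (pj n 1 2 x) (ψ x))).1
    rwa [k2] at this
  · have hb : Function.Bijective fun x => (pj n 1 2 x, ψ x) := by
      refine ⟨fun x x' h => ?_, fun p => ⟨y p.1 (e p.1 p.2), ?_⟩⟩
      · obtain ⟨a, b⟩ := Prod.ext_iff.1 h
        rw [← k2 x, ← k2 x']
        exact congrArg₂ (fun B c => y B (e B c)) a b
      · exact Prod.ext ((h3 _ _).2 ⟨_, rfl⟩) (k1 _ _)
    rw [Fintype.sum_bijective _ hb _ (fun p => bw p.2 * F (hk 2 (τ p.1) (e p.1 p.2))) fun x => rfl,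
      Fintype.sum_prod_type]
    exact Finset.sum_congr rfl fun B _ => sum_z3 fun a => F (hk 2 (τ B) (e B a))

/-- From the sum of logarithms to the product. -/
theorem prod_eq {ι : Type} [Fintype ι] {a b : ι → ℝ} {u : ℝ} {s m : ℕ} (ha : ∀ i, 0 < a i)
    (hb : ∀ i, 0 < b i) (hu : 0 < u)
    (h : s * ∑ i, (Real.log (a i) - Real.log (b i)) = -2 * m * Real.log u) :
    (∏ i, a i) ^ s * u ^ (2 * m) = (∏ i, b i) ^ s := by
  have pa := Finset.prod_pos fun i (_ : i ∈ Finset.univ) => ha i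
  have pb := Finset.prod_pos fun i (_ : i ∈ Finset.univ) => hb i
  refine Real.log_injOn_pos (mul_pos (pow_pos pa s) (pow_pos hu _)) (pow_pos pb s) ?_
  rw [Real.log_mul (pow_pos pa s).ne' (pow_pos hu _).ne', Real.log_pow, Real.log_pow, Real.log_pow,
    Real.log_prod fun i _ => (ha i).ne', Real.log_prod fun i _ => (hb i).ne']
  rw [Finset.sum_sub_distrib] at h
  push_cast
  linarith

theorem val_two {V : Valuation ℂ ℝ≥0} {w : Plc} (hw : w.p = 2) (h : Ov V w) :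
    V 2 = w.V 2 ∧ V 2 < 1 := by
  have h1 : V 2 = w.V 2 := by rw [← h, map_ofNat jC]
  have h2 := w.hV
  rw [hw] at h2
  refine ⟨h1, ?_⟩
  rw [h1, show w.V 2 = 2⁻¹ by exact_mod_cast h2]
  exact inv_lt_one_of_one_lt₀ one_lt_two

end UNb

open UNb in
theorem unb_stmt (nb : NBStmt) (lk : LKStmt) (fa : FAStmt) (vj : VJStmt) (ex : EXStmt)
    (kr : KRStmt) (lc : LCStmt) (a3 : A3Stmt) (a4 : A4Stmt) (sel : SELStmt) (una : UNaStmt) :
    UNbStmt := by
  intro _ _ ψ g w V hψ hg he hs hw hV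
  obtain ⟨v2, hv⟩ := val_two hw hV
  have hn := nk
  have := fin1 nb hn
  have := Fintype.ofFinite (Pc NN 1)
  obtain ⟨τ, e, t, hτ, ht, t1, hsum⟩ := exists_fam nb hn hψ.ram
  have hx := (nb NN hn).2.1
  refine ⟨?_, ?_⟩
  swap
  · rw [jf_eq hn two_ne_zero hx (ht 1), t1]
    exact ((vj NN 1 V _ 1 hn odd_one hv (hτ 1)).2 _).2
  obtain ⟨θ, -, hθ, him⟩ := lc
  obtain ⟨s, i, os, oi, hk1⟩ := kr ψ Lc θ hψ hθ
  obtain ⟨oh, hsel⟩ := sel hs
  have hd : discr Lc < 0 := by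
    obtain ⟨j, -, hj⟩ := a3 Lc θ hθ
    obtain ⟨k, ok, hk'⟩ := exists_s
    have h1 : (0 : ℤ) < NN * k ^ 2 := by
      have := ok.pos
      have := NN_gt3
      positivity
    by_contra hc
    have := mul_nonneg (not_lt.1 hc) (sq_nonneg (j : ℤ))
    omega
  obtain ⟨ε, hε, n1, n2⟩ := (a4 Lc hθ.rank hd).2.2.2 (jC.comp (algebraMap Lc Qbar)) him
  set u : ℂ := jC.comp (algebraMap Lc Qbar) (ε : 𝓞 Lc) with hu
  have u0 : u ≠ 0 := (map_ne_zero _).2 (by simp)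
  have u1 : V (u - 1) ^ 3 = V 2 := by
    have h1 := hsel ε n1 n2 w hw
    rw [← hV, map_sub, map_one, ← v2] at h1
    exact h1
  have u2 : u ^ 2 = (‖u‖ : ℝ) ^ 2 := by
    rw [← Complex.mul_conj', Complex.conj_eq_iff_im.2 (show u.im = 0 from him _), sq]
  have lx : Lam (t 1) = Lam (x0 NN) := by
    have h1 := hk1 (Function.update t 1 (x0 NN)) fun x => by
      rcases eq_or_ne x 1 with rfl | h
      · rwa [Function.update_self]
      · rw [Function.update_of_ne h]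
        exact ht x
    rw [← hk1 t ht] at h1
    have h2 := mul_left_cancel₀ (by exact_mod_cast os.pos.ne') h1
    rw [← Finset.add_sum_erase _ _ (Finset.mem_univ 1),
      ← Finset.add_sum_erase _ _ (Finset.mem_univ 1), Finset.sum_congr rfl fun x hx => by
        rw [Function.update_of_ne (Finset.ne_of_mem_erase hx)]] at h2
    have h3 := add_right_cancel h2
    rw [Function.update_self, map_one, show bw 1 = 1 by decide] at h3
    simpa using h3.symm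
  set W : ℝ := Wc (τ 1) (e 1 1) with hW
  have W0 : 0 < W := Wc_pos (hτ 1).pos _
  let a : Pc NN 1 → ℝ := fun B => Wc (τ B) (e B 1) / W
  let b : Pc NN 1 → ℝ := fun B => Wc (τ B) (e B (.ofAdd 1)) / W
  have hp : (∏ B, a B) ^ s * ‖u‖ ^ (2 * (classNumber Lc * i)) = (∏ B, b B) ^ s := by
    refine prod_eq (fun B => div_pos (Wc_pos (hτ B).pos _) W0)
      (fun B => div_pos (Wc_pos (hτ B).pos _) W0) (norm_pos_iff.2 u0) ?_
    have h1 := hk1 t ht
    rw [hsum Lam, ← hε] at h1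
    have h2 : ∑ B, (Lam (hk 2 (τ B) (e B 1)) - Lam (hk 2 (τ B) (e B (.ofAdd 1)))) =
        6 * ∑ B, (Real.log (a B) - Real.log (b B)) := by
      rw [Finset.mul_sum]
      refine Finset.sum_congr rfl fun B _ => ?_
      have k1 := log_Wc (hτ B).pos (e B 1)
      have k2 := log_Wc (hτ B).pos (e B (.ofAdd 1))
      simp only [a, b]
      rw [Real.log_div (Wc_pos (hτ B).pos _).ne' W0.ne',
        Real.log_div (Wc_pos (hτ B).pos _).ne' W0.ne']
      linarith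
    rw [h2] at h1
    push_cast
    linarith
  have hS := una V (Pc NN 1) (fun B => a B) (fun B => b B) u s (classNumber Lc * i) hv
    (fun B => ex NN 1 1 V _ _ 1 B hn odd_one odd_one hv (hτ 1) (hτ B) _ _)
    (fun B => ex NN 1 1 V _ _ 1 B hn odd_one odd_one hv (hτ 1) (hτ B) _ _) os (oh.mul oi) u1 (by
      rw [pow_mul, u2, ← pow_mul]
      exact_mod_cast hp)
  set S : ℝ := ∑ B, (a B - b B) with hSd
  have hS' : V (S : ℂ) ^ 3 = V 2 ^ 2 := by
    rw [← hS, hSd]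
    push_cast
    rfl
  have hG := (lk NN ψ g hn hψ.ram hg he).2.2 t ht
  set r : ℝ := ∑ x, bw (ψ x) * Pz (t x) with hr
  have r1 : r * √2 = -(S * W) := by
    rw [hr, hsum Pz, hSd, Finset.sum_mul, Finset.sum_mul, ← Finset.sum_neg_distrib]
    refine Finset.sum_congr rfl fun B _ => ?_
    rw [fa _ (hτ B).pos, fa _ (hτ B).pos]
    simp only [a, b]
    field_simp
    ring
  have r2 : r ^ 12 * (NN : ℝ) ^ 3 = S ^ 12 * ‖ph 2 (e 1 1) (τ 1)‖ * ‖Dl (x0 NN)‖ := by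
    have h1 : √2 ^ 12 = (64 : ℝ) := by
      rw [show 12 = 2 * 6 from rfl, pow_mul, Real.sq_sqrt zero_le_two]
      norm_num
    have h2 := congrArg (· ^ 12) r1
    simp only [mul_pow, h1, Even.neg_pow (show Even 12 by decide)] at h2
    rw [hW, Wc_pow' (hτ 1).pos, ← t1, lx, exp_Lam hx.pos] at h2
    have h3 := x0_pow (n := NN) (by have := NN_gt3; omega)
    linear_combination (NN : ℝ) ^ 3 / 64 * h2 +
      S ^ 12 * ‖ph 2 (e 1 1) (τ 1)‖ * ‖Dl (x0 NN)‖ * h3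
  have r3 : (2 * Th g (x0 NN)) ^ 12 * ((NN : ℤ) : ℂ) ^ 3 =
      (S : ℂ) ^ 12 * (‖ph 2 (e 1 1) (τ 1)‖ : ℝ) * (‖Dl (x0 NN)‖ : ℝ) := by
    rw [hG]
    exact_mod_cast r2
  have p1 : V (‖ph 2 (e 1 1) (τ 1)‖ : ℝ) = V 2 ^ 4 := by
    refine val_norm V ((vj NN 1 V _ 1 hn odd_one hv (hτ 1)).2 _).1 ?_
    have h1 := ((vj NN 1 (V.comap (starRingEnd ℂ)) _ 1 hn odd_one
      (by rwa [Valuation.comap_apply, map_ofNat]) (hτ 1)).2 (e 1 1)).1
    rwa [Valuation.comap_apply, Valuation.comap_apply, map_ofNat] at h1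
  have p2 : V (‖Dl (x0 NN)‖ : ℝ) = V (Dl (x0 NN)) := val_norm V rfl (by rw [conj_Dl hx.pos])
  have p3 : V ((NN : ℤ) : ℂ) = 1 := val_int_eq_one (p := 2) Nat.prime_two (by simpa using hv) (by
    have := hn.m8
    omega)
  have r4 := congrArg V r3
  rw [map_mul, map_mul, map_mul, mul_pow, map_mul, map_pow, map_pow V _ 3, p1, p2, p3,
    map_pow V (S : ℂ), show 12 = 3 * 4 from rfl, pow_mul (V (S : ℂ)), hS', one_pow, mul_one,
    ← pow_mul, ← pow_add] at r4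
  have v0 : V 2 ≠ 0 := V.ne_zero_iff.2 two_ne_zero
  rw [map_div₀, div_eq_one_iff_eq (V.ne_zero_iff.2 (Dl_ne hx.pos))]
  exact mul_left_cancel₀ (pow_ne_zero 12 v0) r4

end Pool.Agent.B8
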