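import Pool.Agent.Lib.MP_696deb_nt.B8.ZA
import Pool.Agent.Lib.MP_696deb_nt.B2.CMg

/-! The theta constants along an isogeny of odd degree. -/

set_option autoImplicit false

open Complex PeriodPair
open scoped Classical NNReal Real

namespace Pool.Agent.B8
open Pool.Agent.Lib.MP_696deb_nt Pool.Agent.Lib.MP_696deb_nt.B2.CM Pool.Agent.Shared.Weier

/-- The coordinates of the doubled half periods. -/
def epc : Option (Fin 2) → ℤ × ℤ
  | none => (0, 1)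
  | some k => (1, (k : ℕ))

variable {τ z : ℂ}

theorem ep_hp (τ : ℂ) (i : Option (Fin 2)) : hp τ i = ((epc i).1 * τ + (epc i).2) / 2 := by
  cases i <;> simp [hp, epc]

theorem ep_half (hτ : 0 < τ.im) {m n : ℤ} (h : ((m : ℂ) * τ + n) / 2 ∈ sp2 τ 1) :
    2 ∣ m ∧ 2 ∣ n := by
  obtain ⟨a, b, e⟩ := mem_sp2.1 h
  have := tau_indep hτ.ne' (x := m - 2 * a) (y := n - 2 * b)
    (by push_cast; linear_combination 2 * e)
  omega

theorem ep_notMem (hτ : 0 < τ.im) (i : Option (Fin 2)) : hp τ i ∉ sp2 τ 1 := fun h => by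
  rw [ep_hp] at h
  have key : ∀ i, ¬ (2 ∣ (epc i).1 ∧ 2 ∣ (epc i).2) := by decide
  exact key i (ep_half hτ h)

theorem ep_two (τ : ℂ) (i : Option (Fin 2)) : 2 * hp τ i ∈ sp2 τ 1 :=
  mem_sp2.2 ⟨(epc i).1, (epc i).2, by rw [ep_hp]; ring⟩

theorem ep_sub (hτ : 0 < τ.im) {i j : Option (Fin 2)} (h : hp τ i - hp τ j ∈ sp2 τ 1) : i = j := by
  have e : hp τ i - hp τ j = ((((epc i).1 - (epc j).1 : ℤ) : ℂ) * τ +
      (((epc i).2 - (epc j).2 : ℤ) : ℂ)) / 2 := by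
    rw [ep_hp, ep_hp]
    push_cast
    ring
  rw [e] at h
  have key : ∀ i j, (2 ∣ (epc i).1 - (epc j).1 ∧ 2 ∣ (epc i).2 - (epc j).2) → epc i = epc j := by
    decide
  have inj : ∀ i j, epc i = epc j → i = j := by
    rintro (_ | a) (_ | b) e
    · rfl
    · simp [epc] at e
    · simp [epc] at e
    · simp only [epc, Prod.mk.injEq, true_and, Nat.cast_inj] at e
      rw [Fin.ext e]
  exact inj i j (key i j (ep_half hτ h))

theorem ep_class (h1 : z ∉ sp2 τ 1) (h2 : 2 * z ∈ sp2 τ 1) : ∃ j, z - hp τ j ∈ sp2 τ 1 := by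
  obtain ⟨m, n, e⟩ := mem_sp2.1 h2
  obtain ⟨a, rfl | rfl⟩ := Int.even_or_odd' m <;> obtain ⟨b, rfl | rfl⟩ := Int.even_or_odd' n <;>
    push_cast at e
  · exact (h1 (mem_sp2.2 ⟨a, b, by linear_combination e / 2⟩)).elim
  · exact ⟨none, mem_sp2.2 ⟨a, b, by rw [hp]; linear_combination e / 2⟩⟩
  · exact ⟨some 0, mem_sp2.2 ⟨a, b, by
      rw [hp, Fin.val_zero, Nat.cast_zero]; linear_combination e / 2⟩⟩
  · exact ⟨some 1, mem_sp2.2 ⟨a, b, by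
      rw [hp, Fin.val_one, Nat.cast_one]; linear_combination e / 2⟩⟩

theorem ep_nb1 (τ : ℂ) (i : Option (Fin 2)) : 2 * hp τ i ∈ nb 2 1 τ i := by
  cases i with
  | none => exact mem_sp2.2 ⟨0, 1, by rw [hp]; push_cast; ring⟩
  | some k => exact mem_sp2.2 ⟨1, 0, by rw [hp]; push_cast; ring⟩

theorem ep_nb2 {i : Option (Fin 2)} (h : 2 * z ∈ nb 2 1 τ i) :
    z ∈ sp2 τ 1 ∨ z - hp τ i ∈ sp2 τ 1 := by
  cases i with
  | none =>
    obtain ⟨m, n, e⟩ := mem_sp2.1 h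
    obtain ⟨b, rfl | rfl⟩ := Int.even_or_odd' n <;> push_cast at e
    · exact .inl (mem_sp2.2 ⟨m, b, by linear_combination e / 2⟩)
    · exact .inr (mem_sp2.2 ⟨m, b, by rw [hp]; linear_combination e / 2⟩)
  | some k =>
    obtain ⟨m, n, e⟩ := mem_sp2.1 h
    obtain ⟨a, rfl | rfl⟩ := Int.even_or_odd' m <;> push_cast at e
    · exact .inl (mem_sp2.2 ⟨a, a * (k : ℕ) + n, by push_cast; linear_combination e / 2⟩)
    · exact .inr (mem_sp2.2 ⟨a, a * (k : ℕ) + n, by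
        rw [hp]; push_cast; linear_combination e / 2⟩)

theorem ep_alg {a b c g h : ℂ} (ha : 4 * a ^ 3 - g * a - h = 0) (hb : 4 * b ^ 3 - g * b - h = 0)
    (hc : 4 * c ^ 3 - g * c - h = 0) (hab : a - b ≠ 0) (hac : a - c ≠ 0) (hbc : b - c ≠ 0) :
    g ^ 3 - 27 * h ^ 2 = 16 * ((a - b) * (a - c)) ^ 2 * (b - c) ^ 2 := by
  have e1 : g = 4 * (a ^ 2 + a * b + b ^ 2) :=
    mul_left_cancel₀ hab (by linear_combination hb - ha)
  have e2 : g = 4 * (a ^ 2 + a * c + c ^ 2) :=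
    mul_left_cancel₀ hac (by linear_combination hc - ha)
  have e3 : c = -a - b := mul_left_cancel₀ hbc (by linear_combination (e2 - e1) / 4)
  have e4 : h = 4 * a ^ 3 - g * a := by linear_combination -ha
  rw [e4, e1, e3]
  ring

theorem ep_wp_ne (hτ : 0 < τ.im) {L : PeriodPair} (hL : L.lattice = sp2 τ 1)
    {i j : Option (Fin 2)} (h : i ≠ j) : ℘[L] (hp τ i) - ℘[L] (hp τ j) ≠ 0 := by
  refine wp_ne (hL ▸ ep_notMem hτ i) (hL ▸ ep_notMem hτ j) (fun k => h (ep_sub hτ ?_))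
    fun k => h (ep_sub hτ (hL ▸ k))
  rw [hL] at k
  have := sub_mem k (ep_two τ j)
  rwa [show hp τ i + hp τ j - 2 * hp τ j = hp τ i - hp τ j by ring] at this

/-- The theta constants in terms of the values at the half periods. -/
theorem ep_wc (pe : PEStmt) (hτ : 0 < τ.im) {L : PeriodPair} (hL : L.lattice = sp2 τ 1)
    {i j k : Option (Fin 2)} (hij : i ≠ j) (hik : i ≠ k) (hjk : j ≠ k) :
    Wc τ i ^ 2 = τ.im * ‖℘[L] (hp τ j) - ℘[L] (hp τ k)‖ / π ^ 2 := by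
  obtain ⟨p1, p2⟩ := pe τ L hτ hL
  have p3 := p2 i j k hij hik hjk
  have root : ∀ i, 4 * ℘[L] (hp τ i) ^ 3 - L.g₂ * ℘[L] (hp τ i) - L.g₃ = 0 := fun i => by
    have h1 : hp τ i ∉ L.lattice := hL ▸ ep_notMem hτ i
    rw [← L.derivWeierstrassP_sq _ h1, (wp'_eq_zero_iff h1).2 (hL ▸ ep_two τ i)]
    norm_num
  have p4 := ep_alg (root i) (root j) (root k) (ep_wp_ne hτ hL hij) (ep_wp_ne hτ hL hik)
    (ep_wp_ne hτ hL hjk)
  rw [← p1] at p4
  generalize (℘[L] (hp τ i) - ℘[L] (hp τ j)) * (℘[L] (hp τ i) - ℘[L] (hp τ k)) = A at p3 p4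
  generalize ℘[L] (hp τ j) - ℘[L] (hp τ k) = D at p3 p4
  have p5 : ph 2 i τ ^ 2 * Dl τ * (π : ℂ) ^ 12 = D ^ 6 := by
    linear_combination ph 2 i τ ^ 2 / 4096 * p4 +
      D ^ 2 / 256 * (ph 2 i τ * A + 16 * D ^ 2) * p3
  have p6 : ‖ph 2 i τ‖ ^ 2 * ‖Dl τ‖ * π ^ 12 = ‖D‖ ^ 6 := by
    have := congrArg norm p5
    rwa [norm_mul, norm_mul, norm_pow, norm_pow, norm_pow, Complex.norm_real,
      Real.norm_of_nonneg Real.pi_pos.le] at this
  have hD : 0 < τ.im ^ 6 * ‖Dl τ‖ := mul_pos (pow_pos hτ 6) (norm_pos_iff.2 (Dl_ne hτ))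
  have h0 : 0 ≤ ‖ph 2 i τ‖ ^ 2 * Real.exp (H3.T.Lam τ) := by positivity
  have p7 : (Wc τ i ^ 2) ^ 6 = ‖ph 2 i τ‖ ^ 2 * (τ.im ^ 6 * ‖Dl τ‖) := by
    rw [← pow_mul, Wc, ← Real.rpow_natCast, ← Real.rpow_mul h0, H3.T.Lam, Real.exp_log hD]
    norm_num
  have hπ := Real.pi_pos
  refine (pow_left_inj₀ (n := 6) (by positivity) (by positivity) (by norm_num)).1 ?_
  rw [p7, div_pow, mul_pow, ← p6, eq_div_iff (by positivity)]
  ring

theorem ep_real {w x : ℝ} (h0 : 0 < w) (h1 : w < 1) (hx : 0 ≤ x) (h : w ≤ x ^ 3) :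
    w ^ 2 * x ^ 3 < x ^ 4 ∧ w * x ^ 2 < x ^ 4 ∧ w ^ 2 * x < x ^ 4 := by
  have hx0 : 0 < x := by
    rcases hx.eq_or_lt with rfl | hx
    · norm_num at h
      linarith
    · exact hx
  have a0 : w ^ 2 < w := by nlinarith
  have a1 : w < x ^ 2 := by
    by_contra k
    have k1 : (x ^ 2) ^ 3 ≤ w ^ 3 := pow_le_pow_left₀ (by positivity) (not_lt.1 k) 3
    have k2 : w ^ 2 ≤ (x ^ 3) ^ 2 := pow_le_pow_left₀ h0.le h 2
    have k3 : w ^ 3 < w ^ 2 := by nlinarith [pow_pos h0 2]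
    have k4 : (x ^ 2) ^ 3 = (x ^ 3) ^ 2 := by ring
    linarith
  have a2 : w ^ 2 < x := by
    by_contra k
    have k1 : x ^ 2 ≤ (w ^ 2) ^ 2 := pow_le_pow_left₀ hx (not_lt.1 k) 2
    nlinarith [pow_pos h0 2]
  refine ⟨?_, ?_, ?_⟩
  · nlinarith [pow_pos hx0 3]
  · nlinarith [pow_pos hx0 2]
  · nlinarith

theorem ep_int (V : Valuation ℂ ℝ≥0) (k : ℤ) : V k ≤ 1 := by
  induction k using Int.induction_on with
  | zero => simp
  | succ k ih =>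
    push_cast at ih ⊢
    exact V.map_add_le ih (by simp)
  | pred k ih =>
    push_cast at ih ⊢
    exact V.map_sub_le ih (by simp)

theorem ep_val (V : Valuation ℂ ℝ≥0) (h2 : V 2 < 1) {R T T' : ℂ} {N : ℤ} (hN : Odd N)
    (h1 : V (T - 1) ^ 3 < V 2 ^ 4) (h1' : V (T' - 1) ^ 3 < V 2 ^ 4)
    (e : R ^ 4 * N ^ 2 = T * T') : V (R - 1) ^ 3 < V 2 := by
  obtain ⟨k, rfl⟩ := hN
  have h0 : 0 < V 2 := (V.pos_iff).2 two_ne_zero
  have add : ∀ a b, V a ^ 3 < V 2 ^ 4 → V b ^ 3 < V 2 ^ 4 → V (a + b) ^ 3 < V 2 ^ 4 := by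
    intro a b ha hb
    rcases le_max_iff.1 (V.map_add a b) with h | h
    · exact (pow_le_pow_left₀ zero_le h 3).trans_lt ha
    · exact (pow_le_pow_left₀ zero_le h 3).trans_lt hb
  have hT' : V T' = 1 := by
    have a1 : V (T' - 1) < 1 := by
      refine lt_of_pow_lt_pow_left₀ 3 zero_le (h1'.trans ?_)
      rw [one_pow]
      exact pow_lt_one₀ zero_le h2 (by norm_num)
    have := V.map_one_add_of_lt a1
    rwa [add_sub_cancel] at this
  have hN1 : V ((2 * k + 1 : ℤ) : ℂ) = 1 := by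
    have a1 : V (2 * k) < 1 := by
      rw [V.map_mul]
      exact (mul_le_of_le_one_right zero_le (ep_int V k)).trans_lt h2
    have := V.map_one_add_of_lt a1
    push_cast
    rwa [add_comm] at this
  have a2 : V (2 ^ 2 * ((-(k * (k + 1)) : ℤ) : ℂ)) ^ 3 < V 2 ^ 4 := by
    rw [V.map_mul, V.map_pow]
    refine (pow_le_pow_left₀ zero_le (mul_le_of_le_one_right zero_le (ep_int V _)) 3).trans_lt ?_
    rw [← pow_mul]
    exact pow_lt_pow_right_of_lt_one₀ h0 h2 (by norm_num)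
  have a3 := add _ _ (add ((T - 1) * T') _ (by rwa [V.map_mul, hT', mul_one]) h1') a2
  have a4 : (T - 1) * T' + (T' - 1) + 2 ^ 2 * ((-(k * (k + 1)) : ℤ) : ℂ) =
      (R ^ 4 - 1) * ((2 * k + 1 : ℤ) : ℂ) ^ 2 := by
    push_cast at e ⊢
    linear_combination -e
  rw [a4, V.map_mul, V.map_pow, hN1, one_pow, mul_one] at a3
  obtain ⟨s, rfl⟩ : ∃ s, R = s + 1 := ⟨R - 1, by ring⟩
  rw [add_sub_cancel_right]
  by_contra hc
  obtain ⟨b1, b2, b3⟩ := ep_real (w := V 2) (x := V s) (by exact_mod_cast h0)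
    (by exact_mod_cast h2) (V s).2 (by exact_mod_cast not_lt.1 hc)
  have c1 : V (2 ^ 2 * s ^ 3) < V (s ^ 4) := by
    rw [V.map_mul, V.map_pow, V.map_pow, V.map_pow]
    exact_mod_cast b1
  have c2 : V (2 * s ^ 2 * (3 : ℤ)) < V (s ^ 4) := by
    rw [V.map_mul, V.map_mul, V.map_pow, V.map_pow]
    refine (mul_le_of_le_one_right zero_le (ep_int V _)).trans_lt ?_
    exact_mod_cast b2
  have c3 : V (2 ^ 2 * s) < V (s ^ 4) := by
    rw [V.map_mul, V.map_pow, V.map_pow]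
    exact_mod_cast b3
  have c4 := V.map_add_eq_of_lt_left (V.map_add_lt (V.map_add_lt c1 c2) c3)
  have c5 : s ^ 4 + (2 ^ 2 * s ^ 3 + 2 * s ^ 2 * (3 : ℤ) + 2 ^ 2 * s) = (s + 1) ^ 4 - 1 := by
    push_cast
    ring
  rw [← c5, c4, V.map_pow, ← pow_mul, mul_comm, pow_mul] at a3
  exact hc (lt_of_pow_lt_pow_left₀ 4 zero_le a3)

theorem ep_odd {I : Lt} {N : ℕ} (hN : Odd N) (h2 : 2 * z ∈ I) : N * z - z ∈ I := by
  obtain ⟨k, rfl⟩ := hN
  have := int_mul_mem h2 k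
  push_cast at this ⊢
  rwa [show (2 * k + 1) * z - z = k * (2 * z) by ring]

theorem ep_stmt (pe : PEStmt) (eq : EQStmt) : EPStmt := by
  intro V τ M i i' h2 hτ hM hodd hj hj' hle
  have hτ' := act_pos hM hτ
  have hd := den_ne' hM.ne' hτ
  obtain ⟨L, hL⟩ := isLat_sp2 hτ.ne'
  obtain ⟨L', hL'⟩ := isLat_sp2 hτ'.ne'
  obtain ⟨N, hN⟩ : ∃ N : ℕ, (N : ℤ) = M.det := ⟨M.det.toNat, Int.toNat_of_nonneg hM.le⟩
  have hNo : Odd N := by rw [← hN] at hodd; exact_mod_cast hodd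
  have hNp : (0 : ℝ) < N := by exact_mod_cast hNo.pos
  have hN0 : (N : ℂ) ≠ 0 := by exact_mod_cast hNo.pos.ne'
  have hdet : (N : ℂ) = M 0 0 * M 1 1 - M 0 1 * M 1 0 := by
    rw [Matrix.det_fin_two] at hN
    exact_mod_cast congrArg (fun x : ℤ => (x : ℂ)) hN
  have him : (act M τ).im = N * τ.im / ‖den M τ‖ ^ 2 := by
    rw [act, im_mob, ← Matrix.det_fin_two, ← hN, den]
    push_cast
    rfl
  have hact := sp2_act hM.ne' hτ
  generalize den M τ = d at hd hle him hact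
  generalize act M τ = τ' at hτ' hL' hle him hact
  have hμ : d / N ≠ 0 := div_ne_zero hd hN0
  have sB := Gal.sc_scale L' hμ
  generalize Gal.scale L' hμ = B at sB
  obtain ⟨ν, hν⟩ : ∃ ν : ℂ, ν = (d / N)⁻¹ := ⟨_, rfl⟩
  have hdν : ∀ z, d * (ν * z) = N * z := fun z => by rw [hν]; field_simp
  have hB : ∀ z, ν * z ∈ sp2 τ' 1 ↔ z ∈ B.lattice := fun z => by
    rw [hν, ← hL']
    exact sB.symm.mem z
  have hwp : ∀ z, ℘[B] z = ν ^ 2 * ℘[L'] (ν * z) := fun z => by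
    rw [hν, ← sB.wp, mul_inv_cancel_left₀ hμ]
  have hdown : ∀ z ∈ sp2 τ' 1, d * z ∈ sp2 τ 1 := fun z hz => by
    have h1 : d * z ∈ sc d (sp2 τ' 1) := (mul_mem_sc hd).2 hz
    rw [hact] at h1
    exact sp2_le.2 ⟨mem_sp2.2 ⟨M 0 0, M 0 1, by ring⟩, mem_sp2.2 ⟨M 1 0, M 1 1, by ring⟩⟩ h1
  have hup : ∀ z ∈ sp2 τ 1, ν * z ∈ sp2 τ' 1 := fun z hz => by
    obtain ⟨m, n, rfl⟩ := mem_sp2.1 hz
    rw [← mul_mem_sc hd, hdν, hact, hdet]
    exact mem_sp2.2 ⟨m * M 1 1 - n * M 1 0, n * M 0 0 - m * M 0 1, by push_cast; ring⟩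
  have hback : ∀ z : ℂ, 2 * z ∈ sp2 τ 1 → N * z ∈ sp2 τ 1 → z ∈ sp2 τ 1 := fun z k1 k2 => by
    have := sub_mem k2 (ep_odd hNo k1)
    rwa [sub_sub_cancel] at this
  have hf : ∀ j, ∃ j', ν * hp τ j - hp τ' j' ∈ sp2 τ' 1 := fun j =>
    ep_class (fun h => ep_notMem hτ j (hback _ (ep_two τ j) (hdν _ ▸ hdown _ h))) (by
      rw [mul_left_comm]
      exact hup _ (ep_two τ j))
  choose f hf using hf
  have finj : ∀ j k, f j = f k → j = k := fun j k e => by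
    have h1 := sub_mem (hf j) (hf k)
    rw [e, sub_sub_sub_cancel_right, ← mul_sub] at h1
    refine ep_sub hτ (hback _ ?_ (hdν _ ▸ hdown _ h1))
    rw [mul_sub]
    exact sub_mem (ep_two τ j) (ep_two τ k)
  have fi : ∀ j, i' = f j → i = j := fun j e => by
    have h1 := hdown _ (hf j)
    rw [mul_sub, hdν, ← e] at h1
    have h3 : 2 * (d * hp τ' i') ∈ nb 2 1 τ i := by
      rw [mul_left_comm]
      exact hle ((mul_mem_sc hd).2 (ep_nb1 τ' i'))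
    rcases ep_nb2 h3 with h4 | h4
    · have h5 := add_mem h1 h4
      rw [sub_add_cancel] at h5
      exact (ep_notMem hτ j (hback _ (ep_two τ j) h5)).elim
    · have h5 := sub_mem (add_mem h1 h4) (ep_odd hNo (ep_two τ j))
      rw [show N * hp τ j - d * hp τ' i' + (d * hp τ' i' - hp τ i) - (N * hp τ j - hp τ j) =
        hp τ j - hp τ i by ring] at h5
      exact (ep_sub hτ h5).symm
  have fw : ∀ j, ℘[B] (hp τ j) = ν ^ 2 * ℘[L'] (hp τ' (f j)) := fun j => by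
    rw [hwp, ← L'.weierstrassP_sub_coe _ ⟨_, hL' ▸ hf j⟩, sub_sub_cancel]
  obtain ⟨j, k, hij, hik, hjk⟩ : ∃ j k, i ≠ j ∧ i ≠ k ∧ j ≠ k := by
    rcases i with _ | a
    · exact ⟨some 0, some 1, by simp, by simp, by simp⟩
    · exact ⟨none, some (a + 1), by simp, by fin_cases a <;> simp, by simp⟩
  have w1 := ep_wc pe hτ hL hij hik hjk
  have w2 := ep_wc pe hτ' hL' (fun e => hij (fi j e)) (fun e => hik (fi k e))
    fun e => hjk (finj j k e)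
  have hjL : jPer L = jf τ := by rw [← jL_lattice, hL, jL_tau hτ]
  have hE : ∀ W : Valuation ℂ ℝ≥0, W 2 < 1 → W (jf τ) ≤ W 2 ^ 8 →
      W ((℘[B] (hp τ j) - ℘[B] (hp τ k)) / (℘[L] (hp τ j) - ℘[L] (hp τ k)) - 1) ^ 3 <
        W 2 ^ 4 := fun W k1 k2 =>
    eq W L B N _ _ k1 (hjL ▸ k2) (fun z hz => (hB z).1 (hup z (hL ▸ hz))) hNo
      (fun z hz => hL ▸ hdν z ▸ hdown _ ((hB z).2 hz)) (hL ▸ ep_notMem hτ j)
      (hL ▸ ep_notMem hτ k) (hL ▸ fun h => hjk (ep_sub hτ h)) (hL ▸ ep_two τ j) (hL ▸ ep_two τ k)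
  have hD := norm_pos_iff.2 (ep_wp_ne hτ hL hjk)
  have c2 : V.comap (starRingEnd ℂ) 2 = V 2 := by
    rw [Valuation.comap_apply, map_ofNat]
  have e1 := hE V h2 hj
  have e2 := hE (V.comap (starRingEnd ℂ)) (c2 ▸ h2) (c2 ▸ hj')
  rw [c2, Valuation.comap_apply, map_sub, map_one] at e2
  refine ep_val V h2 (N := N) (by exact_mod_cast hNo) e1 e2 ?_
  rw [Complex.mul_conj', fw, fw, ← mul_sub, norm_div, norm_mul, norm_pow, hν, norm_inv, norm_div,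
    Complex.norm_natCast]
  have hd' := norm_pos_iff.2 hd
  have hπ := Real.pi_pos
  generalize ‖℘[L] (hp τ j) - ℘[L] (hp τ k)‖ = x at w1 hD
  generalize ‖℘[L'] (hp τ' (f j)) - ℘[L'] (hp τ' (f k))‖ = y at w2
  have e3 : (Wc τ' i' / Wc τ i) ^ 4 * (N : ℝ) ^ 2 = ((‖d‖ / N)⁻¹ ^ 2 * y / x) ^ 2 := by
    rw [show (Wc τ' i' / Wc τ i) ^ 4 = (Wc τ' i' ^ 2 / Wc τ i ^ 2) ^ 2 by ring, w1, w2, him]
    field_simp
  exact_mod_cast congrArg (fun r : ℝ => (r : ℂ)) e3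

end Pool.Agent.B8
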