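import Pool.Agent.Lib.MP_696deb_nt.B8.ZA
import Pool.Agent.Lib.MP_696deb_nt.Transport

/-! The formula of Velu for an isogeny of odd degree, at a supersingular place above two. -/

set_option autoImplicit false

open Complex PeriodPair WeierstrassCurve
open scoped NNReal

namespace Pool.Agent.B8
open Pool.Agent.Lib.MP_696deb_nt Pool.Agent.Lib.MP_696deb_nt.B2.CM Pool.Agent.Shared.Weier
open Pool.Agent.Lib.MP_696deb_nt.Gal

namespace EQ

variable {V : Valuation ℂ ℝ≥0} {a b X Y : ℂ} {c : ℝ≥0}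

theorem v4 (V : Valuation ℂ ℝ≥0) : V 4 = V 2 ^ 2 := by rw [← map_pow]; norm_num

theorem v4_lt (h2 : V 2 < 1) : V 4 < 1 := by
  rw [v4]; exact pow_lt_one₀ zero_le h2 two_ne_zero

theorem not_lt_of_j (ha : a ≠ 0) (hb : b ≠ 0)
    (h : V (a ^ 2 - a * b + b ^ 2) ^ 3 ≤ V a ^ 2 * V b ^ 2 * V (a - b) ^ 2) : ¬ V a < V b := by
  intro k
  have pa := V.pos_iff.2 ha
  have pb := V.pos_iff.2 hb
  have e1 : V (a - b) = V b := V.map_sub_eq_of_lt_right k
  have e2 : V (a ^ 2 - a * b + b ^ 2) = V b ^ 2 := by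
    rw [show a ^ 2 - a * b + b ^ 2 = a * (a - b) + b ^ 2 by ring, V.map_add_eq_of_lt_right,
      map_pow]
    rw [map_mul, map_pow, e1, pow_two]
    exact mul_lt_mul_of_pos_right k pb
  rw [e1, e2] at h
  have : V a ^ 2 * V b ^ 2 * V b ^ 2 < V b ^ 2 * V b ^ 2 * V b ^ 2 := by gcongr
  exact (h.trans_lt this).ne (by ring)

/-- The differences of the roots have the same size. -/
theorem same_size (ha : a ≠ 0) (hb : b ≠ 0)
    (h : V (a ^ 2 - a * b + b ^ 2) ^ 3 ≤ V a ^ 2 * V b ^ 2 * V (a - b) ^ 2) :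
    V b = V a ∧ V (a - b) = V a := by
  have pa := V.pos_iff.2 ha
  have e : V b = V a := le_antisymm (not_lt.1 (not_lt_of_j ha hb h)) (not_lt.1 (not_lt_of_j hb ha (by
    rw [V.map_sub_swap b a, show b ^ 2 - b * a + a ^ 2 = a ^ 2 - a * b + b ^ 2 by ring,
      mul_comm (V b ^ 2)]
    exact h)))
  refine ⟨e, le_antisymm (V.map_sub_le le_rfl e.le) (not_lt.1 fun k => ?_)⟩
  have e2 : V (a ^ 2 - a * b + b ^ 2) = V a ^ 2 := by
    rw [show a ^ 2 - a * b + b ^ 2 = a * (a - b) + b ^ 2 by ring, V.map_add_eq_of_lt_right,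
      map_pow, e]
    rw [map_mul, map_pow, e, pow_two]
    exact mul_lt_mul_of_pos_left k pa
  rw [e, e2] at h
  have : V a ^ 2 * V a ^ 2 * V (a - b) ^ 2 < V a ^ 2 * V a ^ 2 * V a ^ 2 := by gcongr
  exact (h.trans_lt this).ne (by ring)

/-- Doubling moves a point of the kernel of reduction strictly away. -/
theorem grow (h2 : V 2 < 1) (ha : V a = c) (hb : V b = c) (hX : c < V X)
    (h : Y * (4 * X * (X - a) * (X - b)) = (X ^ 2 - a * b) ^ 2) : V X < V Y := by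
  have p : 0 < V X := zero_le.trans_lt hX
  have e1 : V (X - a) = V X := V.map_sub_eq_of_lt_left (ha ▸ hX)
  have e2 : V (X - b) = V X := V.map_sub_eq_of_lt_left (hb ▸ hX)
  have e3 : V (X ^ 2 - a * b) = V X ^ 2 := by
    rw [V.map_sub_eq_of_lt_left, map_pow]
    rw [map_mul, map_pow, ha, hb, ← pow_two]
    gcongr
  have e := congrArg V h
  simp only [map_mul, map_pow, e1, e2, e3] at e
  by_contra! k
  have : V Y * (V 4 * V X * V X * V X) < V X * (1 * V X * V X * V X) := by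
    refine lt_of_le_of_lt (by gcongr : _ ≤ V X * (V 4 * V X * V X * V X)) ?_
    have := v4_lt h2
    gcongr
  exact (e ▸ this).ne (by ring)

theorem far (h2 : V 2 < 1) (hc : 0 < c) (ha : V a = c) (hab : V (a - b) = c) (hX : V X ≤ c)
    (hY : V Y ≤ c) (hb : V b = c) (h : Y * (4 * X * (X - a) * (X - b)) = (X ^ 2 - a * b) ^ 2) :
    V (X - a) = c := by
  refine le_antisymm (V.map_sub_le hX ha.le) (not_lt.1 fun k => ?_)
  have e2 : V (X - b) ≤ c := V.map_sub_le hX hb.le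
  have e3 : V (X ^ 2 - a * b) = c ^ 2 := by
    rw [show X ^ 2 - a * b = (X - a) * (X + a) + a * (a - b) by ring, V.map_add_eq_of_lt_right,
      map_mul, ha, hab, pow_two]
    rw [map_mul, map_mul, ha, hab]
    exact lt_of_le_of_lt (by gcongr; exact V.map_add_le hX ha.le : _ ≤ V (X - a) * c) (by gcongr)
  have e := congrArg V h
  simp only [map_mul, map_pow, e3] at e
  have : V Y * (V 4 * V X * V (X - a) * V (X - b)) < c * (1 * c * c * c) := by
    refine lt_of_le_of_lt (by gcongr; exact (v4_lt h2).le : _ ≤ c * (1 * c * V (X - a) * c)) ?_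
    gcongr
  exact (e ▸ this).ne (by ring)

theorem term_le (h2 : V 2 < 1) (hc : 0 < c) (ha : V a = c) (hab : V (a - b) = c) (hX : V X ≤ c)
    (hY : V Y ≤ c) (hb : V b = c) (h : Y * (4 * X * (X - a) * (X - b)) = (X ^ 2 - a * b) ^ 2) :
    V ((X ^ 2 - a * b) / ((X - a) * (X - b))) ≤ V 2 := by
  have e1 := far h2 hc ha hab hX hY hb h
  have e2 := far (a := b) (b := a) h2 hc hb (by rw [V.map_sub_swap, hab]) hX hY ha
    (by linear_combination h)
  have e := congrArg V h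
  simp only [map_mul, map_pow, e1, e2, v4] at e
  rw [map_div₀, map_mul, e1, e2, div_le_iff₀ (by positivity)]
  refine (pow_le_pow_iff_left₀ zero_le zero_le two_ne_zero).1 ?_
  rw [← e]
  exact le_of_le_of_eq (by gcongr : _ ≤ c * (V 2 ^ 2 * c * c * c)) (by ring)

/-- A sum over pairs. -/
theorem sum_pair {ι : Type} (S : Finset ι) (f : ι → ℂ) (g : ι → ι) (r : ℝ≥0)
    (h1 : ∀ s ∈ S, f (g s) = f s) (h2 : ∀ s ∈ S, g s ≠ s) (h3 : ∀ s ∈ S, g s ∈ S)
    (h4 : ∀ s ∈ S, g (g s) = s) (h5 : ∀ s ∈ S, V (f s) ≤ r) : V (∑ s ∈ S, f s) ≤ V 2 * r := by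
  rw [← V.mem_leAddSubgroup_iff, ← QuotientAddGroup.eq_zero_iff, ← QuotientAddGroup.mk'_apply,
    map_sum]
  refine Finset.sum_involution (fun s _ => g s) (fun s hs => ?_) (fun s hs _ => h2 s hs) h3 h4
  rw [← map_add, h1 s hs, ← two_mul, QuotientAddGroup.mk'_apply, QuotientAddGroup.eq_zero_iff,
    V.mem_leAddSubgroup_iff, map_mul]
  gcongr
  exact h5 s hs

variable {L : PeriodPair} {u v z : ℂ}

/-- The duplication formula. -/
theorem wp_dup (hz : z ∉ L.lattice) (h2 : 2 * z ∉ L.lattice) :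
    (℘[L] (2 * z) + 2 * ℘[L] z) * ℘'[L] z ^ 2 = (3 * ℘[L] z ^ 2 - L.g₂ / 4) ^ 2 := by
  have W := isPer_shortW L
  have hd : ℘'[L] z ≠ 0 := (wp'_eq_zero_iff hz).not.2 h2
  have hy : uy L (shortW L) z ≠
      (shortW L).toAffine.negY (ux L (shortW L) z) (uy L (shortW L) z) := fun e => hd (by
    simp only [uy, Affine.negY, shortW] at e
    linear_combination e)
  have e := W.pt_add z z
  rw [← two_mul, W.pt_of_notMem h2, W.pt_of_notMem hz, Affine.Point.add_self_of_Y_ne hy] at e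
  have e1 := (Affine.Point.some.inj e).1
  have hs : (shortW L).toAffine.slope (ux L (shortW L) z) (ux L (shortW L) z) (uy L (shortW L) z)
      (uy L (shortW L) z) = (3 * ℘[L] z ^ 2 - L.g₂ / 4) / ℘'[L] z := by
    rw [Affine.slope_of_Y_ne rfl hy]
    simp only [ux, uy, Affine.negY, shortW, b₂]
    congr 1 <;> ring
  rw [hs] at e1
  simp only [ux, Affine.addX, shortW, b₂] at e1
  have e2 : ℘[L] (2 * z) + 2 * ℘[L] z = ((3 * ℘[L] z ^ 2 - L.g₂ / 4) / ℘'[L] z) ^ 2 := by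
    linear_combination e1
  rw [e2]
  field_simp

/-- Translation by a half period. -/
theorem wp_half (hu : u ∉ L.lattice) (h2 : 2 * u ∈ L.lattice) (hz : z ∉ L.lattice)
    (h1 : u + z ∉ L.lattice) :
    (℘[L] (u + z) + ℘[L] u + ℘[L] z) * (4 * (℘[L] z - ℘[L] u) ^ 2) = ℘'[L] z ^ 2 ∧
      ℘[L] z - ℘[L] u ≠ 0 := by
  have h3 : u - z ∉ L.lattice := fun e => h1 (by
    have := sub_mem h2 e
    rwa [show 2 * u - (u - z) = u + z by ring] at this)
  have e1 := zet_add_formula hu hz h1 h3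
  have e2 := wp_add hu hz h1 h3
  rw [(wp'_eq_zero_iff hu).2 h2] at e1
  refine ⟨?_, fun e => wp_ne hu hz h1 h3 (by linear_combination -e)⟩
  rw [e2]
  generalize zet L (u + z) - zet L u - zet L z = m at *
  linear_combination (℘'[L] z + 2 * (℘[L] z - ℘[L] u) * m) * e1

theorem roots (hu : u ∉ L.lattice) (hv : v ∉ L.lattice) (h2 : 2 * u ∈ L.lattice)
    (h3 : 2 * v ∈ L.lattice) (h : ℘[L] u - ℘[L] v ≠ 0) :
    L.g₂ = 4 * (℘[L] u ^ 2 + ℘[L] u * ℘[L] v + ℘[L] v ^ 2) ∧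
      L.g₃ = -4 * ℘[L] u * ℘[L] v * (℘[L] u + ℘[L] v) := by
  have s1 := L.derivWeierstrassP_sq u hu
  have s2 := L.derivWeierstrassP_sq v hv
  rw [(wp'_eq_zero_iff hu).2 h2] at s1
  rw [(wp'_eq_zero_iff hv).2 h3] at s2
  have e : L.g₂ = 4 * (℘[L] u ^ 2 + ℘[L] u * ℘[L] v + ℘[L] v ^ 2) :=
    mul_left_cancel₀ h (by linear_combination s1 - s2)
  exact ⟨e, by rw [e] at s1; linear_combination s1⟩

theorem odd_mem {m : ℕ} (hm : Odd m) (h1 : m * z ∈ L.lattice) (h2 : 2 * z ∈ L.lattice) :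
    z ∈ L.lattice := by
  obtain ⟨k, rfl⟩ := hm
  have := sub_mem h1 (nsmul_mem h2 k)
  rwa [show ((2 * k + 1 : ℕ) : ℂ) * z - k • (2 * z) = z by push_cast; ring] at this

end EQ

open EQ in
theorem eq_stmt : EQStmt := by
  intro V L M m u v h2 hj hle hm hmul hu hv huv hu2 hv2
  obtain ⟨T, hT⟩ := exists_reps hle
  have hne : ℘[L] u - ℘[L] v ≠ 0 := wp_ne hu hv (fun e => huv (by
    have := sub_mem e hv2
    rwa [show u + v - 2 * v = u - v by ring] at this)) huv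
  obtain ⟨g2, g3⟩ := roots hu hv hu2 hv2 hne
  obtain ⟨a, ha⟩ : ∃ a, a = 2 * ℘[L] u + ℘[L] v := ⟨_, rfl⟩
  obtain ⟨b, hb⟩ : ∃ b, b = ℘[L] u + 2 * ℘[L] v := ⟨_, rfl⟩
  obtain ⟨X, hX⟩ : ∃ X : ℂ → ℂ, ∀ z, X z = ℘[L] z + ℘[L] u + ℘[L] v := ⟨_, fun _ => rfl⟩
  have p2 : 0 < V 2 := V.pos_iff.2 two_ne_zero
  have hD : L.g₂ ^ 3 - 27 * L.g₃ ^ 2 = 2 ^ 4 * (a ^ 2 * b ^ 2 * (a - b) ^ 2) := by
    rw [g2, g3, ha, hb]; ring
  have hD0 : a ^ 2 * b ^ 2 * (a - b) ^ 2 ≠ 0 := fun e => disc_ne_zero L (by rw [hD, e, mul_zero])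
  have a0 : a ≠ 0 := fun e => hD0 (by rw [e]; ring)
  have b0 : b ≠ 0 := fun e => hD0 (by rw [e]; ring)
  have hJ : jPer L = 2 ^ 8 * ((a ^ 2 - a * b + b ^ 2) ^ 3 / (a ^ 2 * b ^ 2 * (a - b) ^ 2)) := by
    rw [jPer, hD, show 1728 * L.g₂ ^ 3 = 2 ^ 4 * (2 ^ 8 * (a ^ 2 - a * b + b ^ 2) ^ 3) by
      rw [g2, ha, hb]; ring, mul_div_mul_left _ _ (by norm_num), mul_div_assoc]
  rw [hJ, map_mul, map_pow, mul_le_iff_le_one_right (pow_pos p2 _), map_div₀,
    div_le_one₀ (V.pos_iff.2 hD0)] at hj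
  simp only [map_mul, map_pow] at hj
  obtain ⟨vb, vab⟩ := same_size a0 b0 hj
  have pa := V.pos_iff.2 a0
  have hsq : ∀ z ∉ L.lattice, ℘'[L] z ^ 2 = 4 * X z * (X z - a) * (X z - b) := fun z hz => by
    rw [L.derivWeierstrassP_sq z hz, g2, g3, hX, ha, hb]; ring
  have dup : ∀ z ∉ L.lattice, 2 * z ∉ L.lattice →
      X (2 * z) * (4 * X z * (X z - a) * (X z - b)) = (X z ^ 2 - a * b) ^ 2 := fun z hz h => by
    have e := wp_dup hz h
    rw [hsq z hz, g2] at e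
    simp only [hX, ha, hb] at e ⊢
    linear_combination e
  have per : ∀ z w, z - w ∈ L.lattice → ℘[L] z = ℘[L] w := fun z w h => by
    rw [← L.weierstrassP_add_coe w ⟨_, h⟩]; congr 1; ring
  have two : ∀ t ∈ M.lattice, t ∉ L.lattice → 2 * t ∉ L.lattice := fun t h1 h2 h3 =>
    h2 (odd_mem hm (hmul t h1) h3)
  have rep : ∀ t ∈ M.lattice, t ∉ L.lattice → ∃ s ∈ T.erase 0, t - s ∈ L.lattice := by
    intro t h1 h2
    obtain ⟨s, h3, h4⟩ := hT.ex t h1
    exact ⟨s, Finset.mem_erase.2 ⟨fun e => h2 (by simpa [e] using h4), h3⟩, h4⟩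
  have dbl : ∀ t ∈ M.lattice, 2 * t ∈ M.lattice := fun t h => two_mul t ▸ add_mem h h
  have bd : ∀ t ∈ M.lattice, t ∉ L.lattice → V (X t) ≤ V a := by
    intro t h1 h3
    obtain ⟨s, hs, e⟩ := rep t h1 h3
    obtain ⟨t0, ht0, hmax⟩ := (T.erase 0).exists_max_image (fun t => V (X t)) ⟨s, hs⟩
    have m0 := hT.mem t0 (Finset.mem_of_mem_erase ht0)
    have n0 := hT.notMem ht0
    have k0 : V (X t0) ≤ V a := not_lt.1 fun k => by
      obtain ⟨s', hs', e'⟩ := rep _ (dbl _ m0) (two _ m0 n0)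
      have := grow h2 rfl vb k (dup t0 n0 (two _ m0 n0))
      rw [hX (2 * t0), per _ _ e', ← hX] at this
      exact this.not_ge (hmax s' hs')
    rw [hX, per _ _ e, ← hX]
    exact (hmax s hs).trans k0
  have uM : u ∉ M.lattice := fun h => hu (odd_mem hm (hmul u h) hu2)
  have vM : v ∉ M.lattice := fun h => hv (odd_mem hm (hmul v h) hv2)
  have tm : ∀ t ∈ T.erase 0, (℘[L] (u + t) - ℘[L] (v + t)) / (℘[L] u - ℘[L] v) =
      (X t ^ 2 - a * b) / ((X t - a) * (X t - b)) := fun t ht => by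
    have m0 := hT.mem t (Finset.mem_of_mem_erase ht)
    have n0 := hT.notMem ht
    obtain ⟨e1, n1⟩ := wp_half hu hu2 n0 fun e => add_notMem uM m0 (hle e)
    obtain ⟨e2, n2⟩ := wp_half hv hv2 n0 fun e => add_notMem vM m0 (hle e)
    rw [hsq t n0] at e1 e2
    have xa : X t - a = ℘[L] t - ℘[L] u := by rw [hX, ha]; ring
    have xb : X t - b = ℘[L] t - ℘[L] v := by rw [hX, hb]; ring
    rw [xa, xb] at e1 e2 ⊢
    have f1 : (℘[L] (u + t) + ℘[L] u + ℘[L] t) * (℘[L] t - ℘[L] u) = X t * (℘[L] t - ℘[L] v) :=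
      mul_left_cancel₀ (mul_ne_zero (by norm_num : (4 : ℂ) ≠ 0) n1) (by linear_combination e1)
    have f2 : (℘[L] (v + t) + ℘[L] v + ℘[L] t) * (℘[L] t - ℘[L] v) = X t * (℘[L] t - ℘[L] u) :=
      mul_left_cancel₀ (mul_ne_zero (by norm_num : (4 : ℂ) ≠ 0) n2) (by linear_combination e2)
    rw [div_eq_div_iff hne (mul_ne_zero n1 n2)]
    simp only [hX, ha, hb] at f1 f2 ⊢
    linear_combination (℘[L] t - ℘[L] v) * f1 - (℘[L] t - ℘[L] u) * f2
  have key : (℘[M] u - ℘[M] v) / (℘[L] u - ℘[L] v) - 1 =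
      ∑ t ∈ T.erase 0, (X t ^ 2 - a * b) / ((X t - a) * (X t - b)) := by
    rw [← Finset.sum_congr rfl tm, ← Finset.sum_div, hT.velu hle uM, hT.velu hle vM,
      sub_sub_sub_cancel_right, ← Finset.sum_sub_distrib, ← Finset.add_sum_erase _ _ hT.zero,
      add_zero, add_zero, add_div, div_self hne, add_sub_cancel_left]
  choose! g g1 g2' using rep
  have ng : ∀ t ∈ T.erase 0, -t ∈ M.lattice ∧ -t ∉ L.lattice := fun t ht =>
    ⟨neg_mem (hT.mem t (Finset.mem_of_mem_erase ht)), fun e => hT.notMem ht (by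
      simpa using neg_mem e)⟩
  have fin := sum_pair (V := V) (T.erase 0)
    (fun t => (X t ^ 2 - a * b) / ((X t - a) * (X t - b))) (fun t => g (-t)) (V 2)
    (fun t ht => by
      have : X (g (-t)) = X t := by
        rw [hX, hX, ← per _ _ (g2' _ (ng t ht).1 (ng t ht).2), weierstrassP_neg]
      simp only [this])
    (fun t ht e => by
      have := g2' _ (ng t ht).1 (ng t ht).2
      rw [e, show -t - t = -(2 * t) by ring, neg_mem_iff] at this
      exact two t (hT.mem t (Finset.mem_of_mem_erase ht)) (hT.notMem ht) this)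
    (fun t ht => g1 _ (ng t ht).1 (ng t ht).2)
    (fun t ht => by
      have k1 := g1 _ (ng t ht).1 (ng t ht).2
      refine hT.uniq _ (Finset.mem_of_mem_erase (g1 _ (ng _ k1).1 (ng _ k1).2)) _
        (Finset.mem_of_mem_erase ht) ?_
      have := sub_mem (g2' _ (ng t ht).1 (ng t ht).2) (g2' _ (ng _ k1).1 (ng _ k1).2)
      rwa [show -t - g (-t) - (-g (-t) - g (-g (-t))) = g (-g (-t)) - t by ring] at this)
    (fun t ht => by
      have m0 := hT.mem t (Finset.mem_of_mem_erase ht)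
      have n0 := hT.notMem ht
      exact term_le h2 pa rfl vab (bd t m0 n0) (bd _ (dbl t m0) (two t m0 n0)) vb
        (dup t n0 (two t m0 n0)))
  rw [key]
  calc _ ≤ (V 2 * V 2) ^ 3 := by gcongr
    _ = V 2 ^ 6 := by ring
    _ < V 2 ^ 4 := pow_lt_pow_right_of_lt_one₀ p2 h2 (by norm_num)

end Pool.Agent.B8
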