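import Pool.Agent.Lib.MP_696deb_nt.B8.ZA
import Pool.Agent.Lib.MP_696deb_nt.B2.CMd

/-! The theta constants at points of odd conductor are congruent. -/

set_option autoImplicit false

open Complex
open scoped Classical NNReal Real

namespace Pool.Agent.B8
open Pool.Agent.Lib.MP_696deb_nt Pool.Agent.Lib.MP_696deb_nt.B2.CM

/-- The quadratic form of a point of odd conductor has odd coefficients. -/
theorem ex_quad {n c : ℕ} {τ : ℂ} {x : Pc n c} (hn : Nk n) (hc : Odd c) (h : Rp n c τ x) :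
    ∃ A B C : ℤ, Odd A ∧ Odd B ∧ Odd C ∧ 0 < A ∧ B ^ 2 + n * c ^ 2 = 4 * A * C ∧
      2 * A * τ + B = c * dl n := by
  have h8 := hn.m8
  have h3 := hn.gt
  have h4 : n % 4 = 3 := by omega
  have hn0 : 0 < n := by omega
  have hc0 : c ≠ 0 := by rintro rfl; simp at hc
  have hb : be n c c ∈ Oc n c := be_mem h4 (by simp)
  obtain ⟨x, y, e1⟩ := cmd_mem (h.iv.mul_mem hb (right_mem_sp2 τ 1))
  obtain ⟨z, w, e2⟩ := cmd_mem (h.iv.mul_mem hb (left_mem_sp2 τ 1))
  rw [mul_one] at e1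
  have hN : (c : ℤ) ^ 2 + n * c ^ 2 = 4 * ((n + 1) / 4 * c ^ 2) := by
    rw [← mul_assoc, cma_four h4]; ring
  have hsq := be_sq hN
  have hi := be_indep (b := c) hn0 hc0 (x := z * y - x * w - (n + 1) / 4 * c ^ 2)
    (y := c - y - z) (by
      generalize ((n : ℤ) + 1) / 4 * c ^ 2 = N at hsq
      push_cast at hsq ⊢
      linear_combination (-1 : ℂ) * hsq + (x : ℂ) * e2 + (be n c c - z) * e1)
  have eq1 : (2 * y - c) ^ 2 + n * c ^ 2 = 4 * x * (-w) := by
    linear_combination hN - 4 * hi.1 - 4 * y * hi.2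
  have eq2 : 2 * (x : ℂ) * τ + ((2 * y - c : ℤ) : ℂ) = c * dl n := by
    rw [be] at e1
    push_cast at e1 ⊢
    linear_combination (-2 : ℂ) * e1
  have hodd : Odd (x * (-w)) := by
    obtain ⟨k, hk⟩ := hc
    obtain ⟨m, hm⟩ : ∃ m : ℕ, n = 8 * m + 3 := ⟨n / 8, by omega⟩
    obtain ⟨t, ht⟩ := Int.even_mul_succ_self (y - k - 1)
    obtain ⟨u, hu⟩ := Int.even_mul_succ_self (k : ℤ)
    refine ⟨t + m * (2 * k + 1) ^ 2 + 3 * u, ?_⟩
    rw [hk, hm] at eq1
    push_cast at eq1
    have : 4 * (x * -w) = 4 * (2 * (t + m * (2 * k + 1) ^ 2 + 3 * u) + 1) := by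
      linear_combination (-1) * eq1 + 4 * ht + 12 * hu
    omega
  refine ⟨x, 2 * y - c, -w, (Int.odd_mul.1 hodd).1, ?_, (Int.odd_mul.1 hodd).2, ?_, eq1, eq2⟩
  · obtain ⟨k, hk⟩ := hc
    exact ⟨y - k - 1, by rw [hk]; push_cast; ring⟩
  · have h1 := congrArg Complex.im eq2
    simp only [add_im, mul_im, intCast_im, natCast_re, natCast_im, intCast_re, mul_re, re_ofNat,
      im_ofNat, mul_zero, zero_mul, add_zero, sub_zero] at h1
    have h2 : (0 : ℝ) < c * (dl n).im :=
      mul_pos (Nat.cast_pos.2 (Nat.pos_of_ne_zero hc0)) (dl_im hn0)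
    have h5 : (0 : ℝ) < x := by
      by_contra hx
      have := mul_nonpos_of_nonpos_of_nonneg (not_lt.1 hx) h.pos.le
      linarith
    exact_mod_cast h5

/-- The test for membership in a neighbour. -/
def exT {R : Type} [CommRing R] (i : Option (Fin 2)) (x y : R) : R :=
  match i with
  | none => x
  | some k => y - x * (k : ℕ)

/-- The generator of a neighbour. -/
def exR {R : Type} [CommRing R] (i : Option (Fin 2)) (u v : R) : R :=
  match i with
  | none => v
  | some k => u + (k : ℕ) * v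

theorem ex_two (b : ZMod 2) (i i' : Option (Fin 2)) : ∃ p q : ZMod 2,
    p ^ 2 - p * q + q ^ 2 = 1 ∧
      exT i (exR i' (p - q + b * q) q) (exR i' (-q + b * p) p) = 0 := by
  revert b i i'
  decide

theorem ex_cast {x : ℤ} (h : Odd x) : (x : ZMod 2) = 1 := by
  obtain ⟨k, rfl⟩ := h
  have : (2 : ZMod 2) = 0 := rfl
  push_cast
  rw [this]; ring

theorem ex_mem {τ : ℂ} (hτ : 0 < τ.im) (i : Option (Fin 2)) {x y : ℤ}
    (h : exT i (x : ZMod 2) (y : ZMod 2) = 0) : (x : ℂ) * τ + y ∈ nb 2 1 τ i := by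
  cases i with
  | none => exact (cmd_mem_none hτ.ne').2 ((ZMod.intCast_zmod_eq_zero_iff_dvd x 2).1 h)
  | some k =>
    refine (cmd_mem_some hτ.ne').2 ((ZMod.intCast_zmod_eq_zero_iff_dvd _ 2).1 ?_)
    push_cast
    simpa [exT] using h

theorem ex_le {τ : ℂ} (hτ : 0 < τ.im) {a b c d : ℤ} (hd : a * d - b * c ≠ 0)
    (i i' : Option (Fin 2))
    (h : exT i (exR i' (a : ZMod 2) c) (exR i' (b : ZMod 2) d) = 0) :
    sc (den !![a, b; c, d] τ) (nb 2 1 (act !![a, b; c, d] τ) i') ≤ nb 2 1 τ i := by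
  have h0 : den !![a, b; c, d] τ ≠ 0 := den_ne' (by rwa [Matrix.det_fin_two_of]) hτ
  have e0 : den !![a, b; c, d] τ = c * τ + d := by simp [den]
  have e1 : den !![a, b; c, d] τ * act !![a, b; c, d] τ = a * τ + b := by
    rw [e0] at h0 ⊢
    rw [act_of, mob, mul_div_cancel₀ _ h0]
  have two : ∀ x y : ℤ, ((2 * x : ℤ) : ℂ) * τ + (2 * y : ℤ) ∈ nb 2 1 τ i := fun x y =>
    ex_mem hτ i (by
      have : (2 : ZMod 2) = 0 := rfl
      push_cast
      rw [this]
      cases i <;> simp [exT])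
  cases i' with
  | none =>
    rw [nb, sc_sp2]
    refine sp2_le.2 ⟨?_, ?_⟩
    · have := two a b
      convert this using 1
      push_cast
      linear_combination 2 * e1
    · rw [mul_one, e0]
      exact ex_mem hτ i h
  | some k =>
    rw [nb, sc_sp2]
    refine sp2_le.2 ⟨?_, ?_⟩
    · have := ex_mem hτ i (x := a + (k : ℕ) * c) (y := b + (k : ℕ) * d) (by
        push_cast
        exact h)
      convert this using 1
      push_cast
      linear_combination e1 + ((k : ℕ) : ℂ) * e0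
    · have := two c d
      convert this using 1
      push_cast
      linear_combination 2 * e0

/-- Two points of odd conductor are joined by an isogeny of odd degree that respects given
neighbours. -/
theorem ex_isog {n c c' : ℕ} {τ τ' : ℂ} {x : Pc n c} {x' : Pc n c'} (hn : Nk n) (hc : Odd c)
    (hc' : Odd c') (h : Rp n c τ x) (h' : Rp n c' τ' x') (i i' : Option (Fin 2)) :
    ∃ M : MZ, 0 < M.det ∧ Odd M.det ∧ act M τ = τ' ∧
      sc (den M τ) (nb 2 1 (act M τ) i') ≤ nb 2 1 τ i := by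
  obtain ⟨A, B, C, oA, oB, oC, pA, e1, e2⟩ := ex_quad hn hc h
  obtain ⟨A', B', C', oA', oB', -, pA', -, e2'⟩ := ex_quad hn hc' h'
  have oc : Odd (c : ℤ) := by exact_mod_cast hc
  have oc' : Odd (c' : ℤ) := by exact_mod_cast hc'
  have pc : (0 : ℤ) < c := by exact_mod_cast hc.pos
  have pc' : (0 : ℤ) < c' := by exact_mod_cast hc'.pos
  obtain ⟨b, hb⟩ := (oc'.mul oB).sub_odd (oB'.mul oc)
  obtain ⟨p₀, q₀, hpq, ht⟩ := ex_two (b : ZMod 2) i i'
  obtain ⟨p, rfl⟩ := ZMod.intCast_surjective p₀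
  obtain ⟨q, rfl⟩ := ZMod.intCast_surjective q₀
  have of : Odd (p ^ 2 - p * q * B + q ^ 2 * (A * C)) := by
    rw [← Int.not_even_iff_odd, even_iff_two_dvd]
    intro hd
    have := (ZMod.intCast_zmod_eq_zero_iff_dvd _ 2).2 hd
    push_cast at this
    rw [ex_cast oA, ex_cast oB, ex_cast oC] at this
    simp only [mul_one] at this
    rw [hpq] at this
    exact one_ne_zero this
  have pf : 0 < p ^ 2 - p * q * B + q ^ 2 * (A * C) := by
    have h1 : 4 * (p ^ 2 - p * q * B + q ^ 2 * (A * C)) =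
        (2 * p - q * B) ^ 2 + q ^ 2 * (n * c ^ 2) := by linear_combination (-q ^ 2) * e1
    have h2 : 0 ≤ (2 * p - q * B) ^ 2 + q ^ 2 * (n * c ^ 2) := by positivity
    obtain ⟨t, ht⟩ := of
    omega
  have hdet : (c' * A * (p - q * B) + b * (q * A)) * (A' * c * p) -
      (-(c' * A * q * C) + b * p) * (A' * c * (q * A)) =
      c' * A * (A' * c) * (p ^ 2 - p * q * B + q ^ 2 * (A * C)) := by ring
  have hpos : 0 < c' * A * (A' * c) * (p ^ 2 - p * q * B + q ^ 2 * (A * C)) := by positivity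
  refine ⟨!![c' * A * (p - q * B) + b * (q * A), -(c' * A * q * C) + b * p;
    A' * c * (q * A), A' * c * p], ?_, ?_, ?_, ?_⟩
  · rw [Matrix.det_fin_two_of, hdet]; exact hpos
  · rw [Matrix.det_fin_two_of, hdet]
    exact ((oc'.mul oA).mul (oA'.mul oc)).mul of
  · have h0 := den_ne (a := c' * A * (p - q * B) + b * (q * A)) (b := -(c' * A * q * C) + b * p)
      (c := A' * c * (q * A)) (d := A' * c * p) (by rw [hdet]; exact hpos.ne') h.pos
    rw [act_of, mob, div_eq_iff h0]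
    have hA : (A : ℂ) ≠ 0 := Int.cast_ne_zero.2 pA.ne'
    have e1' : (B : ℂ) ^ 2 + n * c ^ 2 = 4 * A * C := by exact_mod_cast e1
    have hq : (A : ℂ) * τ ^ 2 + B * τ + C = 0 := by
      apply mul_left_cancel₀ (mul_ne_zero (by norm_num : (4 : ℂ) ≠ 0) hA)
      linear_combination (2 * A * τ + B + c * dl n) * e2 + (c : ℂ) ^ 2 * dl_sq n - e1'
    have hb' : (c' : ℂ) * B - B' * c = b + b := by exact_mod_cast hb
    have hl : (A' : ℂ) * c * τ' = c' * A * τ + b := by
      linear_combination (c : ℂ) / 2 * e2' - (c' : ℂ) / 2 * e2 + hb' / 2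
    push_cast
    linear_combination (-(p + q * A * τ) : ℂ) * hl - (c' * A * q : ℂ) * hq
  · refine ex_le h.pos (by rw [hdet]; exact hpos.ne') i i' ?_
    push_cast
    have c1 : ((c : ℕ) : ZMod 2) = 1 := by exact_mod_cast ex_cast oc
    have c2 : ((c' : ℕ) : ZMod 2) = 1 := by exact_mod_cast ex_cast oc'
    rw [ex_cast oA, ex_cast oA', ex_cast oB, ex_cast oC, c1, c2]
    simpa only [mul_one, one_mul] using ht

theorem ex_stmt' (vj : VJStmt) (ep : EPStmt) : EXStmt := by
  intro n c c' V τ τ' B B' hn hc hc' hV h h' i i'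
  obtain ⟨M, h1, h2, rfl, h4⟩ := ex_isog hn hc hc' h h' i i'
  refine ep V τ M i i' hV h.pos h1 h2 (vj n c V τ B hn hc hV h).1 ?_ h4
  have e : V.comap (starRingEnd ℂ) 2 = V 2 := by
    rw [Valuation.comap_apply, map_ofNat]
  have := (vj n c (V.comap (starRingEnd ℂ)) τ B hn hc (by rwa [e]) h).1
  rwa [e, Valuation.comap_apply] at this

theorem ex_stmt (_ : NBStmt) (vj : VJStmt) (ep : EPStmt) : EXStmt := ex_stmt' vj ep

end Pool.Agent.B8
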