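import Pool.Agent.Lib.MP_696deb_nt.B8.FAa

/-! The Gaussian sum over a lattice in terms of theta constants. -/

set_option autoImplicit false

open Complex Filter Topology
open scoped Real ComplexConjugate

namespace Pool.Agent.B8
open Pool.Agent.Lib.MP_696deb_nt Pool.Agent.Lib.MP_696deb_nt.B2.CM

theorem fa_congr {ι : Type} {f g : ι → ℂ} {a b : ℂ} (h : HasSum f a) (e : ∀ i, g i = f i)
    (e' : b = a) : HasSum g b := by
  rw [funext e, e']
  exact h

theorem fa_sq (w : ℂ) {z : ℂ} (hz : 0 < z.im) :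
    HasSum (fun v : ℤ × ℤ => jacobiTheta₂_term v.1 w z * conj (jacobiTheta₂_term v.2 w z))
      ((‖jacobiTheta₂ w z‖ ^ 2 : ℝ) : ℂ) := by
  have h1 := hasSum_jacobiTheta₂_term w hz
  have h2 : HasSum (fun n => conj (jacobiTheta₂_term n w z)) (conj (jacobiTheta₂ w z)) :=
    h1.map (starRingEnd ℂ) continuous_conj
  generalize jacobiTheta₂ w z = a at h1 h2 ⊢
  have h4 := summable_mul_of_summable_norm (f := fun n => jacobiTheta₂_term n w z)
    (g := fun n => conj (jacobiTheta₂_term n w z)) h1.summable.norm h2.summable.norm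
  have h3 := h1.mul h2 h4
  rwa [mul_conj, normSq_eq_norm_sq] at h3

theorem fa_term (a b : ℤ) (s : ℝ) (z : ℂ) :
    jacobiTheta₂_term a s z * conj (jacobiTheta₂_term b s z) =
      cexp (2 * π * I * (a - b) * s + π * I * (a ^ 2 - b ^ 2) * z.re -
        π * (a ^ 2 + b ^ 2) * z.im) := by
  rw [jacobiTheta₂_term, jacobiTheta₂_term, ← exp_conj, ← Complex.exp_add]
  congr 1
  have h1 : z = z.re + z.im * I := (re_add_im z).symm
  have h2 : conj z = z.re - z.im * I := Complex.ext (by simp) (by simp)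
  simp only [map_add, map_mul, map_pow, map_ofNat, conj_ofReal, conj_I, map_intCast, h2]
  linear_combination π * I * a ^ 2 * h1 + π * (a ^ 2 + b ^ 2) * z.im * I_sq

theorem fa_dual {τ : ℂ} (hτ : 0 < τ.im) :
    HasSum (fun v : ℤ × ℤ => cexp (-π * τ.im * v.1 ^ 2) *
        cexp (-π * τ.im * v.2 ^ 2 + 2 * π * (-I * (v.1 * τ.re)) * v.2))
      (((‖jacobiTheta₂ 0 (τ / 2)‖ ^ 2 + ‖jacobiTheta₂ (1 / 2) (τ / 2)‖ ^ 2) / 2 : ℝ) : ℂ) := by
  have hz : 0 < (τ / 2).im := by simpa using hτ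
  have h := ((fa_sq ((0 : ℝ) : ℂ) hz).add (fa_sq ((1 / 2 : ℝ) : ℂ) hz)).div_const 2
  simp only [fa_term] at h
  have hi : Function.Injective fun v : ℤ × ℤ => (v.1 - v.2, v.1 + v.2) := fun v w e => by
    simp only [Prod.mk.injEq] at e
    exact Prod.ext (by omega) (by omega)
  rw [← hi.hasSum_iff] at h
  · refine fa_congr h (fun ⟨m, k⟩ => ?_) ?_
    · have e : cexp (2 * π * I * ((m - k : ℤ) - (m + k : ℤ)) * (1 / 2 : ℝ) +
          π * I * ((m - k : ℤ) ^ 2 - (m + k : ℤ) ^ 2) * (τ / 2).re -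
          π * ((m - k : ℤ) ^ 2 + (m + k : ℤ) ^ 2) * (τ / 2).im) =
          cexp (2 * π * I * ((m - k : ℤ) - (m + k : ℤ)) * (0 : ℝ) +
          π * I * ((m - k : ℤ) ^ 2 - (m + k : ℤ) ^ 2) * (τ / 2).re -
          π * ((m - k : ℤ) ^ 2 + (m + k : ℤ) ^ 2) * (τ / 2).im) :=
        exp_eq_exp_iff_exists_int.mpr ⟨-k, by push_cast; ring⟩
      simp only [Function.comp_def, e, add_self_div_two, ← Complex.exp_add]
      congr 1
      simp only [div_ofNat_re, div_ofNat_im]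
      push_cast
      ring
    · push_cast
      rfl
  · rintro ⟨a, b⟩ hv
    obtain ⟨k, hk⟩ : Odd (a - b) := by
      rw [← Int.not_even_iff_odd]
      rintro ⟨k, hk⟩
      exact hv ⟨(b + k, -k), Prod.ext (by simp only; omega) (by simp only; omega)⟩
    have hk' : (a : ℂ) - b = 2 * k + 1 := by exact_mod_cast hk
    have e : ∀ u v : ℂ, cexp (2 * π * I * (a - b) * (1 / 2 : ℝ) + u - v) =
        -cexp (2 * π * I * (a - b) * (0 : ℝ) + u - v) := fun u v => by
      rw [← exp_add_pi_mul_I]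
      exact exp_eq_exp_iff_exists_int.mpr ⟨k, by rw [hk']; push_cast; ring⟩
    simp only [e, add_neg_cancel, zero_div]

theorem fa_row {y : ℝ} (hy : 0 < y) (s : ℝ) :
    HasSum (fun n : ℤ => cexp (-π / y * (n + s) ^ 2))
      (√y * ∑' k : ℤ, cexp (-π * y * k ^ 2 + 2 * π * (-I * s) * k)) := by
  have h0 : (y : ℂ) ≠ 0 := by exact_mod_cast hy.ne'
  have hs : Summable fun n : ℤ => cexp (-π / y * (n + s) ^ 2) := by
    refine (((summable_jacobiTheta₂_term_iff (I * s / y) (I / y)).mpr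
      (by simpa using hy)).mul_left (cexp (-π / y * s ^ 2))).congr fun n => ?_
    rw [jacobiTheta₂_term, ← Complex.exp_add]
    congr 1
    linear_combination (2 * π * n * s / y + π * n ^ 2 / y) * I_sq
  have e : (y : ℂ) ^ (1 / 2 : ℂ) = √y := by
    rw [Real.sqrt_eq_rpow, ofReal_cpow hy.le]
    simp
  have h1 : ((√y : ℝ) : ℂ) ≠ 0 := by exact_mod_cast (Real.sqrt_pos.mpr hy).ne'
  rw [tsum_exp_neg_quadratic (by simpa using hy), e, ← mul_assoc, mul_one_div_cancel h1, one_mul,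
    show I * (-I * s) = s by linear_combination -(s : ℂ) * I_sq]
  exact hs.hasSum

/-- The Gaussian sum as a sum of two squares of absolute values. -/
theorem fa_Pz {τ : ℂ} (hτ : 0 < τ.im) : Pz τ =
    √τ.im * ((‖jacobiTheta₂ 0 (τ / 2)‖ ^ 2 + ‖jacobiTheta₂ (1 / 2) (τ / 2)‖ ^ 2) / 2) := by
  let g : ℤ × ℤ → ℝ := fun v => Real.exp (-π * normSq (v.1 * τ + v.2) / τ.im)
  let S : ℤ → ℂ := fun m => √τ.im * (cexp (-π * τ.im * m ^ 2) *
    ∑' k : ℤ, cexp (-π * τ.im * k ^ 2 + 2 * π * (-I * (m * τ.re)) * k))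
  have h0 : (τ.im : ℂ) ≠ 0 := by exact_mod_cast hτ.ne'
  have h1 : ∀ m : ℤ, HasSum (fun n : ℤ => (g (m, n) : ℂ)) (S m) := fun m => by
    have h := (fa_row hτ (m * τ.re)).mul_left (cexp (-π * τ.im * m ^ 2))
    refine fa_congr h (fun n => ?_) ?_
    · simp only [g, ofReal_exp, ← Complex.exp_add, normSq_apply]
      congr 1
      simp only [add_re, mul_re, intCast_re, intCast_im, add_im, mul_im]
      push_cast
      field_simp
      ring
    · simp only [S]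
      push_cast
      ring
  have h2 := fa_dual hτ
  have h3 := (h2.prod_fiberwise fun m =>
    ((h2.summable.prod_factor m).congr (fun k => rfl)).hasSum).mul_left (√τ.im : ℂ)
  simp only [tsum_mul_left] at h3
  have h4 : ∀ m : ℤ, HasSum (fun n : ℤ => g (m, n)) (S m).re := fun m => by
    simpa using (hasSum_re (h1 m))
  have h5 := hasSum_re h3
  have h6 : Summable g := (summable_prod_of_nonneg fun v => (Real.exp_pos _).le).mpr
    ⟨fun m => (h4 m).summable, h5.summable.congr fun m => (h4 m).tsum_eq.symm⟩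
  rw [← ofReal_mul, ofReal_re] at h5
  exact (h6.hasSum.prod_fiberwise h4).unique h5

theorem fa_Pz_S {τ : ℂ} (hτ : 0 < τ.im) : Pz (-1 / τ) = Pz τ := by
  have h0 : τ ≠ 0 := fun h => by simp [h] at hτ
  have h1 : normSq τ ≠ 0 := by simpa using h0
  let q : ℤ × ℤ ≃ ℤ × ℤ :=
    ⟨fun v => (-v.2, v.1), fun v => (v.2, -v.1), fun v => by simp, fun v => by simp⟩
  rw [Pz, Pz, ← q.tsum_eq]
  refine tsum_congr fun v => ?_
  have e : ((-v.2 : ℤ) : ℂ) * (-1 / τ) + v.1 = (v.1 * τ + v.2) / τ := by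
    push_cast
    field_simp
    ring
  have e2 : (-1 / τ).im = τ.im / normSq τ := by
    rw [neg_div, one_div, neg_im, inv_im, neg_div, neg_neg]
  have := hτ.ne'
  simp only [q, Equiv.coe_fn_mk]
  rw [e, e2, map_div₀]
  congr 1
  field_simp

/-- The invariant absolute values are those of the squares of the theta constants. -/
theorem fa_Wc {τ : ℂ} (hτ : 0 < τ.im) (i : Option (Fin 2)) :
    Wc τ i = √τ.im * ‖fth i τ‖ ^ 2 := by
  have h1 := congr_arg norm (fth_pow i hτ)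
  have h2 : 0 < τ.im ^ 6 * ‖Dl τ‖ := mul_pos (pow_pos hτ _) (norm_pos_iff.mpr (Dl_ne hτ))
  have h3 : √τ.im ^ 12 = τ.im ^ 6 := by
    rw [show 12 = 2 * 6 from rfl, pow_mul, Real.sq_sqrt hτ.le]
  rw [norm_pow, norm_mul, norm_pow] at h1
  rw [Wc, H3.T.Lam, Real.exp_log h2, show ‖ph 2 i τ‖ ^ 2 * (τ.im ^ 6 * ‖Dl τ‖) =
    (√τ.im * ‖fth i τ‖ ^ 2) ^ 12 by rw [mul_pow, h3, ← pow_mul, h1]; ring, one_div]
  exact_mod_cast Real.pow_rpow_inv_natCast (by positivity) (n := 12) (by norm_num)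

theorem fa_Wc_T {τ : ℂ} (hτ : 0 < τ.im) (i : Option (Fin 2)) : Wc (τ + 1) i = Wc τ (faT i) := by
  simp only [Wc, H3.T.Lam, fa_ph_T i hτ, fa_Dl_T hτ, add_im, one_im, add_zero]

theorem fa_Wc_S {τ : ℂ} (hτ : 0 < τ.im) (i : Option (Fin 2)) : Wc (-1 / τ) i = Wc τ (faS i) := by
  have h0 : τ ≠ 0 := fun h => by simp [h] at hτ
  have h1 : ‖τ‖ ≠ 0 := by simpa using h0
  have e2 : (-1 / τ).im = τ.im / ‖τ‖ ^ 2 := by
    rw [neg_div, one_div, neg_im, inv_im, neg_div, neg_neg, normSq_eq_norm_sq]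
  have e : (-1 / τ).im ^ 6 * ‖Dl (-1 / τ)‖ = τ.im ^ 6 * ‖Dl τ‖ := by
    rw [fa_Dl_S hτ, e2, norm_mul, norm_pow]
    field_simp
  simp only [Wc, H3.T.Lam, fa_ph_S i hτ, e]

theorem fa_none {τ : ℂ} (hτ : 0 < τ.im) :
    Pz (2 * τ) = (Wc τ (some 0) + Wc τ (some 1)) / √2 := by
  have h : √2 * √2 = 2 := Real.mul_self_sqrt zero_le_two
  have h2 : √2 ≠ 0 := by positivity
  rw [fa_Pz (by simpa using hτ), fa_Wc hτ, fa_Wc hτ, fth_zero, fth_one,
    show 2 * τ / 2 = τ by ring, show (2 * τ).im = 2 * τ.im by simp, Real.sqrt_mul zero_le_two,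
    eq_div_iff h2]
  linear_combination √τ.im * ((‖jacobiTheta₂ 0 τ‖ ^ 2 + ‖jacobiTheta₂ (1 / 2) τ‖ ^ 2) / 2) * h

theorem fa_half {τ : ℂ} (hτ : 0 < τ.im) :
    Pz (τ / 2) = (Wc τ none + Wc τ (some 1)) / √2 := by
  rw [← fa_Pz_S (by simpa using hτ), show -1 / (τ / 2) = 2 * (-1 / τ) by
    rw [div_div_eq_mul_div]; ring, fa_none (fa_pos_S hτ), fa_Wc_S hτ, fa_Wc_S hτ]
  rfl

theorem fa_stmt : FAStmt := fun τ hτ i => by
  rw [fa_sum]
  rcases fa_cases i with rfl | rfl | rfl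
  · rw [hk, Nat.cast_ofNat, fa_none hτ]
    ring
  · rw [show hk 2 τ (some 0) = τ / 2 by simp [hk], fa_half hτ]
    ring
  · rw [show hk 2 τ (some 1) = (τ + 1) / 2 by simp [hk], fa_half (by simpa using hτ),
      fa_Wc_T hτ, fa_Wc_T hτ, show faT none = none from rfl, show faT (some 1) = some 0 from rfl]
    ring

end Pool.Agent.B8
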