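import Pool.Agent.Lib.MP_696deb_nt.B8.ZA
import Pool.Agent.Lib.MP_696deb_nt.B2.CMg

/-! The modular equation of level two. -/

set_option autoImplicit false

open Complex
open scoped Classical NNReal Real

namespace Pool.Agent.B8
open Pool.Agent.Lib.MP_696deb_nt Pool.Agent.Lib.MP_696deb_nt.B2.CM

theorem me_half {τ : ℂ} (hτ : 0 < τ.im) {a b : ℤ} (h : (a * τ + b) / 2 ∈ sp2 τ 1) :
    Even a ∧ Even b := by
  obtain ⟨m, n, e⟩ := mem_sp2.1 h
  have e1 : ((a - 2 * m : ℤ) : ℂ) * τ + ((b - 2 * n : ℤ) : ℂ) = 0 := by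
    push_cast
    linear_combination 2 * e
  have e2 := congrArg Complex.im e1
  simp only [add_im, mul_im, intCast_re, intCast_im, zero_mul, add_zero, zero_im] at e2
  have e3 : a - 2 * m = 0 := by exact_mod_cast (mul_eq_zero.1 e2).resolve_right hτ.ne'
  rw [e3, Int.cast_zero, zero_mul, zero_add] at e1
  have e4 : b - 2 * n = 0 := by exact_mod_cast e1
  exact ⟨⟨m, by omega⟩, ⟨n, by omega⟩⟩

/-- The coordinates of the half periods. -/
def meC : Option (Fin 2) → ℤ × ℤ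
  | none => (0, 1)
  | some k => (1, (k : ℕ))

theorem me_eq (τ : ℂ) (i : Option (Fin 2)) : hp τ i = ((meC i).1 * τ + (meC i).2) / 2 := by
  cases i <;> simp [hp, meC]

theorem me_odd : ∀ i, ¬ (Even (meC i).1 ∧ Even (meC i).2) := by decide

theorem me_add : ∀ i j, i ≠ j → ¬ (Even ((meC i).1 + (meC j).1) ∧ Even ((meC i).2 + (meC j).2)) ∧
    ¬ (Even ((meC i).1 - (meC j).1) ∧ Even ((meC i).2 - (meC j).2)) := by decide

section
variable {τ : ℂ} {L : PeriodPair}

theorem me_notMem (hτ : 0 < τ.im) (hL : L.lattice = sp2 τ 1) (i : Option (Fin 2)) :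
    hp τ i ∉ L.lattice := fun h => by
  rw [hL, me_eq] at h
  exact me_odd i (me_half hτ h)

theorem me_two (hL : L.lattice = sp2 τ 1) (i : Option (Fin 2)) : 2 * hp τ i ∈ L.lattice := by
  rw [hL, me_eq]
  exact mem_sp2.2 ⟨(meC i).1, (meC i).2, by ring⟩

theorem me_root (hτ : 0 < τ.im) (hL : L.lattice = sp2 τ 1) (i : Option (Fin 2)) :
    4 * L.weierstrassP (hp τ i) ^ 3 - L.g₂ * L.weierstrassP (hp τ i) - L.g₃ = 0 := by
  have h1 := L.derivWeierstrassP_sub_coe (hp τ i) ⟨_, me_two hL i⟩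
  have h2 := L.derivWeierstrassP_neg (hp τ i)
  rw [show hp τ i - ((⟨_, me_two hL i⟩ : L.lattice) : ℂ) = -hp τ i from by
    change hp τ i - 2 * hp τ i = _
    ring] at h1
  have h3 : L.derivWeierstrassP (hp τ i) = 0 := by linear_combination (h2 - h1) / 2
  rw [← L.derivWeierstrassP_sq _ (me_notMem hτ hL i), h3]
  ring

theorem me_ne (hτ : 0 < τ.im) (hL : L.lattice = sp2 τ 1) {i j : Option (Fin 2)} (hij : i ≠ j) :
    L.weierstrassP (hp τ i) - L.weierstrassP (hp τ j) ≠ 0 := fun h => by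
  rcases (Shared.Weier.wp_eq_iff (me_notMem hτ hL i) (me_notMem hτ hL j)).1 (sub_eq_zero.1 h)
    with k | k
  · refine (me_add i j hij).1 (me_half hτ ?_)
    rw [hL, me_eq, me_eq] at k
    convert k using 1
    push_cast
    ring
  · refine (me_add i j hij).2 (me_half hτ ?_)
    rw [hL, me_eq, me_eq] at k
    convert k using 1
    push_cast
    ring

end

theorem me_alg {x y z g h φ : ℂ} (hx : 4 * x ^ 3 - g * x - h = 0) (hy : 4 * y ^ 3 - g * y - h = 0)
    (hz : 4 * z ^ 3 - g * z - h = 0) (a : x - y ≠ 0) (b : x - z ≠ 0) (c : y - z ≠ 0)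
    (e : φ * ((x - y) * (x - z)) = 16 * (y - z) ^ 2) :
    (φ + 16) ^ 3 = 1728 * g ^ 3 / (g ^ 3 - 27 * h ^ 2) * φ := by
  have k1 : g = 4 * (x ^ 2 + x * y + y ^ 2) :=
    mul_left_cancel₀ a (by linear_combination hy - hx)
  have k2 : g = 4 * (x ^ 2 + x * z + z ^ 2) :=
    mul_left_cancel₀ b (by linear_combination hz - hx)
  have k3 : x = -(y + z) := mul_left_cancel₀ c (by linear_combination (k2 - k1) / 4)
  have k4 : h = 4 * x ^ 3 - g * x := by linear_combination -hx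
  have k5 : g ^ 3 - 27 * h ^ 2 = 16 * ((x - y) * (x - z) * (y - z)) ^ 2 := by
    rw [k4, k1, k3]
    ring
  have k6 : φ = 16 * (y - z) ^ 2 / ((x - y) * (x - z)) := (eq_div_iff (mul_ne_zero a b)).2 e
  rw [k5, k6]
  field_simp
  rw [k1, k3]
  ring

theorem me_three : ∀ i : Option (Fin 2), ∃ j k : Option (Fin 2), i ≠ j ∧ i ≠ k ∧ j ≠ k := by
  decide

theorem me_stmt (pe : PEStmt) : MEStmt := fun τ hτ i => by
  have e : (Unif.pairOf ⟨τ, hτ⟩ one_ne_zero).lattice = sp2 τ 1 := by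
    change sp2 (1 * τ) 1 = _
    rw [one_mul]
  obtain ⟨j, k, a, b, c⟩ := me_three i
  rw [← jL_tau hτ, ← e, jL_lattice, jPer]
  exact me_alg (me_root hτ e i) (me_root hτ e j) (me_root hτ e k) (me_ne hτ e a) (me_ne hτ e b)
    (me_ne hτ e c) ((pe τ _ hτ e).2 i j k a b c)

end Pool.Agent.B8
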