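import Pool.Agent.Lib.MP_696deb_nt.B8.ZA
import Pool.Agent.Lib.MP_696deb_nt.KleinTheta

/-! The modular units of level two in terms of the values of the Weierstrass function at the half
periods. -/

set_option autoImplicit false

open Complex
open scoped Classical NNReal Real

namespace Pool.Agent.B8
open Pool.Agent.Lib.MP_696deb_nt Pool.Agent.Lib.MP_696deb_nt.B2.CM Pool.Agent.Shared.Weier
open Pool.Agent.Lib.MP_696deb_nt.Klein (poch)

namespace PE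

theorem poch_mul_neg {x : ℂ} (hx : ‖x‖ < 1) (w : ℂ) :
    poch x w * poch x (-w) = poch (x ^ 2) (w ^ 2) := by
  rw [poch, poch, poch, ← (multipliable_one_add_of_summable (Klein.summable_poch hx w)).tprod_mul
    (multipliable_one_add_of_summable (Klein.summable_poch hx (-w)))]
  congr 1
  funext n
  ring

theorem poch_two {x : ℂ} (hx : ‖x‖ < 1) : poch x x = poch (x ^ 2) x * poch (x ^ 2) (x ^ 2) := by
  rw [Klein.poch_split hx two_ne_zero]
  simp [Finset.prod_range_succ, sq]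

theorem q1_quarter : q1 (-1 / 4) ^ 2 = -1 := by
  rw [sq, ← q1_add, show (-1 / 4 + -1 / 4 : ℂ) = -1 / 2 by ring, Klein.q1_half]

theorem q1_half' : q1 (1 / 2) = -1 := by
  have h := q1_add (1 / 2) (-1 / 2)
  rw [Klein.q1_half, show (1 / 2 + -1 / 2 : ℂ) = 0 by ring, Klein.q1_zero] at h
  linear_combination h

variable {τ : ℂ} (h : 0 < τ.im)
include h

theorem deriv_Th : deriv (Klein.Th τ) 0 = -(2 * π * I) * poch (q1 τ) (q1 τ) ^ 2 := by
  have h1 := ((hasDerivAt_q1 _).comp 0 ((hasDerivAt_id (0 : ℂ)).neg.div_const 2)).sub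
    ((hasDerivAt_q1 _).comp 0 ((hasDerivAt_id (0 : ℂ)).div_const 2))
  have h2 := h1.mul ((Klein.differentiable_poch_q1 h (g := fun z => τ + z) (by fun_prop)).mul
    (Klein.differentiable_poch_q1 h (g := fun z => τ - z) (by fun_prop)) 0).hasDerivAt
  rw [funext (Klein.Th_eq h)]
  refine h2.deriv.trans ?_
  simp [Klein.q1_zero]
  ring

theorem quasi {l : ℂ} (hl : l ∈ sp2 τ 1) :
    ∃ a b : ℂ, a ≠ 0 ∧ ∀ z, Klein.Th τ (z + l) = a * cexp (b * z) * Klein.Th τ z := by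
  have hneg : ∀ l : ℂ, (∃ a b : ℂ, a ≠ 0 ∧ ∀ z, Klein.Th τ (z + l) = a * cexp (b * z) * Klein.Th τ z) →
      ∃ a b : ℂ, a ≠ 0 ∧ ∀ z, Klein.Th τ (z + -l) = a * cexp (b * z) * Klein.Th τ z := by
    rintro l ⟨a, b, ha, e⟩
    refine ⟨a, -b, ha, fun z => ?_⟩
    rw [show z + -l = -(-z + l) by ring, Klein.Th_neg h, e, Klein.Th_neg h]
    ring_nf
  have hadd : ∀ l l' : ℂ,
      (∃ a b : ℂ, a ≠ 0 ∧ ∀ z, Klein.Th τ (z + l) = a * cexp (b * z) * Klein.Th τ z) →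
      (∃ a b : ℂ, a ≠ 0 ∧ ∀ z, Klein.Th τ (z + l') = a * cexp (b * z) * Klein.Th τ z) →
      ∃ a b : ℂ, a ≠ 0 ∧ ∀ z, Klein.Th τ (z + (l + l')) = a * cexp (b * z) * Klein.Th τ z := by
    rintro l l' ⟨a, b, ha, e⟩ ⟨a', b', ha', e'⟩
    refine ⟨a * a' * cexp (b' * l), b + b', by simp [*], fun z => ?_⟩
    rw [← add_assoc, e', e, add_mul, mul_add, exp_add, exp_add]
    ring
  have hint : ∀ (l : ℂ) (n : ℤ),
      (∃ a b : ℂ, a ≠ 0 ∧ ∀ z, Klein.Th τ (z + l) = a * cexp (b * z) * Klein.Th τ z) →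
      ∃ a b : ℂ, a ≠ 0 ∧ ∀ z, Klein.Th τ (z + n * l) = a * cexp (b * z) * Klein.Th τ z := by
    intro l n hl
    induction n using Int.induction_on with
    | zero => exact ⟨1, 0, one_ne_zero, by simp⟩
    | succ n ih => simpa [add_mul] using hadd _ _ ih hl
    | pred n ih => simpa [sub_mul, sub_eq_add_neg, add_mul] using hadd _ _ ih (hneg _ hl)
  obtain ⟨m, n, rfl⟩ := mem_sp2.1 hl
  refine hadd _ _ (hint _ _ ⟨-q1 (-τ / 2), -(2 * π * I), neg_ne_zero.mpr (q1_ne _), fun z => ?_⟩)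
    (hint _ _ ⟨-1, 0, by simp, fun z => by simp [Klein.Th_add_one]⟩)
  rw [Klein.Th_add_omega h, sub_eq_add_neg, q1_add, q1]
  simp only [q1]
  ring_nf

theorem wp_sub {L : PeriodPair} (hL : L.lattice = sp2 τ 1) {u v : ℂ} (hu : u ∉ L.lattice)
    (hv : v ∉ L.lattice) :
    deriv (Klein.Th τ) 0 ^ 2 * (Klein.Th τ (u + v) * Klein.Th τ (u - v)) =
      -((L.weierstrassP u - L.weierstrassP v) * Klein.Th τ u ^ 2 * Klein.Th τ v ^ 2) :=
  Klein.wp_sub_of_theta (Klein.differentiable_Th h) (Klein.Th_neg h)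
    (fun z hz => Klein.Th_ne h fun m n e => hz (hL ▸ mem_sp2.2 ⟨m, n, by rw [e, mul_one]⟩))
    (Klein.deriv_Th_ne h) (quasi h (hL ▸ L.ω₁_mem_lattice)) (quasi h (hL ▸ L.ω₂_mem_lattice)) hu hv

theorem half_not (a b : ℤ) (hab : Odd a ∨ Odd b) : (a * τ + b) / 2 ∉ sp2 τ 1 := fun e => by
  obtain ⟨m, n, e⟩ := mem_sp2.1 e
  have e1 : ((a - 2 * m : ℤ) : ℂ) * τ = (2 * n - b : ℤ) := by push_cast; linear_combination 2 * e
  have e2 := congr_arg im e1
  simp only [mul_im, intCast_re, intCast_im, zero_mul, add_zero] at e2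
  have e3 : a - 2 * m = 0 := by exact_mod_cast (mul_eq_zero.1 e2).resolve_right h.ne'
  rw [e3, Int.cast_zero, zero_mul] at e1
  have e4 : 2 * n - b = 0 := by exact_mod_cast e1.symm
  rcases hab with ⟨k, hk⟩ | ⟨k, hk⟩ <;> omega

omit h in
theorem sq_half : q1 (τ / 2) ^ 2 = q1 τ := by
  rw [sq, ← q1_add]
  congr 1
  ring

theorem Th0 : Klein.Th τ (1 / 2) ^ 2 = -4 * poch (q1 τ) (-q1 τ) ^ 4 := by
  have e : q1 (τ - 1 / 2) = -q1 τ := by
    rw [show τ - 1 / 2 = τ + -1 / 2 by ring, q1_add, Klein.q1_half]; ring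
  rw [Klein.Th, q1_half', e, Klein.poch_step (norm_q1_lt h) (-1), mul_neg_one,
    show -(1 / 2 : ℂ) / 2 = -1 / 4 by ring]
  linear_combination 4 * poch (q1 τ) (-q1 τ) ^ 4 * q1_quarter

omit h in
theorem Th1 : q1 (τ / 2) * Klein.Th τ (τ / 2) ^ 2 = poch (q1 τ) (q1 (τ / 2)) ^ 4 := by
  have e : q1 (τ / 2) * q1 (-(τ / 2) / 2) ^ 2 = 1 := by
    rw [sq, ← q1_add, ← q1_add, ← Klein.q1_zero]
    congr 1
    ring
  rw [Klein.Th, show τ - τ / 2 = τ / 2 by ring]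
  linear_combination poch (q1 τ) (q1 (τ / 2)) ^ 4 * e

omit h in
theorem q1_h2 : q1 ((τ + 1) / 2) = -q1 (τ / 2) := by
  rw [add_div, q1_add, q1_half']; ring

omit h in
theorem Th2 : q1 (τ / 2) * Klein.Th τ ((τ + 1) / 2) ^ 2 = -poch (q1 τ) (-q1 (τ / 2)) ^ 4 := by
  have e : q1 (τ / 2) * q1 (-((τ + 1) / 2) / 2) ^ 2 = -1 := by
    rw [sq, ← q1_add, ← q1_add, ← Klein.q1_half]
    congr 1
    ring
  have e1 : q1 (τ - (τ + 1) / 2) = -q1 (τ / 2) := by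
    rw [show τ - (τ + 1) / 2 = τ / 2 + -1 / 2 by ring, q1_add, Klein.q1_half]; ring
  rw [Klein.Th, e1, q1_h2]
  linear_combination poch (q1 τ) (-q1 (τ / 2)) ^ 4 * e

theorem E_ne : poch (q1 τ) (q1 τ) ≠ 0 := by
  rw [← Klein.eul_eq_poch]; exact eul_ne h

theorem abc : poch (q1 τ) (-q1 τ) * poch (q1 τ) (q1 (τ / 2)) * poch (q1 τ) (-q1 (τ / 2)) = 1 := by
  have e1 := poch_mul_neg (norm_q1_lt h) (q1 (τ / 2))
  have e2 := poch_mul_neg (norm_q1_lt h) (q1 τ)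
  have e3 := poch_two (norm_q1_lt h)
  rw [sq_half] at e1
  rw [← e1, ← e2] at e3
  exact mul_left_cancel₀ (E_ne h) (by linear_combination -e3)

theorem ph0 : ph 2 none τ = 2 ^ 12 * q1 (τ / 2) ^ 2 * poch (q1 τ) (-q1 τ) ^ 24 := by
  have n1 := E_ne h
  have n2 := q1_ne τ
  rw [ph_none, Dl_eq, Dl_eq, q1_nat_mul, Klein.eul_eq_poch, Klein.eul_eq_poch,
    ← poch_mul_neg (norm_q1_lt h), sq_half]
  push_cast
  field_simp

theorem ph1 : q1 (τ / 2) * ph 2 (some 0) τ = poch (q1 τ) (q1 (τ / 2)) ^ 24 := by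
  have n1 := E_ne h
  have n2 := q1_ne (τ / 2)
  have e := ph_some Nat.prime_two 0 (τ / 2)
  have h' : 0 < (τ / 2).im := by simpa using h
  rw [show ((2 : ℕ) : ℂ) * (τ / 2) = τ by push_cast; ring, show ((1 : ℕ) : ℂ) * (τ / 2) +
    ((((((0 : Fin 2) : ℕ) : ℤ) : ℝ) / (2 : ℕ) : ℝ) : ℂ) = τ / 2 by simp] at e
  rw [e, Dl_eq, Dl_eq, Klein.eul_eq_poch, Klein.eul_eq_poch, poch_two (norm_q1_lt h'), sq_half]
  generalize poch (q1 τ) (q1 τ) = E at n1
  generalize poch (q1 τ) (q1 (τ / 2)) = b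
  rw [← sq_half (τ := τ)]
  field_simp

theorem ph2 : q1 (τ / 2) * ph 2 (some 1) τ = -poch (q1 τ) (-q1 (τ / 2)) ^ 24 := by
  have n1 := E_ne h
  have n2 := q1_ne (τ / 2)
  have e := ph_some Nat.prime_two 1 (τ / 2)
  have h' : ‖-q1 (τ / 2)‖ < 1 := by rw [norm_neg]; exact norm_q1_lt (by simpa using h)
  rw [show ((2 : ℕ) : ℂ) * (τ / 2) = τ by push_cast; ring, show ((1 : ℕ) : ℂ) * (τ / 2) +
    ((((((1 : Fin 2) : ℕ) : ℤ) : ℝ) / (2 : ℕ) : ℝ) : ℂ) = (τ + 1) / 2 by simp; ring] at e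
  rw [e, Dl_eq, Dl_eq, Klein.eul_eq_poch, Klein.eul_eq_poch, q1_h2, poch_two h', neg_sq, sq_half]
  generalize poch (q1 τ) (q1 τ) = E at n1
  generalize poch (q1 τ) (-q1 (τ / 2)) = c
  rw [← sq_half (τ := τ)]
  field_simp

/-- The three differences of the values at the half periods. -/
theorem diffs {L : PeriodPair} (hL : L.lattice = sp2 τ 1) :
    L.weierstrassP (1 / 2) - L.weierstrassP (τ / 2) =
      π ^ 2 * poch (q1 τ) (q1 τ) ^ 4 * poch (q1 τ) (-q1 (τ / 2)) ^ 8 ∧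
    L.weierstrassP (1 / 2) - L.weierstrassP ((τ + 1) / 2) =
      π ^ 2 * poch (q1 τ) (q1 τ) ^ 4 * poch (q1 τ) (q1 (τ / 2)) ^ 8 ∧
    L.weierstrassP ((τ + 1) / 2) - L.weierstrassP (τ / 2) =
      16 * π ^ 2 * poch (q1 τ) (q1 τ) ^ 4 * q1 (τ / 2) * poch (q1 τ) (-q1 τ) ^ 8 := by
  have n0 : (1 / 2 : ℂ) ∉ L.lattice := by simpa [hL] using half_not h 0 1 (by simp)
  have n1 : τ / 2 ∉ L.lattice := by simpa [hL] using half_not h 1 0 (by simp)
  have n2 : (τ + 1) / 2 ∉ L.lattice := by simpa [hL] using half_not h 1 1 (by simp)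
  have d1 := wp_sub h hL n0 n1
  have d2 := wp_sub h hL n2 n0
  have d3 := wp_sub h hL n2 n1
  have k1 : Klein.Th τ (1 / 2 - τ / 2) = Klein.Th τ ((τ + 1) / 2) := by
    rw [show (τ + 1) / 2 = -(1 / 2 - τ / 2) + 1 by ring, Klein.Th_add_one, Klein.Th_neg h, neg_neg]
  have k2 : q1 (τ / 2) * Klein.Th τ ((τ + 1) / 2 + τ / 2) = Klein.Th τ (1 / 2) := by
    have e : q1 (τ / 2) * q1 (-τ / 2 - 1 / 2) = -1 := by
      rw [← q1_add, ← Klein.q1_half]
      congr 1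
      ring
    rw [show (τ + 1) / 2 + τ / 2 = 1 / 2 + τ by ring, Klein.Th_add_omega h]
    linear_combination -Klein.Th τ (1 / 2) * e
  rw [show 1 / 2 + τ / 2 = (τ + 1) / 2 by ring, k1] at d1
  rw [show (τ + 1) / 2 + 1 / 2 = τ / 2 + 1 by ring, Klein.Th_add_one,
    show (τ + 1) / 2 - 1 / 2 = τ / 2 by ring] at d2
  rw [show (τ + 1) / 2 - τ / 2 = 1 / 2 by ring] at d3
  have t0 := Th0 h
  have t1 := Th1 (τ := τ)
  have t2 := Th2 (τ := τ)
  have hD : deriv (Klein.Th τ) 0 ^ 2 = -4 * π ^ 2 * poch (q1 τ) (q1 τ) ^ 4 := by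
    rw [deriv_Th h]; linear_combination 4 * π ^ 2 * poch (q1 τ) (q1 τ) ^ 4 * I_sq
  have e := abc h
  have e4 := congr_arg (· ^ 4) e
  simp only [mul_pow, one_pow] at e4
  rw [hD] at d1 d2 d3
  generalize Klein.Th τ ((τ + 1) / 2 + τ / 2) = T3 at *
  generalize Klein.Th τ (1 / 2) = T0 at *
  generalize Klein.Th τ (τ / 2) = T1 at *
  generalize Klein.Th τ ((τ + 1) / 2) = T2 at *
  generalize L.weierstrassP (1 / 2) = e0 at *
  generalize L.weierstrassP (τ / 2) = e1 at *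
  generalize L.weierstrassP ((τ + 1) / 2) = e2 at *
  generalize poch (q1 τ) (q1 τ) = E at *
  generalize poch (q1 τ) (-q1 τ) = a at *
  generalize poch (q1 τ) (q1 (τ / 2)) = b at *
  generalize poch (q1 τ) (-q1 (τ / 2)) = c at *
  generalize q1 (τ / 2) = s at *
  generalize (π : ℂ) = p at *
  have f1 : (e0 - e1) * (a ^ 4 * b ^ 4) = p ^ 2 * E ^ 4 * c ^ 4 := by
    linear_combination (-s / 4) * d1 - p ^ 2 * E ^ 4 * t2 +
      (e0 - e1) / 4 * (T0 ^ 2 * t1 + b ^ 4 * t0)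
  have f2 : (e0 - e2) * (a ^ 4 * c ^ 4) = p ^ 2 * E ^ 4 * b ^ 4 := by
    linear_combination (-s / 4) * d2 + p ^ 2 * E ^ 4 * t1 +
      (e0 - e2) / 4 * (-T0 ^ 2 * t2 + c ^ 4 * t0)
  have f3 : (e2 - e1) * (b ^ 4 * c ^ 4) = 16 * p ^ 2 * E ^ 4 * s * a ^ 4 := by
    linear_combination -s ^ 2 * d3 - 4 * p ^ 2 * E ^ 4 * s * T0 * k2 - 4 * p ^ 2 * E ^ 4 * s * t0 +
      (e2 - e1) * (s * T1 ^ 2 * t2 - c ^ 4 * t1)
  exact ⟨by linear_combination c ^ 4 * f1 - (e0 - e1) * e4,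
    by linear_combination b ^ 4 * f2 - (e0 - e2) * e4,
    by linear_combination a ^ 4 * f3 - (e2 - e1) * e4⟩

omit h in
/-- The discriminant in terms of three distinct roots. -/
theorem disc_eq {g₂ g₃ a b c : ℂ} (ra : 4 * a ^ 3 - g₂ * a - g₃ = 0)
    (rb : 4 * b ^ 3 - g₂ * b - g₃ = 0) (rc : 4 * c ^ 3 - g₂ * c - g₃ = 0) (d12 : a - b ≠ 0)
    (d13 : a - c ≠ 0) (d23 : c - b ≠ 0) :
    g₂ ^ 3 - 27 * g₃ ^ 2 = 16 * ((a - b) * (a - c) * (c - b)) ^ 2 := by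
  have e1 : g₂ = 4 * (a ^ 2 + a * b + b ^ 2) := mul_left_cancel₀ d12 (by linear_combination rb - ra)
  have e2 : g₂ = 4 * (a ^ 2 + a * c + c ^ 2) := mul_left_cancel₀ d13 (by linear_combination rc - ra)
  have e3 : c = -a - b := mul_left_cancel₀ d23 (by linear_combination (e1 - e2) / 4)
  have e4 : g₃ = 4 * a ^ 3 - g₂ * a := by linear_combination -ra
  rw [e4, e1, e3]
  ring

theorem disc {L : PeriodPair} (hL : L.lattice = sp2 τ 1) :
    (2 * π) ^ 12 * Dl τ = L.g₂ ^ 3 - 27 * L.g₃ ^ 2 := by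
  have root : ∀ a b : ℤ, Odd a ∨ Odd b → 4 * L.weierstrassP ((a * τ + b) / 2) ^ 3 -
      L.g₂ * L.weierstrassP ((a * τ + b) / 2) - L.g₃ = 0 := fun a b hab => by
    have n : (a * τ + b) / 2 ∉ L.lattice := hL ▸ half_not h a b hab
    rw [← L.derivWeierstrassP_sq _ n, (wp'_eq_zero_iff n).mpr (hL ▸ mem_sp2.2 ⟨a, b, by ring⟩)]
    ring
  have r0 := root 0 1 (by simp)
  have r1 := root 1 0 (by simp)
  have r2 := root 1 1 (by simp)
  simp only [Int.cast_zero, Int.cast_one, zero_mul, zero_add, one_mul, add_zero] at r0 r1 r2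
  obtain ⟨d1, d2, d3⟩ := diffs h hL
  have e := abc h
  have nE := E_ne h
  have np : (π : ℂ) ≠ 0 := ofReal_ne_zero.2 Real.pi_ne_zero
  have ns := q1_ne (τ / 2)
  have n := e.trans_ne one_ne_zero
  have na := left_ne_zero_of_mul (left_ne_zero_of_mul n)
  have nb := right_ne_zero_of_mul (left_ne_zero_of_mul n)
  have nc := right_ne_zero_of_mul n
  have e16 := congr_arg (· ^ 16) e
  simp only [mul_pow, one_pow] at e16
  rw [disc_eq r0 r1 r2 (by rw [d1]; simp [*]) (by rw [d2]; simp [*]) (by rw [d3]; simp [*]),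
    d1, d2, d3, Dl_eq, Klein.eul_eq_poch]
  generalize poch (q1 τ) (q1 τ) = E at *
  generalize poch (q1 τ) (-q1 τ) = a at *
  generalize poch (q1 τ) (q1 (τ / 2)) = b at *
  generalize poch (q1 τ) (-q1 (τ / 2)) = c at *
  rw [← sq_half (τ := τ)]
  linear_combination -(4096 * (π : ℂ) ^ 12 * q1 (τ / 2) ^ 2 * E ^ 24) * e16

end PE

theorem pe_stmt : PEStmt := by
  intro τ L h hL
  refine ⟨PE.disc h hL, ?_⟩
  obtain ⟨d1, d2, d3⟩ := PE.diffs h hL
  have p0 := PE.ph0 h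
  have p1 := PE.ph1 h
  have p2 := PE.ph2 h
  have e8 := congr_arg (· ^ 8) (PE.abc h)
  simp only [mul_pow, one_pow] at e8
  have ns := q1_ne (τ / 2)
  have h0 : hp τ none = 1 / 2 := rfl
  have h1 : hp τ (some 0) = τ / 2 := by simp [hp]
  have h2 : hp τ (some 1) = (τ + 1) / 2 := by simp [hp]
  generalize poch (q1 τ) (q1 τ) = E at *
  generalize poch (q1 τ) (-q1 τ) = a at *
  generalize poch (q1 τ) (q1 (τ / 2)) = b at *
  generalize poch (q1 τ) (-q1 (τ / 2)) = c at *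
  generalize q1 (τ / 2) = s at *
  generalize (π : ℂ) = p at *
  have k0 : ph 2 none τ * ((L.weierstrassP (1 / 2) - L.weierstrassP (τ / 2)) *
      (L.weierstrassP (1 / 2) - L.weierstrassP ((τ + 1) / 2))) =
      16 * (L.weierstrassP ((τ + 1) / 2) - L.weierstrassP (τ / 2)) ^ 2 := by
    rw [d1, d2, d3, p0]
    linear_combination 4096 * p ^ 4 * E ^ 8 * s ^ 2 * a ^ 16 * e8
  have k1 : ph 2 (some 0) τ * ((L.weierstrassP (1 / 2) - L.weierstrassP (τ / 2)) *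
      (L.weierstrassP ((τ + 1) / 2) - L.weierstrassP (τ / 2))) =
      16 * (L.weierstrassP (1 / 2) - L.weierstrassP ((τ + 1) / 2)) ^ 2 := by
    rw [d1, d2, d3]
    linear_combination 16 * p ^ 4 * E ^ 8 * a ^ 8 * c ^ 8 * p1 + 16 * p ^ 4 * E ^ 8 * b ^ 16 * e8
  have k2 : ph 2 (some 1) τ * (-(L.weierstrassP (1 / 2) - L.weierstrassP ((τ + 1) / 2)) *
      (L.weierstrassP ((τ + 1) / 2) - L.weierstrassP (τ / 2))) =
      16 * (L.weierstrassP (1 / 2) - L.weierstrassP (τ / 2)) ^ 2 := by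
    rw [d1, d2, d3]
    linear_combination -16 * p ^ 4 * E ^ 8 * a ^ 8 * b ^ 8 * p2 + 16 * p ^ 4 * E ^ 8 * c ^ 16 * e8
  have cs : ∀ i : Option (Fin 2), i = none ∨ i = some 0 ∨ i = some 1 := by decide
  intro i j k hij hik hjk
  rcases cs i with rfl | rfl | rfl <;> rcases cs j with rfl | rfl | rfl <;>
    rcases cs k with rfl | rfl | rfl <;>
    first
      | exact absurd rfl hij
      | exact absurd rfl hik
      | exact absurd rfl hjk
      | (rw [h0, h1, h2]; first | linear_combination k0 | linear_combination k1 | linear_combination k2)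

end Pool.Agent.B8
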