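import Pool.Agent.Lib.MP_696deb_nt.B8.ZD

/-! From the product to the sum. -/

set_option autoImplicit false

open Finset
open scoped Classical NNReal

namespace Pool.Agent.B8
open Pool.Agent.Lib.MP_696deb_nt

variable {V : Valuation ℂ ℝ≥0}

theorem una_odd (h2 : V 2 < 1) {m : ℕ} (hm : Odd m) : V m = 1 := by
  obtain ⟨k, rfl⟩ := hm
  push_cast
  rw [add_comm]
  refine V.map_one_add_of_lt ?_
  rw [map_mul]
  exact mul_lt_one_of_nonneg_of_lt_one_left zero_le h2 (val_nat V k)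

theorem una_one {u : ℂ} (hu : V (u - 1) < 1) : V u = 1 := by
  rw [← add_sub_cancel 1 u]
  exact V.map_one_add_of_lt hu

theorem una_pow (h2 : V 2 < 1) {m : ℕ} (hm : Odd m) {u : ℂ} (hu : V (u - 1) < 1) :
    V (u ^ m - 1) = V (u - 1) := by
  have h1 : V (∑ i ∈ range m, (u ^ i - 1 ^ i)) < 1 := V.map_sum_lt one_ne_zero fun i _ =>
    (val_pow_sub_pow_le V (una_one hu).le V.map_one.le i).trans_lt hu
  have h3 : ∑ i ∈ range m, u ^ i = m + ∑ i ∈ range m, (u ^ i - 1 ^ i) := by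
    simp [sum_sub_distrib]
  rw [← geom_sum_mul, map_mul, h3, V.map_add_eq_of_lt_left (by rwa [una_odd h2 hm]),
    una_odd h2 hm, one_mul]

theorem una_prod {ι : Type} {a : ι → ℂ} {t : ℝ≥0} (t0 : 0 < t) (t1 : t < 1)
    (h : ∀ i, V (a i - 1) < t) (S : Finset ι) :
    V (∏ i ∈ S, a i - 1) < t ∧ V (∏ i ∈ S, a i - 1 - ∑ i ∈ S, (a i - 1)) < t ^ 2 := by
  induction S using Finset.induction_on with
  | empty => simpa using ⟨t0, pow_pos t0 2⟩
  | insert j S hj ih =>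
    have h1 : V ((a j - 1) * (∏ i ∈ S, a i - 1)) < t ^ 2 := by
      rw [map_mul, sq]
      exact mul_lt_mul'' (h j) ih.1 zero_le zero_le
    rw [prod_insert hj, sum_insert hj]
    constructor
    · rw [show a j * ∏ i ∈ S, a i - 1 =
        (a j - 1) * (∏ i ∈ S, a i - 1) + (a j - 1) + (∏ i ∈ S, a i - 1) by ring]
      exact V.map_add_lt (V.map_add_lt
        (h1.trans (pow_lt_self_of_lt_one₀ t0 t1 one_lt_two)) (h j)) ih.1
    · rw [show a j * ∏ i ∈ S, a i - 1 - (a j - 1 + ∑ i ∈ S, (a i - 1)) =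
        (a j - 1) * (∏ i ∈ S, a i - 1) + (∏ i ∈ S, a i - 1 - ∑ i ∈ S, (a i - 1)) by ring]
      exact V.map_add_lt h1 ih.2

theorem una_stmt : UNaStmt := by
  intro V ι _ a b ε s m h2 ha hb hs hm hε e
  obtain ⟨t, ht⟩ : ∃ t, t = V (ε - 1) := ⟨_, rfl⟩
  rw [← ht] at hε
  have h0 : 0 < V 2 := V.pos_iff.2 two_ne_zero
  have t0 : 0 < t := pos_of_ne_zero fun h => by
    rw [← hε, h, zero_pow three_ne_zero] at h0
    exact h0.false
  have t1 : t < 1 := (pow_lt_one_iff_of_nonneg zero_le three_ne_zero).1 (hε.trans_lt h2)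
  have h3 : ∀ z, V z ^ 3 < V 2 → V z < t := fun z h =>
    lt_of_pow_lt_pow_left₀ 3 zero_le (h.trans_eq hε.symm)
  obtain ⟨a1, a2⟩ := una_prod t0 t1 (fun i => h3 _ (ha i)) univ
  obtain ⟨b1, b2⟩ := una_prod t0 t1 (fun i => h3 _ (hb i)) univ
  have a3 := una_one (a1.trans t1)
  have a4 : ∏ i, a i ≠ 0 := V.ne_zero_iff.1 (a3.trans_ne one_ne_zero)
  have h4 : V (ε ^ 2 - 1) = t ^ 2 := by
    rw [show ε ^ 2 - 1 = (ε - 1) * (ε - 1 + 2) by ring, map_mul, V.map_add_eq_of_lt_left, ← ht, sq]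
    rw [← ht, ← hε]
    exact pow_lt_self_of_lt_one₀ t0 t1 (by norm_num)
  have h5 : V ((∏ i, b i) / (∏ i, a i) - 1) = V (∏ i, a i - ∏ i, b i) := by
    rw [div_sub_one a4, map_div₀, a3, div_one, V.map_sub_swap]
  have h6 : V (∏ i, a i - ∏ i, b i) = t ^ 2 := by
    rw [← h5, ← una_pow h2 hs, div_pow, ← e, mul_div_cancel_left₀ _ (pow_ne_zero _ a4), pow_mul,
      una_pow h2 hm (h4.trans_lt (pow_lt_one₀ zero_le t1 two_ne_zero)), h4]
    rw [h5, ← sub_sub_sub_cancel_right _ _ 1]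
    exact V.map_sub_lt (a1.trans t1) (b1.trans t1)
  have h7 : ∑ i, (a i - b i) = (∏ i, a i - ∏ i, b i) +
      ((∏ i, b i - 1 - ∑ i, (b i - 1)) - (∏ i, a i - 1 - ∑ i, (a i - 1))) := by
    simp only [sum_sub_distrib]
    ring
  rw [h7, V.map_add_eq_of_lt_left (h6 ▸ V.map_sub_lt b2 a2), h6, ← hε, ← pow_mul, ← pow_mul]

end Pool.Agent.B8
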