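import Pool.Agent.Lib.MP_696deb_nt.B8.UNa
import Pool.Agent.Lib.MP_696deb_nt.B5.QPc

/-! Congruent forms have congruent values. -/

set_option autoImplicit false

open scoped Classical NNReal

namespace Pool.Agent.B8
open Pool.Agent.Lib.MP_696deb_nt Pool.Agent.B4.GE Pool.Agent.B5

/-- A form of weight twelve divided by the discriminant is a modular function. -/
theorem mf_div_Dl {N : ℕ} (hN : N ≠ 0) {H : ℂ → ℂ} (hH : Mk N 12 H) :
    MF N fun z => H z / Dl z := by
  have h1 : Inv0 N fun z => H z / Dl z := fun g hg z hz => by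
    beta_reduce
    rw [hH.inv g hg z hz, Dl_act hg.1 hz, mul_div_mul_left _ _ (pow_ne_zero _ (mh_den hg.1 hz))]
  refine ⟨h1, fun g hg => ?_⟩
  have hp : (0 : ℝ) < N := by positivity
  have h0 : ∀ z : ℂ, 0 < z.im → 0 < ((N : ℂ) * z).im := fun z hz => by
    simpa using mul_pos hp hz
  have e : ∀ z : ℂ, 0 < z.im → q1 z ^ N * (H (act g (N * z)) / Dl (act g (N * z))) =
      q1 (N * z) ^ 1 * (Dl (N * z))⁻¹ * sk 12 g H (N * z) := fun z hz => by
    rw [Dl_act hg (h0 z hz), q1_nat_mul, sk]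
    ring
  obtain ⟨A, hA⟩ := QE.exists_of_periodic
    (F := fun z => q1 z ^ N * (H (act g (N * z)) / Dl (act g (N * z))))
    (fun z hz => by
      have k1 := (hol_sk (k := 12) hH.hol (g := g) (hg ▸ one_pos) _ (h0 z hz)).comp z
        ((differentiableAt_const (N : ℂ)).mul differentiableAt_id)
      refine (((qe_Dl_inv.expand N hN).hol z hz).mul k1).congr_of_eventuallyEq ?_
      filter_upwards [(isOpen_lt continuous_const Complex.continuous_im).mem_nhds hz] with w hw
      exact e w hw)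
    (fun z hz => by
      have k1 := h1.periodic hg dvd_rfl hN hz
      have k2 : q1 1 = 1 := by exact_mod_cast q1_int 1
      beta_reduce at k1 ⊢
      rw [k1, q1_add, k2, mul_one])
    (((qe_Dl_inv.expand N hN).bdd.mul ((hH.bd g hg).comp_affine hp 0)).congr fun z hz => by
      rw [e z hz, sk]
      simp)
  exact ⟨N, A, hA, fun _ => trivial⟩

theorem unc_stmt : UNcStmt := by
  intro N V F G A B z hN h2 hF hG hA hB he hz hj hv
  have N0 : N ≠ 0 := hN.pos.ne'
  choose c hc using he
  have h1 : QE (fun z => 2⁻¹ * (F z - G z)) (toC (PowerSeries.mk c)) := by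
    have e : toC (PowerSeries.mk c) = PowerSeries.C 2⁻¹ * (toC A - toC B) := by
      ext k
      rw [PowerSeries.coeff_C_mul, ← map_sub, PowerSeries.coeff_map, PowerSeries.coeff_map,
        PowerSeries.coeff_mk, map_sub, hc k]
      simp only [eq_intCast]
      push_cast
      ring
    rw [e]
    exact (hA.sub hB).smul _
  have h3 : LZ fun z => 2⁻¹ * (F z - G z) := ⟨0, _, h1.congr fun z _ => by simp⟩
  have h4 : V ((2⁻¹ * (F z - G z)) ^ 6 / Dl z) ≤ 1 :=
    qp (F := fun z => (2⁻¹ * (F z - G z)) ^ 6 / Dl z) (τ := z) N0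
      (mf_div_Dl N0 (((hF.sub hG).smul 2⁻¹).pow 6))
      ((LR V.integer).mul_mem ((LR V.integer).pow_mem (h3.mem V.integer) 6)
        (lz_Dl_inv.mem V.integer))
      (Aff.of_unit N0 (una_odd h2 hN) hz hj)
  have h5 : V (Dl z) ≠ 0 := V.ne_zero_iff.2 (Dl_ne hz)
  rw [map_div₀, map_pow, div_eq_one_iff_eq h5] at hv ⊢
  rw [map_div₀, map_pow, div_le_one₀ (pos_of_ne_zero h5), ← hv,
    pow_le_pow_iff_left₀ zero_le zero_le (by norm_num)] at h4
  have h6 : V (G z) ≠ 0 := fun h => h5 (by rw [← hv, h, zero_pow (by norm_num)])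
  have h7 : V (2 * (2⁻¹ * (F z - G z))) < V (G z) := by
    rw [map_mul]
    exact (mul_le_mul_right h4 _).trans_lt (mul_lt_of_lt_one_left (pos_of_ne_zero h6) h2)
  rw [← hv, show F z = G z + 2 * (2⁻¹ * (F z - G z)) by ring, V.map_add_eq_of_lt_left h7]

end Pool.Agent.B8
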