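import Pool.Agent.Lib.MP_696deb_nt.B8.RPb

/-! Ideals that are prime to the conductor. -/

set_option autoImplicit false

open NumberField Filter Topology Real NumberTheorySymbols
open scoped Classical

namespace Pool.Agent.B8
open Pool.Agent.Lib.MP_696deb_nt.B2.CM Pool.Agent.H3.T

variable {n c m D k a : ℕ} {b : ℤ} {K : Type} [Field K] [NumberField K] {ι : K →+* ℂ} {s : ℝ}
  {I I' : Ideal (𝓞 K)} {J : Lt}

/-- The contraction of an ideal to the order. -/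
noncomputable def ctr (n c : ℕ) (ι : K →+* ℂ) (I : Ideal (𝓞 K)) : Lt := fihL ι I ⊓ ot (Oc n c)

theorem cnv_ok (ok : Ok n c) : Ok n 1 := ⟨ok.m4, ok.gt, one_ne_zero⟩

theorem cnv_c (ok : Ok n c) {z : ℂ} (hz : z ∈ ot (Oc n 1)) : c * z ∈ ot (Oc n c) := by
  obtain ⟨x, y, -, rfl⟩ := (mem_Oc ok.m4).1 hz
  exact (mem_Oc ok.m4).2 ⟨c * x, c * y, dvd_mul_right _ _, by unfold el; push_cast; ring⟩

theorem cnv_bez {z : ℂ} (hk : k.Coprime c) (h1 : k * z ∈ J) (h2 : c * z ∈ J) : z ∈ J := by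
  obtain ⟨u, v, e⟩ := Nat.isCoprime_iff_coprime.2 hk
  have e' : (u : ℂ) * k + v * c = 1 := by exact_mod_cast e
  have := add_mem (int_mul_mem h1 u) (int_mul_mem h2 v)
  rwa [← mul_assoc, ← mul_assoc, ← add_mul, e', one_mul] at this

theorem cnv_le (A : Subalgebra ℤ ℂ) : J ≤ J * ot A := fun z hz => by
  simpa using Submodule.mul_mem_mul (N := ot A) hz A.one_mem

/-- An ideal of the order that is prime to the conductor is the contraction of its extension. -/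
theorem cnv_ctr (ok : Ok n c) (h1 : J * ot (Oc n c) = J) (h2 : J ≤ ot (Oc n c)) (h3 : (k : ℂ) ∈ J)
    (hk : k.Coprime c) : J * ot (Oc n 1) ⊓ ot (Oc n c) = J := by
  refine le_antisymm (fun z hz => cnv_bez hk (h1.le (Submodule.mul_mem_mul h3 hz.2)) ?_)
    (le_inf (cnv_le _) h2)
  refine Submodule.mul_induction_on (C := fun z : ℂ => (c : ℂ) * z ∈ J) hz.1 (fun x hx y hy => ?_)
    fun x y hx hy => ?_
  · rw [mul_left_comm]
    exact h1.le (Submodule.mul_mem_mul hx (cnv_c ok hy))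
  · rw [mul_add]
    exact add_mem hx hy

theorem ctr_norm (I : Ideal (𝓞 K)) : (Ideal.absNorm I : ℂ) ∈ ctr n c ι I :=
  ⟨fih_mem.2 ⟨_, Ideal.absNorm_mem I, by simp⟩, natCast_mem (Oc n c) _⟩

omit [NumberField K] in
theorem ctr_le : ctr n c ι I ≤ ot (Oc n c) := inf_le_right

theorem ctr_ot (ok : Ok n c) (h : Qd K (-n)) : ctr n c ι I * ot (Oc n c) = ctr n c ι I :=
  le_antisymm (Submodule.mul_le.2 fun _ hx _ hy => ⟨(cnr_ot (cnv_ok ok) h I).le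
    (Submodule.mul_mem_mul hx.1 (Oc_le n (one_dvd c) hy)), (Oc n c).mul_mem hx.2 hy⟩) (cnv_le _)

theorem ctr_ext (ok : Ok n c) (h : Qd K (-n)) (hI : (Ideal.absNorm I).Coprime c) :
    ctr n c ι I * ot (Oc n 1) = fihL ι I := by
  refine le_antisymm ((mul_le_mul_left inf_le_left _).trans (cnr_ot (cnv_ok ok) h I).le)
    fun z hz => ?_
  have h1 : z ∈ ot (Oc n 1) := by
    obtain ⟨x, -, rfl⟩ := fih_mem.1 hz
    exact cnr_mem (cnv_ok ok) h ι x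
  exact cnv_bez hI (Submodule.mul_mem_mul (ctr_norm I) h1)
    (cnv_le _ ⟨by simpa using int_mul_mem hz c, cnv_c ok h1⟩)

theorem ctr_mul (ok : Ok n c) (h : Qd K (-n)) (hI : (Ideal.absNorm I).Coprime c)
    (hI' : (Ideal.absNorm I').Coprime c) : ctr n c ι (I * I') = ctr n c ι I * ctr n c ι I' := by
  rw [← cnv_ctr (J := ctr n c ι I * ctr n c ι I') ok (by rw [mul_assoc, ctr_ot ok h])
    ((mul_le_mul' ctr_le ctr_le).trans (ot_mul_ot le_rfl).le)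
    (by rw [Nat.cast_mul]; exact Submodule.mul_mem_mul (ctr_norm I) (ctr_norm I'))
    (hI.mul_left hI'), ← ot_mul_ot (le_refl (Oc n 1)), mul_mul_mul_comm, ctr_ext ok h hI,
    ctr_ext ok h hI', ← cnr_mul, ctr]

theorem ctr_span (ok : Ok n c) (h : Qd K (-n)) {z : 𝓞 K} (hz : ι z ∈ Oc n c)
    (hI : (Ideal.absNorm (Ideal.span {z})).Coprime c) :
    ctr n c ι (Ideal.span {z}) = sc (ι z) (ot (Oc n c)) := by
  rw [← cnv_ctr (J := sc (ι z) (ot (Oc n c))) ok (by rw [sc_mul, ot_mul_ot le_rfl]) (fun w hw => by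
    obtain ⟨y, hy, rfl⟩ := mem_sc.1 hw
    exact (Oc n c).mul_mem hz hy) (mem_sc.2 ⟨starRingEnd ℂ (ι z), ?_, ?_⟩) hI, sc_mul,
    ot_mul_ot (Oc_le n (one_dvd c)), ctr, cnr_span (cnv_ok ok) h]
  · obtain ⟨x, y, hy, e⟩ := (mem_Oc ok.m4).1 hz
    exact (mem_Oc ok.m4).2 ⟨x + y, -y, hy.neg_right, by rw [e, cma_conj]⟩
  · rw [Complex.mul_conj, ← cnr_norm (cnv_ok ok) h ι z, Complex.ofReal_natCast]

theorem ctr_iv (ok : Ok n c) (h : Qd K (-n)) (h0 : I ≠ ⊥) (hI : (Ideal.absNorm I).Coprime c) :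
    IsIv (Oc n c) (ctr n c ι I) := by
  obtain ⟨L, hL⟩ := Ideal.dvd_iff_le.2 (Ideal.span_singleton_absNorm_le I)
  have h1 : (Ideal.absNorm (Ideal.span {(Ideal.absNorm I : 𝓞 K)})).Coprime c := by
    rw [Ideal.absNorm_span_natCast]
    exact hI.pow_left _
  have h2 : (Ideal.absNorm L).Coprime c := by
    rw [hL, map_mul] at h1
    exact Nat.Coprime.coprime_mul_left h1
  have h3 := ctr_span (ι := ι) ok h (by simp) h1
  rw [hL, ctr_mul ok h hI h2] at h3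
  refine ⟨ctr_ot ok h, sc (ι ((Ideal.absNorm I : 𝓞 K) : K))⁻¹ (ctr n c ι L), ?_⟩
  rw [mul_sc, h3, sc_inv_sc (fih_ne (Nat.cast_ne_zero.2 (Ideal.absNorm_eq_zero_iff.not.2 h0)))]

omit [NumberField K] in
theorem ctr_form (ok : Ok n c) {t : ℤ} (e : b ^ 2 + n * (1 : ℕ) ^ 2 = 4 * a * t)
    (ha : a.Coprime c) (hI : fihL ι I = idl n 1 a b) :
    Fo n c a (b * c) ∧ ctr n c ι I = idl n c a (b * c) := by
  have h1 : (b * c) ^ 2 + n * c ^ 2 = 4 * a * (t * c ^ 2) := by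
    push_cast at e
    linear_combination (c : ℤ) ^ 2 * e
  have h2 := idl_ext ok.m4 e (Nat.isCoprime_iff_coprime.2 ha)
  rw [one_mul] at h2
  refine ⟨⟨ha, _, h1⟩, ?_⟩
  rw [ctr, hI, ← h2]
  exact cnv_ctr ok (idl_mul_ot ok.m4 h1) (idl_le ok.m4 h1)
    (by simpa [idl] using left_mem_sp2 _ _) ha

theorem ctr_idl (ok : Ok n 2) (h : Qd K (-n)) (hf : Fo n 2 a b) :
    ∃ I : Ideal (𝓞 K), ctr n 2 ι I = idl n 2 a b ∧ Ideal.absNorm I = a := by
  obtain ⟨ha, t, e⟩ := hf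
  obtain ⟨u, hu⟩ : Odd a := Nat.coprime_two_right.1 ha
  have m4 := ok.m4
  obtain ⟨b', rfl⟩ : 2 ∣ b := Int.prime_two.dvd_of_dvd_pow (n := 2)
    ⟨2 * a * t - 2 * n, by push_cast at e; linear_combination e⟩
  have e0 : b' ^ 2 + n = a * t := mul_left_cancel₀ four_ne_zero (by
    push_cast at e; linear_combination e)
  obtain ⟨v, j, hv⟩ : ∃ v j : ℤ, b' + a * v = 2 * j + 1 := by
    rcases Int.even_or_odd' b' with ⟨j, hj | hj⟩
    · exact ⟨1, j + u, by rw [hj, hu]; push_cast; ring⟩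
    · exact ⟨0, j, by rw [hj]; ring⟩
  have c4 : IsCoprime (4 : ℤ) a := by
    simpa using (Nat.isCoprime_iff_coprime.2 ha.symm).pow_left (m := 2)
  obtain ⟨l, hl⟩ : 4 * (a : ℤ) ∣ (b' + a * v) ^ 2 + n := c4.mul_dvd
    ⟨j ^ 2 + j + (n + 1) / 4, by rw [hv]; linear_combination -cma_four m4⟩
    ⟨t + 2 * b' * v + a * v ^ 2, by linear_combination e0⟩
  have e1 : (b' + a * v) ^ 2 + n * (1 : ℕ) ^ 2 = 4 * a * l := by
    push_cast
    linear_combination hl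
  obtain ⟨I, h1, h2⟩ := cnr_idl (ι := ι) (cnv_ok ok) h e1
  exact ⟨I, (ctr_form ok e1 ha h1).2.trans (idl_congr ⟨v, by push_cast; ring⟩), h2⟩

theorem ctr_prime (ok : Ok n c) (h : Qd K (-n)) {p : ℕ} (hp : p.Prime) (hc : p.Coprime c)
    (e : Ideal.absNorm I = p) : ∃ b : ℤ, Fo n c p b ∧ ctr n c ι I = idl n c p b := by
  obtain ⟨b, t, h1, h2⟩ := cnr_prime (ι := ι) (cnv_ok ok) h hp e
  exact ⟨_, ctr_form ok h1 hc h2⟩

theorem cnv_r0 (ok : Ok n c) (h : Qd K (-n)) (h0 : k ≠ 0) (hk : k.Coprime c) {B : Ideal (𝓞 K)}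
    (ha : a.Coprime c) (hN : Ideal.absNorm B = a) (e : Ideal.absNorm I = k) :
    IsIv (Oc n c) (ctr n c ι I) ∧ (Ideal.absNorm (B * I)).Coprime c ∧
      ctr n c ι (B * I) = ctr n c ι B * ctr n c ι I := by
  subst hN e
  exact ⟨ctr_iv ok h (Ideal.absNorm_eq_zero_iff.not.1 h0) hk, by
    rw [map_mul]
    exact ha.mul_left hk, ctr_mul ok h ha hk⟩

theorem cnv_r1 (ok : Ok n c) (h : Qd K (-n)) (k2 : (Ideal.absNorm I).Coprime c) {z : ℂ}
    (hz : ctr n c ι I = sc z (ot (Oc n c))) : ∃ y : 𝓞 K, ι y = z ∧ Ideal.span {y} = I := by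
  have h1 : z ∈ ctr n c ι I := hz.ge (mem_sc.2 ⟨1, (Oc n c).one_mem, mul_one z⟩)
  obtain ⟨y, -, rfl⟩ := fih_mem.1 (show z ∈ fihL ι I from h1.1)
  refine ⟨y, rfl, fih_inj (ι := ι) ?_⟩
  rw [← ctr_ext ok h k2, hz, sc_mul, ot_mul_ot (Oc_le n (one_dvd c)), cnr_span (cnv_ok ok) h]

omit [NumberField K] in
theorem cnv_r2 {y : 𝓞 K} (h1 : Ideal.span {y} = I * I')
    (h2 : ctr n c ι (I * I') = sc (ι y) (ot (Oc n c))) : ι y ∈ ctr n c ι I := by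
  have h3 : ι y ∈ ctr n c ι (I * I') := h2.ge (mem_sc.2 ⟨1, (Oc n c).one_mem, mul_one _⟩)
  have h4 : y ∈ I * I' := h1.le (Ideal.mem_span_singleton_self y)
  exact ⟨fih_mem.2 ⟨y, Ideal.mul_le_left h4, rfl⟩, h3.2⟩

theorem cnv_two {X : Type} (P : ℂ → Prop) (g : X → ℂ) (g0 : ∀ x, g x ≠ 0) (g1 : ∀ x, P (g x))
    (g2 : ∀ x, P (-g x)) (g3 : ∀ x y, g x = g y ∨ g x = -g y → x = y)
    (g4 : ∀ z, P z → ∃ x, z = g x ∨ z = -g x) : Nat.card {z // P z} = 2 * Nat.card X := by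
  have hb : Nat.card Bool = 2 := by simp
  rw [← hb, ← Nat.card_prod]
  refine (Nat.card_eq_of_bijective (fun p : Bool × X =>
    (if p.1 then ⟨_, g1 p.2⟩ else ⟨_, g2 p.2⟩ : {z // P z})) ⟨?_, fun ⟨z, hz⟩ => ?_⟩).symm
  · rintro ⟨_ | _, x⟩ ⟨_ | _, y⟩ e <;>
      simp only [Subtype.mk.injEq, Bool.false_eq_true, if_true, if_false] at e
    · rw [g3 x y (.inl (neg_injective e))]
    · obtain rfl := g3 y x (.inr e.symm)
      exact (g0 y (by linear_combination -e / 2)).elim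
    · obtain rfl := g3 x y (.inr e)
      exact (g0 x (by linear_combination e / 2)).elim
    · rw [g3 x y (.inl e)]
  · obtain ⟨x, rfl | rfl⟩ := g4 z hz
    exacts [⟨(true, x), rfl⟩, ⟨(false, x), rfl⟩]

/-- Representations and ideals. -/
theorem cnv_card (ok : Ok n 2) (h : Qd K (-n)) (ι : K →+* ℂ) (h0 : k ≠ 0)
    (hk : k.Coprime 2) (x : Pc n 2) : rC n 2 x k =
      2 * Nat.card {I : Ideal (𝓞 K) // Ideal.absNorm I = k ∧ cl _ (ctr n 2 ι I) = x⁻¹} := by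
  obtain ⟨a, b, hf, -, e0⟩ := exists_fo ok x one_ne_zero
  obtain ⟨B, hB, hN⟩ := ctr_idl (ι := ι) ok h hf
  have hv := hf.isIv ok (cnr_sqf h)
  have a0 := (hf.pos ok).ne'
  have B0 : B ≠ ⊥ := Ideal.absNorm_eq_zero_iff.not.1 (hN.trans_ne a0)
  have r1 : ∀ I : {I : Ideal (𝓞 K) // Ideal.absNorm I = k ∧ cl _ (ctr n 2 ι I) = x⁻¹},
      ∃ y : 𝓞 K, ι y ≠ 0 ∧ Ideal.span {y} = B * I.1 ∧
        ctr n 2 ι (B * I.1) = sc (ι y) (ot (Oc n 2)) := fun I => by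
    obtain ⟨k1, k2, k3⟩ := cnv_r0 (ι := ι) ok h h0 hk hf.1 hN I.2.1
    rw [hB] at k3
    obtain ⟨z, z0, hz⟩ := (cl_eq_iff (isIv_one _) (hv.mul k1)).1 (by
      rw [cl_mul hv k1, I.2.2, e0, mul_inv_cancel, cl_one])
    rw [← k3] at hz
    obtain ⟨y, rfl, hy⟩ := cnv_r1 ok h k2 hz
    exact ⟨y, z0, hy, hz⟩
  choose g g0 g1 g2 using r1
  have g3 : ∀ I, ι (g I) ∈ idl n 2 a b := fun I => hB.le (cnv_r2 (g1 I) (g2 I))
  have g4 : ∀ I, Complex.normSq (ι (g I)) = k * a := fun I => by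
    rw [← cnr_norm (cnv_ok ok) h, g1, map_mul, hN, I.2.1, Nat.cast_mul, mul_comm]
  have g5 : ∀ I I', ι (g I) = ι (g I') ∨ ι (g I) = -ι (g I') → I = I' := fun I I' e =>
    Subtype.ext (mul_left_cancel₀ B0 (fih_inj (ι := ι) (by
      rw [← g1, ← g1, cnr_span (cnv_ok ok) h, cnr_span (cnv_ok ok) h]
      rcases e with e | e <;> rw [e]
      exact cnr_neg _ _)))
  have g6 : ∀ z ∈ idl n 2 a b, Complex.normSq z = k * a → ∃ I, z = ι (g I) ∨ z = -ι (g I) := by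
    intro z z1 z2
    rw [← hB] at z1
    obtain ⟨y, hy, rfl⟩ := fih_mem.1 (show z ∈ fihL ι B from z1.1)
    obtain ⟨I, hI⟩ := Ideal.dvd_iff_le.2 ((Ideal.span_singleton_le_iff_mem B).2 hy)
    have z0 : ι y ≠ 0 := fun e => by
      rw [e, map_zero] at z2
      exact mul_ne_zero (Nat.cast_ne_zero.2 h0) (Nat.cast_ne_zero.2 a0) z2.symm
    have e : Ideal.absNorm I = k := by
      rw [← cnr_norm (cnv_ok ok) h, hI, map_mul, hN, ← Nat.cast_mul, Nat.cast_inj, mul_comm] at z2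
      exact mul_right_cancel₀ a0 z2
    obtain ⟨k1, k2, k3⟩ := cnv_r0 (ι := ι) ok h h0 hk hf.1 hN e
    have k4 := ctr_span (ι := ι) (z := y) ok h (ctr_le z1) (by rwa [hI])
    rw [hI] at k4
    rw [hB] at k3
    have k5 := cl_inv hv k1 z0 (k3.symm.trans k4)
    rw [e0] at k5
    have k6 : sc ((ι (g ⟨I, e, k5⟩))⁻¹ * ι y) (ot (Oc n 2)) = ot (Oc n 2) := by
      rw [← sc_sc, ← k4, g2 ⟨I, e, k5⟩, sc_inv_sc (g0 _)]
    refine ⟨⟨I, e, k5⟩, ?_⟩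
    simpa only [inv_mul_eq_iff_eq_mul₀ (g0 _), mul_one, mul_neg] using unit_Oc ok k6
  rw [← e0, rC_eq ok (cnr_sqf h) hf, e0]
  exact cnv_two _ (fun I => ι (g I)) g0 (fun I => ⟨g3 I, g4 I⟩)
    (fun I => ⟨neg_mem (g3 I), (Complex.normSq_neg _).trans (g4 I)⟩) g5 fun z hz => g6 z hz.1 hz.2

end Pool.Agent.B8
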