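import Pool.Agent.Lib.MP_696deb_nt.B8.ZB
import Pool.Agent.Lib.MP_696deb_nt.B8.RPc

/-! The recursion for the coefficients of the series of a cubic character. -/

set_option autoImplicit false

open NumberField NumberTheorySymbols
open scoped Classical

namespace Pool.Agent.B8
open Pool.Agent.Lib.MP_696deb_nt.B2.CM Pool.Agent.H3.T Pool.Agent.B6

/-- The integers with a cube root of unity. -/
abbrev Eis : Type := QuadraticAlgebra ℤ (-1) (-1)

/-- The faithful character of the group of order three. -/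
def om (a : Z3) : Eis := if a = 1 then ⟨1, 0⟩ else if a = .ofAdd 1 then ⟨0, 1⟩ else ⟨-1, -1⟩

theorem om_mul : ∀ a b, om (a * b) = om a * om b := by decide

theorem om_re : ∀ a, (om a).re = bw a⁻¹ := by decide

theorem om_add : ∀ a b : Z3, a * b = 1 → om a + om b = ((if a = 1 then 2 else -1 : ℤ) : Eis) := by
  decide

theorem z3_sq : ∀ a : Z3, a * a = 1 → a = 1 := by decide

theorem bw_three : ∀ a b : Z3, a ≠ 1 → bw b + bw (a * b) + bw (a * (a * b)) = 0 := by decide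

theorem a0_field {n : ℕ} (h : Nk n) : ∃ (K : Type) (_ : Field K) (_ : NumberField K), Qd K (-n) := by
  have n0 : (0 : ℚ) < n := by have := h.gt; exact_mod_cast (by omega)
  have : Fact (∀ r : ℚ, r ^ 2 ≠ -n + 0 * r) := ⟨fun r e => by nlinarith [sq_nonneg r]⟩
  have : NumberField (QuadraticAlgebra ℚ (-n) 0) := {}
  refine ⟨QuadraticAlgebra ℚ (-n) 0, inferInstance, this, QuadraticAlgebra.finrank_eq_two _ _,
    (Int.squarefree_natCast.2 h.sqf).squarefree_of_dvd (neg_dvd.2 dvd_rfl), ?_, ?_,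
    QuadraticAlgebra.omega, ?_⟩
  · have := h.m8; omega
  · omega
  · ext <;> simp [sq]

theorem a0_rec {l r : ℕ} (hl : l % 4 = 3) (hr : Odd r) : J(-l | r) = J(r | l) := by
  rw [jacobiSym.neg _ hr]
  rcases Nat.odd_mod_four_iff.1 (Nat.odd_iff.1 hr) with h | h
  · rw [ZMod.χ₄_nat_one_mod_four h, one_mul,
      jacobiSym.quadratic_reciprocity_one_mod_four h (Nat.odd_iff.2 (by omega))]
  · rw [ZMod.χ₄_nat_three_mod_four h, jacobiSym.quadratic_reciprocity_three_mod_four h hl]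
    ring

section even
variable {n k : ℕ}

theorem a0_down (ok : Ok n 2) (hs : Squarefree n) (hk : Even k) (x : Pc n 2) :
    ∃ a b, Fo n 1 a b ∧ pj n 1 2 x = cl _ (idl n 1 a b) ∧ rC n 2 x k =
      Nat.card {z : ℂ // z ∈ sc (2 : ℕ) (idl n 1 a b) ∧ Complex.normSq z = k * a} := by
  obtain ⟨a, b, hf, -, rfl⟩ := exists_fo ok x one_ne_zero
  obtain ⟨ha, t, e⟩ := id hf
  obtain ⟨u, hu⟩ : Odd a := Nat.coprime_two_right.1 ha
  have m4 := ok.m4
  obtain ⟨b', rfl⟩ : 2 ∣ b := Int.prime_two.dvd_of_dvd_pow (n := 2)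
    ⟨2 * a * t - 2 * n, by push_cast at e; linear_combination e⟩
  have e0 : b' ^ 2 + n = a * t := mul_left_cancel₀ four_ne_zero (by
    push_cast at e; linear_combination e)
  obtain ⟨v, j, hv⟩ : ∃ v j : ℤ, b' + a * v = 2 * j + 1 := by
    rcases Int.even_or_odd' b' with ⟨j, hj | hj⟩
    · exact ⟨1, j + u, by rw [hj, hu]; push_cast; ring⟩
    · exact ⟨0, j, by rw [hj]; ring⟩
  have c2 : IsCoprime (a : ℤ) (2 : ℕ) := Nat.isCoprime_iff_coprime.2 ha
  have c4 : IsCoprime (4 : ℤ) a := by simpa using c2.symm.pow_left (m := 2)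
  obtain ⟨l, hl⟩ : 4 * (a : ℤ) ∣ (b' + a * v) ^ 2 + n := c4.mul_dvd
    ⟨j ^ 2 + j + (n + 1) / 4, by rw [hv]; linear_combination -cma_four m4⟩
    ⟨t + 2 * b' * v + a * v ^ 2, by linear_combination e0⟩
  have e1 : (b' + a * v) ^ 2 + n * (1 : ℕ) ^ 2 = 4 * a * l := by
    push_cast
    linear_combination hl
  have e2 : idl n 2 a (2 * b') = idl n (1 * 2) a ((b' + a * v) * (2 : ℕ)) :=
    idl_congr ⟨-v, by push_cast; ring⟩
  refine ⟨a, b' + a * v, ⟨a.coprime_one_right, l, e1⟩, ?_, ?_⟩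
  · rw [pj_cl (one_dvd 2) (hf.isIv ok hs), e2, idl_ext ok.m4 e1 c2]
  · rw [rC_eq ok hs hf, rq, e2]
    generalize b' + a * v = b at hl
    refine Nat.card_congr (Equiv.subtypeEquivRight fun z => and_congr_left fun hz => ?_)
    rw [idl, idl, sc_sp2, ← be_mul, mem_sp2, mem_sp2]
    refine ⟨fun ⟨r, s, e⟩ => ?_, fun ⟨r, s, e⟩ => ⟨r * 2, s, by rw [e]; push_cast; ring⟩⟩
    have h3 := cnt_nsq n (1 * 2) (r * a) s (b * (2 : ℕ))
    rw [Int.cast_mul, ← e, hz] at h3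
    have h4 : (4 * (k * a) : ℤ) =
        (2 * (r * a) + s * (b * (2 : ℕ))) ^ 2 + n * ((1 * 2 : ℕ) * s) ^ 2 := by exact_mod_cast h3
    obtain ⟨k', rfl⟩ := hk
    obtain ⟨w, rfl⟩ : ((2 : ℕ) : ℤ) ∣ r := c2.symm.dvd_of_dvd_mul_right
      (Int.prime_two.dvd_of_dvd_pow (n := 2) ⟨k' * a - r * a * s * b - 2 * a * l * s ^ 2,
        mul_left_cancel₀ four_ne_zero (by
          push_cast at h4; linear_combination (-1 : ℤ) * h4 - 4 * s ^ 2 * hl)⟩)
    exact ⟨w, s, by rw [e]; push_cast; ring⟩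

theorem a0_fib (ok : Ok n 2) (hs : Squarefree n) (hk : Even k) {x y : Pc n 2}
    (hxy : pj n 1 2 x = pj n 1 2 y) : rC n 2 x k = rC n 2 y k := by
  have ok' := cnv_ok ok
  obtain ⟨a, b, h1, h2, h3⟩ := a0_down ok hs hk x
  obtain ⟨a', b', h1', h2', h3'⟩ := a0_down ok hs hk y
  obtain ⟨μ, hμ, e⟩ := (cl_eq_iff (h1.isIv ok' hs) (h1'.isIv ok' hs)).1
    (h2.symm.trans (hxy.trans h2'))
  rw [h3, h3', ← h1.norm ok' h1' e, e, sc_sc _ μ, mul_comm _ μ, ← sc_sc μ,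
    mul_left_comm (k : ℝ), cnt_sc hμ]

theorem a0_even [Fintype (Pc n 2)] (ok : Ok n 2) (hs : Squarefree n) (hk : Even k)
    {ψ : Pc n 2 →* Z3} (hψ : Ram ψ) : gS ψ k = 0 := by
  obtain ⟨y, h1, h2⟩ := hψ
  have key : ∀ F : Z3 → ℤ, ∑ x, F (ψ y * ψ x) * rC n 2 x k = ∑ x, F (ψ x) * rC n 2 x k := fun F =>
    Fintype.sum_equiv (Equiv.mulLeft y) _ _ fun x => by
      rw [Equiv.coe_mulLeft, map_mul, a0_fib ok hs hk (x := y * x) (y := x)
        (by rw [map_mul, h1, one_mul])]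
  have k1 := key bw
  have k2 := key fun b => bw (ψ y * b)
  have k3 : ∑ x, (bw (ψ x) + bw (ψ y * ψ x) + bw (ψ y * (ψ y * ψ x))) * (rC n 2 x k : ℤ) = 0 :=
    Finset.sum_eq_zero fun x _ => by rw [bw_three _ _ h2, zero_mul]
  simp only [add_mul, Finset.sum_add_distrib] at k3
  rw [gS]
  linarith

end even

section odd
variable {n k p : ℕ} {K : Type} [Field K] [NumberField K] {I I' : Ideal (𝓞 K)}

/-- The character on ideals. -/
noncomputable def chI (ι : K →+* ℂ) (ψ : Pc n 2 →* Z3) (I : Ideal (𝓞 K)) : Z3 :=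
  ψ (cl _ (ctr n 2 ι I))

/-- The sum of the character over the ideals of given norm. -/
noncomputable def gE (ι : K →+* ℂ) (ψ : Pc n 2 →* Z3) (k : ℕ) : Eis :=
  ∑ I ∈ cnqS K k, om (chI ι ψ I)

variable {ι : K →+* ℂ} {ψ : Pc n 2 →* Z3}

theorem a0_ne (h : Odd (Ideal.absNorm I)) : I ≠ ⊥ := fun e => by
  rw [e, Ideal.absNorm_bot] at h
  exact absurd h (by decide)

theorem chI_mul (ok : Ok n 2) (h : Qd K (-n)) (k : Odd (Ideal.absNorm I))
    (k' : Odd (Ideal.absNorm I')) : chI ι ψ (I * I') = chI ι ψ I * chI ι ψ I' := by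
  have c := Nat.coprime_two_right.2 k
  have c' := Nat.coprime_two_right.2 k'
  rw [chI, ctr_mul ok h c c', cl_mul (ctr_iv ok h (a0_ne k) c) (ctr_iv ok h (a0_ne k') c'), map_mul]
  rfl

theorem a0_norm (h : Qd K (-n)) (p : ℕ) : Ideal.absNorm (Ideal.span {(p : 𝓞 K)}) = p * p := by
  rw [Ideal.absNorm_span_natCast, RingOfIntegers.rank, h.rank, sq]

theorem chI_span (ok : Ok n 2) (h : Qd K (-n)) (hp : Odd p) :
    chI ι ψ (Ideal.span {(p : 𝓞 K)}) = 1 := by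
  rw [chI, ctr_span ok h (by simp) (by rw [a0_norm h]; exact Nat.coprime_two_right.2 (hp.mul hp)),
    cl_sc (isIv_one _) (fih_ne (Nat.cast_ne_zero.2 hp.pos.ne')), cl_one, map_one]

theorem gE_one (ok : Ok n 2) (h : Qd K (-n)) : gE ι ψ 1 = 1 := by
  have := chI_span (ι := ι) (ψ := ψ) ok h odd_one
  rw [Nat.cast_one, Ideal.span_singleton_one] at this
  rw [gE, show cnqS K 1 = {⊤} from Finset.ext fun I => by
    rw [mem_cnqS, Ideal.absNorm_eq_one_iff, Finset.mem_singleton], Finset.sum_singleton, this]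
  rfl

theorem gE_dvd (ok : Ok n 2) (h : Qd K (-n)) {P : Ideal (𝓞 K)} {a m : ℕ}
    (hP : Ideal.absNorm P = a) (ha : Odd a) (hm : Odd m) :
    ∑ I ∈ cnqS K (a * m) with P ∣ I, om (chI ι ψ I) = om (chI ι ψ P) * gE ι ψ m := by
  have h0 : P ≠ ⊥ := a0_ne (hP ▸ ha)
  rw [gE, Finset.mul_sum]
  refine (Finset.sum_nbij (fun I => P * I) (fun I hI => ?_) (fun I _ I' _ h => ?_)
    (fun I hI => ?_) fun I hI => ?_).symm
  · exact Finset.mem_filter.2 ⟨mem_cnqS.2 (by rw [map_mul, hP, mem_cnqS.1 hI]), dvd_mul_right _ _⟩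
  · exact mul_left_cancel₀ h0 h
  · obtain ⟨h1, I, rfl⟩ := Finset.mem_filter.1 (Finset.mem_coe.1 hI)
    rw [mem_cnqS, map_mul, hP] at h1
    exact ⟨I, Finset.mem_coe.2 (mem_cnqS.2 (mul_left_cancel₀ ha.pos.ne' h1)), rfl⟩
  · rw [chI_mul ok h (hP ▸ ha) (mem_cnqS.1 hI ▸ hm), om_mul]

theorem gE_rec (ok : Ok n 2) (h : Qd K (-n)) (hp : p.Prime) (h2 : Odd p) : ∃ c : ℤ,
    (∀ k, Odd k → gE ι ψ (p * k) =
      c * gE ι ψ k - (J(p | n) : ℤ) * if p ∣ k then gE ι ψ (k / p) else 0) ∧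
    ((p ∣ n ∧ c = 1) ∨ (¬ p ∣ n ∧ J(p | n) = -1 ∧ c = 0) ∨ (¬ p ∣ n ∧ J(p | n) = 1 ∧
      ∃ P : Ideal (𝓞 K), Ideal.absNorm P = p ∧ c = if chI ι ψ P = 1 then 2 else -1)) := by
  have h0 := hp.ne_zero
  have h3 : ∀ k, Odd k → ∑ I ∈ cnqS K (p * k) with Ideal.span {(p : 𝓞 K)} ∣ I, om (chI ι ψ I) =
      if p ∣ k then gE ι ψ (k / p) else 0 := fun k hk => by
    split_ifs with h3
    · obtain ⟨m, rfl⟩ := h3
      rw [← mul_assoc, gE_dvd ok h (a0_norm h p) (h2.mul h2) (Nat.odd_mul.1 hk).2,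
        Nat.mul_div_cancel_left _ hp.pos, chI_span ok h h2]
      exact one_mul _
    · refine Finset.sum_eq_zero fun I hI => absurd ?_ h3
      obtain ⟨h4, h5⟩ := Finset.mem_filter.1 hI
      have h6 := map_dvd Ideal.absNorm h5
      rw [a0_norm h, mem_cnqS.1 h4] at h6
      exact Nat.dvd_of_mul_dvd_mul_left hp.pos h6
  have h4 : ∀ k, ∀ I ∈ cnqS K (p * k), ∀ P Q : Ideal (𝓞 K), P.IsMaximal → Q.IsMaximal →
      Ideal.span {(p : 𝓞 K)} ∣ P * Q → P ∣ I ∨ Q ∣ I := fun k I hI P Q hP hQ e => by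
    obtain ⟨R, hR, k1, k2⟩ := Ideal.exists_isMaximal_dvd_of_dvd_absNorm' hp I
      (mem_cnqS.1 hI ▸ dvd_mul_right _ _)
    have k3 : (p : 𝓞 K) ∈ R := by
      have : (p : ℤ) ∈ R.under ℤ := k1 ▸ Ideal.mem_span_singleton_self _
      simpa using Ideal.mem_comap.1 this
    have k4 : P * Q ≤ R := (Ideal.le_of_dvd e).trans ((Ideal.span_singleton_le_iff_mem _).2 k3)
    exact (hR.isPrime.mul_le.1 k4).imp (fun k => hP.eq_of_le hR.ne_top k ▸ k2)
      fun k => hQ.eq_of_le hR.ne_top k ▸ k2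
  have h5 : p ∣ n → J(p | n) = 0 := fun k2 =>
    jacobiSym.eq_zero_iff.2 ⟨(cnr_sqf h).ne_zero, fun c => hp.coprime_iff_not_dvd.1 c k2⟩
  have hc := h.cases hp
  rw [Int.natAbs_neg, Int.natAbs_natCast, dvd_neg, Int.natCast_dvd_natCast] at hc
  rcases hc with ⟨k1, P, Q, hP, hQ, k2, k3, k4, k5⟩ | ⟨k1, k2⟩ | ⟨k1, P, hP, k2, k3⟩
  · refine ⟨_, fun k hk => ?_, .inr (.inr ⟨fun e => by simp [h5 e] at k1, k1, P, k4, rfl⟩)⟩
    have k7 := Finset.sum_union_inter (f := fun I => om (chI ι ψ I))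
      (s₁ := (cnqS K (p * k)).filter (P ∣ ·)) (s₂ := (cnqS K (p * k)).filter (Q ∣ ·))
    rw [← Finset.filter_or, ← Finset.filter_and, Finset.filter_true_of_mem fun I hI =>
      h4 k I hI P Q hP hQ k3.symm.dvd, Finset.filter_congr (q := (Ideal.span {(p : 𝓞 K)} ∣ ·))
        fun I _ => k3 ▸ ⟨fun k => (Ideal.isCoprime_iff_sup_eq.2 (hP.coprime_of_ne hQ k2)).mul_dvd
          k.1 k.2, fun k => ⟨dvd_of_mul_right_dvd k, dvd_of_mul_left_dvd k⟩⟩, h3 k hk,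
      gE_dvd ok h k4 h2 hk, gE_dvd ok h k5 h2 hk, ← add_mul, om_add _ _ (by
        rw [← chI_mul ok h (k4 ▸ h2) (k5 ▸ h2), k3, chI_span ok h h2])] at k7
    rw [k1, ← k7, gE]
    simp
  · refine ⟨0, fun k hk => ?_, .inr (.inl ⟨fun e => by simp [h5 e] at k1, k1, rfl⟩)⟩
    have k7 := h3 k hk
    rw [Finset.filter_true_of_mem fun I hI => (h4 k I hI _ _ k2 k2 (dvd_mul_right _ _)).elim id id]
      at k7
    rw [k1, ← k7, gE]
    simp
  · refine ⟨1, fun k hk => ?_, .inl ⟨k1, rfl⟩⟩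
    have k6 := gE_dvd (ι := ι) (ψ := ψ) ok h k3 h2 hk
    rw [Finset.filter_true_of_mem fun I hI => (h4 k I hI _ _ hP hP k2.symm.dvd).elim id id,
      z3_sq (chI ι ψ P) (by rw [← chI_mul ok h (k3 ▸ h2) (k3 ▸ h2), k2, chI_span ok h h2])] at k6
    rw [h5 k1, gE, k6, show om 1 = 1 from rfl]
    simp

theorem a0_odd [Fintype (Pc n 2)] (ok : Ok n 2) (h : Qd K (-n)) (hk : Odd k) :
    gS ψ k = 2 * (gE ι ψ k).re := by
  have e : (gE ι ψ k).re = ∑ I ∈ cnqS K k, bw (chI ι ψ I)⁻¹ := by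
    rw [gE]
    induction cnqS K k using Finset.induction_on with
    | empty => rfl
    | insert a s ha ih => rw [Finset.sum_insert ha, Finset.sum_insert ha, ← ih, ← om_re]; rfl
  rw [e, gS, Finset.mul_sum, Finset.sum_congr rfl fun x _ => by
    rw [cnv_card ok h ι hk.pos.ne' (Nat.coprime_two_right.2 hk) x, Nat.subtype_card
      ((cnqS K k).filter fun I => cl _ (ctr n 2 ι I) = x⁻¹)
      fun I => by rw [Finset.mem_filter, mem_cnqS], Finset.card_filter, Nat.cast_mul,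
      Nat.cast_sum, Finset.mul_sum, Finset.mul_sum], Finset.sum_comm]
  refine Finset.sum_congr rfl fun I _ => ?_
  rw [chI, mul_comm]
  simp only [← inv_eq_iff_eq_inv, Nat.cast_ite, mul_ite, Nat.cast_zero, mul_zero,
    Finset.sum_ite_eq, Finset.mem_univ, if_true, map_inv, Nat.cast_one, mul_one, Nat.cast_ofNat]

end odd

theorem a0_stmt' : A0Stmt := by
  intro _ _ ψ hψ
  obtain ⟨K, _, _, h⟩ := a0_field nk
  have ok : Ok NN 2 := nk.ok two_ne_zero
  let ι : K →+* ℂ := (IsAlgClosed.lift (R := ℚ)).toRingHom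
  have od : ∀ {p : ℕ}, p.Prime → p ≠ 2 → Odd p := fun hp h2 => hp.odd_of_ne_two h2
  have val : ∀ (p : ℕ) (c : ℤ), Odd p → (∀ k, Odd k → gE ι ψ (p * k) =
      c * gE ι ψ k - (J(p | NN) : ℤ) * if p ∣ k then gE ι ψ (k / p) else 0) → p ≠ 1 →
      (gE ι ψ p).re = c := fun p c _ hc h1 => by
    have := hc 1 odd_one
    rw [mul_one, gE_one ok h, if_neg (mt Nat.dvd_one.1 h1)] at this
    simp [this]
  refine ⟨fun k => if Odd k then (gE ι ψ k).re else 0, fun k => ?_, ?_, fun k hk => ?_,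
    fun p k hp h2 _ => ?_, fun p hp h2 => ?_⟩
  · dsimp only
    split_ifs with hk
    · exact a0_odd ok h hk
    · exact a0_even ok NN_sqf (Nat.not_odd_iff_even.1 hk) hψ.ram
  · rw [if_pos odd_one, gE_one ok h]
    rfl
  · exact if_neg (Nat.not_odd_iff_even.2 hk)
  · have o := od hp h2
    obtain ⟨c, h1, -⟩ := gE_rec (ι := ι) (ψ := ψ) ok h hp o
    rw [if_pos o, val p c o h1 hp.ne_one, a0_rec ok.m4 o]
    by_cases hk : Odd k
    · rw [if_pos (o.mul hk), if_pos hk, h1 k hk]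
      by_cases h3 : p ∣ k
      · rw [if_pos h3, if_pos h3, if_pos (hk.of_dvd_nat (Nat.div_dvd_of_dvd h3))]
        simp
      · simp [h3]
    · rw [if_neg fun e => hk (Nat.odd_mul.1 e).2, if_neg hk]
      by_cases h3 : p ∣ k
      · rw [if_pos h3, if_neg fun e => hk (Nat.mul_div_cancel' h3 ▸ o.mul e)]
        simp
      · simp [h3]
  · have o := od hp h2
    obtain ⟨c, h1, h3⟩ := gE_rec (ι := ι) (ψ := ψ) ok h hp o
    rw [if_pos o, val p c o h1 hp.ne_one, a0_rec ok.m4 o]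
    rcases h3 with ⟨k1, k2⟩ | ⟨k1, k2, k3⟩ | ⟨k1, k2, P, k3, k4⟩
    · rw [if_pos k1, k2]
    · rw [if_neg k1, if_pos k2, k3]
    · obtain ⟨b, ⟨-, t, ht⟩, e⟩ := ctr_prime (ι := ι) ok h hp (Nat.coprime_two_right.2 o) k3
      rw [if_neg k1, if_neg (by rw [k2]; decide), k4, chI, e]
      exact if_congr (hψ.split p b t hp (fun d => (hp.dvd_mul.1 d).elim
        (fun d => h2 ((Nat.prime_dvd_prime_iff_eq hp Nat.prime_two).1 d)) k1) ht) rfl rfl

theorem a0_stmt (_ : NBStmt) : A0Stmt := a0_stmt'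

end Pool.Agent.B8
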