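import Pool.Agent.Lib.MP_696deb_nt.B8.ZB
import Pool.Agent.Lib.MP_696deb_nt.B6.CEa

/-! The congruence modulo two between the newform and the form of weight one. -/

set_option autoImplicit false

open NumberField NumberTheorySymbols
open scoped Classical NNReal

namespace Pool.Agent.B8
open Pool.Agent.Lib.MP_696deb_nt Pool.Agent.Lib.MP_696deb_nt.B2 Pool.Agent.Lib.MP_696deb_nt.B2.CM
  Pool.Agent.B6 Pool.Agent.B4

/-- If an endomorphism fixes a cubic and none of its roots, it fixes a square root of the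
discriminant. -/
theorem a1_disc {K : Type*} [Field K] [IsAlgClosed K] (φ : K →+* K) {a b c : K} (t : (2 : K) ≠ 0)
    (ha : φ a = a) (hb : φ b = b) (hc : φ c = c)
    (h : ∀ x, 4 * x ^ 3 + a * x ^ 2 + b * x + c = 0 → φ x ≠ x) :
    ∃ d, φ d = d ∧ 256 * d ^ 2 =
      a ^ 2 * b ^ 2 - 16 * b ^ 3 - 4 * a ^ 3 * c - 432 * c ^ 2 + 72 * a * b * c := by
  have f : (4 : K) ≠ 0 := by
    rw [show (4 : K) = 2 * 2 by norm_num]
    exact mul_ne_zero t t
  have s : ∀ x, 4 * x ^ 3 + a * x ^ 2 + b * x + c = 0 →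
      4 * φ x ^ 3 + a * φ x ^ 2 + b * φ x + c = 0 := fun x e => by
    simpa only [map_add, map_mul, map_pow, map_ofNat, map_zero, ha, hb, hc] using congrArg φ e
  obtain ⟨x, hx⟩ : ∃ x : K, 4 * x ^ 3 + a * x ^ 2 + b * x + c = 0 := by
    obtain ⟨x, hx⟩ := IsAlgClosed.exists_root (Cubic.toPoly ⟨4, a, b, c⟩)
      (by rw [Cubic.degree_of_a_ne_zero f]; decide)
    exact ⟨x, by simpa [Cubic.toPoly] using hx⟩
  obtain ⟨y, hy⟩ : ∃ y, φ x = y := ⟨_, rfl⟩
  obtain ⟨z, hz⟩ : ∃ z, a = -4 * (x + y + z) := ⟨-a / 4 - x - y, by field_simp; ring⟩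
  have ey := hy ▸ s x hx
  have n1 : y - x ≠ 0 := sub_ne_zero.2 (hy ▸ h x hx)
  have eb : b = 4 * (x * y + x * z + y * z) :=
    mul_left_cancel₀ n1 (by rw [hz] at ey hx; linear_combination ey - hx)
  have ec : c = -4 * (x * y * z) := by
    rw [hz, eb] at hx
    linear_combination hx
  have e1 : φ y + φ z = x + z := by
    have k := congrArg φ hz
    simp only [map_add, map_mul, map_neg, map_ofNat, ha, hy] at k
    exact mul_left_cancel₀ f (by linear_combination k - hz)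
  have e2 : φ y = z := by
    have k : 4 * ((φ y - x) * ((φ y - y) * (φ y - z))) = 0 := by
      have := s y ey
      rw [hz, eb, ec] at this
      linear_combination this
    rcases mul_eq_zero.1 ((mul_eq_zero.1 k).resolve_left f) with k | k
    · exact absurd (by linear_combination e1 - k) (h z (by rw [hz, eb, ec]; ring))
    · exact sub_eq_zero.1 ((mul_eq_zero.1 k).resolve_left (sub_ne_zero.2 (h y ey)))
  have e3 : φ z = x := by linear_combination e1 - e2
  refine ⟨(x - y) * (y - z) * (z - x), ?_, by rw [hz, eb, ec]; ring⟩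
  simp only [map_mul, map_sub, hy, e2, e3]
  ring

/-- The cubic has a root modulo the primes that are inert in the quadratic field. -/
theorem rt_of_inert [Cs] {p : ℕ} (hp : p.Prime) (h : ¬ p ∣ 2 * NN) (hJ : J(-NN | p) = -1) :
    Rt p := by
  have := Fact.mk hp
  by_contra hr
  have t := B5.two_ne_zmod (l := p) fun e => h (e ▸ dvd_mul_right _ _)
  let K := AlgebraicClosure (ZMod p)
  have inj := (algebraMap (ZMod p) K).injective
  have fx : ∀ x : K, frobenius K p x = x → ∃ n : ZMod p, algebraMap (ZMod p) K n = x := fun x e => by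
    obtain ⟨n, rfl⟩ := (mem_bot_iff_intCast p K).1 ((Subfield.mem_bot_iff_pow_eq_self K p).2 e)
    exact ⟨n, map_intCast _ n⟩
  obtain ⟨d, h1, h2⟩ := a1_disc (frobenius K p) (a := WZ.b₂) (b := 2 * WZ.b₄) (c := WZ.b₆)
    (fun e => t (inj (by rw [map_ofNat, e, map_zero]))) (map_intCast _ _)
    (by rw [map_mul, map_ofNat, map_intCast]) (map_intCast _ _) fun x e k => by
      obtain ⟨n, rfl⟩ := fx x k
      exact hr ⟨n, inj (by rw [map_cub, map_zero]; exact e)⟩
  obtain ⟨m, rfl⟩ := fx d h1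
  obtain ⟨s, -, hs⟩ := WZ_disc
  have s0 : (s : ZMod p) ≠ 0 := fun e => h (Dvd.dvd.mul_left ((dvd_Δ hp).1 (by
    rw [hs, dvd_neg]
    exact (Dvd.dvd.pow ((ZMod.intCast_zmod_eq_zero_iff_dvd _ _).1 e) two_ne_zero).mul_left _)) _)
  have e1 : 16 * -(NN * s ^ 2) = WZ.b₂ ^ 2 * (2 * WZ.b₄) ^ 2 - 16 * (2 * WZ.b₄) ^ 3 -
      4 * WZ.b₂ ^ 3 * WZ.b₆ - 432 * WZ.b₆ ^ 2 + 72 * WZ.b₂ * (2 * WZ.b₄) * WZ.b₆ := by
    rw [← hs, WeierstrassCurve.Δ]
    linear_combination (-4 * WZ.b₂ ^ 2) * WZ.b_relation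
  have e2 : (256 : ZMod p) * m ^ 2 = 16 * -(NN * s ^ 2) := inj (by
    have k := congrArg (Int.castRingHom K) e1
    simp only [map_add, map_sub, map_mul, map_pow, map_neg, map_ofNat, map_natCast,
      map_intCast] at k ⊢
    exact h2.trans k.symm)
  refine ZMod.nonsquare_of_jacobiSym_eq_neg_one hJ ⟨4 * m / s, ?_⟩
  push_cast
  field_simp
  exact mul_left_cancel₀ (pow_ne_zero 4 t) (by linear_combination -e2)

variable [Ce] {g : ℕ → ℤ} {D : GE.MD Wu NN}

theorem a1_prime (hg : Rec g) (hD : Nf8 D) {p : ℕ} (hp : p.Prime) (h : ¬ p ∣ 2 * NN) :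
    (D.c p : ZMod 2) = g p := by
  have := Fact.mk hp
  have k : Even (D.c p) ↔ Rt p := by
    have e : (cub : ZMod p → ZMod p) =
        fun x : ZMod p => 4 * x ^ 3 + WZ.b₂ * x ^ 2 + (2 * WZ.b₄ : ℤ) * x + WZ.b₆ := by
      ext x
      simp [cub]
    rw [hD.tr p h, e, even_tr' (fun e => h (e ▸ dvd_mul_right _ _))
      (fun e => h (((dvd_Δ hp).1 e).mul_left _)) rfl rfl rfl]
    exact exists_congr fun x => by rw [e]
  rw [hg.val p hp fun e => h (e ▸ dvd_mul_right _ _), if_neg fun e => h (e.mul_left _)]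
  split_ifs with h1 h2
  · exact (k.2 (rt_of_inert hp h h1)).intCast_zmod_two
  · exact (k.2 h2).intCast_zmod_two
  · exact (Int.not_even_iff_odd.1 (mt k.1 h2)).intCast_zmod_two

theorem a1_mod (hg : Rec g) (hD : Nf8 D) (k : ℕ) : (D.c k : ZMod 2) = g k := by
  induction k using Nat.strong_induction_on with
  | _ k ih =>
  rcases Nat.eq_zero_or_pos k with rfl | k0
  · have : (D.c 0 : ℂ) = 0 := by simpa [GE.MD.S] using D.S0
    rw [Int.cast_eq_zero.1 this, hg.even 0 Even.zero]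
  rcases eq_or_ne k 1 with rfl | k1
  · rw [D.hc, hg.one]
  obtain ⟨p, hp, m, rfl⟩ := Nat.exists_prime_and_dvd k1
  have m0 : 0 < m := Nat.pos_of_mul_pos_left k0
  have l1 : m < p * m := lt_mul_of_one_lt_left m0 hp.one_lt
  have i1 := ih m l1
  have i2 := ih (m / p) ((Nat.div_le_self _ _).trans_lt l1)
  rcases eq_or_ne p 2 with rfl | p2
  · have e := congrArg (Int.cast : ℤ → ZMod 2) (D.hT 2 hp (fun e => ne_two_of_dvd e rfl) m)
    have t : (2 : ZMod 2) = 0 := rfl
    rw [hg.even _ (even_two_mul m)]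
    simpa [hD.ev.intCast_zmod_two, t] using e
  rw [hg.mul p m hp p2 m0.ne']
  by_cases hN : p ∣ NN
  · have j : J(-NN | p) = 0 := jacobiSym.eq_zero_iff.2 ⟨hp.ne_zero, fun e => hp.one_lt.ne' (by
      simpa [Nat.gcd_eq_right hN] using e)⟩
    have c1 : (D.c p : ZMod 2) = 1 := by
      rcases sq_eq_one_iff.1 (hD.nw p hp hN).1 with e | e <;> rw [e] <;> rfl
    rw [(hD.nw p hp hN).2, j, hg.val p hp p2, if_pos hN]
    simp [c1, i1]
  · have h : ¬ p ∣ 2 * NN := fun e => (hp.dvd_mul.1 e).elim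
      (fun e => p2 ((Nat.prime_dvd_prime_iff_eq hp Nat.prime_two).1 e)) hN
    have j : (J(-NN | p) : ZMod 2) = 1 := by
      rcases jacobiSym.eq_one_or_neg_one (a := -NN) (b := p) (by
        simpa using ((Nat.Prime.coprime_iff_not_dvd hp).2 hN).symm) with e | e <;> rw [e] <;> rfl
    have e := congrArg (Int.cast : ℤ → ZMod 2) (D.hT p hp hN m)
    have o := (hp.odd_of_ne_two p2).natCast_zmod_two
    have i0 := a1_prime hg hD hp h
    split_ifs at e ⊢
    · push_cast at e ⊢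
      rw [j, ← i0, ← i1, ← i2]
      rw [o] at e
      linear_combination e
    · push_cast at e ⊢
      rw [← i0, ← i1]
      linear_combination e

omit [Ce] in
theorem a1_stmt : A1Stmt := fun _ _ hg hD k =>
  ZMod.intCast_eq_zero_iff_even.1 (by rw [Int.cast_sub, a1_mod hg hD k, sub_self])

end Pool.Agent.B8
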