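import Pool.Agent.Lib.MP_696deb_nt.B8.LKb

/-! The series of a cubic character as a sum of theta series with a weight modulo two. -/

set_option autoImplicit false

open Complex
open scoped Classical Real

namespace Pool.Agent.B8
open Pool.Agent.Lib.MP_696deb_nt Pool.Agent.Lib.MP_696deb_nt.B2.CM Pool.Agent.Dih

variable {n : ℕ} {τ z : ℂ} {Q Q' : Fm}

/-- The three sublattices of index two. -/
def lkM : Option (Fin 2) → ℤ × ℤ → ℤ × ℤ
  | none, v => (2 * v.1, v.2)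
  | some k, v => (v.1, (k : ℕ) * v.1 + 2 * v.2)

/-- Their images modulo two. -/
def lkI : Option (Fin 2) → ZMod 2 × ZMod 2 → ℤ
  | none, w => if w.1 = 0 then 1 else 0
  | some k, w => if w.2 = (k : ℕ) * w.1 then 1 else 0

theorem lkI_zero (i : Option (Fin 2)) : lkI i 0 = 1 := by
  revert i
  decide

theorem lkI_sum (i : Option (Fin 2)) : ∑ w, lkI i w = 2 := by
  revert i
  decide

theorem lkM_inj (i : Option (Fin 2)) : Function.Injective (lkM i) := fun v w e => by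
  rcases i with _ | k <;> obtain ⟨h1, h2⟩ := Prod.ext_iff.1 e <;> dsimp only [lkM] at h1 h2
  · exact Prod.ext (by omega) h2
  · rw [h1] at h2
    exact Prod.ext h1 (by omega)

theorem lkI_mem (i : Option (Fin 2)) (v : ℤ × ℤ) :
    lkI i ((lkM i v).1, (lkM i v).2) = 1 := by
  have h2 : (2 : ZMod 2) = 0 := rfl
  rcases i with _ | k <;> simp [lkI, lkM, h2]

theorem lkI_not (i : Option (Fin 2)) {v : ℤ × ℤ} (h : v ∉ Set.range (lkM i)) :
    lkI i (v.1, v.2) = 0 := by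
  rcases i with _ | k
  · refine if_neg fun e => h ?_
    obtain ⟨a, ha⟩ := (ZMod.intCast_zmod_eq_zero_iff_dvd _ 2).1 e
    exact ⟨(a, v.2), Prod.ext (by simpa [lkM] using ha.symm) rfl⟩
  · refine if_neg fun e => h ?_
    obtain ⟨a, ha⟩ := (ZMod.intCast_zmod_eq_zero_iff_dvd (v.2 - (k : ℕ) * v.1) 2).1 (by
      push_cast
      exact sub_eq_zero.2 e)
    refine ⟨(v.1, a), Prod.ext rfl ?_⟩
    push_cast at ha
    change (k : ℕ) * v.1 + 2 * a = v.2
    linear_combination -ha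

theorem lk_fval {B : Pc n 1} {x : Pc n 2} {i : Option (Fin 2)} (hτ : 0 < τ.im)
    (h : Fp n 1 τ B Q) (h' : Fp n 2 (hk 2 τ i) x Q') (v : ℤ × ℤ) :
    fval Q' v.1 v.2 = fval Q (lkM i v).1 (lkM i v).2 := by
  have h1 := h.val (lkM i v).1 (lkM i v).2
  have h2 := h'.val v.1 v.2
  rw [lk_nsq] at h1 h2
  have : (fval Q' v.1 v.2 : ℝ) * τ.im = fval Q (lkM i v).1 (lkM i v).2 * τ.im := by
    rw [h1]
    rcases i with _ | k
    · simp only [hk, lkM, mul_re, mul_im, natCast_re, natCast_im] at h2 ⊢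
      push_cast at h2 ⊢
      linear_combination h2 / 2
    · simp only [hk, lkM, div_natCast_re, div_natCast_im, add_re, add_im, natCast_re,
        natCast_im] at h2 ⊢
      push_cast at h2 ⊢
      linear_combination 2 * h2
  exact_mod_cast mul_right_cancel₀ hτ.ne' this

theorem lk_sub {B : Pc n 1} {x : Pc n 2} {i : Option (Fin 2)} (hn : Nk n) (hτ : 0 < τ.im)
    (h : Fp n 1 τ B Q) (hx : Rp n 2 (hk 2 τ i) x) (hz : 0 < z.im) :
    HasSum (fun v : ℤ × ℤ => (lkI i (v.1, v.2) : ℂ) * q1 (fval Q v.1 v.2 * z / 2))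
      (TC n 2 x z) := by
  have ok : Ok n 2 := hn.ok two_ne_zero
  obtain ⟨Q', h'⟩ := lk_form ok hn.sqf hx
  rw [h'.tc ok hz, ← (lkM_inj i).hasSum_iff fun v hv => by rw [lkI_not i hv]; simp]
  refine (funext fun v => ?_ : _ = (fun v : ℤ × ℤ => (lkI i (v.1, v.2) : ℂ) *
    q1 (fval Q v.1 v.2 * z / 2)) ∘ lkM i) ▸ (lk_summable (h'.neg ok) h'.pos hz).hasSum
  simp only [Function.comp, lkI_mem, lk_fval hτ h h', Int.cast_one, one_mul]

/-- The series is half a sum of theta series. -/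
theorem lk_mk [Fintype (Pc n 2)] {ψ : Pc n 2 →* Z3} {g : ℕ → ℤ} (nb : NBStmt) (th : THStmt)
    (hn : Nk n) (hψ : Ram ψ) (hg : ∀ k, gS ψ k = 2 * g k) : B5.Mk n 2 fun z => Th g z ^ 2 := by
  have ok : Ok n 1 := hn.ok one_ne_zero
  obtain ⟨n1, -, n3⟩ := nb n hn
  choose t ht using fun B => n1 1 B one_ne_zero
  choose y y1 y2 y3 y4 using fun B => n3 (t B) B (ht B)
  choose Q hQ using fun B => lk_form ok hn.sqf (ht B)
  have y5 : ∀ B i, pj n 1 2 (y B i) = B := fun B i => (y3 B _).2 ⟨i, rfl⟩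
  have : Finite (Pc n 1) := Finite.of_surjective (pj n 1 2) fun B => ⟨_, y5 B none⟩
  have := Fintype.ofFinite (Pc n 1)
  have hb : Function.Bijective fun p : Pc n 1 × Option (Fin 2) => y p.1 p.2 := by
    refine ⟨fun ⟨B, i⟩ ⟨B', i'⟩ e => ?_, fun x => ?_⟩
    · obtain rfl : B = B' := (y5 B i).symm.trans ((congrArg (pj n 1 2) e).trans (y5 B' i'))
      exact congrArg (Prod.mk B) (y2 B e)
    · obtain ⟨i, hi⟩ := (y3 (pj n 1 2 x) x).1 rfl
      exact ⟨(_, i), hi⟩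
  have h0 : ∀ B, ∑ i, bw (ψ (y B i)) = 0 := fun B =>
    (Fintype.sum_bijective _ (y4 B ψ hψ) _ _ fun _ => rfl).trans sum_bw
  have h1 := th n hn (Pc n 1) Q (fun B w => ∑ i, bw (ψ (y B i)) * lkI i w) fun B =>
    ⟨by simpa using (hQ B).disc, (hQ B).pos, by simp only [lkI_zero, mul_one, h0], by
      rw [Finset.sum_comm]
      simp only [← Finset.mul_sum, lkI_sum, ← Finset.sum_mul, h0, zero_mul]⟩
  refine (h1.smul (1 / 4)).congr fun z hz => ?_
  have h2 : ∀ B, thQ (Q B) (fun w => ∑ i, bw (ψ (y B i)) * lkI i w) z =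
      ∑ i, bw (ψ (y B i)) * TC n 2 (y B i) z := fun B => by
    have := hasSum_sum fun i (_ : i ∈ Finset.univ) =>
      (lk_sub hn (ht B).pos (hQ B) (y1 B i).1 hz).mul_left (bw (ψ (y B i)) : ℂ)
    rw [← this.tsum_eq, thQ]
    refine tsum_congr fun v => ?_
    push_cast
    simp only [Finset.sum_mul, mul_assoc]
  have h3 : 2 * Th g z = ∑ B, thQ (Q B) (fun w => ∑ i, bw (ψ (y B i)) * lkI i w) z := by
    rw [lk_th nb hn hg hz, ← Fintype.sum_bijective _ hb
      (fun p => bw (ψ (y p.1 p.2)) * TC n 2 (y p.1 p.2) z) _ fun _ => rfl, Fintype.sum_prod_type]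
    exact Finset.sum_congr rfl fun B _ => (h2 B).symm
  rw [← h3]
  ring

theorem lk_stmt (nb : NBStmt) (th : THStmt) : LKStmt := fun _ _ _ _ hn hψ hg h0 =>
  ⟨lk_mk nb th hn hψ hg, lk_qe h0 fun _ hz => (lk_hasSum nb hn hg hz).summable,
    fun _ ht => lk_val nb hn hg ht⟩

end Pool.Agent.B8
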