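import Pool.Agent.Lib.MP_696deb_nt.B8.TH0

/-! The square of the theta series is a modular form. -/

set_option autoImplicit false

open Complex NumberTheorySymbols
open scoped Classical Real

namespace Pool.Agent.B8
open Pool.Agent.Lib.MP_696deb_nt

theorem th_stmt (a : THaStmt) (b : THbStmt) (c : THcStmt) (d : THdStmt) : THStmt := by
  intro n hn ι _ Q f h
  choose x y t f' φ hN h0 hH hB using fun i =>
    d a n (Q i) (f i) hn (h i).1 (h i).2.1 (h i).2.2.1 (h i).2.2.2
  have key : ∀ g : MZ, g.det = 1 → ∀ z : ℂ, 0 < z.im → (∑ i, thQ (Q i) (f i) (act g z)) ^ 2 =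
      den g z ^ 2 * (∑ i, Fq n (φ i) (x i, n * y i, n * t i) (f' i) (g 1 0) (g 1 1) z) ^ 2 := by
    intro g hg z hz
    obtain ⟨s, hs, e⟩ := c g hg
    have e' := fun i => (h0 i 1 (act g z)).symm.trans (e _ (b n _ _ _ _ _ (hN i)) 0 1 z hz)
    simp only [jacobiSym.one_left, Int.cast_one, one_mul, zero_mul, zero_add] at e'
    simp only [e', ← Finset.mul_sum, mul_pow, hs, one_mul]
  refine ⟨fun z hz => (DifferentiableAt.fun_sum fun i _ => hH i z hz).fun_pow 2,
    fun g hg z hz => ?_, fun g hg => ?_⟩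
  · have e : ∀ i, Fq n (φ i) (x i, n * y i, n * t i) (f' i) (g 1 0) (g 1 1) z =
        J(g 1 1 | n) * thQ (Q i) (f i) z := fun i => by
      rw [← h0]
      exact tsum_congr fun v => by
        rw [(hN i).sec.congr (N' := fval (x i, n * y i, n * t i) v.1 v.2) (c' := 0) (d' := g 1 1)
          (by simp) (by simpa using hg.2) (by simp)]
    obtain ⟨k, hk⟩ := hg.2
    have hc : IsCoprime (g 1 1) n := ⟨g 0 0, -(g 0 1 * k), by
      have := hg.1
      rw [Matrix.det_fin_two, hk] at this
      linear_combination this⟩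
    have hJ : (J(g 1 1 | n) : ℂ) ^ 2 = 1 := by
      exact_mod_cast jacobiSym.sq_one (Int.isCoprime_iff_gcd_eq_one.1 hc)
    simp only [key g hg.1 z hz, e, ← Finset.mul_sum, mul_pow, hJ, one_mul]
  · have e := (Asymptotics.IsBigO.sum (s := Finset.univ) fun i _ => hB i (g 1 0) (g 1 1)).pow 2
    refine e.congr' (ev_pos.mono fun z hz => ?_) (.of_forall fun _ => one_pow 2)
    simp only [Finset.sum_apply, key g hg z hz,
      mul_div_cancel_left₀ _ (pow_ne_zero 2 (B5.mh_den hg hz))]

end Pool.Agent.B8
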