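import Pool.Agent.Lib.MP_696deb_nt.B8.TH0

/-! Existence of sections. -/

set_option autoImplicit false

open Complex NumberTheorySymbols
open scoped Classical Real

namespace Pool.Agent.B8
open Pool.Agent.Lib.MP_696deb_nt Pool.Agent.Dih

theorem tha_q1 {P : ℕ} (hP : P ≠ 0) (u : ℤ) {x y : ℤ} (h : (P : ℤ) ∣ x - y) :
    q1 (u * x / P) = q1 (u * y / P) := by
  obtain ⟨t, ht⟩ := h
  have h0 : (P : ℂ) ≠ 0 := Nat.cast_ne_zero.2 hP
  rw [sub_eq_iff_eq_add.1 ht, ← one_mul (q1 (u * y / P)), ← q1_int (u * t), ← q1_add]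
  push_cast
  congr 1
  field_simp

theorem tha_crt {p q : ℕ} (hp : p ≠ 0) (hq : q ≠ 0) (h : p.Coprime q) {f g : ℤ → ℂ}
    (hf : ∀ x y, (p : ℤ) ∣ x - y → f x = f y) (hg : ∀ x y, (q : ℤ) ∣ x - y → g x = g y) :
    ∑ r ∈ Finset.range (p * q), f r * g r =
      (∑ r ∈ Finset.range p, f r) * ∑ r ∈ Finset.range q, g r := by
  rw [Finset.sum_mul_sum, ← Finset.sum_product']
  have hi : Set.InjOn (fun r => (r % p, r % q)) (Finset.range (p * q) : Set ℕ) :=
    fun a ha b hb e => Nat.ModEq.eq_of_lt_of_lt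
      ((Nat.modEq_and_modEq_iff_modEq_mul h).1 (Prod.mk.inj e))
      (Finset.mem_range.1 ha) (Finset.mem_range.1 hb)
  have hm : ∀ r ∈ Finset.range (p * q), (r % p, r % q) ∈ Finset.range p ×ˢ Finset.range q :=
    fun r _ => Finset.mem_product.2 ⟨Finset.mem_range.2 (Nat.mod_lt _ (Nat.pos_of_ne_zero hp)),
      Finset.mem_range.2 (Nat.mod_lt _ (Nat.pos_of_ne_zero hq))⟩
  refine Finset.sum_nbij _ hm hi (Finset.surjOn_of_injOn_of_card_le _ hm hi (by simp))
    fun r _ => ?_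
  rw [hf r (r % p : ℕ) (Nat.mod_modEq r _).dvd, hg r (r % q : ℕ) (Nat.mod_modEq r _).dvd]

theorem tha_one (u a : ℤ) : Sec 1 u a fun _ _ _ => 1 where
  congr := fun _ _ _ => rfl
  le := fun _ _ _ => by simp
  shift := fun N _ _ => by
    have h := q1_int (u * N)
    push_cast at h
    simp [h]
  zero := fun N d => by simp
  inv := ⟨1, fun c d k => by
    have h := q1_int 0
    push_cast at h
    simp [h]⟩

theorem tha_prime {p : ℕ} (hp : p.Prime) (h2 : p ≠ 2) {u a : ℤ} (hu : ¬ (p : ℤ) ∣ u)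
    (ha : ¬ (p : ℤ) ∣ a) : Sec p u a (phi1 p u (J(a | p))) where
  congr := fun h1 h3 h4 => phi1_congr hp h1 h3 h4
  le := norm_phi1_le hp h2 hu (ana2_sq hp ha)
  shift := phi1_T hp
  zero := fun N d => by simp only [phi1, dvd_zero, if_true]
  inv := ⟨_, phi1_S hp h2 hu ha rfl⟩

theorem tha_mul {p q : ℕ} (hp : p ≠ 0) (hq : q ≠ 0) (h : p.Coprime q) {u u1 u2 a : ℤ}
    (hu : u = u1 * q + u2 * p) {φ ψ : ℤ → ℤ → ℤ → ℂ} (s : Sec p u1 a φ) (t : Sec q u2 a ψ) :
    Sec (p * q) u a fun N c d => φ N c d * ψ N c d := by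
  have hd : ∀ {x : ℤ}, ((p * q : ℕ) : ℤ) ∣ x ↔ (p : ℤ) ∣ x ∧ (q : ℤ) ∣ x := fun {x} => by
    rw [Nat.cast_mul]
    exact ⟨fun e => ⟨dvd_of_mul_right_dvd e, dvd_of_mul_left_dvd e⟩, fun e =>
      (Nat.isCoprime_iff_coprime.2 h).mul_dvd e.1 e.2⟩
  have hs : ∀ x : ℂ, q1 (u * x / (p * q : ℕ)) = q1 (u1 * x / p) * q1 (u2 * x / q) := fun x => by
    have h1 : (p : ℂ) ≠ 0 := Nat.cast_ne_zero.2 hp
    have h3 : (q : ℂ) ≠ 0 := Nat.cast_ne_zero.2 hq
    rw [← q1_add, hu]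
    push_cast
    congr 1
    field_simp
  refine ⟨fun h1 h3 h4 => ?_, fun N c d => ?_, fun N c d => ?_, fun N d => ?_, ?_⟩
  · rw [hd] at h1 h3 h4
    rw [s.congr h1.1 h3.1 h4.1, t.congr h1.2 h3.2 h4.2]
  · rw [norm_mul]
    exact mul_le_one₀ (s.le _ _ _) (norm_nonneg _) (t.le _ _ _)
  · rw [s.shift, t.shift, hs]
    ring
  · rw [s.zero, t.zero, jacobiSym.mul_right' d hp hq]
    simp only [hd]
    by_cases h1 : (p : ℤ) ∣ N <;> by_cases h3 : (q : ℤ) ∣ N <;> simp [h1, h3]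
  · obtain ⟨μ, hμ⟩ := s.inv
    obtain ⟨ν, hν⟩ := t.inv
    refine ⟨μ * ν, fun c d k => ?_⟩
    have k1 : ∀ x y : ℤ, x - y ∣ a * x ^ 2 - a * y ^ 2 := fun x y => ⟨a * (x + y), by ring⟩
    have k2 : ∀ x y : ℤ, x - y ∣ 2 * a * x * k - 2 * a * y * k := fun x y => ⟨2 * a * k, by ring⟩
    have h3 := tha_crt hp hq h
      (f := fun r => φ (a * r ^ 2) c d * q1 (u1 * (2 * a * r * k : ℤ) / p))
      (g := fun r => ψ (a * r ^ 2) c d * q1 (u2 * (2 * a * r * k : ℤ) / q))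
      (fun x y e => by
        rw [s.congr (e.trans (k1 x y)) (ana2_self _ c) (ana2_self _ d),
          tha_q1 hp _ (e.trans (k2 x y))])
      fun x y e => by
        rw [t.congr (e.trans (k1 x y)) (ana2_self _ c) (ana2_self _ d),
          tha_q1 hq _ (e.trans (k2 x y))]
    push_cast at h3
    rw [hμ, hν] at h3
    simp only [hs]
    refine (Finset.sum_congr rfl fun r _ => ?_).trans (h3.trans ?_) <;> ring

theorem tha_stmt : THaStmt := by
  intro n
  induction n using induction_on_primes with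
  | zero => intro u a h; exact absurd h not_squarefree_zero
  | one => intro u a _ _ _ _; exact ⟨_, tha_one u a⟩
  | prime_mul p q hp ih =>
    intro u a hs ho hu ha
    have hc : p.Coprime q := Nat.coprime_of_squarefree_mul hs
    have hq : q ≠ 0 := fun e => by simp [e] at hs
    obtain ⟨α, β, hb⟩ := Nat.isCoprime_iff_coprime.2 hc
    rw [Nat.cast_mul, IsCoprime.mul_right_iff] at hu ha
    rw [Nat.odd_mul] at ho
    have hpi := (Nat.prime_iff_prime_int.1 hp).irreducible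
    have h2 : p ≠ 2 := fun e => by
      have := ho.1
      rw [e] at this
      exact absurd this (by decide)
    have hβ : IsCoprime β (p : ℤ) := ⟨q, α, by linear_combination hb⟩
    have hα : IsCoprime α (q : ℤ) := ⟨p, β, by linear_combination hb⟩
    obtain ⟨ψ, t⟩ := ih (u * α) a hs.of_mul_right ho.2 (hu.2.mul_left hα) ha.2
    exact ⟨_, tha_mul hp.ne_zero hq hc (u1 := u * β) (u2 := u * α) (by linear_combination (-u) * hb)
      (tha_prime hp h2 (hpi.coprime_iff_not_dvd.1 (hu.1.mul_left hβ).symm)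
        (hpi.coprime_iff_not_dvd.1 ha.1.symm)) t⟩

end Pool.Agent.B8
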