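import Pool.Agent.Lib.MP_696deb_nt.B8.TH0

/-! Modularity of the theta series: the laws for the two generators. -/

set_option autoImplicit false

open Complex NumberTheorySymbols
open scoped Classical Real

namespace Pool.Agent.B8
open Pool.Agent.Lib.MP_696deb_nt Pool.Agent.Lib.MP_696deb_nt.Unif Pool.Agent.Dih

/-- The sign character modulo two. -/
noncomputable def thbSg (a : ZMod 2) : ℂ := if a = 0 then 1 else -1

theorem thb_two (a : ZMod 2) : a = 0 ∨ a = 1 := by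
  revert a; decide

theorem thb_half (m : ℤ) : q1 (m / 2) = thbSg m := by
  rcases Int.even_or_odd' m with ⟨k, rfl | rfl⟩
  · have : ((2 * k : ℤ) : ZMod 2) = 0 := by
      rw [ZMod.intCast_zmod_eq_zero_iff_dvd]; exact ⟨k, by norm_num⟩
    rw [thbSg, if_pos this, show ((2 * k : ℤ) : ℂ) / 2 = k by push_cast; ring, q1_int]
  · have : ((2 * k + 1 : ℤ) : ZMod 2) ≠ 0 := by
      rw [Ne, ZMod.intCast_zmod_eq_zero_iff_dvd]; omega
    rw [thbSg, if_neg this, show ((2 * k + 1 : ℤ) : ℂ) / 2 = k + 1 / 2 by push_cast; ring, q1_add,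
      q1_int, one_mul, q1, show 2 * (π : ℂ) * I * (1 / 2) = π * I by ring, exp_pi_mul_I]

theorem thb_sum2 {f : ZMod 2 × ZMod 2 → ℤ} (h0 : f 0 = 0) (hs : ∑ v, f v = 0) :
    f (0, 1) + f (1, 0) + f (1, 1) = 0 := by
  rw [Fintype.sum_prod_type] at hs
  have e : ∀ g : ZMod 2 → ℤ, ∑ a, g a = g 0 + g 1 := fun g => Fin.sum_univ_two g
  rw [e, e, e] at hs
  have : f (0, 0) = 0 := h0
  omega

/-- The symplectic Fourier transform modulo two. -/
theorem thb_ft {f : ZMod 2 × ZMod 2 → ℤ} (h0 : f 0 = 0) (hs : ∑ v, f v = 0) (a b : ZMod 2) :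
    ((f (0, 0) : ℂ) * thbSg (0 * a) * thbSg (0 * b) + f (1, 0) * thbSg (0 * a) * thbSg (1 * b)) +
      (f (0, 1) * thbSg (1 * a) * thbSg (0 * b) + f (1, 1) * thbSg (1 * a) * thbSg (1 * b)) =
      2 * f (a, b) := by
  have h1 : (f (0, 1) : ℂ) + f (1, 0) + f (1, 1) = 0 := by exact_mod_cast thb_sum2 h0 hs
  have h2 : (f (0, 0) : ℂ) = 0 := by exact_mod_cast h0
  have s0 : thbSg 0 = 1 := if_pos rfl
  have s1 : thbSg 1 = -1 := if_neg (by decide)
  rcases thb_two a with rfl | rfl <;> rcases thb_two b with rfl | rfl <;>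
    simp only [zero_mul, mul_zero, one_mul, s0, s1]
  · linear_combination h1 - h2
  · linear_combination h2 - h1
  · linear_combination h2 - h1
  · linear_combination h2 - h1

theorem thb_crt {n : ℕ} (hn : Odd n) {a : ℕ → ℂ} (ha : ∀ j, a (n + j) = a j) (b : ZMod 2 → ℂ) :
    ∑ j ∈ Finset.range (2 * n), a j * b j = (∑ j ∈ Finset.range n, a j) * (b 0 + b 1) := by
  have h1 : (n : ZMod 2) = 1 := (ZMod.natCast_eq_one_iff_odd).2 hn
  rw [two_mul, Finset.sum_range_add, ← Finset.sum_add_distrib, Finset.sum_mul]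
  refine Finset.sum_congr rfl fun j _ => ?_
  rw [ha, ← mul_add, Nat.cast_add, h1]
  rcases thb_two (j : ZMod 2) with h | h <;> rw [h]
  · rw [add_zero]
  · rw [show (1 + 1 : ZMod 2) = 0 from rfl, add_comm]

theorem thb_four {n : ℕ} (hn : 0 < n) {u : ℤ} (hu : IsCoprime (n : ℤ) u) {f : ℤ → ℂ}
    (hf : ∀ x y, (n : ℤ) ∣ x - y → f y = f x) (x : ℤ) :
    ∑ j ∈ Finset.range n, (∑ r ∈ Finset.range n, f r * q1 ((u * (j : ℤ) * r : ℤ) / n)) *
      q1 ((-(u * j * x) : ℤ) / n) = n * f x := by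
  simp only [Finset.sum_mul]
  rw [Finset.sum_comm, ← anc_pick hn x (hf x), Finset.mul_sum]
  refine Finset.sum_congr rfl fun r _ => ?_
  have h1 := anc_orth hn (u * (r - x))
  have h2 : (n : ℤ) ∣ u * (r - x) ↔ (n : ℤ) ∣ x - r :=
    ⟨fun h => dvd_sub_comm.1 (hu.dvd_of_dvd_mul_left h), fun h => (dvd_sub_comm.1 h).mul_left _⟩
  simp only [h2] at h1
  rw [mul_ite, mul_zero, mul_comm, ← mul_zero (f r), ← mul_ite, ← h1, Finset.mul_sum]
  refine Finset.sum_congr rfl fun j _ => ?_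
  rw [mul_assoc, ← q1_add]
  congr 2
  push_cast
  ring

theorem thb_split {m : ℕ} (hm : 0 < m) {G : ℤ × ℤ → ℂ} (hG : Summable G) :
    ∑ j ∈ Finset.range m, ∑ l ∈ Finset.range 2, ∑' k : ℤ × ℤ, G (m * k.1 + j, 2 * k.2 + l) =
      ∑' u, G u := by
  have h1 := anc_split two_pos (G := fun u => G u.swap)
    ((Equiv.prodComm ℤ ℤ).summable_iff.2 hG)
  rw [← (Equiv.prodComm ℤ ℤ).tsum_eq G, Finset.sum_comm]
  refine Eq.trans (Finset.sum_congr rfl fun l _ => ?_) h1
  have hi : Function.Injective fun u : ℤ × ℤ => (u.1, 2 * u.2 + (l : ℤ)) := fun k k' hk => by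
    simp only [Prod.mk.injEq, add_left_inj] at hk
    exact Prod.ext hk.1 (by omega)
  rw [anc_split hm (G := fun u => G (u.1, 2 * u.2 + l)) (hG.comp_injective hi),
    ← (Equiv.prodComm ℤ ℤ).tsum_eq]
  rfl

theorem thb_summable {Q : Fm} (hD : fdisc Q < 0) (ha : 0 < Q.1) {n : ℕ} (hn : 0 < n)
    {g : ℤ × ℤ → ℂ} {C : ℝ} (hg : ∀ v, ‖g v‖ ≤ C) {z : ℂ} (hz : 0 < z.im) :
    Summable fun v : ℤ × ℤ => g v * q1 (fval Q v.1 v.2 * z / (2 * n)) := by
  have n0 : (0 : ℝ) < n := by exact_mod_cast hn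
  refine Summable.of_norm_bounded ((summable_form hD ha
    (y := 2 * π * z.im / (2 * n)) (by positivity)).mul_left C) fun v => ?_
  rw [norm_mul, norm_q1]
  have : ((fval Q v.1 v.2 : ℂ) * z / (2 * n)).im = fval Q v.1 v.2 * z.im / (2 * n) := by
    rw [show (fval Q v.1 v.2 : ℂ) * z / (2 * n) = ((fval Q v.1 v.2 / (2 * n) : ℝ) : ℂ) * z by
      push_cast; ring, im_ofReal_mul]
    ring
  rw [this, show -2 * π * ((fval Q v.1 v.2 : ℝ) * z.im / (2 * n)) =
    -(2 * π * z.im / (2 * n)) * fval Q v.1 v.2 by ring]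
  exact mul_le_mul_of_nonneg_right (hg v) (Real.exp_pos _).le

theorem thb_norm_q1 (m : ℤ) (n : ℕ) : ‖q1 (m / n)‖ = 1 := by
  rw [norm_q1, div_natCast_im, intCast_im, zero_div, mul_zero, Real.exp_zero]

/-- Poisson summation in two variables against a weight with periods `2n` and `2`. -/
theorem thb_poisson {n : ℕ} (hn : 0 < n) {x y t : ℤ} (hx : 0 < x)
    (e2 : 2 * x * (2 * t) - n * y * y = 1) {g H : ℤ × ℤ → ℂ} {C : ℝ} (hH : ∀ w, ‖H w‖ ≤ C)
    (hp : ∀ k : ℤ × ℤ, ∀ j l : ℤ, H (2 * n * k.1 + j, 2 * k.2 + l) = H (j, l))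
    (hg : ∀ v : ℤ × ℤ, g v = ∑ j ∈ Finset.range (2 * n), ∑ l ∈ Finset.range 2,
      H (j, l) * q1 (-(j * v.1 / (2 * n)) - l * v.2 / 2)) {z : ℂ} (hz : 0 < z.im) :
    ∑' v : ℤ × ℤ, g v * q1 (fval (x, n * y, n * t) v.1 v.2 * (-1 / z) / (2 * n)) =
      2 * n * z / (I * √(n : ℝ)) * ∑' k : ℤ × ℤ, H (2 * x * k.1 + n * y * k.2, y * k.1 + 2 * t * k.2) *
        q1 (fval (x, n * y, n * t) k.1 k.2 * z / (2 * n)) := by
  have n0 : (n : ℂ) ≠ 0 := by exact_mod_cast hn.ne'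
  have z0 : z ≠ 0 := fun e => by simp [e] at hz
  have hd : fdisc (x, n * y, n * t) = -n := by
    simp only [fdisc]; linear_combination -(n : ℤ) * e2
  have hD : fdisc (x, n * y, n * t) < 0 := by rw [hd, neg_lt_zero]; exact_mod_cast hn
  have hz' : 0 < (-1 / z).im := by
    rw [neg_div, one_div, neg_im, inv_im, neg_div, neg_neg]
    exact div_pos hz (normSq_pos.2 z0)
  have hs : 0 < (I / (n * z)).re := by
    rw [show I / (n * z) = (1 / n : ℝ) * (-1 / z * -I) by push_cast; field_simp, re_ofReal_mul]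
    simpa using mul_pos (by positivity) hz'
  have e3 : 2 * t * (2 * x) - -(n * y) * -y = 1 := by linear_combination e2
  have hR : fmap (x, n * y, n * t) (2 * t) (-(n * y)) (-y) (2 * x) = (t, -(n * y), n * x) := by
    rw [← anc_dual e2, fmap_inv e2]
  have hD' : fdisc (t, -(n * y), n * x) < 0 := by rw [← hR, fdisc_fmap e3]; exact hD
  have ht : 0 < (t, -(n * y), n * x).1 := by rw [← hR]; exact fmap_pos e3 hD hx
  obtain ⟨G, hG⟩ : ∃ G : ℤ × ℤ → ℂ, G = fun u =>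
    H u * q1 (fval (t, -(n * y), n * x) u.1 u.2 * z / (2 * n)) := ⟨_, rfl⟩
  have G1 : Summable G := hG ▸ thb_summable hD' ht hn hH hz
  have r0 : ((√(n : ℝ) : ℝ) : ℂ) ≠ 0 := by
    exact_mod_cast (Real.sqrt_pos.2 (by exact_mod_cast hn)).ne'
  have key : ∀ j l : ℕ, ∑' v : ℤ × ℤ, H (j, l) * q1 (-(j * v.1 / (2 * n)) - l * v.2 / 2) *
      q1 (fval (x, n * y, n * t) v.1 v.2 * (-1 / z) / (2 * n)) =
      2 * n * z / (I * √(n : ℝ)) * ∑' k : ℤ × ℤ, G ((2 * n : ℕ) * k.1 + j, 2 * k.2 + l) :=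
    fun j l => by
    have h1 := theta2 hD hx hs (-(j / (2 * n))) (-(l / 2))
    rw [hd] at h1
    calc _ = H (j, l) * ∑' v : ℤ × ℤ, cexp (-π * (I / (n * z)) *
          fval (x, n * y, n * t) v.1 v.2) *
            q1 ((-(j / (2 * n)) : ℝ) * v.1 + (-(l / 2) : ℝ) * v.2) := by
          rw [← tsum_mul_left]
          refine tsum_congr fun v => ?_
          rw [q1, q1, q1, show 2 * π * I * (fval (x, n * y, n * t) v.1 v.2 * (-1 / z) / (2 * n)) =
            -π * (I / (n * z)) * fval (x, n * y, n * t) v.1 v.2 by field_simp,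
            show ((-(j / (2 * n)) : ℝ) : ℂ) * v.1 + (-(l / 2) : ℝ) * v.2 =
              -(j * v.1 / (2 * n)) - l * v.2 / 2 by push_cast; ring]
          ring
      _ = _ := by
          rw [h1, ← mul_assoc, ← tsum_mul_left, ← tsum_mul_left]
          refine tsum_congr fun k => ?_
          simp only [hG]
          rw [Nat.cast_mul, Nat.cast_ofNat, hp, q1]
          simp only [fval]
          push_cast
          rw [neg_neg, neg_neg, ← mul_assoc]
          congr 1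
          · field_simp
          · congr 1
            field_simp
            ring_nf
            rw [I_sq]
            ring
  have hb : ∀ (j l : ℕ) (v : ℤ × ℤ),
      ‖H (j, l) * q1 (-(j * v.1 / (2 * n)) - l * v.2 / 2)‖ ≤ C := fun j l v => by
    rw [norm_mul, norm_q1, show -((j : ℂ) * v.1 / (2 * n)) - l * v.2 / 2 =
      ((-(j * v.1 / (2 * n)) - l * v.2 / 2 : ℝ) : ℂ) by push_cast; ring, ofReal_im, mul_zero,
      Real.exp_zero, mul_one]
    exact hH _
  simp only [hg, Finset.sum_mul]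
  rw [Summable.tsum_finsetSum fun j _ => summable_sum fun l _ =>
    thb_summable hD hx hn (hb j l) hz']
  rw [Finset.sum_congr rfl fun j _ => Summable.tsum_finsetSum fun l _ =>
    thb_summable hD hx hn (hb j l) hz']
  simp only [key, ← Finset.mul_sum]
  rw [thb_split (by omega) G1, ← (ancEq e2).tsum_eq]
  congr 1
  refine tsum_congr fun k => ?_
  simp only [hG, ancEq, Equiv.coe_fn_mk]
  rw [← fval_fmap, anc_dual e2]

theorem Nm.odd {n : ℕ} {x y t : ℤ} {f : ZMod 2 × ZMod 2 → ℤ} {φ : ℤ → ℤ → ℤ → ℂ}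
    (h : Nm n x y t f φ) : Odd x ∧ Odd y ∧ Odd t := by
  have h8 := h.nk.m8
  have e := h.det
  obtain ⟨m, hm⟩ : ∃ m : ℤ, (n : ℤ) = 8 * m + 3 := ⟨n / 8, by omega⟩
  rw [hm] at e
  have hy : Odd y := by
    rcases Int.even_or_odd' y with ⟨k, rfl | rfl⟩
    · exfalso
      have : 2 * (2 * x * t - 2 * (8 * m + 3) * k * k) = 1 := by linear_combination e
      omega
    · exact ⟨k, rfl⟩
  obtain ⟨k, rfl⟩ := hy
  obtain ⟨w, hw⟩ : Even (k * (k + 1)) := Int.even_mul_succ_self k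
  have hxt : Odd (x * t) := ⟨m * (8 * w + 1) + 3 * w, by
    have : 4 * (x * t) = 4 * (2 * (m * (8 * w + 1) + 3 * w) + 1) := by
      linear_combination e + 4 * (8 * m + 3) * hw
    omega⟩
  exact ⟨(Int.odd_mul.1 hxt).1, ⟨k, rfl⟩, (Int.odd_mul.1 hxt).2⟩

theorem thb_stmt : THbStmt := by
  intro n x y t f φ h
  have hn : 0 < n := by have := h.nk.gt; omega
  have hno : Odd n := by have := h.nk.m8; exact Nat.odd_iff.2 (by omega)
  have n0 : (n : ℂ) ≠ 0 := by exact_mod_cast hn.ne'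
  obtain ⟨u, hu⟩ : ∃ u : ℤ, u = ((n : ℤ) + 1) / 2 := ⟨_, rfl⟩
  have hs : Sec n u x φ := hu ▸ h.sec
  have h2u : 2 * u = n + 1 := by have := h.nk.m8; omega
  have hu' : (u : ℂ) = (n + 1) / 2 := by
    rw [eq_div_iff two_ne_zero, mul_comm]; exact_mod_cast h2u
  obtain ⟨ox, oy, ot⟩ := h.odd
  have c1 : ∀ {a : ℤ}, Odd a → (a : ZMod 2) = 1 := fun ha => ZMod.intCast_eq_one_iff_odd.2 ha
  have cn : (n : ZMod 2) = 1 := (ZMod.natCast_eq_one_iff_odd).2 hno
  have c2 : (2 : ZMod 2) = 0 := rfl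
  have s1 : thbSg 1 = -1 := if_neg (by decide)
  have hq : ∀ m : ℤ, q1 (m / (2 * n)) = q1 ((u * m : ℤ) / n) * thbSg (-m : ℤ) := fun m => by
    rw [← thb_half, ← q1_add]
    congr 1
    push_cast
    rw [hu']
    field_simp
    ring
  refine ⟨fun c d z _ => ?_, ?_⟩
  · rw [Fq, Fq, ← tsum_neg]
    refine tsum_congr fun v => ?_
    rw [hs.shift, mul_add, add_div, q1_add, mul_one, hq]
    have hc : ((-fval (x, n * y, n * t) v.1 v.2 : ℤ) : ZMod 2) =
        -((v.1 : ZMod 2) ^ 2 + v.1 * v.2 + v.2 ^ 2) := by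
      simp only [fval]
      push_cast
      rw [c1 ox, c1 oy, c1 ot, cn]
      ring
    rw [hc]
    push_cast
    have h0 : f (0, 0) = 0 := h.zero
    rcases thb_two (v.1 : ZMod 2) with e1 | e1 <;> rcases thb_two (v.2 : ZMod 2) with e2 | e2 <;>
      rw [e1, e2]
    · rw [h0]; simp
    · rw [show -((0 : ZMod 2) ^ 2 + 0 * 1 + 1 ^ 2) = 1 from rfl, s1]; ring
    · rw [show -((1 : ZMod 2) ^ 2 + 1 * 0 + 0 ^ 2) = 1 from rfl, s1]; ring
    · rw [show -((1 : ZMod 2) ^ 2 + 1 * 1 + 1 ^ 2) = 1 from rfl, s1]; ring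
  obtain ⟨μ, hμ⟩ := hs.inv
  refine ⟨μ / (I * √(n : ℝ)), fun c d z hz => ?_⟩
  have hφ : ∀ a b c d : ℤ, φ (fval (x, n * y, n * t) a b) c d = φ (x * a ^ 2) c d :=
    fun a b c d => hs.congr ⟨y * a * b + t * b ^ 2, by simp only [fval]; ring⟩ (by simp) (by simp)
  obtain ⟨F, hF⟩ : ∃ F : ℤ → ℂ, ∀ j, F j = ∑ r ∈ Finset.range n,
    φ (x * (r : ℤ) ^ 2) c d * q1 ((u * j * r : ℤ) / n) := ⟨_, fun _ => rfl⟩
  have F1 : ∀ a b : ℤ, (n : ℤ) ∣ a - b → F a = F b := fun a b ⟨k, hk⟩ => by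
    rw [hF, hF]
    exact Finset.sum_congr rfl fun r _ => by
      rw [anc_q1 hn (y := u * b * r) ⟨u * k * r, by linear_combination u * r * hk⟩]
  have F2 : ∀ a, ‖F a‖ ≤ n := fun a => by
    rw [hF]
    refine (norm_sum_le _ _).trans ((Finset.sum_le_card_nsmul _ _ 1 fun r _ => ?_).trans (by simp))
    rw [norm_mul, thb_norm_q1, mul_one]
    exact hs.le _ _ _
  have F3 : ∀ a : ℤ, ∑ j ∈ Finset.range n, F j * q1 ((-(u * j * a) : ℤ) / n) =
      n * φ (x * a ^ 2) c d := fun a => by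
    simp only [hF]
    exact thb_four hn ⟨-1, 2, by linear_combination h2u⟩ (f := fun r => φ (x * r ^ 2) c d)
      (fun a b ⟨k, hk⟩ => hs.congr
        ⟨-(x * k * (a + b)), by linear_combination -x * (a + b) * hk⟩ (by simp) (by simp)) a
  have F4 : ∀ k : ℤ × ℤ, F (2 * x * k.1 + n * y * k.2) = μ * φ (x * k.1 ^ 2) d (-c) := fun k => by
    rw [F1 _ (2 * x * k.1) ⟨y * k.2, by ring⟩, hF, ← hμ]
    refine Finset.sum_congr rfl fun r _ => ?_
    congr 2
    push_cast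
    ring
  obtain ⟨M, hM⟩ : ∃ M : ℝ, ∀ v, ‖(f v : ℂ)‖ ≤ M :=
    ⟨∑ v, ‖(f v : ℂ)‖, fun v => Finset.single_le_sum (f := fun v => ‖(f v : ℂ)‖)
      (fun _ _ => norm_nonneg _) (Finset.mem_univ v)⟩
  have P := thb_poisson hn h.pos h.det (g := fun v => φ (x * v.1 ^ 2) c d * f (v.1, v.2))
    (H := fun w => F w.1 * f (w.2, w.1) * (1 / (2 * n))) (C := n * M * ‖(1 / (2 * n) : ℂ)‖)
    (fun w => by
      rw [norm_mul, norm_mul]
      exact mul_le_mul_of_nonneg_right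
        (mul_le_mul (F2 _) (hM _) (norm_nonneg _) (Nat.cast_nonneg _)) (norm_nonneg _))
    (fun k j l => by
      dsimp only
      rw [F1 _ j ⟨2 * k.1, by ring⟩]
      push_cast
      rw [c2]
      simp only [zero_mul, zero_add])
    (fun v => by
      have e : ∀ j : ℕ, ∑ l ∈ Finset.range 2, F j * f (((l : ℤ) : ZMod 2), ((j : ℤ) : ZMod 2)) *
          (1 / (2 * n)) * q1 (-(j * v.1 / (2 * n)) - l * v.2 / 2) =
          F j * q1 ((-(u * j * v.1) : ℤ) / n) * ((f (0, j) * thbSg (j * v.1) * thbSg (0 * v.2) +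
            f (1, j) * thbSg (j * v.1) * thbSg (1 * v.2)) * (1 / (2 * n))) := fun j => by
        have e1 : ∀ l : ℕ, q1 (-(j * v.1 / (2 * n)) - l * v.2 / 2) =
            q1 ((-(u * j * v.1) : ℤ) / n) * thbSg (j * v.1) * thbSg (l * v.2) := fun l => by
          rw [show -((j : ℂ) * v.1 / (2 * n)) - l * v.2 / 2 = (-(j * v.1) : ℤ) / (2 * n) +
            ((l * v.2 : ℤ) / 2 + (-(l * v.2) : ℤ)) by push_cast; ring, q1_add, q1_add, q1_int,
            mul_one, hq, thb_half, show u * -(j * v.1) = -(u * j * v.1) by ring, neg_neg]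
          push_cast
          rfl
        rw [Finset.sum_range_succ, Finset.sum_range_one, e1, e1]
        push_cast
        ring
      dsimp only
      simp only [e]
      rw [thb_crt hno (a := fun j => F j * q1 ((-(u * j * v.1) : ℤ) / n)) (fun j => by
          rw [F1 _ j ⟨1, by push_cast; ring⟩, anc_q1 hn (y := -(u * j * v.1))
            ⟨-(u * v.1), by push_cast; ring⟩])
        fun a => (f (0, a) * thbSg (a * v.1) * thbSg (0 * v.2) +
            f (1, a) * thbSg (a * v.1) * thbSg (1 * v.2)) * (1 / (2 * n)),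
        F3, ← add_mul, thb_ft h.zero h.sum]
      field_simp) hz
  rw [Fq, Fq]
  simp only [hφ]
  rw [P, ← tsum_mul_left, ← tsum_mul_left]
  refine tsum_congr fun k => ?_
  dsimp only
  rw [F4]
  push_cast
  rw [c2, c1 oy, cn]
  simp only [zero_mul, zero_add, one_mul, add_zero]
  field_simp

end Pool.Agent.B8
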