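import Pool.Agent.Lib.MP_696deb_nt.B8.TH0

/-! The transformation law under the full modular group from the laws for the two generators. -/

set_option autoImplicit false

open Complex

namespace Pool.Agent.B8
open Pool.Agent.Lib.MP_696deb_nt

/-- The law for one matrix, with the multiplier `s`. -/
def ThcP (s : ℂ) (F : ℤ → ℤ → ℂ → ℂ) (a b c d : ℤ) : Prop := ∀ (x y : ℤ) (z : ℂ), 0 < z.im →
  F x y (mob a b c d z) = s * (c * z + d) * F (x * a + y * c) (x * b + y * d) z

theorem ThcP.comp {s s' : ℂ} {F : ℤ → ℤ → ℂ → ℂ} {a b c d a' b' c' d' : ℤ} (h : ThcP s F a b c d)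
    (h' : ThcP s' F a' b' c' d') (hd : 0 < a' * d' - b' * c') :
    ThcP (s * s') F (a * a' + b * c') (a * b' + b * d') (c * a' + d * c') (c * b' + d * d') := by
  intro x y z hz
  have := den_ne hd.ne' hz
  rw [← mob_mob hd.ne' a b c d hz, h _ _ _ (im_mob_pos hd hz), h' _ _ z hz,
    mob_den hd.ne' c d hz, show x * (a * a' + b * c') + y * (c * a' + d * c') =
      (x * a + y * c) * a' + (x * b + y * d) * c' by ring,
    show x * (a * b' + b * d') + y * (c * b' + d * d') =
      (x * a + y * c) * b' + (x * b + y * d) * d' by ring]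
  generalize (c' : ℂ) * z + d' = w at this ⊢
  field_simp

theorem Law.thc_T {F : ℤ → ℤ → ℂ → ℂ} (h : Law F) : ThcP (-1) F 1 1 0 1 := fun x y z hz => by
  simpa [mob] using h.shift x y z hz

theorem Law.thc_T' {F : ℤ → ℤ → ℂ → ℂ} (h : Law F) : ThcP (-1) F 1 (-1) 0 1 := fun x y z hz => by
  have := h.shift x (-x + y) (z - 1) (by simpa using hz)
  simp only [sub_add_cancel, add_neg_cancel_left] at this
  simp [mob, this, ← sub_eq_add_neg]

theorem Law.thc_S {F : ℤ → ℤ → ℂ → ℂ} (h : Law F) : ThcP (-1) F 0 (-1) 1 0 := by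
  obtain ⟨μ, hμ⟩ := h.inv
  have tS : ThcP μ F 0 (-1) 1 0 := fun x y z hz => by simpa [mob] using hμ x y z hz
  have t2 : ThcP (μ * μ) F (-1) 0 0 (-1) := by simpa using tS.comp tS (by norm_num)
  have t3 : ThcP (-μ) F 0 (-1) 1 1 := by simpa using tS.comp h.thc_T (by norm_num)
  have t4 : ThcP (-μ * -μ * -μ) F (-1) 0 0 (-1) := by
    simpa using (t3.comp t3 (by norm_num)).comp t3 (by norm_num)
  by_cases e : μ = -1
  · exact e ▸ tS
  · have z0 : ∀ (x y : ℤ) (z : ℂ), 0 < z.im → F x y z = 0 := fun x y z hz => by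
      have k1 := t2 x y z hz
      have k2 := t4 x y z hz
      have m : mob (-1) 0 0 (-1) z = z := by simp [mob]
      rw [m] at k1 k2
      refine (mul_eq_zero.1 (?_ : (μ + 1) * _ = 0)).resolve_left fun k => e (by linear_combination k)
      linear_combination μ * k1 + k2
    intro x y z hz
    rw [z0 _ _ _ (im_mob_pos (by norm_num) hz), z0 _ _ _ hz, mul_zero]

theorem thc_stmt : THcStmt := by
  have key : ∀ {a b c d a' b' c' d' : ℤ} {t : ℂ}, t ^ 2 = 1 → (∀ F, Law F → ThcP t F a' b' c' d') →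
      0 < a' * d' - b' * c' → (∃ s : ℂ, s ^ 2 = 1 ∧ ∀ F, Law F → ThcP s F a b c d) →
      ∃ s : ℂ, s ^ 2 = 1 ∧ ∀ F, Law F → ThcP s F (a * a' + b * c') (a * b' + b * d')
        (c * a' + d * c') (c * b' + d * d') := fun ht h' hd ⟨s, hs, h⟩ =>
    ⟨s * _, by rw [mul_pow, hs, ht, one_mul], fun F hF => (h F hF).comp (h' F hF) hd⟩
  have tN : ∀ F, Law F → ThcP 1 F (-1) 0 0 (-1) := fun F h => by
    simpa using h.thc_S.comp h.thc_S (by norm_num)
  have tU : ∀ F, Law F → ThcP (-1) F 1 0 1 1 := fun F h => by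
    simpa using (h.thc_T.comp h.thc_S (by norm_num)).comp h.thc_T (by norm_num)
  have tU' : ∀ F, Law F → ThcP (-1) F 1 0 (-1) 1 := fun F h => by
    simpa using ((h.thc_S.comp h.thc_T (by norm_num)).comp h.thc_S (by norm_num)).comp (tN F h)
      (by norm_num)
  intro g hg
  refine euclid (N := 1) (Or.inl rfl)
    (fun a b c d => ∃ s : ℂ, s ^ 2 = 1 ∧ ∀ F, Law F → ThcP s F a b c d)
    (fun a b c d _ => ⟨fun H => ?_, fun H => ?_⟩) (fun a b c d _ => ⟨fun H => ?_, fun H => ?_⟩)
    ⟨1, one_pow 2, fun F _ x y z _ => by simp [mob]⟩ ⟨1, one_pow 2, tN⟩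
    (g 0 0) (g 0 1) (g 1 0) (g 1 1) (by simpa [Matrix.det_fin_two] using hg)
  · simpa using key neg_one_sq (fun F h => h.thc_T) (by norm_num) H
  · simpa using key neg_one_sq (fun F h => h.thc_T') (by norm_num) H
  · simpa using key neg_one_sq tU (by norm_num) H
  · simpa using key neg_one_sq tU' (by norm_num) H

end Pool.Agent.B8
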