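import Pool.Agent.Lib.MP_696deb_nt.B8.TH0

/-! Reduction of the theta series to the normal form, holomorphy and bounds. -/

set_option autoImplicit false

open Complex NumberTheorySymbols Filter Asymptotics
open scoped Classical Real

namespace Pool.Agent.B8
open Pool.Agent.Lib.MP_696deb_nt Pool.Agent.Lib.MP_696deb_nt.B2.CM Pool.Agent.Dih

theorem thd_prim {n a b c : ℤ} (hn : Squarefree n) (e : b ^ 2 - 4 * a * c = -n) :
    ∃ x y z : ℤ, x * a + y * b + z * c = 1 := by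
  have h1 := Int.gcd_eq_gcd_ab a b
  have h2 := Int.gcd_eq_gcd_ab (Int.gcd a b) c
  have da : ((Int.gcd (Int.gcd a b) c : ℕ) : ℤ) ∣ a :=
    (Int.gcd_dvd_left _ _).trans (Int.gcd_dvd_left _ _)
  have db : ((Int.gcd (Int.gcd a b) c : ℕ) : ℤ) ∣ b :=
    (Int.gcd_dvd_left _ _).trans (Int.gcd_dvd_right _ _)
  have dc : ((Int.gcd (Int.gcd a b) c : ℕ) : ℤ) ∣ c := Int.gcd_dvd_right _ _
  have hu : IsUnit ((Int.gcd (Int.gcd a b) c : ℕ) : ℤ) := by
    refine hn _ ?_
    rw [show n = 4 * (a * c) - b * b by linear_combination e]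
    exact dvd_sub ((mul_dvd_mul da dc).mul_left _) (mul_dvd_mul db db)
  have h3 : ((Int.gcd (Int.gcd a b) c : ℕ) : ℤ) = 1 := by
    rcases Int.isUnit_iff.1 hu with h | h
    · exact h
    · omega
  rw [h3] at h2
  generalize Int.gcdA (Int.gcd a b) c = s at h2
  generalize Int.gcdB (Int.gcd a b) c = r at h2
  exact ⟨s * Int.gcdA a b, s * Int.gcdB a b, r, by linear_combination -h2 - s * h1⟩

theorem thd_shift {n : ℤ} {R : Fm} (hR : fdisc R = -n) (h1 : IsCoprime n R.1)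
    (h2 : IsCoprime n 2) :
    ∃ k : ℤ, n ∣ (fmap R 1 k 0 1).2.1 ∧ n ∣ (fmap R 1 k 0 1).2.2 := by
  obtain ⟨u, v, huv⟩ := h2.mul_right h1
  have h3 : n ∣ 2 * R.1 * (-(v * R.2.1)) + R.2.1 :=
    ⟨u * R.2.1, by linear_combination (-R.2.1) * huv⟩
  refine ⟨-(v * R.2.1), by simpa [fmap] using h3, ?_⟩
  refine (h2.mul_right (h2.mul_right h1)).dvd_of_dvd_mul_left ?_
  have h4 := four_mul_fval R (-(v * R.2.1)) 1
  rw [hR] at h4
  rw [show 2 * (2 * R.1) * (fmap R 1 (-(v * R.2.1)) 0 1).2.2 =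
    (2 * R.1 * (-(v * R.2.1)) + R.2.1) ^ 2 + n by simp only [fmap]; linear_combination h4]
  exact dvd_add (dvd_pow h3 two_ne_zero) dvd_rfl

theorem thd_normal {n : ℤ} {Q : Fm} (hn : Squarefree n) (h2 : IsCoprime n 2)
    (hQ : fdisc Q = -n) : ∃ a b c d x y t : ℤ, a * d - b * c = 1 ∧
      fmap Q a b c d = (x, n * y, n * t) ∧ 2 * x * (2 * t) - n * y * y = 1 := by
  have n0 : n ≠ 0 := hn.ne_zero
  obtain ⟨u, v, ⟨d, b, e⟩, h⟩ := cmc_form (m := Q.1) (b := Q.2.1) (k := Q.2.2) n0 (thd_prim hn hQ)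
  have e1 : u * d - -b * v = 1 := by linear_combination e
  obtain ⟨k, ⟨y, hy⟩, t, ht⟩ := thd_shift ((fdisc_fmap e1 Q).trans hQ) h.symm h2
  rw [fmap_fmap] at hy ht
  have e2 : (u * 1 + -b * 0) * (v * k + d * 1) - (u * k + -b * 1) * (v * 1 + d * 0) = 1 := by
    linear_combination e
  have h1 := (fdisc_fmap e2 Q).trans hQ
  rw [fdisc, hy, ht] at h1
  exact ⟨_, _, _, _, _, y, t, e2, (Prod.mk.eta (p := fmap Q _ _ _ _)).symm.trans
    (congrArg _ (Prod.ext hy ht)), mul_left_cancel₀ n0 (by linear_combination -h1)⟩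

theorem thd_term {R : Fm} (hD : fdisc R < 0) (ha : 0 < R.1) {r ε C : ℝ} (hr : 0 < r) {g z : ℂ}
    (hg : ‖g‖ ≤ C) (hz : ε ≤ z.im) (v : ℤ × ℤ) :
    ‖g * q1 (fval R v.1 v.2 * z / r)‖ ≤ C * Real.exp (-(2 * π * ε / r) * fval R v.1 v.2) := by
  rw [norm_mul, norm_q1, div_ofReal_im, ← ofReal_intCast, im_ofReal_mul]
  have h : (0 : ℝ) ≤ fval R v.1 v.2 := by exact_mod_cast anb_nonneg hD ha v
  refine mul_le_mul hg (Real.exp_le_exp.2 ?_) (Real.exp_pos _).le ((norm_nonneg _).trans hg)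
  rw [show -2 * π * (fval R v.1 v.2 * z.im / r) = -(2 * π * z.im / r) * fval R v.1 v.2 by ring]
  refine mul_le_mul_of_nonneg_right (neg_le_neg ?_) h
  gcongr

theorem thd_hol {R : Fm} (hD : fdisc R < 0) (ha : 0 < R.1) {r C : ℝ} (hr : 0 < r)
    {g : ℤ × ℤ → ℂ} (hg : ∀ v, ‖g v‖ ≤ C) :
    Hol fun z => ∑' v : ℤ × ℤ, g v * q1 (fval R v.1 v.2 * z / r) := fun z hz => by
  have hU : IsOpen {w : ℂ | z.im / 2 < w.im} := isOpen_lt continuous_const continuous_im
  refine (differentiableOn_tsum_of_summable_norm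
    ((summable_form hD ha (y := 2 * π * (z.im / 2) / r) (by positivity)).mul_left C)
    (fun v => ?_) hU fun v w hw => thd_term hD ha hr (hg v) (le_of_lt hw) v).differentiableAt
    (hU.mem_nhds (show z.im / 2 < z.im by linarith))
  unfold q1
  fun_prop

theorem thd_bdd {R : Fm} (hD : fdisc R < 0) (ha : 0 < R.1) {r C : ℝ} (hr : 0 < r)
    {g : ℤ × ℤ → ℂ} (hg : ∀ v, ‖g v‖ ≤ C) :
    Bdd fun z => ∑' v : ℤ × ℤ, g v * q1 (fval R v.1 v.2 * z / r) := by
  have hs := (summable_form hD ha (y := 2 * π * 1 / r) (by positivity)).mul_left C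
  refine IsBigO.of_bound (∑' v : ℤ × ℤ, C * Real.exp (-(2 * π * 1 / r) * fval R v.1 v.2)) ?_
  filter_upwards [(tendsto_comap : Tendsto im atI atTop).eventually (eventually_ge_atTop 1)]
    with z hz
  rw [norm_one, mul_one]
  exact tsum_of_norm_bounded hs.hasSum fun v => thd_term hD ha hr (hg v) hz v

theorem thd_le (f : ZMod 2 × ZMod 2 → ℤ) (v : ZMod 2 × ZMod 2) :
    ‖(f v : ℂ)‖ ≤ ∑ w, ‖(f w : ℂ)‖ :=
  Finset.single_le_sum (f := fun w => ‖(f w : ℂ)‖) (fun _ _ => norm_nonneg _) (Finset.mem_univ v)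

/-- A unimodular change of variables modulo two. -/
def thdEq {a b c d : ZMod 2} (e : a * d - b * c = 1) : ZMod 2 × ZMod 2 ≃ ZMod 2 × ZMod 2 where
  toFun v := (a * v.1 + b * v.2, c * v.1 + d * v.2)
  invFun v := (d * v.1 - b * v.2, -c * v.1 + a * v.2)
  left_inv v := Prod.ext (by dsimp only; linear_combination v.1 * e)
    (by dsimp only; linear_combination v.2 * e)
  right_inv v := Prod.ext (by dsimp only; linear_combination v.1 * e)
    (by dsimp only; linear_combination v.2 * e)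

theorem thd_zero {n : ℕ} {x y t : ℤ} {f : ZMod 2 × ZMod 2 → ℤ} {φ : ℤ → ℤ → ℤ → ℂ}
    (h : Nm n x y t f φ) (d : ℤ) (z : ℂ) :
    Fq n φ (x, n * y, n * t) f 0 d z = J(d | n) * thQ (x, n * y, n * t) f z := by
  have e := h.det
  have n0 : (n : ℤ) ≠ 0 := by exact_mod_cast h.nk.sqf.ne_zero
  have n1 : (n : ℂ) ≠ 0 := by exact_mod_cast h.nk.sqf.ne_zero
  have two : (2 : ZMod 2) = 0 := rfl
  have e2 : (n : ZMod 2) * y = 1 := by
    have := congrArg (Int.cast : ℤ → ZMod 2) e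
    push_cast at this
    generalize (n : ZMod 2) = a at this
    generalize (y : ZMod 2) = b at this
    generalize (x : ZMod 2) = c at this
    generalize (t : ZMod 2) = d at this
    revert a b c d
    decide
  have hi : Function.Injective fun w : ℤ × ℤ =>
      (-(n * (y * w.1 + 2 * t * w.2)), 2 * x * w.1 + n * y * w.2) := fun k l hk => by
    simp only [Prod.mk.injEq, neg_inj, mul_right_inj' n0] at hk
    exact Prod.ext (by linear_combination (-(k.1 - l.1)) * e + 2 * t * hk.2 - n * y * hk.1)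
      (by linear_combination (-(k.2 - l.2)) * e - y * hk.2 + 2 * x * hk.1)
  rw [Fq, thQ, ← tsum_mul_left, ← hi.tsum_eq]
  · refine tsum_congr fun w => ?_
    have h1 : fval (x, n * y, n * t) (-(n * (y * w.1 + 2 * t * w.2))) (2 * x * w.1 + n * y * w.2) =
        n * fval (x, n * y, n * t) w.1 w.2 := by
      simp only [fval]
      linear_combination n * (x * w.1 ^ 2 + n * y * w.1 * w.2 + n * t * w.2 ^ 2) * e
    have h2 : ((-(n * (y * w.1 + 2 * t * w.2)) : ℤ) : ZMod 2) = w.1 := by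
      push_cast
      linear_combination (-(w.1 : ZMod 2)) * e2 + (-w.1 - n * t * w.2) * two
    have h3 : ((2 * x * w.1 + n * y * w.2 : ℤ) : ZMod 2) = w.2 := by
      push_cast
      linear_combination (w.2 : ZMod 2) * e2 + (x * w.1) * two
    dsimp only
    rw [h1, h2, h3, h.sec.zero, if_pos (dvd_mul_right _ _), mul_assoc]
    congr 3
    push_cast
    field_simp
  · rintro ⟨u, v⟩ hu
    have h1 : (n : ℤ) ∣ fval (x, n * y, n * t) u v := by
      by_contra k
      exact hu (by dsimp only; rw [h.sec.zero, if_neg k, zero_mul, zero_mul])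
    have h2 : (n : ℤ) ∣ x * u ^ 2 := by
      obtain ⟨m, hm⟩ := h1
      simp only [fval] at hm
      exact ⟨m - y * u * v - t * v ^ 2, by linear_combination hm⟩
    have h3 : IsCoprime (n : ℤ) x := ⟨-(y * y), 4 * t, by linear_combination e⟩
    obtain ⟨s, rfl⟩ := ((Int.squarefree_natCast.2 h.nk.sqf).dvd_pow_iff_dvd two_ne_zero).1
      (h3.dvd_of_dvd_mul_left h2)
    exact ⟨(2 * t * v + n * y * s, -(y * v) - 2 * x * s), Prod.ext
      (by dsimp only; linear_combination n * s * e) (by dsimp only; linear_combination v * e)⟩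

theorem thd_stmt : THdStmt := by
  intro ha n Q f hn hQ hp f0 fs
  have m8 := hn.m8
  have hg := hn.gt
  have hD : fdisc Q < 0 := by omega
  obtain ⟨a, b, c, d, x, y, t, e, e1, e2⟩ := thd_normal (Int.squarefree_natCast.2 hn.sqf)
    ⟨1, -(n / 2 : ℕ), by omega⟩ hQ
  have hx : 0 < x := by simpa [e1] using fmap_pos e hD hp
  have hR : fdisc (x, n * y, n * t) < 0 := by rw [← e1, fdisc_fmap e]; exact hD
  obtain ⟨φ, hφ⟩ := ha n ((n + 1) / 2) x hn.sqf (Nat.odd_iff.2 (by omega)) ⟨2, -1, by omega⟩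
    ⟨4 * t, -(y * y), by linear_combination e2⟩
  have e' : (a : ZMod 2) * d - b * c = 1 := by exact_mod_cast congrArg (Int.cast : ℤ → ZMod 2) e
  have hN : Nm n x y t (fun v => f (thdEq e' v)) φ :=
    ⟨hn, hx, e2, by simpa [thdEq, Prod.mk_zero_zero] using f0,
      ((thdEq e').sum_comp f).trans fs, hφ⟩
  refine ⟨x, y, t, _, φ, hN, fun k z => ?_, ?_, fun k l => ?_⟩
  · rw [thd_zero hN, thQ, thQ, ← e1, ← (ancEq e).tsum_eq fun v : ℤ × ℤ =>
      (f (v.1, v.2) : ℂ) * q1 (fval Q v.1 v.2 * z / 2)]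
    simp only [fval_fmap, ancEq, thdEq, Equiv.coe_fn_mk, Int.cast_add, Int.cast_mul]
  · exact thd_hol hD hp (r := 2) two_pos fun v => thd_le f _
  · have := thd_bdd hR hx (r := 2 * n) (C := 1 * ∑ w, ‖(f w : ℂ)‖) (by positivity)
      (g := fun v => φ (fval (x, n * y, n * t) v.1 v.2) k l * f (thdEq e' (v.1, v.2))) fun v => by
        rw [norm_mul]
        exact mul_le_mul (hφ.le _ _ _) (thd_le f _) (norm_nonneg _) zero_le_one
    simp only [ofReal_mul, ofReal_ofNat, ofReal_natCast] at this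
    exact this

end Pool.Agent.B8
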