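import Mathlib

/-! The prime ideals of a cubic field. -/

set_option autoImplicit false

open NumberField Polynomial UniqueFactorizationMonoid
open scoped Classical

namespace Pool.Agent.B8.A2a

/-- The cubic polynomial. -/
noncomputable def fp (a b c : ℤ) : ℤ[X] := X ^ 3 + C a * X ^ 2 + C b * X + C c

/-- Its discriminant. -/
def ds {R : Type*} [CommRing R] (a b c : R) : R :=
  a ^ 2 * b ^ 2 - 4 * b ^ 3 - 4 * a ^ 3 * c - 27 * c ^ 2 + 18 * a * b * c

variable {L : Type} [Field L] [NumberField L] {a b c : ℤ} {θ : 𝓞 L} {p : ℕ}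

theorem fp_monic : (fp a b c).Monic := by unfold fp; monicity!

theorem fp_deg : (fp a b c).natDegree = 3 := by unfold fp; compute_degree!

theorem fp_ev {R : Type*} [CommRing R] (x : R) :
    aeval x (fp a b c) = x ^ 3 + a * x ^ 2 + b * x + c := by simp [fp]

theorem min_eq (irr : ∀ x : ℚ, x ^ 3 + a * x ^ 2 + b * x + c ≠ 0) (h : aeval θ (fp a b c) = 0) :
    minpoly ℚ (θ : L) = (fp a b c).map (algebraMap ℤ ℚ) ∧ minpoly ℤ θ = fp a b c := by
  have m := (fp_monic (a := a) (b := b) (c := c)).map (algebraMap ℤ ℚ)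
  have d : ((fp a b c).map (algebraMap ℤ ℚ)).natDegree = 3 := by
    rw [fp_monic.natDegree_map, fp_deg]
  have e : minpoly ℚ (θ : L) = (fp a b c).map (algebraMap ℤ ℚ) :=
    (minpoly.eq_of_irreducible_of_monic ((irreducible_iff_roots_eq_zero_of_degree_le_three
      (by omega) d.le).2 (Multiset.eq_zero_of_forall_notMem fun x hx => irr x (by
        rw [← fp_ev, aeval_def, ← eval_map]
        exact ((mem_roots m.ne_zero).1 hx).eq_zero))) (by
      rw [aeval_map_algebraMap, show (θ : L) = algebraMap (𝓞 L) L θ from rfl,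
        aeval_algebraMap_apply, h, map_zero]) m).symm
  exact ⟨e, map_injective _ (algebraMap ℤ ℚ).injective_int
    ((minpoly.isIntegrallyClosed_eq_field_fractions ℚ L θ.isIntegral).symm.trans e)⟩

theorem nd_exp [Fact p.Prime] (hL : Module.finrank ℚ L = 3)
    (irr : ∀ x : ℚ, x ^ 3 + a * x ^ 2 + b * x + c ≠ 0) (h : aeval θ (fp a b c) = 0)
    (hp : ¬ (p : ℤ) ∣ ds a b c) : ¬ p ∣ RingOfIntegers.exponent θ := fun k => by
  obtain ⟨e1, e2⟩ := min_eq irr h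
  have t := (Field.primitive_element_iff_minpoly_natDegree_eq ℚ (θ : L)).2 (by
    rw [e1, fp_monic.natDegree_map, fp_deg, hL])
  have m := Ideal.mul_le_left (I := conductor ℤ θ) ((conductor_mul_differentIdeal ℤ ℚ L θ (by
    rw [← IntermediateField.adjoin_simple_toSubalgebra_of_isAlgebraic (.of_finite ℚ _)]
    exact congrArg IntermediateField.toSubalgebra t)).ge (Ideal.mem_span_singleton_self _))
  rw [fp_ev] at h
  have m2 : ds a b c ∈ Ideal.under ℤ (conductor ℤ θ) := by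
    rw [Ideal.under_def, Ideal.mem_comap]
    refine (congrArg (· ∈ conductor ℤ θ) ?_).mp (Ideal.mul_mem_left _ (-(4 * b ^ 2 - a ^ 2 * b -
      3 * a * c) - (7 * a * b - 9 * c - 2 * a ^ 3) * θ - (6 * b - 2 * a ^ 2) * θ ^ 2) m)
    simp [e2, fp, ds, map_ofNat]
    linear_combination -(15 * a * b - 27 * c - 4 * a ^ 3 + 3 * (6 * b - 2 * a ^ 2) * θ) * h
  rw [← Int.ideal_span_absNorm_eq_self (Ideal.under ℤ (conductor ℤ θ)),
    Ideal.mem_span_singleton] at m2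
  exact hp ((Int.natCast_dvd_natCast.2 k).trans m2)

/-- The norms of the primes above `p`. -/
def Pr (L : Type) [Field L] [NumberField L] (p : ℕ) (m : Multiset ℕ) : Prop :=
  ∃ S : Finset (Ideal (𝓞 L)), (∀ P, P ∈ S ↔ P.IsMaximal ∧ (p : 𝓞 L) ∈ P) ∧
    S.val.map Ideal.absNorm = m

theorem kd [Fact p.Prime] (he : ¬ p ∣ RingOfIntegers.exponent θ) {m : Multiset (ZMod p)[X]}
    (h1 : ∀ Q ∈ m, Irreducible Q ∧ Q.Monic) (h2 : m.Nodup)
    (h3 : (minpoly ℤ θ).map (Int.castRingHom (ZMod p)) = m.prod) :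
    Pr L p (m.map fun Q => p ^ Q.natDegree) := by
  have hp : p.Prime := Fact.out
  have hq := Nat.prime_iff_prime_int.1 hp
  have p0 : Ideal.span {(p : ℤ)} ≠ ⊥ := by simpa using hp.ne_zero
  let E := NumberField.Ideal.primesOverSpanEquivMonicFactorsMod he
  have e : (RingOfIntegers.monicFactorsMod θ p).val = m := by
    rw [RingOfIntegers.monicFactorsMod, h3, normalizedFactors_prod_eq _ fun Q hQ => (h1 Q hQ).1,
      Multiset.map_congr rfl fun Q hQ => (h1 Q hQ).2.normalize_eq_self, Multiset.map_id',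
      Multiset.toFinset_val, h2.dedup]
  refine ⟨(RingOfIntegers.monicFactorsMod θ p).attach.map
    ⟨fun Q => (E.symm Q).1, Subtype.val_injective.comp E.symm.injective⟩, fun P => ?_, ?_⟩
  · simp only [Finset.mem_map, Finset.mem_attach, true_and, Function.Embedding.coeFn_mk]
    refine ⟨?_, fun ⟨k, k'⟩ => ⟨E ⟨P, k.isPrime, (Ideal.liesOver_span_iff k.ne_top hq).2
      (by simpa using k')⟩, by simp⟩⟩
    rintro ⟨Q, rfl⟩
    exact ⟨(E.symm Q).2.1.isMaximal (Ideal.ne_bot_of_mem_primesOver p0 (E.symm Q).2), by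
      simpa using (Ideal.liesOver_span_iff (E.symm Q).2.1.ne_top hq).1 (E.symm Q).2.2⟩
  · rw [← e, Finset.map_val, Multiset.map_map, Finset.attach_val,
      ← Multiset.attach_map_val' _ fun Q : (ZMod p)[X] => p ^ Q.natDegree]
    refine Multiset.map_congr rfl fun Q _ => ?_
    have := (E.symm Q).2.1
    have := (E.symm Q).2.2
    exact (Ideal.pow_inertiaDeg p _).symm.trans (congrArg _
      (NumberField.Ideal.inertiaDeg_primesOverSpanEquivMonicFactorsMod_symm_apply' he Q.2))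

theorem ex_prime [Fact p.Prime] (h : minpoly ℤ θ = fp a b c) {r : ZMod p}
    (hr : r ^ 3 + a * r ^ 2 + b * r + c = 0) :
    ∃ Q : Ideal (𝓞 L), Q.IsMaximal ∧ ∀ g : ℤ[X], aeval θ g ∈ Q ↔ aeval r g = 0 := by
  let _ : Algebra ℤ[X] (𝓞 L) := (aeval θ : ℤ[X] →ₐ[ℤ] 𝓞 L).toRingHom.toAlgebra
  have : IsScalarTower ℤ ℤ[X] (𝓞 L) := .of_algebraMap_eq' (RingHom.ext_int _ _)
  have : Algebra.IsIntegral ℤ[X] (𝓞 L) := .tower_top ℤ
  have := RingHom.ker_isMaximal_of_surjective (aeval r : ℤ[X] →ₐ[ℤ] ZMod p).toRingHom fun x =>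
    (ZMod.intCast_surjective x).elim fun n hn => ⟨n, (map_intCast _ n).trans hn⟩
  obtain ⟨Q, q1, q2⟩ := Ideal.exists_ideal_over_maximal_of_isIntegral (S := 𝓞 L)
    (RingHom.ker (aeval r : ℤ[X] →ₐ[ℤ] ZMod p).toRingHom) fun g hg => by
      obtain ⟨u, rfl⟩ := minpoly.isIntegrallyClosed_dvd θ.isIntegral hg
      show aeval r _ = 0
      rw [map_mul, h, fp_ev, hr, zero_mul]
  exact ⟨Q, q1, fun g => SetLike.ext_iff.1 q2 g⟩

theorem two_roots {k : Type*} [Field k] {a b c : k} (h2 : (2 : k) ≠ 0) (h0 : a ^ 2 - 3 * b ≠ 0)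
    (hD : ds a b c = 0) : ∃ r s : k, r ≠ s ∧ r ^ 3 + a * r ^ 2 + b * r + c = 0 ∧
      s ^ 3 + a * s ^ 2 + b * s + c = 0 := by
  have e0 := mul_ne_zero h2 h0
  obtain ⟨d, hd⟩ : ∃ d, 2 * (a ^ 2 - 3 * b) * d = 9 * c - a * b := ⟨_, mul_div_cancel₀ _ e0⟩
  rw [ds] at hD
  have h1 : 3 * d ^ 2 + 2 * a * d + b = 0 := mul_left_cancel₀ (pow_ne_zero 2 e0) (by
    linear_combination (3 * (2 * (a ^ 2 - 3 * b) * d + (9 * c - a * b)) +
      4 * a * (a ^ 2 - 3 * b)) * hd - 9 * hD)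
  have h3 : d ^ 3 + a * d ^ 2 + b * d + c = 0 := mul_left_cancel₀ (pow_ne_zero 3 e0) (by
    linear_combination ((2 * (a ^ 2 - 3 * b) * d) ^ 2 + 2 * (a ^ 2 - 3 * b) * d * (9 * c - a * b) +
      (9 * c - a * b) ^ 2 + 2 * a * (a ^ 2 - 3 * b) * (2 * (a ^ 2 - 3 * b) * d + (9 * c - a * b)) +
      4 * b * (a ^ 2 - 3 * b) ^ 2) * hd - (2 * a ^ 3 - 9 * a * b + 27 * c) * hD)
  exact ⟨d, -a - 2 * d, fun e => h0 (by linear_combination (3 * d + a) * e - 3 * h1), h3,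
    by linear_combination (-a - 3 * d) * h1 + h3⟩

theorem dvd_nm (hp : p.Prime) {P : Ideal (𝓞 L)} (h : P.IsMaximal) (k : (p : 𝓞 L) ∈ P) :
    p ∣ Ideal.absNorm P := by
  have := (Ideal.liesOver_span_iff h.ne_top (Nat.prime_iff_prime_int.1 hp)).2 (by simpa using k)
  rw [← Ideal.pow_inertiaDeg p P]
  exact dvd_pow_self _ (Ideal.inertiaDeg_pos ..).ne'

theorem shape (hL : Module.finrank ℚ L = 3) (hp : p.Prime) {R T : Ideal (𝓞 L)} (h1 : R.IsMaximal)
    (h2 : T.IsMaximal) (h : (p : 𝓞 L) ∈ R ^ 2 * T) : Ideal.absNorm R = p ∧ Ideal.absNorm T = p ∧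
      ∀ P : Ideal (𝓞 L), P = R ∨ P = T ↔ P.IsMaximal ∧ (p : 𝓞 L) ∈ P := by
  have m1 : (p : 𝓞 L) ∈ R := Ideal.pow_le_self two_ne_zero (Ideal.mul_le_left h)
  have m2 : (p : 𝓞 L) ∈ T := Ideal.mul_le_right h
  obtain ⟨x, hx⟩ := dvd_nm hp h1 m1
  obtain ⟨y, hy⟩ := dvd_nm hp h2 m2
  obtain ⟨J, hJ⟩ := Ideal.dvd_span_singleton.2 h
  have e := congrArg Ideal.absNorm hJ
  rw [Ideal.absNorm_span_natCast, RingOfIntegers.rank, hL, map_mul, map_mul, map_pow, hx, hy] at e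
  have e1 : x * (x * (y * Ideal.absNorm J)) = 1 :=
    mul_left_cancel₀ (pow_ne_zero 3 hp.ne_zero) (by linear_combination -e)
  simp only [mul_eq_one, Ideal.absNorm_eq_one_iff] at e1
  obtain ⟨rfl, -, rfl, rfl⟩ := e1
  refine ⟨hx.trans (mul_one p), hy.trans (mul_one p), fun P => ⟨?_, fun ⟨k, k'⟩ => ?_⟩⟩
  · rintro (rfl | rfl)
    exacts [⟨h1, m1⟩, ⟨h2, m2⟩]
  · have := (Ideal.span_singleton_le_iff_mem _).2 k'
    rw [hJ, Ideal.mul_top] at this
    have := k.isPrime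
    exact (k.isPrime.mul_le.1 ‹_›).imp
      (fun e => (h1.eq_of_le k.ne_top (Ideal.IsPrime.le_of_pow_le e)).symm)
      fun e => (h2.eq_of_le k.ne_top e).symm

theorem ex_max (hL : Module.finrank ℚ L = 3) (hp : p.Prime) :
    ∃ P : Ideal (𝓞 L), P.IsMaximal ∧ (p : 𝓞 L) ∈ P := by
  obtain ⟨P, h, k⟩ := (Ideal.span {(p : 𝓞 L)}).exists_le_maximal fun e => by
    have := Ideal.absNorm_eq_one_iff.2 e
    rw [Ideal.absNorm_span_natCast, RingOfIntegers.rank, hL] at this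
    exact hp.ne_one (by simpa using this)
  exact ⟨P, h, k (Ideal.mem_span_singleton_self _)⟩

theorem pr_two (hL : Module.finrank ℚ L = 3) (hc : Odd c)
    (h : θ ^ 3 = -2 * (a * θ ^ 2 + b * θ + c)) : Pr L 2 {2} := by
  obtain ⟨P, h1, h2⟩ := ex_max hL Nat.prime_two
  obtain ⟨k, rfl⟩ := hc
  rw [Nat.cast_ofNat] at h2
  have m : θ ∈ P := h1.isPrime.mem_of_pow_mem 3 (by
    rw [h, neg_mul]
    exact neg_mem (P.mul_mem_right _ h2))
  have m2 := Ideal.pow_mem_pow m 3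
  rw [h, neg_mul, neg_mem_iff] at m2
  have := h1.isPrime
  obtain ⟨e, -, k⟩ := shape hL Nat.prime_two h1 h1 (by
    rw [← pow_succ, Nat.cast_ofNat]
    refine (Ideal.IsPrime.mem_pow_mul P m2).resolve_right fun e => h1.ne_top ?_
    rw [Ideal.eq_top_iff_one, show (1 : 𝓞 L) = a * θ ^ 2 + b * θ + (2 * k + 1 : ℤ) -
      ((a * θ + b) * θ + k * 2) by push_cast; ring]
    exact sub_mem e (add_mem (P.mul_mem_left _ m) (P.mul_mem_left _ h2)))
  exact ⟨{P}, fun Q => by rw [← k, or_self, Finset.mem_singleton], by simp [e]⟩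

theorem pr_ram [Fact p.Prime] (hL : Module.finrank ℚ L = 3) (h : minpoly ℤ θ = fp a b c)
    (h2 : p ≠ 2) (h0 : ¬ (p : ℤ) ∣ a ^ 2 - 3 * b) (hD : (p : ℤ) ∣ ds a b c)
    (hd : (p : ℤ) ∣ discr L) : Pr L p {p, p} := by
  have hp : p.Prime := Fact.out
  have hq := Nat.prime_iff_prime_int.1 hp
  obtain ⟨r, s, rs, hr, hs⟩ := two_roots (k := ZMod p) (a := a) (b := b) (c := c)
    (fun e => h2 ((Nat.prime_dvd_prime_iff_eq hp Nat.prime_two).1
      ((ZMod.natCast_eq_zero_iff 2 p).1 e)))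
    (by exact_mod_cast mt (ZMod.intCast_zmod_eq_zero_iff_dvd _ p).1 h0)
    (by simpa [ds] using (ZMod.intCast_zmod_eq_zero_iff_dvd _ p).2 hD)
  obtain ⟨P, p1, p2⟩ := ex_prime h hr
  obtain ⟨Q, q1, q2⟩ := ex_prime h hs
  have pq : P ≠ Q := by
    rintro rfl
    obtain ⟨n, rfl⟩ := ZMod.intCast_surjective r
    have := (q2 (X - C n)).1 ((p2 _).2 (by simp))
    exact rs (sub_eq_zero.1 (by simpa using this)).symm
  obtain ⟨R, r1, r2, r3⟩ : ∃ R : Ideal (𝓞 L), R.IsMaximal ∧ (p : 𝓞 L) ∈ R ∧ (p : 𝓞 L) ∈ R ^ 2 := by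
    by_contra! k
    refine (not_dvd_discr_iff_forall_liesOver L (𝓞 L) hq).2 (fun R r1 r2 => ?_) hd
    have m : (Ideal.span {(p : ℤ)}).map (algebraMap ℤ (𝓞 L)) ≤ R :=
      Ideal.map_le_of_le_comap r2.over.le
    rw [← Ideal.ramificationIdx_eq_one_iff, ← Ideal.ramificationIdx'_eq_ramificationIdx
      (Ideal.span {(p : ℤ)}) R (by simpa using hp.ne_zero), ← not_ne_iff,
      Ideal.ramificationIdx'_ne_one_iff m]
    rw [Ideal.map_span, Set.image_singleton, Ideal.span_singleton_le_iff_mem, map_natCast] at m ⊢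
    exact k R r1 m
  obtain ⟨T, t1, t2, t3⟩ : ∃ T : Ideal (𝓞 L), T.IsMaximal ∧ (p : 𝓞 L) ∈ T ∧ R ≠ T := by
    by_cases e : R = P
    · exact ⟨Q, q1, by simpa using (q2 p).2 (by simp), e ▸ pq⟩
    · exact ⟨P, p1, by simpa using (p2 p).2 (by simp), e⟩
  obtain ⟨e1, e2, k⟩ := shape hL hp r1 t1 (by
    rw [Ideal.mul_eq_inf_of_isCoprime (Ideal.isCoprime_iff_sup_eq.2
      (r1.coprime_of_ne t1 t3)).pow_left]
    exact ⟨r3, t2⟩)
  exact ⟨{R, T}, fun Q => by rw [← k, Finset.mem_insert, Finset.mem_singleton], by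
    rw [Finset.insert_val_of_notMem (by simpa using t3)]
    simp [e1, e2]⟩

end Pool.Agent.B8.A2a
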