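import Pool.Agent.Lib.MP_696deb_nt.B8.ZC
import Pool.Agent.Lib.MP_696deb_nt.B8.A2aa

/-! The primes of the cubic field of the points of order two. -/

set_option autoImplicit false

open NumberField Polynomial NumberTheorySymbols
open scoped Classical

namespace Pool.Agent.B8
open Pool.Agent.Lib.MP_696deb_nt Pool.Agent.Lib.MP_696deb_nt.B2 Pool.Agent.B6

namespace A2a

variable {L : Type} [Field L] [NumberField L] {a b c : ℤ} {θ : 𝓞 L} {p : ℕ} [Fact p.Prime]

theorem fp_map : (fp a b c).map (Int.castRingHom (ZMod p)) =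
    X ^ 3 + C (a : ZMod p) * X ^ 2 + C (b : ZMod p) * X + C (c : ZMod p) := by simp [fp]

theorem pr_none (he : ¬ p ∣ RingOfIntegers.exponent θ) (h : minpoly ℤ θ = fp a b c)
    (k : ∀ x : ZMod p, x ^ 3 + a * x ^ 2 + b * x + c ≠ 0) : Pr L p {p ^ 3} := by
  have m := (fp_monic (a := a) (b := b) (c := c)).map (Int.castRingHom (ZMod p))
  have d : ((fp a b c).map (Int.castRingHom (ZMod p))).natDegree = 3 := by
    rw [fp_monic.natDegree_map, fp_deg]
  have := kd he (m := {(fp a b c).map (Int.castRingHom (ZMod p))}) (fun Q hQ => by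
    rw [Multiset.mem_singleton.1 hQ]
    exact ⟨(irreducible_iff_roots_eq_zero_of_degree_le_three (by omega) d.le).2
      (Multiset.eq_zero_of_forall_notMem fun x hx => k x (by
        simpa [fp_map] using ((mem_roots m.ne_zero).1 hx).eq_zero)), m⟩)
    (Multiset.nodup_singleton _) (by rw [h, Multiset.prod_singleton])
  rwa [Multiset.map_singleton, d] at this

theorem pr_one (he : ¬ p ∣ RingOfIntegers.exponent θ) (h : minpoly ℤ θ = fp a b c) {r : ZMod p}
    (hr : r ^ 3 + a * r ^ 2 + b * r + c = 0) (k : ¬ IsSquare (ds (a : ZMod p) b c)) :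
    Pr L p {p, p ^ 2} := by
  obtain ⟨g, hg⟩ : ∃ g : (ZMod p)[X], g = X ^ 2 + C (a + r) * X + C (b + r * (a + r)) := ⟨_, rfl⟩
  have m : g.Monic := by rw [hg]; monicity!
  have d : g.natDegree = 2 := by rw [hg]; compute_degree!
  have := kd he (m := {X - C r, g}) (fun Q hQ => by
    rcases Multiset.mem_cons.1 hQ with rfl | hQ
    · exact ⟨irreducible_X_sub_C r, monic_X_sub_C r⟩
    rw [Multiset.mem_singleton.1 hQ]
    refine ⟨(irreducible_iff_roots_eq_zero_of_degree_le_three d.ge (by omega)).2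
      (Multiset.eq_zero_of_forall_notMem fun x hx => k
        ⟨(2 * x + a + r) * (3 * r ^ 2 + 2 * a * r + b), ?_⟩), m⟩
    have e : x ^ 2 + (a + r) * x + (b + r * (a + r)) = 0 := by
      simpa [hg] using ((mem_roots m.ne_zero).1 hx).eq_zero
    rw [ds, show (c : ZMod p) = -(r ^ 3 + a * r ^ 2 + b * r) by linear_combination hr]
    linear_combination -4 * (3 * r ^ 2 + 2 * a * r + b) ^ 2 * e) (by
      refine Multiset.nodup_cons.2 ⟨fun e => ?_, Multiset.nodup_singleton _⟩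
      rw [← Multiset.mem_singleton.1 e, natDegree_X_sub_C] at d
      omega) (by
      rw [h, fp_map, hg, show (c : ZMod p) = -(r ^ 3 + a * r ^ 2 + b * r) by linear_combination hr]
      simp only [Multiset.insert_eq_cons, Multiset.prod_cons, Multiset.prod_singleton, map_add,
        map_mul, map_neg, map_pow]
      ring)
  simpa [d] using this

theorem pr_three (he : ¬ p ∣ RingOfIntegers.exponent θ) (h : minpoly ℤ θ = fp a b c) {r t : ZMod p}
    (hr : r ^ 3 + a * r ^ 2 + b * r + c = 0) (h2 : (2 : ZMod p) ≠ 0) (t0 : t ≠ 0)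
    (k : ds (a : ZMod p) b c = t * t) : Pr L p {p, p, p} := by
  have e0 : (c : ZMod p) = -(r ^ 3 + a * r ^ 2 + b * r) := by linear_combination hr
  have e1 : ((a + r) ^ 2 - 4 * (b + r * (a + r))) * (3 * r ^ 2 + 2 * a * r + b) ^ 2 = t * t := by
    rw [← k, ds, e0]
    ring
  have g0 : 3 * r ^ 2 + 2 * a * r + b ≠ 0 := fun e => t0 (mul_self_eq_zero.1 (by rw [← e1, e]; ring))
  obtain ⟨u, hu⟩ : ∃ u, (3 * r ^ 2 + 2 * a * r + b) * u = t := ⟨_, mul_div_cancel₀ _ g0⟩
  obtain ⟨x, hx⟩ : ∃ x, 2 * x = u - (a + r) := ⟨_, mul_div_cancel₀ _ h2⟩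
  have e2 : x ^ 2 + (a + r) * x + (b + r * (a + r)) = 0 :=
    mul_left_cancel₀ (mul_ne_zero (pow_ne_zero 2 h2) (pow_ne_zero 2 g0)) (by
      rw [← hu] at e1
      linear_combination (3 * r ^ 2 + 2 * a * r + b) ^ 2 * (2 * x + (a + r) + u) * hx - e1)
  have := kd he (m := {X - C r, X - C x, X - C (-(a + r) - x)}) (fun Q hQ => by
    simp only [Multiset.insert_eq_cons, Multiset.mem_cons, Multiset.mem_singleton] at hQ
    rcases hQ with rfl | rfl | rfl <;> exact ⟨irreducible_X_sub_C _, monic_X_sub_C _⟩) (by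
      simp only [Multiset.insert_eq_cons, Multiset.nodup_cons, Multiset.mem_cons,
        Multiset.mem_singleton, sub_right_inj, C_inj, Multiset.nodup_singleton, and_true, not_or]
      refine ⟨⟨fun e => g0 ?_, fun e => g0 ?_⟩, fun e => t0 ?_⟩
      · linear_combination e2 + (2 * r + a + x) * e
      · linear_combination e2 + (r - x) * e
      · linear_combination (3 * r ^ 2 + 2 * a * r + b) * (e - hx) - hu) (by
      rw [h, fp_map, e0, show (b : ZMod p) = -(x ^ 2 + (a + r) * x + r * (a + r)) by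
        linear_combination e2]
      simp only [Multiset.insert_eq_cons, Multiset.prod_cons, Multiset.prod_singleton, map_add,
        map_mul, map_neg, map_pow, map_sub]
      ring)
  simpa only [Multiset.insert_eq_cons, Multiset.map_cons, Multiset.map_singleton, natDegree_X_sub_C,
    pow_one] using this

end A2a

open A2a

theorem a2a_stmt (cfa : CFaStmt) : A2aStmt := by
  intro a3 _ L _ _ θ hθ p hp
  obtain ⟨m, hm⟩ := a1_even
  obtain ⟨a, ha⟩ : ∃ a, WZ.b₂ = 2 * (2 * a) := ⟨m ^ 2 + WZ.a₂, by rw [WeierstrassCurve.b₂, hm]; ring⟩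
  have c1 : ∀ {R : Type} [CommRing R] (x : R), (2 * x) ^ 3 + (2 * a : ℤ) * (2 * x) ^ 2 +
      (2 * WZ.b₄ : ℤ) * (2 * x) + (2 * WZ.b₆ : ℤ) = 2 * cub x := fun x => by
    rw [cub, ha]
    push_cast
    ring
  have c2 : ds (2 * a) (2 * WZ.b₄) (2 * WZ.b₆) = 4 * WZ.Δ := by
    have := WZ.b_relation
    rw [ds, WeierstrassCurve.Δ, ha] at *
    linear_combination 16 * a ^ 2 * this
  have irr : ∀ x : ℚ, x ^ 3 + (2 * a : ℤ) * x ^ 2 + (2 * WZ.b₄ : ℤ) * x + (2 * WZ.b₆ : ℤ) ≠ 0 :=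
    fun x e => cub_irr (x / 2) (by
      have := c1 (x / 2)
      rw [mul_div_cancel₀ x two_ne_zero, e] at this
      linarith)
  have r0 : aeval θ (fp (2 * a) (2 * WZ.b₄) (2 * WZ.b₆)) = 0 := by
    have := c1 (θ / 2)
    rwa [mul_div_cancel₀ θ two_ne_zero, hθ.root, mul_zero, ← fp_ev] at this
  obtain ⟨η, rfl⟩ : ∃ η : 𝓞 L, (η : L) = θ := ⟨⟨θ, _, fp_monic, r0⟩, rfl⟩
  have r1 : aeval η (fp (2 * a) (2 * WZ.b₄) (2 * WZ.b₆)) = 0 := RingOfIntegers.coe_injective (by
    rw [← aeval_algebraMap_apply, map_zero]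
    exact r0)
  have := Fact.mk hp
  have hq := Nat.prime_iff_prime_int.1 hp
  have e := (min_eq irr r1).2
  show Pr L p _
  rw [Tp]
  by_cases p2 : p = 2
  · rw [if_pos p2, p2]
    refine pr_two (θ := η) (a := a) (b := WZ.b₄) (c := WZ.b₆) hθ.rank ?_ ?_
    · rw [WeierstrassCurve.b₆]
      exact a3_odd.pow.add_even ⟨2 * WZ.a₆, by ring⟩
    · rw [fp_ev] at r1
      push_cast at r1
      linear_combination r1
  have n2 : ¬ (p : ℤ) ∣ 2 := fun k =>
    p2 ((Nat.prime_dvd_prime_iff_eq hp Nat.prime_two).1 (Int.natCast_dvd_natCast.1 k))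
  have n4 : ∀ {x : ℤ}, (p : ℤ) ∣ 4 * x → (p : ℤ) ∣ x := fun k => (hq.dvd_or_dvd k).resolve_left
    fun k => n2 (hq.dvd_of_dvd_pow (n := 2) k)
  rw [if_neg p2]
  by_cases pN : p ∣ NN
  · rw [if_pos pN]
    have d := (dvd_Δ hp).2 pN
    refine pr_ram hθ.rank e p2 (fun k => hq.not_isUnit (WZ_cop.isUnit_of_dvd' ?_ d))
      (c2 ▸ d.mul_left 4) ?_
    · rw [WeierstrassCurve.c₄, ha, show (2 * (2 * a)) ^ 2 - 24 * WZ.b₄ =
        4 * ((2 * a) ^ 2 - 3 * (2 * WZ.b₄)) by ring]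
      exact k.mul_left 4
    · obtain ⟨i, -, hi⟩ := a3 L _ hθ
      obtain ⟨s, s0, hs⟩ := WZ_disc
      by_contra k
      have n0 := Int.natCast_ne_zero.2 NN_ne
      have i0 : (i : ℤ) ≠ 0 := fun e => WZ_ne (by rw [e] at hi; linarith)
      obtain ⟨n, u, ⟨n, rfl⟩, u0, hu⟩ := val_Δ hp pN
      have v := congrArg (emultiplicity (p : ℤ)) (hi.trans (congrArg _ hu))
      obtain ⟨j, hj⟩ := ENat.ne_top_iff_exists.1
        (finiteMultiplicity_iff_emultiplicity_ne_top.1 (.of_prime_left hq i0))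
      rw [mul_left_comm, emultiplicity_mul hq, emultiplicity_mul hq, emultiplicity_pow hq,
        emultiplicity_pow_self_of_prime hq, emultiplicity_eq_zero.2 k,
        emultiplicity_eq_zero.2 (mt n4 u0), ← hj, zero_add, add_zero] at v
      norm_cast at v
      omega
  have d : ¬ (p : ℤ) ∣ 4 * WZ.Δ := fun k => pN ((dvd_Δ hp).1 (n4 k))
  have he := nd_exp hθ.rank irr r1 (c2 ▸ d)
  have z2 : (2 : ZMod p) ≠ 0 := by exact_mod_cast mt (ZMod.intCast_zmod_eq_zero_iff_dvd 2 p).1 n2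
  have c3 := fun {x : ZMod p} (k : cub x = 0) => (c1 x).trans (mul_eq_zero_of_right 2 k)
  obtain ⟨s, -, hs⟩ := WZ_disc
  have c4 : ds ((2 * a : ℤ) : ZMod p) (2 * WZ.b₄ : ℤ) (2 * WZ.b₆ : ℤ) = (-NN : ℤ) * (2 * s) ^ 2 := by
    have := congrArg (Int.cast : ℤ → ZMod p) (c2.trans (congrArg _ hs))
    simp only [ds] at this ⊢
    push_cast at this ⊢
    linear_combination this
  have s0 : (2 * s : ZMod p) ≠ 0 := mul_ne_zero z2 fun k => d (by
    rw [hs, mul_neg, dvd_neg, ← mul_assoc]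
    exact (Dvd.dvd.pow ((ZMod.intCast_zmod_eq_zero_iff_dvd s p).1 k) two_ne_zero).mul_left _)
  have n0 : ((-NN : ℤ) : ZMod p) ≠ 0 := fun k => pN (Int.natCast_dvd_natCast.1
    (dvd_neg.1 ((ZMod.intCast_zmod_eq_zero_iff_dvd _ p).1 k)))
  rw [if_neg pN, ← jacobiSym.legendreSym.to_jacobiSym]
  by_cases j : legendreSym p (-NN) = -1
  · rw [if_pos j]
    obtain ⟨w, rfl⟩ := exists_plc hp
    obtain ⟨φ, hφ⟩ := exists_frob w
    have w2 : ¬ w.p ∣ 2 * NN := fun k => (hp.dvd_mul.1 k).elim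
      (fun k => n2 (Int.natCast_dvd_natCast.2 k)) pN
    obtain ⟨x, hx⟩ := (cfa.2.2.2.1 w φ w2 hφ).2 (cfa.2.2.1 φ fun k => by
      have := chi_frob (a := -NN) (by
        rw [mul_neg, dvd_neg]
        exact_mod_cast w2) hφ
      rw [MonoidHom.mem_ker.1 k, ← jacobiSym.legendreSym.to_jacobiSym, j] at this
      simp at this)
    refine pr_one he e (c3 hx) fun ⟨t, ht⟩ => (legendreSym.eq_neg_one_iff _).1 j ⟨t / (2 * s), ?_⟩
    rw [div_mul_div_comm, ← ht, c4, ← sq, mul_div_cancel_right₀ _ (pow_ne_zero 2 s0)]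
  rw [if_neg j]
  by_cases k : Rt p
  · rw [if_pos k]
    obtain ⟨x, hx⟩ := k
    obtain ⟨t, ht⟩ := (legendreSym.eq_one_iff _ n0).1
      ((legendreSym.eq_one_or_neg_one _ n0).resolve_right j)
    exact pr_three he e (c3 hx) z2 (t := t * (2 * s))
      (mul_ne_zero (fun k => n0 (by rw [ht, k, mul_zero])) s0) (by rw [c4, ht]; ring)
  · rw [if_neg k]
    refine pr_none he e fun x hx => k ⟨x / 2, ?_⟩
    have := c1 (x / 2)
    rw [mul_div_cancel₀ x z2, hx] at this
    exact (mul_eq_zero.1 this.symm).resolve_left z2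

end Pool.Agent.B8
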