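import Pool.Agent.Lib.MP_696deb_nt.B8.ZC

/-! The number of ideals of given norm in the cubic field. -/

set_option autoImplicit false

open NumberField NumberTheorySymbols
open scoped Classical NNReal

namespace Pool.Agent.B8
open Pool.Agent.B6

section

variable {L : Type} [Field L] [NumberField L]

variable (L) in
/-- The ideals of given norm. -/
noncomputable def a2S (k : ℕ) : Finset (Ideal (𝓞 L)) :=
  (Ideal.finite_setOfPred_absNorm_eq k).toFinset

theorem mem_a2S {k : ℕ} {I : Ideal (𝓞 L)} : I ∈ a2S L k ↔ Ideal.absNorm I = k :=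
  Set.Finite.mem_toFinset _

theorem a2_card (k : ℕ) :
    Nat.card {I : Ideal (𝓞 L) // Ideal.absNorm I = k} = (a2S L k).card :=
  Nat.subtype_card _ fun _ => mem_a2S

theorem a2_dvd (J : Ideal (𝓞 L)) {k : ℕ} (hk : k ≠ 0) :
    ((a2S L k).filter (J ∣ ·)).card =
      if Ideal.absNorm J ∣ k then (a2S L (k / Ideal.absNorm J)).card else 0 := by
  split_ifs with h
  · obtain ⟨m, rfl⟩ := h
    have hn := left_ne_zero_of_mul hk
    have h0 : J ≠ ⊥ := fun h => hn (by rw [h, Ideal.absNorm_bot])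
    rw [Nat.mul_div_cancel_left _ (Nat.pos_of_ne_zero hn)]
    refine (Finset.card_nbij (fun I => J * I) (fun I hI => ?_) (fun I _ I' _ h => ?_)
      (fun I hI => ?_)).symm
    · exact Finset.mem_coe.2 (Finset.mem_filter.2 ⟨mem_a2S.2 (by
        rw [map_mul, mem_a2S.1 (Finset.mem_coe.1 hI)]), dvd_mul_right _ _⟩)
    · exact mul_left_cancel₀ h0 h
    · obtain ⟨h1, I, rfl⟩ := Finset.mem_filter.1 (Finset.mem_coe.1 hI)
      rw [mem_a2S, map_mul] at h1
      exact ⟨I, Finset.mem_coe.2 (mem_a2S.2 (mul_left_cancel₀ hn h1)), rfl⟩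
  · refine Finset.card_eq_zero.2 (Finset.filter_eq_empty_iff.2 fun I hI e => h ?_)
    exact mem_a2S.1 hI ▸ map_dvd Ideal.absNorm e

theorem a2_sieve {p k : ℕ} {S : Finset (Ideal (𝓞 L))} (hp : p.Prime) (hk : k ≠ 0) (hpk : p ∣ k)
    (hS : ∀ P, P ∈ S ↔ P.IsMaximal ∧ (p : 𝓞 L) ∈ P) :
    ∑ U ∈ S.powerset, (-1 : ℤ) ^ U.card * (if ∏ P ∈ U, Ideal.absNorm P ∣ k then
      (Nat.card {I : Ideal (𝓞 L) // Ideal.absNorm I = k / ∏ P ∈ U, Ideal.absNorm P} : ℤ)
        else 0) = 0 := by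
  have h1 : ∀ U ∈ S.powerset, (-1 : ℤ) ^ U.card * (if ∏ P ∈ U, Ideal.absNorm P ∣ k then
      (Nat.card {I : Ideal (𝓞 L) // Ideal.absNorm I = k / ∏ P ∈ U, Ideal.absNorm P} : ℤ)
        else 0) = ∑ I ∈ a2S L k, if U ⊆ S.filter (· ∣ I) then (-1 : ℤ) ^ U.card else 0 := by
    intro U hU
    rw [Finset.mem_powerset] at hU
    have e := congrArg (Nat.cast : ℕ → ℤ) (a2_dvd (∏ P ∈ U, P) hk)
    rw [map_prod, Nat.cast_ite, Nat.cast_zero] at e
    rw [a2_card, ← e, ← Finset.sum_filter, Finset.sum_const, nsmul_eq_mul, mul_comm]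
    refine congrArg (fun T : Finset (Ideal (𝓞 L)) => (T.card : ℤ) * (-1) ^ U.card) ?_
    refine Finset.filter_congr fun I _ => ⟨fun h P hP => Finset.mem_filter.2
      ⟨hU hP, (Finset.dvd_prod_of_mem (fun P => P) hP).trans h⟩, fun h => ?_⟩
    refine Finset.prod_dvd_of_coprime (s := fun P : Ideal (𝓞 L) => P) (fun P hP Q hQ n => ?_)
      fun P hP => (Finset.mem_filter.1 (h hP)).2
    exact Ideal.isCoprime_iff_sup_eq.2
      (((hS P).1 (hU hP)).1.coprime_of_ne ((hS Q).1 (hU hQ)).1 n)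
  rw [Finset.sum_congr rfl h1, Finset.sum_comm]
  refine Finset.sum_eq_zero fun I hI => ?_
  obtain ⟨R, hR, k1, k2⟩ := Ideal.exists_isMaximal_dvd_of_dvd_absNorm' hp I
    (mem_a2S.1 hI ▸ hpk)
  have k3 : (p : 𝓞 L) ∈ R := by
    have : (p : ℤ) ∈ R.under ℤ := k1 ▸ Ideal.mem_span_singleton_self _
    simpa using Ideal.mem_comap.1 this
  rw [← Finset.sum_filter, show S.powerset.filter (· ⊆ S.filter (· ∣ I)) =
    (S.filter (· ∣ I)).powerset from Finset.ext fun U => by
      rw [Finset.mem_filter, Finset.mem_powerset, Finset.mem_powerset]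
      exact and_iff_right_of_imp fun h => h.trans (Finset.filter_subset _ _)]
  exact Finset.sum_powerset_neg_one_pow_card_of_nonempty
    ⟨R, Finset.mem_filter.2 ⟨(hS R).2 ⟨hR, k3⟩, k2⟩⟩

end

section

open ArithmeticFunction

/-- The indicator function of one number. -/
def a2d (q : ℕ) : ArithmeticFunction ℤ := ⟨fun k => if k ≠ 0 ∧ k = q then 1 else 0, by simp⟩

theorem a2d_apply (q k : ℕ) : a2d q k = if k ≠ 0 ∧ k = q then 1 else 0 := rfl

theorem a2d_mul (q : ℕ) (f : ArithmeticFunction ℤ) (k : ℕ) :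
    (a2d q * f) k = if q ∣ k then f (k / q) else 0 := by
  rcases eq_or_ne k 0 with rfl | hk
  · simp
  rw [mul_apply, Nat.sum_divisorsAntidiagonal (f := fun a b => a2d q a * f b)]
  rw [Finset.sum_congr rfl (g := fun d => if d = q then f (k / q) else 0) fun d hd => ?_,
    Finset.sum_ite_eq']
  · simp [hk]
  · have := (Nat.pos_of_mem_divisors hd).ne'
    rw [a2d_apply]
    split_ifs with a b b
    · rw [b, one_mul]
    · exact absurd a.2 b
    · exact absurd ⟨this, b⟩ a
    · rw [zero_mul]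

theorem a2d_one : a2d 1 = 1 := by
  ext k
  rw [a2d_apply, one_apply]
  exact if_congr (and_iff_right_of_imp fun h => h ▸ one_ne_zero) rfl rfl

theorem a2d_mul_a2d (q r : ℕ) : a2d (q * r) = a2d q * a2d r := by
  ext k
  rw [a2d_mul, a2d_apply, a2d_apply]
  rcases eq_or_ne k 0 with rfl | hk
  · simp
  by_cases h : q ∣ k
  · obtain ⟨m, rfl⟩ := h
    have hq := left_ne_zero_of_mul hk
    rw [if_pos (dvd_mul_right _ _), Nat.mul_div_cancel_left _ (Nat.pos_of_ne_zero hq)]
    exact if_congr (and_congr (iff_of_true hk (right_ne_zero_of_mul hk))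
      (mul_right_inj' hq)) rfl rfl
  · rw [if_neg h, if_neg fun e : k ≠ 0 ∧ k = q * r => h (e.2 ▸ dvd_mul_right _ _)]

theorem a2d_pow (q n : ℕ) : a2d (q ^ n) = a2d q ^ n := by
  induction n with
  | zero => rw [pow_zero, pow_zero, a2d_one]
  | succ n ih => rw [pow_succ, pow_succ, a2d_mul_a2d, ih]

theorem a2d_prod {ι : Type} (U : Finset ι) (N : ι → ℕ) :
    a2d (∏ i ∈ U, N i) = ∏ i ∈ U, a2d (N i) := by
  induction U using Finset.induction_on with
  | empty => simpa using a2d_one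
  | insert a s h ih => rw [Finset.prod_insert h, Finset.prod_insert h, a2d_mul_a2d, ih]

/-- Evaluation of an arithmetic function. -/
def a2e (k : ℕ) : ArithmeticFunction ℤ →+ ℤ := ⟨⟨fun f => f k, rfl⟩, fun _ _ => rfl⟩

theorem a2_exp {ι : Type} (S : Finset ι) (N : ι → ℕ) (f : ArithmeticFunction ℤ) (k : ℕ) :
    ((∏ i ∈ S, (1 - a2d (N i))) * f) k = ∑ U ∈ S.powerset, (-1 : ℤ) ^ U.card *
      if ∏ i ∈ U, N i ∣ k then f (k / ∏ i ∈ U, N i) else 0 := by
  simp only [sub_eq_add_neg]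
  rw [Finset.prod_one_add, Finset.sum_mul]
  refine (map_sum (a2e k) _ _).trans (Finset.sum_congr rfl fun U _ => ?_)
  rw [Finset.prod_neg, ← a2d_prod, ← a2d_mul]
  refine Eq.trans (congrArg _ ?_) (map_zsmul (a2e k) ((-1 : ℤ) ^ U.card) (a2d (∏ i ∈ U, N i) * f))
  rw [zsmul_eq_mul, mul_assoc]
  push_cast
  rfl

/-- The function vanishes at the multiples of `p`. -/
def A2v (p : ℕ) (f : ArithmeticFunction ℤ) : Prop := ∀ k, p ∣ k → f k = 0

theorem A2v.mul {p : ℕ} (hp : p.Prime) {f g : ArithmeticFunction ℤ} (hf : A2v p f)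
    (hg : A2v p g) : A2v p (f * g) := fun k hk => by
  rw [mul_apply]
  refine Finset.sum_eq_zero fun x hx => ?_
  rw [← (Nat.mem_divisorsAntidiagonal.1 hx).1] at hk
  rcases hp.dvd_mul.1 hk with h | h
  · rw [hf _ h, zero_mul]
  · rw [hg _ h, mul_zero]

theorem a2v_zeta {p : ℕ} (hp : p.Prime) : A2v p ((1 - a2d p) * (zeta : ArithmeticFunction ℤ)) := by
  rintro _ ⟨m, rfl⟩
  rcases eq_or_ne m 0 with rfl | hm
  · simp
  rw [sub_mul, one_mul]
  refine (map_sub (a2e _) _ _).trans ?_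
  change (zeta : ArithmeticFunction ℤ) (p * m) - (a2d p * zeta) (p * m) = 0
  rw [a2d_mul, if_pos (dvd_mul_right _ _), Nat.mul_div_cancel_left _ hp.pos]
  simp [natCoe_apply, hm, hp.ne_zero]

theorem a2v_rec {p : ℕ} (hp : p.Prime) {f : ArithmeticFunction ℤ} {a b : ℤ}
    (h : ∀ k, k ≠ 0 → f (p * k) = a * f k - b * if p ∣ k then f (k / p) else 0) :
    A2v p ((1 - a * a2d p + b * a2d p ^ 2) * f) := by
  rintro _ ⟨m, rfl⟩
  rcases eq_or_ne m 0 with rfl | hm
  · simp
  have e : (1 - a * a2d p + b * a2d p ^ 2) * f =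
      f - a • (a2d p * f) + b • (a2d p * (a2d p * f)) := by
    rw [zsmul_eq_mul, zsmul_eq_mul]
    ring
  rw [e]
  refine (map_add (a2e (p * m)) _ _).trans ?_
  rw [map_sub, map_zsmul, map_zsmul]
  change f (p * m) - a * (a2d p * f) (p * m) + b * (a2d p * (a2d p * f)) (p * m) = 0
  rw [a2d_mul, a2d_mul, if_pos (dvd_mul_right _ _), if_pos (dvd_mul_right _ _),
    Nat.mul_div_cancel_left _ hp.pos, a2d_mul, h m hm]
  ring

theorem a2_zero {F : ArithmeticFunction ℤ} (h1 : F 1 = 0)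
    (h : ∀ p : ℕ, p.Prime → ∃ E : ArithmeticFunction ℤ, E 1 = 1 ∧ A2v p (E * F)) (k : ℕ) :
    F k = 0 := by
  induction k using Nat.strong_induction_on with
  | _ k ih =>
    rcases eq_or_ne k 0 with rfl | h0
    · exact map_zero
    rcases eq_or_ne k 1 with rfl | hk
    · exact h1
    obtain ⟨p, hp, hpk⟩ := Nat.exists_prime_and_dvd hk
    obtain ⟨E, e1, e2⟩ := h p hp
    have e := e2 k hpk
    rw [mul_apply, Nat.sum_divisorsAntidiagonal' (f := fun a b => E a * F b),
      Finset.sum_eq_single_of_mem k (Nat.mem_divisors_self k h0) fun d hd n => by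
        rw [ih d (lt_of_le_of_ne (Nat.divisor_le hd) n), mul_zero],
      Nat.div_self (Nat.pos_of_ne_zero h0), e1, one_mul] at e
    exact e

theorem a2_one {ι : Type} (S : Finset ι) (N : ι → ℕ) (h : ∀ i ∈ S, N i ≠ 1) :
    (∏ i ∈ S, (1 - a2d (N i))) 1 = 1 := by
  induction S using Finset.induction_on with
  | empty => simp
  | insert a s n ih =>
    rw [Finset.prod_insert n, mul_apply_one, ih fun i hi => h i (Finset.mem_insert_of_mem hi),
      mul_one]
    refine (map_sub (a2e 1) _ _).trans ?_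
    change (1 : ArithmeticFunction ℤ) 1 - a2d (N a) 1 = 1
    rw [a2d_apply, if_neg fun e => h a (Finset.mem_insert_self _ _) e.2.symm, one_one, sub_zero]

end

theorem a2b_stmt : A2bStmt := fun _ _ _ _ _ _ hp hk hpk hS => a2_sieve hp hk hpk hS

open ArithmeticFunction in
theorem a2_loc [Ce] {g : ℕ → ℤ} (hg : Rec g) {G : ArithmeticFunction ℤ}
    (hG : ∀ k, k ≠ 0 → G k = g k) {p : ℕ} (hp : p.Prime) :
    A2v p (((Tp p).map fun q => 1 - a2d q).prod * (zeta * G)) := by
  have z := a2v_zeta hp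
  by_cases h2 : p = 2
  · subst h2
    rw [Tp, if_pos rfl, Multiset.map_singleton, Multiset.prod_singleton, ← mul_assoc]
    refine z.mul hp fun k hk => ?_
    rcases eq_or_ne k 0 with rfl | h0
    · exact map_zero
    · rw [hG k h0, hg.even k (even_iff_two_dvd.2 hk)]
  have r := z.mul hp (a2v_rec hp (f := G) (a := g p) (b := J(-NN | p)) fun k hk => by
    rw [hG _ (mul_ne_zero hp.ne_zero hk), hG k hk, hg.mul p k hp h2 hk]
    split_ifs with h
    · rw [hG _ (Nat.div_ne_zero_iff.2 ⟨hp.ne_zero, Nat.le_of_dvd (Nat.pos_of_ne_zero hk) h⟩)]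
    · rfl)
  rw [mul_mul_mul_comm] at r
  convert r using 2
  rw [Tp, if_neg h2, hg.val p hp h2]
  have := Fact.mk hp
  split_ifs with a b c
  · have : J(-NN | p) = 0 := jacobiSym.eq_zero_iff.2 ⟨hp.ne_zero, by
      rw [Int.neg_gcd, Int.gcd_natCast_natCast, Nat.gcd_eq_right a]
      exact hp.ne_one⟩
    rw [this]
    simp only [Multiset.insert_eq_cons, Multiset.map_cons, Multiset.prod_cons,
      Multiset.map_singleton, Multiset.prod_singleton]
    push_cast
    ring
  · rw [b]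
    simp only [Multiset.insert_eq_cons, Multiset.map_cons, Multiset.prod_cons,
      Multiset.map_singleton, Multiset.prod_singleton, a2d_pow]
    push_cast
    ring
  all_goals
    have : J(-NN | p) = 1 := (jacobiSym.eq_one_or_neg_one (by
      rw [Int.neg_gcd, Int.gcd_natCast_natCast]
      exact ((Nat.Prime.coprime_iff_not_dvd hp).2 a).symm)).resolve_right b
    rw [this]
    simp only [Multiset.insert_eq_cons, Multiset.map_cons, Multiset.prod_cons,
      Multiset.map_singleton, Multiset.prod_singleton, a2d_pow]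
    push_cast
    ring

open ArithmeticFunction in
theorem a2_stmt (a3 : A3Stmt) (a : A2aStmt) (b : A2bStmt) : A2Stmt := by
  intro _ g L _ _ θ hg hL k hk
  let G : ArithmeticFunction ℤ := ⟨fun k => if k = 0 then 0 else g k, if_pos rfl⟩
  let C : ArithmeticFunction ℤ := ⟨fun k => if k = 0 then 0 else
    (Nat.card {I : Ideal (𝓞 L) // Ideal.absNorm I = k} : ℤ), if_pos rfl⟩
  have hG : ∀ k, k ≠ 0 → G k = g k := fun k h => if_neg h
  have hC : ∀ k, k ≠ 0 → C k = Nat.card {I : Ideal (𝓞 L) // Ideal.absNorm I = k} :=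
    fun k h => if_neg h
  have hZ : ∀ k, (zeta * G : ArithmeticFunction ℤ) k = ∑ d ∈ k.divisors, g d := fun k => by
    rw [coe_zeta_mul_apply]
    exact Finset.sum_congr rfl fun d hd => hG d (Nat.pos_of_mem_divisors hd).ne'
  have key := a2_zero (F := C - zeta * G) ?_ (fun p hp => ?_) k
  · rw [← hC k hk, ← hZ]
    exact sub_eq_zero.1 ((map_sub (a2e k) _ _).symm.trans key)
  · refine (map_sub (a2e 1) _ _).trans (sub_eq_zero.2 ?_)
    change C 1 = (zeta * G : ArithmeticFunction ℤ) 1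
    rw [hC 1 one_ne_zero, hZ, a2_card, show a2S L 1 = {⊤} from Finset.ext fun I => by
      rw [mem_a2S, Ideal.absNorm_eq_one_iff, Finset.mem_singleton]]
    simp [hg.one]
  obtain ⟨S, hS, hT⟩ := a a3 L θ hL p hp
  refine ⟨∏ P ∈ S, (1 - a2d (Ideal.absNorm P)), a2_one S _ fun P hP e =>
    ((hS P).1 hP).1.ne_top (Ideal.absNorm_eq_one_iff.1 e), fun m hm => ?_⟩
  rcases eq_or_ne m 0 with rfl | h0
  · exact map_zero
  rw [mul_sub]
  refine (map_sub (a2e m) _ _).trans (sub_eq_zero.2 (Eq.trans (b := 0) ?_ (Eq.symm ?_)))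
  · refine (a2_exp S _ C m).trans (Eq.trans (Finset.sum_congr rfl fun U _ => ?_)
      (b L p m S hp h0 hm hS))
    split_ifs with h
    · rw [hC _ (Nat.div_ne_zero_iff.2 ⟨ne_zero_of_dvd_ne_zero h0 h,
        Nat.le_of_dvd (Nat.pos_of_ne_zero h0) h⟩)]
    · rfl
  · have := a2_loc hg hG hp m hm
    rw [← hT, Multiset.map_map] at this
    exact this

end Pool.Agent.B8
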