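import Pool.Agent.Lib.MP_696deb_nt.B8.ZB

/-! The discriminant of the cubic field. -/

set_option autoImplicit false

open NumberField Polynomial
open scoped Classical

namespace Pool.Agent.B8

section
variable {L : Type} [Field L] [NumberField L]

/-- The traces of a generator of a cubic field and of its square. -/
theorem a3_tr (h3 : Module.finrank ℚ L = 3) {θ : L} {A B C : ℚ}
    (hθ : θ ^ 3 + A * θ ^ 2 + B * θ + C = 0) (hq : ∀ x : ℚ, (x : L) ≠ θ) :
    Algebra.trace ℚ L θ = -A ∧ Algebra.trace ℚ L (θ ^ 2) = A ^ 2 - 2 * B := by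
  have hint : IsIntegral ℚ θ := Algebra.IsIntegral.isIntegral θ
  have hdeg : (minpoly ℚ θ).natDegree = 3 := by
    have h1 := minpoly.degree_dvd hint
    rw [h3] at h1
    rcases (Nat.dvd_prime Nat.prime_three).1 h1 with h | h
    · obtain ⟨x, hx⟩ := minpoly.natDegree_eq_one_iff.1 h
      exact absurd hx (hq x)
    · exact h
  have li := linearIndependent_pow (K := ℚ) θ
  rw [hdeg] at li
  let b := basisOfLinearIndependentOfCardEqFinrank li (by rw [h3]; rfl)
  have hb : ∀ i : Fin 3, b i = θ ^ (i : ℕ) := fun i =>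
    congrFun (coe_basisOfLinearIndependentOfCardEqFinrank li _) i
  have b0 : b 0 = 1 := by rw [hb]; simp
  have b1 : b 1 = θ := by rw [hb]; simp
  have b2 : b 2 = θ ^ 2 := by rw [hb]; rfl
  have hr : ∀ x y z : ℚ, ∀ w : L, w = x + y * θ + z * θ ^ 2 →
      b.repr w 0 = x ∧ b.repr w 1 = y ∧ b.repr w 2 = z := by
    intro x y z w hw
    have : w = x • b 0 + y • b 1 + z • b 2 := by
      rw [hw, b0, b1, b2]; simp [Rat.smul_def]
    rw [this]
    simp
  constructor
  · rw [Algebra.trace_eq_matrix_trace b, Matrix.trace_fin_three]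
    simp only [Algebra.leftMulMatrix_eq_repr_mul]
    rw [(hr 0 1 0 (θ * b 0) (by rw [b0]; simp)).1, (hr 0 0 1 (θ * b 1) (by rw [b1]; simp [pow_two])).2.1,
      (hr (-C) (-B) (-A) (θ * b 2) (by rw [b2]; push_cast; linear_combination hθ)).2.2]
    ring
  · rw [Algebra.trace_eq_matrix_trace b, Matrix.trace_fin_three]
    simp only [Algebra.leftMulMatrix_eq_repr_mul]
    rw [(hr 0 0 1 (θ ^ 2 * b 0) (by rw [b0]; simp)).1,
      (hr (-C) (-B) (-A) (θ ^ 2 * b 1) (by rw [b1]; push_cast; linear_combination hθ)).2.1,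
      (hr (A * C) (A * B - C) (A ^ 2 - B) (θ ^ 2 * b 2)
        (by rw [b2]; push_cast; linear_combination (θ - A) * hθ)).2.2]
    ring

/-- The discriminant of the powers of an integral generator of a cubic field. -/
theorem a3_disc (h3 : Module.finrank ℚ L = 3) {t : 𝓞 L} {A B C : ℤ}
    (ht : t ^ 3 + A * t ^ 2 + B * t + C = 0) (hq : ∀ x : ℚ, (x : L) ≠ t) :
    Algebra.discr ℤ ![1, t, t ^ 2] =
      A ^ 2 * B ^ 2 - 4 * B ^ 3 - 4 * A ^ 3 * C - 27 * C ^ 2 + 18 * A * B * C := by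
  have hθ : (t : L) ^ 3 + (A : ℚ) * (t : L) ^ 2 + (B : ℚ) * (t : L) + (C : ℚ) = 0 := by
    have := congrArg (algebraMap (𝓞 L) L) ht
    simpa using this
  obtain ⟨h1, h2⟩ := a3_tr h3 hθ hq
  have t0 : Algebra.trace ℤ (𝓞 L) 1 = 3 := by
    have := Algebra.trace_algebraMap (R := ℤ) (S := 𝓞 L) 1
    rw [map_one, RingOfIntegers.rank, h3] at this
    simpa using this
  have t1 : Algebra.trace ℤ (𝓞 L) t = -A := by
    rw [← Int.cast_inj (α := ℚ), Algebra.coe_trace_int, h1]; simp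
  have t2 : Algebra.trace ℤ (𝓞 L) (t ^ 2) = A ^ 2 - 2 * B := by
    rw [← Int.cast_inj (α := ℚ), Algebra.coe_trace_int]
    push_cast
    exact h2
  have hl : ∀ x y z : ℤ, ∀ w : 𝓞 L, w = x + y * t + z * t ^ 2 →
      Algebra.trace ℤ (𝓞 L) w = 3 * x - y * A + z * (A ^ 2 - 2 * B) := by
    intro x y z w hw
    have : w = x • (1 : 𝓞 L) + y • t + z • t ^ 2 := by rw [hw]; simp
    rw [this, map_add, map_add, map_smul, map_smul, map_smul, t0, t1, t2]
    simp only [smul_eq_mul]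
    ring
  have t3 := hl (-C) (-B) (-A) (t ^ 2 * t) (by push_cast; linear_combination ht)
  have t4 := hl (A * C) (A * B - C) (A ^ 2 - B) (t ^ 2 * t ^ 2)
    (by push_cast; linear_combination (t - A) * ht)
  rw [Algebra.discr_def, Matrix.det_fin_three]
  simp only [Algebra.traceMatrix_apply, Algebra.traceForm_apply, Matrix.cons_val_zero,
    Matrix.cons_val_one, Matrix.cons_val_two, Matrix.head_cons, Matrix.tail_cons, one_mul, mul_one]
  rw [mul_comm t (t ^ 2), ← pow_two t, t0, t1, t2, t3, t4]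
  ring

/-- An Eisenstein equation at two: the powers of the root are independent modulo two. -/
theorem a3_ind (h3 : Module.finrank ℚ L = 3) {t : 𝓞 L} {A B C : ℤ} (hC : Odd C)
    (ht : t ^ 3 + 2 * A * t ^ 2 + 2 * B * t + 2 * C = 0) {x y z : ℤ} {w : 𝓞 L}
    (hw : x + y * t + z * t ^ 2 = 2 * w) : Even x ∧ Even y ∧ Even z := by
  have t0 : Algebra.trace ℤ (𝓞 L) 1 = 3 := by
    have := Algebra.trace_algebraMap (R := ℤ) (S := 𝓞 L) 1
    rw [map_one, RingOfIntegers.rank, h3] at this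
    simpa using this
  have key : ∀ (a : ℤ) (v : 𝓞 L), a * t ^ 2 = 2 * v → Even a := by
    intro a v hv
    refine Int.not_odd_iff_even.1 fun ⟨k, hk⟩ => ?_
    obtain ⟨c, hc⟩ := hC
    rw [hk] at hv
    rw [hc] at ht
    push_cast at hv ht
    have h1 : t ^ 2 = 2 * (v - k * t ^ 2) := by linear_combination hv
    have h2 : t * ((v - k * t ^ 2) + A * t + B) = -(2 * c + 1) := by
      refine mul_left_cancel₀ (two_ne_zero (α := 𝓞 L)) ?_
      linear_combination ht - t * h1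
    have h4 : (1 : 𝓞 L) = (2 : ℤ) • ((v - k * t ^ 2) * ((v - k * t ^ 2) + A * t + B) ^ 2 -
        2 * c ^ 2 - 2 * c) := by
      rw [zsmul_eq_mul]
      push_cast
      linear_combination ((v - k * t ^ 2) + A * t + B) ^ 2 * h1 -
        (t * ((v - k * t ^ 2) + A * t + B) - (2 * c + 1)) * h2
    have h5 := congrArg (Algebra.trace ℤ (𝓞 L)) h4
    rw [t0, map_smul, smul_eq_mul] at h5
    omega
  have hx : Even x := key x (w * t ^ 2 + (y + z * t) * (A * t ^ 2 + B * t + C))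
    (by linear_combination t ^ 2 * hw - (y + z * t) * ht)
  obtain ⟨a, ha⟩ := hx
  have hy : Even y := key y (w * t - a * t + z * (A * t ^ 2 + B * t + C))
    (by rw [ha] at hw; push_cast at hw; linear_combination t * hw - z * ht)
  obtain ⟨b, hb⟩ := hy
  have hz : Even z := key z (w - a - b * t)
    (by rw [ha, hb] at hw; push_cast at hw; linear_combination hw)
  exact ⟨⟨a, ha⟩, ⟨b, hb⟩, hz⟩

theorem a3_gen (h3 : Module.finrank ℚ L = 3) {t : 𝓞 L} {A B C : ℤ} (hC : Odd C)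
    (ht : t ^ 3 + 2 * A * t ^ 2 + 2 * B * t + 2 * C = 0) :
    ∃ i : ℕ, Odd i ∧ discr L * i ^ 2 = Algebra.discr ℤ ![1, t, t ^ 2] := by
  let b := Module.finBasisOfFinrankEq ℤ (𝓞 L) ((RingOfIntegers.rank L).trans h3)
  let v : Fin 3 → 𝓞 L := ![1, t, t ^ 2]
  let P : Matrix (Fin 3) (Fin 3) ℤ := Matrix.of fun i j => b.repr (v i) j
  have hP : ∀ i, v i = ∑ j, P i j • b j := fun i => (b.sum_repr (v i)).symm
  have h1 : v = (P.map (algebraMap ℤ (𝓞 L))).mulVec b := by
    ext1 i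
    rw [hP i]
    simp [Matrix.mulVec, dotProduct]
  have h2 : Algebra.discr ℤ v = P.det ^ 2 * discr L := by
    rw [h1, Algebra.discr_of_matrix_mulVec, discr_eq_discr]
  refine ⟨P.det.natAbs, Int.natAbs_odd.2 (Int.not_even_iff_odd.1 fun he => ?_), ?_⟩
  · have h4 : (P.map (Int.castRingHom (ZMod 2))).det = 0 := by
      rw [← RingHom.mapMatrix_apply, ← RingHom.map_det]
      exact (ZMod.intCast_zmod_eq_zero_iff_dvd _ 2).2 (even_iff_two_dvd.1 he)
    obtain ⟨u, hu0, hu⟩ := Matrix.exists_vecMul_eq_zero_iff.2 h4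
    choose c hc using fun i => ZMod.intCast_surjective (u i)
    have h5 : ∀ j, ∃ r : ℤ, ∑ i, c i * P i j = 2 * r := fun j => by
      refine (ZMod.intCast_zmod_eq_zero_iff_dvd _ 2).1 ?_
      have := congrFun hu j
      simpa [Matrix.vecMul, dotProduct, hc] using this
    choose r hr using h5
    have h6 : ∑ i, c i • v i = 2 * ∑ j, r j • b j := by
      simp only [hP, Finset.smul_sum, smul_smul]
      rw [Finset.sum_comm, Finset.mul_sum]
      refine Finset.sum_congr rfl fun j _ => ?_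
      rw [← Finset.sum_smul, hr, mul_smul]
      simp
    have h7 : (c 0 : 𝓞 L) + c 1 * t + c 2 * t ^ 2 = 2 * ∑ j, r j • b j := by
      rw [← h6, Fin.sum_univ_three]
      simp [v]
    obtain ⟨e0, e1, e2⟩ := a3_ind h3 hC ht h7
    have h8 : ∀ i, Even (c i) := fun i => by fin_cases i <;> assumption
    refine hu0 (funext fun i => ?_)
    rw [← hc i]
    exact (ZMod.intCast_zmod_eq_zero_iff_dvd _ 2).2 (even_iff_two_dvd.1 (h8 i))
  · rw [Int.natCast_natAbs, sq_abs, mul_comm, ← h2]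

end

open Pool.Agent.B6 in
theorem a3_stmt : A3Stmt := by
  intro _ L _ _ θ h
  obtain ⟨k, hk⟩ := a1_even
  obtain ⟨c, hc⟩ := a3_odd
  have hb2 : WZ.b₂ = 4 * (k ^ 2 + WZ.a₂) := by rw [WeierstrassCurve.b₂, hk]; ring
  have hb6 : Odd WZ.b₆ := ⟨2 * (c ^ 2 + c + WZ.a₆), by rw [WeierstrassCurve.b₆, hc]; ring⟩
  have hθ : θ ^ 3 + 2 * ((k ^ 2 + WZ.a₂ : ℤ) : L) * θ ^ 2 + 2 * (WZ.b₄ : L) * θ +
      2 * (WZ.b₆ : L) = 0 := by
    have := h.root
    rw [cub, hb2] at this
    push_cast at this ⊢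
    linear_combination 2 * this
  have hint : IsIntegral ℤ θ := by
    refine ⟨X ^ 3 + (C (2 * (k ^ 2 + WZ.a₂)) * X ^ 2 + C (2 * WZ.b₄) * X + C (2 * WZ.b₆)),
      monic_X_pow_add (lt_of_le_of_lt degree_quadratic_le (by decide)), ?_⟩
    simp only [eval₂_add, eval₂_mul, eval₂_pow, eval₂_X, eval₂_C]
    simp only [algebraMap_int_eq, eq_intCast]
    push_cast at hθ ⊢
    linear_combination hθ
  let t : 𝓞 L := ⟨θ, hint⟩
  have ht : t ^ 3 + 2 * ((k ^ 2 + WZ.a₂ : ℤ) : 𝓞 L) * t ^ 2 + 2 * (WZ.b₄ : 𝓞 L) * t +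
      2 * (WZ.b₆ : 𝓞 L) = 0 := by
    apply IsFractionRing.injective (𝓞 L) L
    simp only [map_add, map_mul, map_pow, map_intCast, map_ofNat, map_zero]
    exact hθ
  have hq : ∀ x : ℚ, (x : L) ≠ t := fun x hx => by
    refine cub_irr (x / 2) ((algebraMap ℚ L).injective ?_)
    rw [map_cub, map_zero, map_div₀, map_ofNat, eq_ratCast, hx]
    exact h.root
  obtain ⟨i, hi, hd⟩ := a3_gen h.rank hb6 ht
  refine ⟨i, hi, ?_⟩
  rw [hd, a3_disc (A := 2 * (k ^ 2 + WZ.a₂)) (B := 2 * WZ.b₄) (C := 2 * WZ.b₆) h.rank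
    (by push_cast at ht ⊢; linear_combination ht) hq, WeierstrassCurve.Δ]
  have h8 := WZ.b_relation
  rw [hb2] at h8 ⊢
  linear_combination (4 * (k ^ 2 + WZ.a₂)) ^ 2 * h8

end Pool.Agent.B8
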