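import Pool.Agent.Lib.MP_696deb_nt.B8.ZB

/-! The places and the units of a complex cubic field. -/

set_option autoImplicit false

open NumberField NumberField.Units Real
open scoped Classical

namespace Pool.Agent.B8

variable {L : Type} [Field L] [NumberField L]

theorem a4_places (h3 : Module.finrank ℚ L = 3) (h0 : discr L < 0) :
    InfinitePlace.nrRealPlaces L = 1 ∧ InfinitePlace.nrComplexPlaces L = 1 := by
  have h1 := InfinitePlace.card_add_two_mul_card_eq_rank L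
  have h2 := sign_discr L
  rw [h3] at h1
  rw [Int.sign_eq_neg_one_of_neg h0] at h2
  have h4 : InfinitePlace.nrComplexPlaces L ≠ 0 := fun e => by rw [e] at h2; norm_num at h2
  omega

/-- The fundamental unit of a complex cubic field. -/
theorem a4_fund (h3 : Module.finrank ℚ L = 3) (h0 : discr L < 0) (ι : L →+* ℂ)
    (hι : ∀ x, (ι x).im = 0) : ∃ ε : (𝓞 L)ˣ,
    log ‖ι (ε : 𝓞 L)‖ = regulator L ∧ ∀ u : (𝓞 L)ˣ, ∃ k : ℤ, u = ε ^ k ∨ u = -ε ^ k := by
  obtain ⟨h1, h2⟩ := a4_places h3 h0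
  have hodd : Odd (Module.finrank ℚ L) := by rw [h3]; decide
  have hc : Fintype.card (InfinitePlace L) = 2 := by
    rw [InfinitePlace.card_eq_nrRealPlaces_add_nrComplexPlaces, h1, h2]
  have h4 : Units.rank L = 1 := by rw [Units.rank, hc]
  obtain ⟨w', hw'⟩ := Fintype.exists_ne_of_one_lt_card (by omega) (InfinitePlace.mk ι)
  have hc' : Fintype.card {w : InfinitePlace L // w ≠ w'} = 1 := by
    rw [Fintype.card_subtype_compl, Fintype.card_subtype_eq, hc]
  have hs : Subsingleton {w : InfinitePlace L // w ≠ w'} :=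
    Fintype.card_le_one_iff_subsingleton.1 hc'.le
  have hs' : Subsingleton (Fin (Units.rank L)) := by rw [h4]; infer_instance
  let e : {w : InfinitePlace L // w ≠ w'} ≃ Fin (Units.rank L) :=
    Fintype.equivOfCardEq (by rw [hc', Fintype.card_fin, h4])
  let w : {w : InfinitePlace L // w ≠ w'} := ⟨InfinitePlace.mk ι, hw'.symm⟩
  have hr : (InfinitePlace.mk ι).IsReal := by
    rw [InfinitePlace.isReal_mk_iff, ComplexEmbedding.isReal_iff]
    ext x
    rw [ComplexEmbedding.conjugate_coe_eq]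
    exact Complex.conj_eq_iff_im.2 (hι x)
  have hreg : regulator L = |log ‖ι (fundSystem L (e w) : 𝓞 L)‖| := by
    rw [regulator_eq_det L w' e, Matrix.det_eq_elem_of_subsingleton _ w, Matrix.of_apply,
      hr.mult_eq_one, Nat.cast_one, one_mul]
    rfl
  have hu : ∀ u : (𝓞 L)ˣ, ∃ k : ℤ, u = fundSystem L (e w) ^ k ∨ u = -fundSystem L (e w) ^ k := by
    intro u
    obtain ⟨⟨ζ, f⟩, hf, -⟩ := exist_unique_eq_mul_prod L u
    refine ⟨f (e w), ?_⟩
    rw [Fintype.prod_subsingleton _ (e w)] at hf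
    rcases torsion_eq_one_or_neg_one_of_odd_finrank hodd ζ with hz | hz
    · left; rw [hf]; simp only [hz, one_mul]
    · right; rw [hf]; simp only [hz, neg_mul, one_mul]
  rcases le_total 0 (log ‖ι (fundSystem L (e w) : 𝓞 L)‖) with hp | hp
  · exact ⟨_, by rw [hreg, abs_of_nonneg hp], hu⟩
  · refine ⟨(fundSystem L (e w))⁻¹, ?_, fun u => ?_⟩
    · rw [hreg, abs_of_nonpos hp, ← log_inv, ← norm_inv, ← map_inv₀]
      congr 3
      simp
    · obtain ⟨k, hk⟩ := hu u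
      exact ⟨-k, by simpa using hk⟩

theorem a4_main (h3 : Module.finrank ℚ L = 3) (h0 : discr L < 0) (ι : L →+* ℂ)
    (hι : ∀ x, (ι x).im = 0) : ∃ ε : (𝓞 L)ˣ,
    log ‖ι (ε : 𝓞 L)‖ = regulator L ∧ ¬ IsSquare ε ∧ ¬ IsSquare (-ε) := by
  obtain ⟨ε, h1, h2⟩ := a4_fund h3 h0 ι hι
  have hR := regulator_pos L
  let φ : (𝓞 L)ˣ →* ℂˣ := Units.map ((ι.comp (algebraMap (𝓞 L) L)) : 𝓞 L →* ℂ)
  have hφ : ∀ u : (𝓞 L)ˣ, ((φ u : ℂˣ) : ℂ) = ι (u : 𝓞 L) := fun u => rfl
  have key : ∀ u : (𝓞 L)ˣ, ‖ι (ε : 𝓞 L)‖ ≠ ‖ι ((u * u : (𝓞 L)ˣ) : 𝓞 L)‖ := by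
    intro u hu
    obtain ⟨k, hk⟩ := h2 u
    have e : u * u = ε ^ (2 * k) := by
      rcases hk with hk | hk <;> rw [hk, two_mul, zpow_add]
      exact neg_mul_neg _ _
    rw [e, ← hφ (ε ^ (2 * k)), map_zpow, Units.val_zpow_eq_zpow_val, norm_zpow, hφ] at hu
    have h4 := congrArg log hu
    rw [log_zpow, h1] at h4
    have h5 : ((2 * k : ℤ) : ℝ) = 1 := mul_right_cancel₀ hR.ne' (by rw [← h4, one_mul])
    have h6 : 2 * k = 1 := by exact_mod_cast h5
    omega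
  refine ⟨ε, h1, fun ⟨u, hu⟩ => key u (by rw [← hu]), fun ⟨u, hu⟩ => key u ?_⟩
  rw [← hu]
  simp

theorem a4_stmt : A4Stmt := fun L _ _ h3 h0 =>
  ⟨(a4_places h3 h0).1, (a4_places h3 h0).2,
    torsionOrder_eq_two_of_odd_finrank (by rw [h3]; decide), a4_main h3 h0⟩

end Pool.Agent.B8
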