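import Pool.Agent.Lib.MP_696deb_nt.B8.ZB

/-! The limit formula of Kronecker for the cubic character. -/

set_option autoImplicit false

open NumberField Filter Topology Real
open scoped Classical

namespace Pool.Agent.B8
open Pool.Agent.Lib.MP_696deb_nt Pool.Agent.Lib.MP_696deb_nt.B2 Pool.Agent.Lib.MP_696deb_nt.B2.CM
  Pool.Agent.B6 Pool.Agent.B4 Pool.Agent.H3.T

theorem kr_bw {G : Type} [Group G] [Fintype G] (ψ : G →* Z3) {y : G} (hy : ψ y ≠ 1) :
    ∑ x, bw (ψ x) = 0 := by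
  have h : ∀ a b : Z3, a ≠ 1 → bw b + bw (a * b) + bw (a * a * b) = 0 := by decide
  have h1 := Fintype.sum_equiv (Equiv.mulLeft y) (fun x => bw (ψ y * ψ x)) (fun x => bw (ψ x))
    fun x => by simp
  have h2 := Fintype.sum_equiv (Equiv.mulLeft (y * y)) (fun x => bw (ψ y * ψ y * ψ x))
    (fun x => bw (ψ x)) fun x => by simp [mul_assoc]
  have h3 : ∑ x, (bw (ψ x) + bw (ψ y * ψ x) + bw (ψ y * ψ y * ψ x)) = 0 :=
    Finset.sum_eq_zero fun x _ => h _ _ hy
  rw [Finset.sum_add_distrib, Finset.sum_add_distrib, h1, h2] at h3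
  omega

theorem kr_has {g : ℕ → ℤ} {s A : ℝ} (hs : 1 < s)
    (h : HasSum (fun k : ℕ => (g k : ℝ) * (k : ℝ) ^ (-s)) A) :
    LSeriesHasSum (fun k => (g k : ℂ)) s A := by
  have h0 : -s ≠ 0 := by linarith
  rw [← Complex.hasSum_ofReal] at h
  unfold LSeriesHasSum
  convert h using 2 with k
  rcases eq_or_ne k 0 with rfl | hk
  · simp [zero_rpow h0]
  · rw [LSeries.term_of_ne_zero hk]
    push_cast
    rw [Complex.ofReal_cpow (by positivity), div_eq_mul_inv, ← Complex.cpow_neg]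
    simp

theorem kr_lim (L : Type) [Field L] [NumberField L] {g : ℕ → ℤ} {F : ℝ → ℝ}
    (hc : ∀ k : ℕ, k ≠ 0 →
      (Nat.card {I : Ideal (𝓞 L) // Ideal.absNorm I = k} : ℤ) = ∑ d ∈ k.divisors, g d)
    (h : ∀ s : ℝ, 1 < s → HasSum (fun k : ℕ => (g k : ℝ) * (k : ℝ) ^ (-s)) (F s)) :
    Tendsto F (𝓝[>] 1) (𝓝 (dedekindZeta_residue L)) := by
  have h1 : ∀ s : ℝ, 1 < s → dedekindZeta L s = (F s * ∑' n : ℕ, 1 / (n : ℝ) ^ s : ℝ) := by
    intro s hs
    have a1 : HasSum (fun k : ℕ => (((fun _ => 1 : ℕ → ℤ) k : ℤ) : ℝ) * (k : ℝ) ^ (-s))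
        (∑' n : ℕ, 1 / (n : ℝ) ^ s) := by
      convert (Real.summable_one_div_nat_rpow.2 hs).hasSum using 2 with k
      rw [Int.cast_one, one_mul, Real.rpow_neg k.cast_nonneg, one_div]
    rw [Complex.ofReal_mul, ← ((kr_has hs (h s hs)).convolution (kr_has hs a1)).LSeries_eq,
      dedekindZeta]
    refine LSeries_congr (fun {k} hk => ?_) _
    have a2 := congrArg (Int.cast (R := ℂ)) (hc k hk)
    rw [Int.cast_natCast] at a2
    rw [a2, LSeries.convolution_def]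
    simp only [Int.cast_one, mul_one]
    rw [Nat.sum_divisorsAntidiagonal fun a _ => (g a : ℂ), Int.cast_sum]
  have h2 : Tendsto (fun s : ℝ => (s - 1) * (F s * ∑' n : ℕ, 1 / (n : ℝ) ^ s)) (𝓝[>] 1)
      (𝓝 (dedekindZeta_residue L)) := by
    have a1 := (Complex.continuous_re.tendsto _).comp (tendsto_sub_one_mul_dedekindZeta_nhdsGT L)
    rw [Complex.ofReal_re] at a1
    refine a1.congr' ?_
    filter_upwards [self_mem_nhdsWithin] with s hs
    rw [Function.comp_apply, h1 s hs, ← Complex.ofReal_one, ← Complex.ofReal_sub,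
      ← Complex.ofReal_mul, Complex.ofReal_re]
  have h3 := h2.div tendsto_sub_mul_tsum_nat_rpow one_ne_zero
  rw [div_one] at h3
  refine h3.congr' ?_
  filter_upwards [tendsto_sub_mul_tsum_nat_rpow.eventually_ne one_ne_zero] with s h4
  rw [Pi.div_apply, div_eq_iff h4]
  ring

theorem kr_total {n : ℕ} [Fintype (Pc n 2)] (hn : Nk n) (ψ : Pc n 2 →* Z3) {g : ℕ → ℤ}
    (hg : ∀ k, gS ψ k = 2 * g k) {t : Pc n 2 → ℂ} (ht : ∀ x, Rp n 2 (t x) x) {s : ℝ}
    (hs : 1 < s) : HasSum (fun k : ℕ => (g k : ℝ) * (k : ℝ) ^ (-s))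
      ((∑ x, (bw (ψ x) : ℝ) * Ez (t x) s) / (2 * √n ^ s)) := by
  have h0 : 0 < √n := sqrt_pos.2 (Nat.cast_pos.2 (by have := hn.gt; omega))
  have h1 := (hasSum_sum fun x (_ : x ∈ Finset.univ) => (cnt_series (hn.ok two_ne_zero) hn.sqf
    (ht x).pos (ht x).iv hs).mul_left (bw (ψ x) : ℝ)).div_const (2 * √n ^ s)
  refine Eq.mp (congrArg (HasSum · _) (funext fun k => Eq.symm ?_)) h1
  have h2 := congrArg (Int.cast (R := ℝ)) (hg k)
  rw [gS] at h2
  push_cast at h2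
  have h3 : ((2 : ℕ) : ℝ) * √n / 2 = √n := by push_cast; ring
  rw [eq_div_iff (by positivity), h3, Finset.sum_congr rfl fun x _ => by
    rw [(ht x).eq, mul_left_comm, ← mul_assoc (bw (ψ x) : ℝ)], ← Finset.mul_sum, ← Finset.sum_mul,
    h2]
  ring

/-- The limit formula for the cubic character. -/
theorem kr_stmt (a0 : A0Stmt) (a2 : A2Stmt) (a3 : A3Stmt) (a4 : A4Stmt) : KRStmt := by
  intro _ _ ψ L _ _ θ hψ hL
  obtain ⟨g, hg, hr⟩ := a0 ψ hψ
  obtain ⟨i, hi, e⟩ := a3 L θ hL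
  obtain ⟨s, hs, e'⟩ := exists_s
  refine ⟨s, i, hs, hi, fun t ht => ?_⟩
  have N0 : 0 < NN := by have := NN_gt3; omega
  have s0 := hs.pos
  have i0 := hi.pos
  have d0 : discr L < 0 := by
    have h1 : discr L * i ^ 2 < 0 := by
      rw [e, e']
      have : (0 : ℤ) < NN * s ^ 2 := by positivity
      linarith
    exact neg_of_mul_neg_left h1 (by positivity)
  obtain ⟨r1, r2, w, -⟩ := a4 L hL.rank d0
  obtain ⟨y, -, hy⟩ := hψ.ram
  have h2 : ∑ x, (bw (ψ x) : ℝ) = 0 := by exact_mod_cast kr_bw ψ hy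
  have h0 : 0 < √NN := sqrt_pos.2 (Nat.cast_pos.2 N0)
  have h4 : Tendsto (fun u : ℝ => 2 * √NN ^ u) (𝓝[>] 1) (𝓝 (2 * √NN ^ (1 : ℝ))) :=
    ((Real.continuousAt_const_rpow h0.ne').tendsto.mono_left nhdsWithin_le_nhds).const_mul 2
  have h5 := tendsto_nhds_unique ((klf_sum _ t h2 fun x => (ht x).pos).div h4 (by positivity))
    (kr_lim L (a2 g L θ hr hL) fun u hu => kr_total nk ψ hg ht hu)
  have h6 : √|(discr L : ℝ)| = 2 * √NN * s / i := by
    have a1 : (discr L : ℝ) * i ^ 2 = 4 * -(NN * s ^ 2) := by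
      rw [e'] at e
      exact_mod_cast e
    have a2 : (discr L : ℝ) < 0 := by exact_mod_cast d0
    rw [abs_of_neg a2, sqrt_eq_iff_mul_self_eq (by linarith) (by positivity)]
    field_simp
    rw [sq_sqrt (Nat.cast_nonneg _)]
    linear_combination -a1
  rw [dedekindZeta_residue_def, r1, r2, w, h6, rpow_one] at h5
  field_simp at h5
  push_cast at h5
  linear_combination -h5 / 2

end Pool.Agent.B8
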