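import Pool.Agent.Lib.MP_696deb_nt.B8.ZB

/-! The cubic field as a fixed field. -/

set_option autoImplicit false

open NumberField
open scoped Classical NNReal

namespace Pool.Agent.B8
open Pool.Agent.Lib.MP_696deb_nt Pool.Agent.Lib.MP_696deb_nt.B2 Pool.Agent.Lib.MP_696deb_nt.B2.CM
  Pool.Agent.B6 Pool.Agent.B4

theorem lc_trans : ∀ a : Equiv.Perm (Fin 3), Nf a → ∀ i j, i = j ∨ a i = j ∨ (a * a) i = j := by
  decide +kernel

variable [Ce]

theorem lc_orbit : MulAction.orbit Gam e0 = Set.range er := by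
  obtain ⟨σ, hσ⟩ := exists_pr
  obtain ⟨s, hs⟩ := un_three cub_irr
  have hn : Nf (σ s) := fun i e => hs i (by rw [hσ, e])
  ext x
  constructor
  · rintro ⟨g, rfl⟩
    exact ⟨_, (hσ g _).symm⟩
  · rintro ⟨j, rfl⟩
    rcases lc_trans _ hn exists_i0.choose j with e | e | e
    · exact ⟨1, congrArg er e⟩
    · exact ⟨s, (hσ s _).trans (congrArg er e)⟩
    · exact ⟨s * s, (hσ (s * s) _).trans (congrArg er (by rw [map_mul]; exact e))⟩

theorem index_HL : HL.index = 3 := by
  rw [HL, MulAction.index_stabilizer, lc_orbit, Set.ncard_range_of_injective er_inj]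
  simp

theorem cc_mem_HL : cc ∈ HL := cc_e0

theorem e0_mem : 2 * e0 ∈ Lc := by
  refine (IntermediateField.mem_fixedField_iff _ _).2 fun g hg => ?_
  have h : g e0 = e0 := hg
  rw [map_mul, map_ofNat, h]

omit [Ce] in
theorem lc_stmt : LCStmt := by
  intro _
  refine ⟨⟨2 * e0, e0_mem⟩, rfl, ⟨?_, ?_⟩, fun x => ?_⟩
  · rw [finrank_Kf op_HL, index_HL]
  · refine (algebraMap Lc Qbar).injective ?_
    rw [map_cub, map_zero, map_div₀, map_ofNat]
    have : algebraMap Lc Qbar ⟨2 * e0, e0_mem⟩ / 2 = e0 := by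
      change 2 * e0 / 2 = e0
      ring
    rw [this, cub_e0]
  · have h : cc (x : Qbar) = x := fx_Kf x cc cc_mem_HL
    rw [← Complex.conj_eq_iff_im, ← jC_cc, h]

end Pool.Agent.B8
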