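import Pool.Agent.Lib.MP_696deb_nt.B8.ZC

/-! The class number and the units of the cubic field. -/

set_option autoImplicit false

open NumberField Finset
open scoped Classical NNReal

namespace Pool.Agent.B8
open Pool.Agent.Lib.MP_696deb_nt Pool.Agent.Lib.MP_696deb_nt.B2 Pool.Agent.Lib.MP_696deb_nt.B2.CM
  Pool.Agent.B6 Pool.Agent.B4

section
variable {K : Type} [Field K] [NumberField K]

theorem sel_val (V : Valuation (𝓞 K) ℝ≥0) (V1 : ∀ x, V x ≤ 1) {a : 𝓞 K} {I : Ideal (𝓞 K)}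
    (h : Ideal.span {a} = I ^ 2) : ∃ b, V a = V b ^ 2 := by
  have Vm : ∀ x y, V (x * y) ≤ V y := fun x y => by
    rw [map_mul]
    exact mul_le_of_le_one_left' (V1 x)
  let J : ℝ≥0 → Ideal (𝓞 K) := fun r =>
    { carrier := {x | V x ≤ r}
      add_mem' := V.map_add_le
      zero_mem' := (map_zero V).trans_le zero_le
      smul_mem' := fun c x hx => (Vm c x).trans hx }
  obtain ⟨s, rfl⟩ := IsNoetherian.noetherian I
  obtain ⟨b, hb, hm⟩ := exists_max_image (insert 0 s) V (insert_nonempty _ _)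
  have h1 : Submodule.span _ (s : Set (𝓞 K)) ≤ J (V b) :=
    Submodule.span_le.2 fun x hx => hm x (mem_insert_of_mem hx)
  have h2 : J (V b) ^ 2 ≤ J (V b ^ 2) := by
    rw [sq, sq]
    exact Ideal.mul_le.2 fun x hx y hy => (map_mul V x y).trans_le (mul_le_mul' hx hy)
  have h3 : V a ≤ V b ^ 2 :=
    h2 (Ideal.pow_right_mono h1 2 (h ▸ Ideal.mem_span_singleton_self a))
  have h4 : b ^ 2 ∈ Ideal.span {a} := h ▸ Ideal.pow_mem_pow (by
    rcases mem_insert.1 hb with rfl | hb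
    exacts [zero_mem _, Submodule.subset_span hb]) 2
  obtain ⟨c, hc⟩ := Ideal.mem_span_singleton'.1 h4
  exact ⟨b, le_antisymm h3 (by rw [← map_pow, ← hc]; exact Vm c a)⟩

theorem sel_norm (h3 : Module.finrank ℚ K = 3) {a : 𝓞 K} {I : Ideal (𝓞 K)}
    (h : Ideal.span {a} = I ^ 2) :
    IsSquare (Algebra.norm ℚ (a : K)) ∨ IsSquare (Algebra.norm ℚ ((-a : 𝓞 K) : K)) := by
  have h1 := congrArg Ideal.absNorm h
  rw [Ideal.absNorm_span_singleton, map_pow] at h1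
  have h2 : Algebra.norm ℚ ((-a : 𝓞 K) : K) = -Algebra.norm ℚ (a : K) := by
    have : ((-a : 𝓞 K) : K) = algebraMap ℚ K (-1) * a := by simp
    rw [this, map_mul, Algebra.norm_algebraMap, h3]
    ring
  rw [h2, ← Algebra.coe_norm_int]
  rcases Int.natAbs_eq_iff.1 h1 with e | e <;> rw [e]
  · exact Or.inl ⟨Ideal.absNorm I, by push_cast; ring⟩
  · exact Or.inr ⟨Ideal.absNorm I, by push_cast; ring⟩

omit [NumberField K] in
theorem sel_root {a : 𝓞 K} (h : IsSquare (a : K)) : IsSquare a := by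
  obtain ⟨y, hy⟩ := h
  have : IsIntegral ℤ y := IsIntegral.of_pow two_pos (by rw [sq, ← hy]; exact a.isIntegral_coe)
  exact ⟨⟨y, this⟩, RingOfIntegers.ext hy⟩

omit [NumberField K] in
theorem sel_unit {ε : (𝓞 K)ˣ} (h : IsSquare (ε : 𝓞 K)) : IsSquare ε := by
  obtain ⟨y, hy⟩ := h
  obtain ⟨u, rfl⟩ := isUnit_of_mul_isUnit_left (hy ▸ ε.isUnit)
  exact ⟨u, Units.ext hy⟩

end

variable [Ce]

theorem sel_le (v : Plc) (x : 𝓞 Lc) : v.V ((x : Lc) : Qbar) ≤ 1 :=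
  v.V_le_one_of_isIntegral (x.isIntegral_coe.map (IsScalarTower.toAlgHom ℤ Lc Qbar))

theorem sel_val' (v : Plc) {a : 𝓞 Lc} {I : Ideal (𝓞 Lc)} (h : Ideal.span {a} = I ^ 2) :
    ∃ b : Lc, v.V ((a : Lc) : Qbar) = v.V b ^ 2 := by
  obtain ⟨b, hb⟩ := sel_val
    (v.V.comap ((algebraMap Lc Qbar).comp (algebraMap (𝓞 Lc) Lc))) (sel_le v) h
  exact ⟨b, hb⟩

theorem sel_one (v : Plc) (ε : (𝓞 Lc)ˣ) : v.V (((ε : 𝓞 Lc) : Lc) : Qbar) = 1 := by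
  have h : v.V (((ε : 𝓞 Lc) : Lc) : Qbar) * v.V ((((ε⁻¹ : (𝓞 Lc)ˣ) : 𝓞 Lc) : Lc) : Qbar) = 1 := by
    rw [← map_mul, ← IntermediateField.coe_mul, ← map_mul (algebraMap (𝓞 Lc) Lc), Units.mul_inv]
    simp
  exact le_antisymm (sel_le v _) (h.symm.trans_le (mul_le_of_le_one_right' (sel_le v _)))

theorem sel_sq (y : SEyStmt) (hS : Sel0) {w : Plc} (hw : w.p = 2) {a : 𝓞 Lc} {I : Ideal (𝓞 Lc)}
    (h : Ideal.span {a} = I ^ 2) (hn : IsSquare (Algebra.norm ℚ (a : Lc))) {b : Lc} (hb : b ≠ 0)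
    (hv : w.V (((a * b ^ 2 : Lc) : Qbar) - 1) ^ 3 < w.V 2) : IsSquare a := by
  obtain ⟨r, hr⟩ := y (a * b ^ 2) w hS hw (by
    rw [map_mul, map_pow]
    exact hn.mul (IsSquare.sq _)) (fun v => by
      obtain ⟨c, hc⟩ := sel_val' v h
      refine ⟨c * b, ?_⟩
      push_cast
      rw [map_mul, hc, map_mul, map_pow, mul_pow]) hv
  refine sel_root ⟨r / b, ?_⟩
  field_simp
  linear_combination hr

omit [Ce] in
theorem sel_stmt (lc : LCStmt) (cfa : CFaStmt) (a3 : A3Stmt) (a4 : A4Stmt) (y : SEyStmt)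
    (x : SExStmt) : SELStmt := by
  intro _ hS
  obtain ⟨θ, -, hC, him⟩ := lc
  have ht : ∀ w : Plc, w.p = 2 → w.V (2 * e0) ^ 3 = w.V 2 := fun w hw =>
    (cfa.2.2.2.2.2 w hw).1 _
  have h2 : ∀ w : Plc, w.p = 2 → 0 < w.V 2 ∧ w.V 2 < 1 := fun w hw => by
    have := b2a_p_lt w
    rw [hw] at this
    exact ⟨w.V.pos_iff.2 two_ne_zero, by exact_mod_cast this⟩
  have h3 : ∀ w : Plc, w.p = 2 → ∀ z, w.V z ^ 3 < w.V 2 ↔ w.V z < w.V (2 * e0) := fun w hw z => by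
    rw [← ht w hw, pow_lt_pow_iff_left₀ zero_le zero_le three_ne_zero]
  have h4 : ∀ w : Plc, w.p = 2 → w.V 2 < w.V (2 * e0) := fun w hw =>
    (h3 w hw 2).1 (pow_lt_self_of_lt_one₀ (h2 w hw).1 (h2 w hw).2 (by norm_num))
  have h5 : ∀ w : Plc, w.p = 2 → w.V (2 * e0) < 1 := fun w hw =>
    (pow_lt_one_iff_of_nonneg zero_le three_ne_zero).1 ((ht w hw).trans_lt (h2 w hw).2)
  have hT : ∀ ε : (𝓞 Lc)ˣ, Ideal.span {(ε : 𝓞 Lc)} = ⊤ ^ 2 := fun ε => by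
    rw [Ideal.span_singleton_eq_top.2 ε.isUnit, Ideal.top_pow]
  have hU : ∀ ε : (𝓞 Lc)ˣ, ¬ IsSquare ε → ¬ IsSquare (-ε) → ∀ w : Plc, w.p = 2 →
      w.V ((((ε : 𝓞 Lc) : Lc) : Qbar) - (1 + 2 * e0)) < w.V (2 * e0) := by
    intro ε e1 e2 w hw
    refine (h3 w hw _).1 ((x _ w hw (sel_one w ε)).resolve_left fun h => ?_)
    rcases sel_norm hC.rank (hT ε) with hn | hn
    · exact e1 (sel_unit (sel_sq y hS hw (hT ε) hn one_ne_zero (by simpa using h)))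
    · refine e2 (sel_unit (sel_sq y hS hw (hT (-ε)) hn one_ne_zero ?_))
      rw [h3 w hw] at h ⊢
      have e : ((((-ε : (𝓞 Lc)ˣ) : 𝓞 Lc) * 1 ^ 2 : Lc) : Qbar) - 1 =
          -(((((ε : 𝓞 Lc) : Lc) : Qbar) - 1) + 2) := by
        simp only [Units.val_neg, map_neg]
        push_cast
        ring
      rw [e, Valuation.map_neg]
      exact w.V.map_add_lt h (h4 w hw)
  refine ⟨Nat.not_even_iff_odd.1 fun he => ?_, fun ε e1 e2 w hw => ?_⟩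
  swap
  · rw [← ht w hw, show (((ε : 𝓞 Lc) : Lc) : Qbar) - 1 =
      2 * e0 + ((((ε : 𝓞 Lc) : Lc) : Qbar) - (1 + 2 * e0)) by ring,
      w.V.map_add_eq_of_lt_left (hU ε e1 e2 w hw)]
  obtain ⟨w, hw⟩ := exists_plc Nat.prime_two
  have hd : discr Lc < 0 := by
    obtain ⟨i, -, hi⟩ := a3 Lc θ hC
    obtain ⟨s, hs, e⟩ := exists_s
    have h6 : (0 : ℤ) < NN * s ^ 2 := by
      have := NN_gt3
      have := hs.pos
      positivity
    by_contra h7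
    have := mul_nonneg (not_lt.1 h7) (sq_nonneg (i : ℤ))
    omega
  obtain ⟨ε₀, -, e1, e2⟩ := (a4 Lc hC.rank hd).2.2.2 (jC.comp (algebraMap Lc Qbar)) him
  obtain ⟨ε, hn, hε⟩ : ∃ ε : (𝓞 Lc)ˣ, IsSquare (Algebra.norm ℚ ((ε : 𝓞 Lc) : Lc)) ∧
      w.V ((((ε : 𝓞 Lc) : Lc) : Qbar) - (1 + 2 * e0)) < w.V (2 * e0) := by
    rcases sel_norm hC.rank (hT ε₀) with hn | hn
    · exact ⟨ε₀, hn, hU _ e1 e2 w hw⟩
    · exact ⟨-ε₀, hn, hU _ e2 (by rwa [neg_neg]) w hw⟩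
  have : Fact (Nat.Prime 2) := ⟨Nat.prime_two⟩
  obtain ⟨c, hc⟩ := exists_prime_orderOf_dvd_card (G := ClassGroup (𝓞 Lc)) 2 he.two_dvd
  obtain ⟨I, rfl⟩ := ClassGroup.mk0_surjective c
  have hI : ∀ a : 𝓞 Lc, Ideal.span {a} = I.1 ^ 2 → ¬ IsSquare a := by
    rintro _ h ⟨r, rfl⟩
    rw [← sq, ← Ideal.span_singleton_pow] at h
    have h6 : Ideal.span {r} = I.1 := pow_left_injective two_ne_zero h
    have h7 : ClassGroup.mk0 I = 1 :=
      (ClassGroup.mk0_eq_one_iff I.2).2 (h6 ▸ ⟨r, rfl⟩)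
    rw [h7, orderOf_one] at hc
    omega
  obtain ⟨a, ha, hn'⟩ : ∃ a : 𝓞 Lc, Ideal.span {a} = I.1 ^ 2 ∧
      IsSquare (Algebra.norm ℚ (a : Lc)) := by
    have h6 := (ClassGroup.mk0_eq_one_iff (I ^ 2).2).1
      (by rw [Subtype.coe_eta, map_pow, ← hc, pow_orderOf_eq_one])
    have h7 : Ideal.span {_} = I.1 ^ 2 := h6.span_singleton_generator
    rcases sel_norm hC.rank h7 with hn | hn
    · exact ⟨_, h7, hn⟩
    · exact ⟨_, (Ideal.span_singleton_neg _).trans h7, hn⟩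
  have a0 : ((a : Lc) : Qbar) ≠ 0 := fun h => hI a ha (by
    obtain rfl : a = 0 := by simpa using h
    exact IsSquare.zero)
  obtain ⟨b, hb⟩ := sel_val' w ha
  have b0 : w.V b ≠ 0 := fun h => a0 (w.V.zero_iff.1 (by rw [hb, h, zero_pow two_ne_zero]))
  have b1 : b⁻¹ ≠ 0 := inv_ne_zero fun h => b0 (by rw [h]; simp)
  have h6 : w.V ((a * b⁻¹ ^ 2 : Lc) : Qbar) = 1 := by
    push_cast
    rw [map_mul, hb, map_pow, map_inv₀, ← mul_pow, mul_inv_cancel₀ b0, one_pow]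
  rcases x _ w hw h6 with h | h
  · exact hI a ha (sel_sq y hS hw ha hn' b1 h)
  have ha' : Ideal.span {(ε : 𝓞 Lc) * a} = I.1 ^ 2 :=
    (Ideal.span_singleton_mul_left_unit ε.isUnit a).trans ha
  have em : (((ε : 𝓞 Lc) * a : 𝓞 Lc) : Lc) = (ε : 𝓞 Lc) * a := map_mul (algebraMap (𝓞 Lc) Lc) _ _
  refine hI _ ha' (sel_sq y hS hw ha' (by rw [em, map_mul]; exact hn.mul hn') b1 ?_)
  rw [h3 w hw] at h ⊢
  have e : ((((ε : 𝓞 Lc) * a : 𝓞 Lc) * b⁻¹ ^ 2 : Lc) : Qbar) - 1 =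
      (((ε : 𝓞 Lc) : Lc) : Qbar) * (((a * b⁻¹ ^ 2 : Lc) : Qbar) - (1 + 2 * e0)) +
        (1 + 2 * e0) * ((((ε : 𝓞 Lc) : Lc) : Qbar) - (1 + 2 * e0)) + (2 + 2 * e0) * (2 * e0) := by
    rw [em]
    push_cast
    ring
  have h7 : w.V (1 + 2 * e0) = 1 := w.V.map_one_add_of_lt (h5 w hw)
  have h8 : w.V (2 + 2 * e0) < 1 := w.V.map_add_lt (h2 w hw).2 (h5 w hw)
  rw [e]
  refine w.V.map_add_lt (w.V.map_add_lt ?_ ?_) ?_
  · rwa [map_mul, sel_one, one_mul]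
  · rwa [map_mul, h7, one_mul]
  · rw [map_mul]
    exact mul_lt_of_lt_one_left ((h2 w hw).1.trans (h4 w hw)) h8

end Pool.Agent.B8
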