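import Pool.Agent.Lib.MP_696deb_nt.B8.ZE
import Pool.Agent.Lib.MP_696deb_nt.B7.D9Du

/-! Integrality at one cusp gives integrality at all cusps. -/

set_option autoImplicit false

open Filter Topology
open scoped Classical

namespace Pool.Agent.B8
open Pool.Agent.Lib.MP_696deb_nt Pool.Agent.B4.GE Pool.Agent.B5
open Pool.Agent.B6.D9 (ne_of_val Du.dl_mem)

theorem ai_inv {A : ValuationSubring ℂ} {L : ℕ} {g : MZ} (hL : A.valuation L = 1)
    (hg : g.det = 1) : (fun z => (uN L (act g (L * z)))⁻¹) ∈ LR A.valuation.integer := by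
  have L0 := ne_of_val hL
  refine LE.congr (prod_mem (S := LR A.valuation.integer) (t := L.divisorsAntidiagonal)
    fun x hx => zpow_mem_LR (F := fun z => rD x.2 (act g (L * z))) ?_ ?_
      (-(ArithmeticFunction.moebius x.1 * x.2))) fun z _ => by simp [uN]
  all_goals
    have h1 := Du.dl_mem (one_dvd L) hL hg
    have h2 := Du.dl_mem (Dvd.intro_left _ (Nat.mem_divisorsAntidiagonal.1 hx).1) hL hg
  · refine LE.congr (mul_mem h1.1 h2.2) fun z hz => ?_
    have := den_ne' (M := g) (by omega) (ga_pos L0 hz)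
    simp only [rD, Pi.mul_apply, Nat.cast_one, one_mul]
    field_simp
  · refine LE.congr (mul_mem h1.2 h2.1) fun z hz => ?_
    have := den_ne' (M := g) (by omega) (ga_pos L0 hz)
    simp only [rD, Pi.mul_apply, Nat.cast_one, one_mul]
    field_simp

theorem ai_stmt : AIStmt := by
  intro A L F hL hh hi
  have hN := ne_of_val hL
  have := finite_CI hN
  have hu := mf_uN hN
  obtain ⟨k, hk⟩ := (eventually_all.2 fun i : CI L => eventually_all.2 fun e : ¬ G0 L (cr i) =>
    tendsto_mul_pow (hh.2 _ (cr_det i)) (hu.2 _ (cr_det i)) (tendsto_uN hN (cr_det i) e)).exists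
  have m := mf_mul hh (mf_pow hu k)
  refine ⟨hh.1, fun g hg => ?_⟩
  obtain ⟨i, e⟩ := m.1.exists_cr hN hg
  refine LE.congr (mul_mem (qp_core hN m hk (mul_mem hi (pow_mem (uN_mem hN) k)) i)
    (pow_mem (ai_inv hL hg) k)) fun z hz => ?_
  have p := ga_pos hN hz
  have p' := act_pos (M := g) (by omega) p
  have u : uN L (act g (L * z)) ≠ 0 := Finset.prod_ne_zero_iff.2 fun x hx =>
    zpow_ne_zero _ (div_ne_zero (Dl_ne p') (Dl_ne (ga_pos
      (right_ne_zero_of_mul ((Nat.mem_divisorsAntidiagonal.1 hx).1.trans_ne hN)) p')))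
  simp only [Pi.mul_apply, Pi.pow_apply, ← e _ p]
  rw [inv_pow, mul_inv_cancel_right₀ (pow_ne_zero k u)]

end Pool.Agent.B8
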