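import Pool.Agent.Lib.MP_696deb_nt.B8.ZA

/-! Valuations of the modular units of level two at the points of odd conductor. -/

set_option autoImplicit false

open Complex
open scoped Classical NNReal

namespace Pool.Agent.B8
open Pool.Agent.Lib.MP_696deb_nt Pool.Agent.Lib.MP_696deb_nt.B2.CM

namespace VJ

variable {V : Valuation ℂ ℝ≥0} {τ : ℂ}

theorem act_rP (τ : ℂ) (i : Option (Fin 2)) : act (rP 2 i) τ = hk 2 τ i := by
  rcases i with _ | k <;> simp [rP, ut, act_of, mob, hk]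

theorem val_odd (hV : V 2 < 1) {m : ℤ} (h : Odd m) : V m = 1 :=
  val_int_eq_one (p := 2) Nat.prime_two (by simpa using hV) (by
    have := Int.odd_iff.1 h
    omega)

/-- An endomorphism of odd degree that moves one neighbour to another one. -/
theorem val_eq (hV : V 2 < 1) (hτ : 0 < τ.im) (hj : V (jf τ) ≤ 1) {M N : MZ} (hM : 0 < M.det)
    (ho : Odd M.det) (hf : act M τ = τ) {i j : Option (Fin 2)} (e : rP 2 i * M = N * rP 2 j) :
    V (ph 2 i τ) = V (ph 2 j τ) := by
  have hd : N.det = M.det := by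
    have h := congrArg Matrix.det e
    rw [Matrix.det_mul, Matrix.det_mul, (isReps_rP Nat.prime_two).det,
      (isReps_rP Nat.prime_two).det] at h
    push_cast at h
    omega
  have hp := rP_pos Nat.prime_two j
  have h1 := phi_mul (rP 2 i) hM hτ
  rw [e, phi_mul N hp hτ, hf] at h1
  have h2 := congrArg V h1
  rw [map_mul, map_mul, val_phi_eq_one hM hτ hj (val_odd hV ho),
    val_phi_eq_one (hd ▸ hM) (act_pos hp hτ) (val_isog hp hτ hj).2 (val_odd hV (hd ▸ ho)),
    one_mul, mul_one] at h2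
  exact h2.symm

/-- The three valuations agree. -/
theorem val_all (hV : V 2 < 1) (hτ : 0 < τ.im) (hj : V (jf τ) ≤ 1) {m t : ℤ} (h0 : 0 < m)
    (hm : Odd m) (ht : Odd t) (hF : Fix m t τ) :
    V (ph 2 (some 0) τ) = V (ph 2 none τ) ∧ V (ph 2 (some 1) τ) = V (ph 2 none τ) := by
  obtain ⟨M, rfl, rfl, hf⟩ := hF
  have key := fun i j N => val_eq (N := N) (i := i) (j := j) hV hτ hj h0 hm hf
  rw [Matrix.det_fin_two] at hm
  rw [Matrix.trace_fin_two] at ht
  have h1 : Even (M 0 0 * M 1 1) := by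
    rw [Int.even_mul, Int.even_iff, Int.even_iff]
    have := Int.odd_iff.1 ht
    omega
  have h2 : Odd (M 0 1 * M 1 0) := by
    have := Int.odd_iff.1 hm
    have := Int.even_iff.1 h1
    rw [Int.odd_iff]
    omega
  obtain ⟨⟨b, hb⟩, ⟨c, hc⟩⟩ := Int.odd_mul.1 h2
  obtain ⟨s, hs⟩ := ht
  rcases Int.even_or_odd' (M 0 0) with ⟨a, ha | ha⟩
  · refine ⟨key (some 0) none !![a, M 0 1; M 1 0, 2 * M 1 1] ?_,
      (key none (some 1) !![2 * M 0 0, M 0 1 - M 0 0; M 1 0, s - a - c] ?_).symm⟩ <;>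
    ext i j <;> fin_cases i <;> fin_cases j <;>
    simp [rP, ut, Matrix.mul_apply, Fin.sum_univ_two] <;> omega
  · have k1 := key none (some 0) !![2 * M 0 0, M 0 1; M 1 0, s - a] ?_
    have k2 := key (some 0) (some 1) !![M 0 0, b - a; 2 * M 1 0, M 1 1 - M 1 0] ?_
    · exact ⟨k1.symm, (k1.trans k2).symm⟩
    all_goals ext i j; fin_cases i <;> fin_cases j <;>
      simp [rP, ut, Matrix.mul_apply, Fin.sum_univ_two] <;> omega

/-- The generator of the order gives a fixing matrix. -/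
theorem exists_fix {n c : ℕ} (hn : Nk n) (hc : c ≠ 0)
    (h : IsIv (Oc n c) (sp2 τ 1)) : Fix (c ^ 2 * ((n + 1) / 4)) c τ := by
  have h8 := hn.m8
  have h0 : 0 < n := by omega
  have hb : be n c c ∈ Oc n c := be_mem (by omega) (by simp)
  have hs : be n c c ^ 2 = (c : ℤ) * be n c c - (c ^ 2 * ((n + 1) / 4) : ℤ) := be_sq (by
    obtain ⟨k, hk⟩ : ∃ k : ℤ, (n : ℤ) + 1 = 4 * k := ⟨(n + 1) / 4, by omega⟩
    rw [hk, Int.mul_ediv_cancel_left _ (by norm_num)]
    linear_combination (c : ℤ) ^ 2 * hk)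
  obtain ⟨p, q, e1⟩ := mem_sp2.1 (h.mul_mem hb (left_mem_sp2 τ 1))
  obtain ⟨r, s, e2⟩ := mem_sp2.1 (h.mul_mem hb (right_mem_sp2 τ 1))
  obtain ⟨k1, k2⟩ := be_indep (n := n) (c := c) (b := c) h0 hc
    (x := p * s - q * r - c ^ 2 * ((n + 1) / 4)) (y := c - (p + s)) (by
      push_cast at hs ⊢
      linear_combination -hs + r * e1 + (be n c c - p) * e2)
  have hne : be n c c ≠ 0 := fun e => by
    simpa using (be_indep (n := n) (c := c) (b := c) h0 hc (x := 0) (y := 1) (by simp [e])).2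
  refine ⟨!![p, q; r, s], by rw [Matrix.det_fin_two_of]; omega,
    by rw [Matrix.trace_fin_two_of]; omega, ?_⟩
  rw [mul_one] at e1 e2
  rw [mul_one] at e2
  rw [act_of, mob, ← e1, ← e2, mul_div_cancel_left₀ _ hne]

/-- The consequence of the modular equation. -/
theorem val_jf_mul (me : MEStmt) (hτ : 0 < τ.im) {i : Option (Fin 2)}
    (h : V (ph 2 i τ) ≤ V 2 ^ 4) : V (jf τ) * V (ph 2 i τ) ≤ V 2 ^ 12 := by
  have h1 : V (ph 2 i τ + 16) ≤ V 2 ^ 4 :=
    V.map_add_le h (by rw [← map_pow]; norm_num)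
  rw [← map_mul, ← me τ hτ i, map_pow, show 12 = 4 * 3 from rfl, pow_mul]
  exact pow_le_pow_left' h1 3

end VJ

open VJ in
theorem vj_stmt (_nb : NBStmt) (me : MEStmt) : VJStmt := by
  intro n c V τ B hn hc hV h
  have hτ := h.pos
  have c0 : c ≠ 0 := hc.pos.ne'
  have h8 := hn.m8
  have hF := exists_fix hn c0 h.iv
  have c1 : (0 : ℤ) < c ^ 2 := by positivity
  have hj : V (jf τ) ≤ 1 := IsCM.val_jf V ⟨hτ, by
    have : (0 : ℤ) < 4 * ((n + 1) / 4) - 1 := by omega
    nlinarith, _, _, rfl, hF⟩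
  have co : Odd (c : ℤ) := by exact_mod_cast hc
  obtain ⟨e0, e1⟩ := val_all hV hτ hj (mul_pos c1 (by omega))
    (co.pow.mul (by rw [Int.odd_iff]; omega)) co hF
  have v0 : 0 < V 2 := zero_lt_iff.2 (V.ne_zero_iff.2 two_ne_zero)
  have en : V (ph 2 none τ) = V 2 ^ 4 := by
    have h1 := val_prod_ph (V := V) Nat.prime_two hτ hj
    rw [map_prod, Fintype.prod_option, Fin.prod_univ_two, e0, e1] at h1
    refine (pow_left_inj₀ zero_le zero_le (n := 3) (by norm_num)).1 ?_
    rw [← pow_mul, pow_three, h1]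
    norm_num
  have ea : ∀ i, V (ph 2 i τ) = V 2 ^ 4 := by
    rintro (_ | k)
    · exact en
    · fin_cases k
      · exact e0.trans en
      · exact e1.trans en
  refine ⟨?_, fun i => ⟨ea i, ?_⟩⟩
  · have h1 := val_jf_mul me hτ en.le
    rw [en, show 12 = 8 + 4 from rfl, pow_add] at h1
    exact le_of_mul_le_mul_right h1 (pow_pos v0 4)
  · have hp := rP_pos Nat.prime_two i
    have hd := (isReps_rP Nat.prime_two).det i
    obtain ⟨k, hk'⟩ := exists_ph Nat.prime_two (M := (rP 2 i).adjugate)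
      (by rw [det_adjugate_two, hd]) (act_pos hp hτ)
    have h1 := congrArg V (phi_adjugate_mul hp hτ)
    rw [hk', map_mul, hd, show V (phiJ (rP 2 i) τ) = V 2 ^ 4 from ea i, map_pow,
      show 12 = 8 + 4 from rfl, pow_add] at h1
    have h2 : V (ph 2 k (act (rP 2 i) τ)) = V 2 ^ 8 :=
      mul_right_cancel₀ (pow_pos v0 4).ne' (by simpa using h1)
    have h3 := val_jf_mul me (act_pos hp hτ)
      (h2.le.trans (pow_le_pow_right_of_le_one' hV.le (by norm_num)))
    rw [h2, show 12 = 4 + 8 from rfl, pow_add, act_rP] at h3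
    exact (le_of_mul_le_mul_right h3 (pow_pos v0 8)).trans_lt
      (pow_lt_one₀ zero_le hV (by norm_num))

end Pool.Agent.B8
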