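import Pool.Agent.Lib.MP_696deb_nt.B8.ZA
import Pool.Agent.Lib.MP_696deb_nt.B6.Cs
import Pool.Agent.Lib.MP_696deb_nt.B6.Tw0
import Pool.Agent.Lib.MP_696deb_nt.B6.UNa
import Pool.Agent.Lib.MP_696deb_nt.B5.Z2
import Pool.Agent.Lib.MP_696deb_nt.B2.CFa
import Pool.Agent.Lib.MP_696deb_nt.Cartier

/-! Curves that are supersingular at two and whose Selmer group vanishes: definitions and
statements. -/

set_option autoImplicit false

open NumberField NumberTheorySymbols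
open scoped Classical NNReal

namespace Pool.Agent.B8
open Pool.Agent.Lib.MP_696deb_nt Pool.Agent.Lib.MP_696deb_nt.B2 Pool.Agent.Lib.MP_696deb_nt.B2.CM
  Pool.Agent.B6 Pool.Agent.B4

/-- The curve is supersingular at two. -/
class Ce extends Cs where
  ev : Even W.a₁
  gt3 : 3 < N

variable [Ce]

theorem a1_even : Even WZ.a₁ := Ce.ev

theorem NN_gt3 : 3 < NN := Ce.gt3

theorem Δ_odd : ¬ (2 : ℤ) ∣ WZ.Δ := fun h =>
  ne_two_of_dvd ((dvd_Δ Nat.prime_two).1 (by exact_mod_cast h)) rfl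

theorem Δ_mod : ∃ t : ℤ, WZ.Δ = 8 * t - 27 * WZ.a₃ ^ 4 := by
  obtain ⟨k, hk⟩ := a1_even
  refine ⟨-2 * (k ^ 2 + WZ.a₂) ^ 2 * WZ.b₈ - WZ.b₄ ^ 3 - 27 * WZ.a₃ ^ 2 * WZ.a₆ - 54 * WZ.a₆ ^ 2 +
    9 * (k ^ 2 + WZ.a₂) * (WZ.a₄ + k * WZ.a₃) * WZ.b₆, ?_⟩
  rw [WeierstrassCurve.Δ, WeierstrassCurve.b₂, WeierstrassCurve.b₄, WeierstrassCurve.b₆, hk]
  ring

theorem a3_odd : Odd WZ.a₃ := by
  refine Int.not_even_iff_odd.1 fun ⟨k, hk⟩ => Δ_odd ?_
  obtain ⟨t, ht⟩ := Δ_mod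
  exact ⟨4 * t - 216 * k ^ 4, by rw [ht, hk]; ring⟩

theorem exists_s : ∃ s : ℕ, Odd s ∧ WZ.Δ = -(NN * s ^ 2) := by
  obtain ⟨s, -, hs⟩ := WZ_disc
  refine ⟨s.natAbs, Nat.not_even_iff_odd.1 fun h => Δ_odd ?_, by simpa using hs⟩
  rw [hs, dvd_neg]
  exact (Dvd.dvd.pow (even_iff_two_dvd.1 (Int.natAbs_even.1 h)) two_ne_zero).mul_left _

theorem nk : Nk NN := by
  refine ⟨NN_sqf, ?_, NN_gt3⟩
  obtain ⟨s, ⟨u, rfl⟩, hs⟩ := exists_s
  obtain ⟨t, ht⟩ := Δ_mod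
  obtain ⟨k, hk⟩ := a3_odd
  obtain ⟨a, ha⟩ := Int.even_mul_succ_self u
  obtain ⟨b, hb⟩ := Int.even_mul_succ_self k
  have : (NN : ℤ) = 8 * (3 - t - NN * a + 27 * (2 * b + 8 * b ^ 2)) + 3 := by
    rw [ht, hk] at hs
    push_cast at hs
    linear_combination hs - 4 * NN * ha + 27 * (8 + 16 * (k * (k + 1) + b + b)) * hb
  omega

theorem exists_i0 : ∃ i, cc (er i) = er i := by
  obtain ⟨σ, hσ⟩ := exists_pr
  have h : ∀ a : Equiv.Perm (Fin 3), a * a = 1 → ∃ i, a i = i := by decide +kernel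
  obtain ⟨i, hi⟩ := h (σ cc) (by rw [← map_mul, cc_mul_cc, map_one])
  exact ⟨i, by rw [hσ, hi]⟩

/-- The real root of the cubic. -/
noncomputable def e0 : Qbar := er exists_i0.choose

theorem cc_e0 : cc e0 = e0 := exists_i0.choose_spec

theorem cub_e0 : cub e0 = 0 := cub_er _

/-- The group of the cubic field. -/
noncomputable def HL : Subgroup Gam := MulAction.stabilizer Gam e0

theorem op_HL : Op HL := stabilizer_isOpen_of_isIntegral _

/-- The cubic field. -/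
noncomputable abbrev Lc : IntermediateField ℚ Qbar := Kf HL

instance : NumberField Lc := nf_Kf op_HL

/-- Cubic fields in which the two-division cubic has the root `θ / 2`. -/
structure Cb (L : Type) [Field L] [NumberField L] (θ : L) : Prop where
  rank : Module.finrank ℚ L = 3
  root : cub (θ / 2) = 0

/-- The character that cuts out the field of the points of order two. -/
structure Cub (ψ : Pc NN 2 →* Z3) : Prop where
  ram : Ram ψ
  split : ∀ (l : ℕ) (b k : ℤ), l.Prime → ¬ l ∣ 2 * NN → b ^ 2 + NN * (2 : ℕ) ^ 2 = 4 * l * k →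
    (ψ (cl _ (idl NN 2 l b)) = 1 ↔ Rt l)
  inert : ∀ l : ℕ, l.Prime → ¬ l ∣ 2 * NN → J(-NN | l) = -1 → Rt l

/-- The coefficients of the form of weight one. -/
structure Rec (g : ℕ → ℤ) : Prop where
  one : g 1 = 1
  even : ∀ k, Even k → g k = 0
  mul : ∀ p k : ℕ, p.Prime → p ≠ 2 → k ≠ 0 →
    g (p * k) = g p * g k - J(-NN | p) * if p ∣ k then g (k / p) else 0
  val : ∀ p : ℕ, p.Prime → p ≠ 2 →
    g p = if p ∣ NN then 1 else if J(-NN | p) = -1 then 0 else if Rt p then 2 else -1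

/-- The Selmer group of level two vanishes. -/
def Sel0 : Prop := ∀ ξ : Gam → B6.EE, B6.hSel 1 ξ → (∀ g, 2 • ξ g = 0) →
  ∃ T : B6.EE, 2 • T = 0 ∧ ∀ g, ξ g = g • T - T

/-- The newform of the curve. -/
structure Nf8 (D : GE.MD Wu NN) : Prop where
  nw : G5.Nw D
  tr : ∀ (l : ℕ) [Fact l.Prime], ¬ l ∣ 2 * NN → D.c l = tr l cub
  ev : Even (D.c 2)

omit [Ce] in
/-- The valuation `V` of the complex numbers extends the place `w`. -/
def Ov (V : Valuation ℂ ℝ≥0) (w : Plc) : Prop := ∀ x, V (jC x) = w.V x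

omit [Ce]

/-- Class field theory: the character exists. -/
def CFStmt : Prop := ∀ [Ce], ∃ ψ : Pc NN 2 →* Z3, Cub ψ

/-- The ring class field of conductor two is ramified above two. -/
def RMStmt : Prop := ∀ [Ce] (w : Plc), w.p = 2 → ∃ σ ∈ Ine w, rho NN 2 σ ≠ 1

/-- The coefficients satisfy the recursion. -/
def A0Stmt : Prop := ∀ [Ce] [Fintype (Pc NN 2)] (ψ : Pc NN 2 →* Z3), Cub ψ →
  ∃ g : ℕ → ℤ, (∀ k, gS ψ k = 2 * g k) ∧ Rec g

/-- The congruence modulo two. -/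
def A1Stmt : Prop := ∀ [Ce] (g : ℕ → ℤ) (D : GE.MD Wu NN), Rec g → Nf8 D →
  ∀ k, Even (D.c k - g k)

/-- The number of ideals of the cubic field. -/
def A2Stmt : Prop := ∀ [Ce] (g : ℕ → ℤ) (L : Type) [Field L] [NumberField L] (θ : L), Rec g →
  Cb L θ → ∀ k : ℕ, k ≠ 0 →
    (Nat.card {I : Ideal (𝓞 L) // Ideal.absNorm I = k} : ℤ) = ∑ d ∈ k.divisors, g d

/-- The discriminant of the cubic field. -/
def A3Stmt : Prop := ∀ [Ce] (L : Type) [Field L] [NumberField L] (θ : L), Cb L θ →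
  ∃ i : ℕ, Odd i ∧ discr L * i ^ 2 = 4 * WZ.Δ

/-- The places and the units of the cubic field. -/
def A4Stmt : Prop := ∀ (L : Type) [Field L] [NumberField L], Module.finrank ℚ L = 3 → discr L < 0 →
  InfinitePlace.nrRealPlaces L = 1 ∧ InfinitePlace.nrComplexPlaces L = 1 ∧
  Units.torsionOrder L = 2 ∧ ∀ ι : L →+* ℂ, (∀ x, (ι x).im = 0) →
    ∃ ε : (𝓞 L)ˣ, Real.log ‖ι (ε : 𝓞 L)‖ = Units.regulator L ∧ ¬ IsSquare ε ∧ ¬ IsSquare (-ε)

/-- The limit formula of Kronecker for the cubic character. -/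
def KRStmt : Prop := ∀ [Ce] [Fintype (Pc NN 2)] (ψ : Pc NN 2 →* Z3) (L : Type) [Field L]
  [NumberField L] (θ : L), Cub ψ → Cb L θ → ∃ s i : ℕ, Odd s ∧ Odd i ∧
    ∀ t : Pc NN 2 → ℂ, (∀ x, Rp NN 2 (t x) x) →
      s * ∑ x, bw (ψ x) * H3.T.Lam (t x) = -12 * (classNumber L * i) * Units.regulator L

/-- The cubic field as a fixed field. -/
def LCStmt : Prop := ∀ [Ce], ∃ θ : Lc, (θ : Qbar) = 2 * e0 ∧ Cb Lc θ ∧
  ∀ x : Lc, (jC x).im = 0

/-- The consequences of the vanishing of the Selmer group. -/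
def SELStmt : Prop := ∀ [Ce], Sel0 → Odd (classNumber Lc) ∧
  ∀ ε : (𝓞 Lc)ˣ, ¬ IsSquare ε → ¬ IsSquare (-ε) → ∀ w : Plc, w.p = 2 →
    w.V ((((ε : 𝓞 Lc) : Lc) : Qbar) - 1) ^ 3 = w.V 2

/-- Places extend to the complex numbers. -/
def OVStmt : Prop := ∀ w : Plc, ∃ V, Ov V w

/-- The newform is a unit at the fixed point of the Fricke involution. -/
def UNStmt : Prop := ∀ [Ce] (D : GE.MD Wu NN) (w : Plc) (V : Valuation ℂ ℝ≥0), Nf8 D → Sel0 →
  w.p = 2 → Ov V w → V (B4.cf D.f (x0 NN) ^ 6 / Dl (x0 NN)) = 1 ∧ V (jf (x0 NN)) < 1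

/-- The parametrization is injective on a disc where the newform is a unit. -/
def DIStmt : Prop := ∀ [Ce] (D : GE.MD Wu NN) (k : ℤ) (w : Plc) (V : Valuation ℂ ℝ≥0) (g : Gam)
  (σ : ℂ ≃+* ℂ) (z : ℂ) (y : Qbar), D.k = k → Odd k → w.p = 2 → Ov V w → g ∈ Ine w → Ex g σ →
  0 < z.im → jC y = jf z → V (jf z) < 1 → V (B4.cf D.f z ^ 6 / Dl z) = 1 → D.par.φ z = 0 → g y = y

/-- The central value is a unit. -/
def TAStmt : Prop := ∀ [Ce] (D : GE.MD Wu NN) (k : ℤ), D.k = k → Odd k → Nf8 D → Sel0 →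
  D.k * D.Ω / 2 ∉ D.L.lattice

end Pool.Agent.B8
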