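import Pool.Agent.Lib.MP_696deb_nt.B8.ZA

/-! The theta constants and the modular units of level two. -/

set_option autoImplicit false

open Complex Filter Topology
open scoped Real

namespace Pool.Agent.B8
open Pool.Agent.Lib.MP_696deb_nt

/-- The three theta constants. -/
noncomputable def fth : Option (Fin 2) → ℂ → ℂ
  | none => fun z => cexp (π * I * z / 4) * jacobiTheta₂ (z / 2) z
  | some k => fun z => jacobiTheta₂ ((1 - (k : ℕ)) / 2) z

theorem fth_none (z : ℂ) : fth none z = cexp (π * I * z / 4) * jacobiTheta₂ (z / 2) z := rfl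

theorem fth_zero (z : ℂ) : fth (some 0) z = jacobiTheta₂ (1 / 2) z := by simp [fth]

theorem fth_one (z : ℂ) : fth (some 1) z = jacobiTheta₂ 0 z := by simp [fth]

theorem fa_theta_T (w z : ℂ) : jacobiTheta₂ w (z + 1) = jacobiTheta₂ (w + 1 / 2) z := by
  refine tsum_congr fun n => ?_
  obtain ⟨k, hk⟩ := Int.even_mul_pred_self n
  have h : (n : ℂ) * (n - 1) = k + k := by exact_mod_cast hk
  rw [jacobiTheta₂_term, jacobiTheta₂_term, exp_eq_exp_iff_exists_int]
  exact ⟨k, by linear_combination π * I * h⟩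

/-- The permutation of the translation. -/
def faT : Option (Fin 2) → Option (Fin 2)
  | none => none
  | some k => some (1 - k)

/-- The permutation of the inversion. -/
def faS : Option (Fin 2) → Option (Fin 2)
  | none => some 0
  | some k => if k = 0 then none else some 1

theorem fa_cases (i : Option (Fin 2)) : i = none ∨ i = some 0 ∨ i = some 1 := by
  revert i; decide

theorem fa_sum {M : Type} [AddCommMonoid M] (f : Option (Fin 2) → M) :
    ∑ i, f i = f none + f (some 0) + f (some 1) := by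
  rw [Fintype.sum_option, Fin.sum_univ_two, add_assoc]

theorem fth_T (i : Option (Fin 2)) (z : ℂ) : fth i (z + 1) ^ 24 = fth (faT i) z ^ 24 := by
  rcases fa_cases i with rfl | rfl | rfl
  · have h : cexp (π * I * (z + 1) / 4) ^ 24 = cexp (π * I * z / 4) ^ 24 := by
      rw [← exp_nat_mul, ← exp_nat_mul, exp_eq_exp_iff_exists_int]
      exact ⟨3, by push_cast; ring⟩
    rw [show faT none = none from rfl, fth_none, fth_none, fa_theta_T, mul_pow, mul_pow, h,
      show (z + 1) / 2 + 1 / 2 = z / 2 + 1 by ring, jacobiTheta₂_add_left]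
  · rw [show faT (some 0) = some 1 from rfl, fth_zero, fth_one, fa_theta_T,
      show (1 : ℂ) / 2 + 1 / 2 = 0 + 1 by ring, jacobiTheta₂_add_left]
  · rw [show faT (some 1) = some 0 from rfl, fth_zero, fth_one, fa_theta_T, zero_add]

theorem fa_root {z : ℂ} (hz : 0 < z.im) :
    (1 / (-I * z) ^ (1 / 2 : ℂ)) ^ 24 * z ^ 12 = 1 := by
  have h0 : z ≠ 0 := fun h => by simp [h] at hz
  have h1 : ((-I * z) ^ (1 / 2 : ℂ)) ^ 2 = -I * z := by
    simp
  have h2 : ((-I * z) ^ (1 / 2 : ℂ)) ^ 24 = z ^ 12 := by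
    rw [show 24 = 2 * 12 from rfl, pow_mul, h1, mul_pow, show 12 = 4 * 3 from rfl, pow_mul (-I),
      Even.neg_pow (by decide), I_pow_four]
    simp
  rw [div_pow, h2, one_pow, one_div, inv_mul_cancel₀ (pow_ne_zero _ h0)]

theorem fth_S (i : Option (Fin 2)) {z : ℂ} (hz : 0 < z.im) :
    fth i (-1 / z) ^ 24 = z ^ 12 * fth (faS i) z ^ 24 := by
  have h0 : z ≠ 0 := fun h => by simp [h] at hz
  have hr := fa_root hz
  suffices h : fth (faS i) z = 1 / (-I * z) ^ (1 / 2 : ℂ) * fth i (-1 / z) by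
    rw [h, mul_pow]
    linear_combination -fth i (-1 / z) ^ 24 * hr
  rcases fa_cases i with rfl | rfl | rfl
  · rw [show faS none = some 0 from rfl, fth_zero, fth_none, jacobiTheta₂_functional_equation,
      mul_assoc, ← jacobiTheta₂_neg_left (-1 / z / 2)]
    congr 3
    · ring
    · ring
  · rw [show faS (some 0) = none from rfl, fth_zero, fth_none,
      jacobiTheta₂_functional_equation (z / 2), show z / 2 / z = 1 / 2 by field_simp]
    have : cexp (π * I * z / 4) * cexp (-π * I * (z / 2) ^ 2 / z) = 1 := by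
      rw [← Complex.exp_add, ← Complex.exp_zero]
      congr 1
      field_simp
      ring
    linear_combination 1 / (-I * z) ^ (1 / 2 : ℂ) * jacobiTheta₂ (1 / 2) (-1 / z) * this
  · rw [show faS (some 1) = some 1 from rfl, fth_one, fth_one, jacobiTheta₂_functional_equation]
    simp

theorem fa_ph_perm {N g : MZ} {i j : Option (Fin 2)} (hN : N.det = 1) (hg : g.det = 1)
    (h : rP 2 i * N = g * rP 2 j) {z : ℂ} (hz : 0 < z.im) : ph 2 i (act N z) = ph 2 j z := by
  have hj := rP_pos Nat.prime_two j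
  have h1 := phi_mul (rP 2 i) (N := N) (by omega) hz
  rw [h, phi_mul g hj hz, phi_det_one hN hz, phi_det_one hg (act_pos hj hz), one_mul,
    mul_one] at h1
  exact h1.symm

theorem fa_act_T (z : ℂ) : act !![1, 1; 0, 1] z = z + 1 := by simp [act_of, mob]

theorem fa_act_S (z : ℂ) : act !![0, -1; 1, 0] z = -1 / z := by simp [act_of, mob]

theorem fa_ph_T (i : Option (Fin 2)) {z : ℂ} (hz : 0 < z.im) :
    ph 2 i (z + 1) = ph 2 (faT i) z := by
  rw [← fa_act_T]
  rcases fa_cases i with rfl | rfl | rfl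
  · exact fa_ph_perm (g := !![1, 2; 0, 1]) (by simp) (by simp) (by decide) hz
  · exact fa_ph_perm (g := 1) (by simp) (by simp) (by decide) hz
  · exact fa_ph_perm (g := !![1, 1; 0, 1]) (by simp) (by simp) (by decide) hz

theorem fa_ph_S (i : Option (Fin 2)) {z : ℂ} (hz : 0 < z.im) :
    ph 2 i (-1 / z) = ph 2 (faS i) z := by
  rw [← fa_act_S]
  rcases fa_cases i with rfl | rfl | rfl
  · exact fa_ph_perm (g := !![0, -1; 1, 0]) (by simp) (by simp) (by decide) hz
  · exact fa_ph_perm (g := !![0, -1; 1, 0]) (by simp) (by simp) (by decide) hz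
  · exact fa_ph_perm (g := !![1, -1; 2, -1]) (by simp) (by simp) (by decide) hz

theorem fa_Dl_T {z : ℂ} (hz : 0 < z.im) : Dl (z + 1) = Dl z := by
  rw [← fa_act_T, Dl_act (by simp) hz]
  simp [den]

theorem fa_Dl_S {z : ℂ} (hz : 0 < z.im) : Dl (-1 / z) = z ^ 12 * Dl z := by
  rw [← fa_act_S, Dl_act (by simp) hz]
  simp [den]

theorem fa_pos_S {z : ℂ} (hz : 0 < z.im) : 0 < (-1 / z).im := by
  rw [← fa_act_S]
  exact act_pos (by simp) hz

theorem inv1_of_ST {F : ℂ → ℂ} (hT : ∀ z : ℂ, 0 < z.im → F (z + 1) = F z)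
    (hS : ∀ z : ℂ, 0 < z.im → F (-1 / z) = F z) : Inv1 F := by
  let P : ℤ → ℤ → ℤ → ℤ → Prop := fun a b c d => ∀ z : ℂ, 0 < z.im → F (mob a b c d z) = F z
  have key : ∀ {a b c d a' b' c' d' : ℤ}, P a b c d → P a' b' c' d' → a' * d' - b' * c' = 1 →
      P (a * a' + b * c') (a * b' + b * d') (c * a' + d * c') (c * b' + d * d') := by
    intro a b c d a' b' c' d' h h' e z hz
    rw [← mob_mob (by omega) _ _ _ _ hz, h _ (im_mob_pos (by omega) hz), h' z hz]
  have pT : P 1 1 0 1 := fun z hz => by simpa [mob] using hT z hz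
  have pT' : P 1 (-1) 0 1 := fun z hz => by
    simpa [mob, sub_eq_add_neg] using (hT (z - 1) (by simpa using hz)).symm
  have pS : P 0 (-1) 1 0 := fun z hz => by simpa [mob] using hS z hz
  have pN : P (-1) 0 0 (-1) := fun z hz => by simp [mob]
  have pU : P 1 0 1 1 := by
    simpa using key (key (key pS pT' (by norm_num)) pS (by norm_num)) pN (by norm_num)
  have pU' : P 1 0 (-1) 1 := by
    simpa using key (key (key pS pT (by norm_num)) pS (by norm_num)) pN (by norm_num)
  intro g hg z hz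
  refine euclid (N := 1) (Or.inl rfl) P (fun a b c d _ => ⟨fun h => ?_, fun h => ?_⟩)
    (fun a b c d _ => ⟨fun h => ?_, fun h => ?_⟩) (fun z hz => by simp [mob]) pN _ _ _ _
    (by rw [Matrix.det_fin_two] at hg; linarith) z hz
  · simpa using key h pT (by norm_num)
  · simpa using key h pT' (by norm_num)
  · simpa using key h pU (by norm_num)
  · simpa using key h pU' (by norm_num)

theorem fa_zero {F : ℂ → ℂ} (hF : Hol F) (hT : ∀ z : ℂ, 0 < z.im → F (z + 1) = F z)
    (hS : ∀ z : ℂ, 0 < z.im → F (-1 / z) = F z) (h0 : Tendsto F atI (𝓝 0)) {z : ℂ}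
    (hz : 0 < z.im) : F z = 0 := by
  obtain ⟨A, hA⟩ := QE.exists_of_periodic hF hT (Bdd.of_tendsto h0)
  rw [(inv1_of_ST hT hS).const hA z hz]
  exact tendsto_nhds_unique hA.tendsto h0

theorem fa_three {G : Option (Fin 2) → ℂ → ℂ} (hG : ∀ i, Hol (G i))
    (hT : ∀ i (z : ℂ), 0 < z.im → G i (z + 1) = G (faT i) z)
    (hS : ∀ i (z : ℂ), 0 < z.im → G i (-1 / z) = G (faS i) z)
    (h0 : ∀ i, Tendsto (G i) atI (𝓝 0)) (i : Option (Fin 2)) {z : ℂ} (hz : 0 < z.im) :
    G i z = 0 := by
  have h : ∀ k : ℕ, G none z ^ (k + 1) + G (some 0) z ^ (k + 1) + G (some 1) z ^ (k + 1) = 0 := by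
    intro k
    refine fa_zero
      (F := fun z => G none z ^ (k + 1) + G (some 0) z ^ (k + 1) + G (some 1) z ^ (k + 1))
      (fun z hz => (((hG _ z hz).pow _).add ((hG _ z hz).pow _)).add ((hG _ z hz).pow _))
      (fun z hz => ?_) (fun z hz => ?_) ?_ hz
    · simp only [hT _ z hz]
      exact add_right_comm _ _ _
    · simp only [hS _ z hz]
      exact congr_arg (· + _) (add_comm _ _)
    · simpa using (((h0 none).pow (k + 1)).add ((h0 (some 0)).pow (k + 1))).add
        ((h0 (some 1)).pow (k + 1))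
  have h1 := h 0
  have h2 := h 1
  have h3 := h 2
  have e : ∀ u v w : ℂ, u ^ (0 + 1) + v ^ (0 + 1) + w ^ (0 + 1) = 0 →
      u ^ (1 + 1) + v ^ (1 + 1) + w ^ (1 + 1) = 0 →
      u ^ (2 + 1) + v ^ (2 + 1) + w ^ (2 + 1) = 0 → u = 0 := by
    intro u v w a b c
    have hw : w = -u - v := by linear_combination a
    subst hw
    refine pow_eq_zero_iff (n := 3) (by norm_num) |>.mp ?_
    linear_combination u / 2 * b + 1 / 3 * c
  rcases fa_cases i with rfl | rfl | rfl
  · exact e _ _ _ h1 h2 h3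
  · exact e _ (G none z) (G (some 1) z) (by linear_combination h1) (by linear_combination h2)
      (by linear_combination h3)
  · exact e _ (G none z) (G (some 0) z) (by linear_combination h1) (by linear_combination h2)
      (by linear_combination h3)

theorem fa_hol_th (i : Option (Fin 2)) : Hol (fth i) := fun z hz => by
  rcases i with _ | k
  · have h1 : DifferentiableAt ℂ (fun z : ℂ => jacobiTheta₂ (z / 2) z) z :=
      (hasFDerivAt_jacobiTheta₂ (z / 2) hz).differentiableAt.comp z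
        (f := fun z : ℂ => (z / 2, z)) (by fun_prop)
    exact DifferentiableAt.mul (by fun_prop) h1
  · exact differentiableAt_jacobiTheta₂_snd _ hz

theorem fa_hol_ph (i : Option (Fin 2)) : Hol (ph 2 i) := fun z hz => by
  have hi := rP_pos Nat.prime_two i
  have h1 : DifferentiableAt ℂ (fun z => Dl (act (rP 2 i) z)) z :=
    (qe_Dl.hol _ (act_pos hi hz)).comp z (hol_act hi.ne' z hz)
  refine (h1.const_mul _).div (DifferentiableAt.mul ?_ (qe_Dl.hol z hz))
    (mul_ne_zero (pow_ne_zero _ (den_ne' hi.ne' hz)) (Dl_ne hz))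
  unfold den
  fun_prop

theorem fa_lim_eul : Tendsto (fun z => eul (q1 z)) atI (𝓝 1) := by
  simpa [cc_toC, cc_P1] using qe_P1.tendsto

theorem fa_lim_three : Tendsto (jacobiTheta₂ 0) atI (𝓝 1) := by
  have h1 : Tendsto (fun τ : ℂ => Real.exp (-π * τ.im)) atI (𝓝 0) :=
    Real.tendsto_exp_atBot.comp (tendsto_comap.const_mul_atTop_of_neg (neg_lt_zero.mpr Real.pi_pos))
  have h2 := (isBigO_at_im_infty_jacobiTheta_sub_one.trans_tendsto h1).add_const 1
  simpa [jacobiTheta_eq_jacobiTheta₂] using h2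

theorem fa_lim_two : Tendsto (fun z : ℂ => jacobiTheta₂ (z / 2) z) atI (𝓝 2) := by
  have hs : Summable fun n : ℤ => ‖jacobiTheta₂_term n (I / 2) I‖ :=
    ((summable_jacobiTheta₂_term_iff _ _).mpr (by simp)).norm
  have hn : ∀ (n : ℤ) (z : ℂ), ‖jacobiTheta₂_term n (z / 2) z‖ =
      Real.exp (-(π * (n * (n + 1) : ℤ)) * z.im) := fun n z => by
    rw [norm_jacobiTheta₂_term]
    congr 1
    simp
    ring
  have h0 : ∀ n : ℤ, 0 ≤ n * (n + 1) := fun n => by nlinarith [sq_nonneg (2 * n + 1)]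
  have h := tendsto_tsum_of_dominated_convergence (𝓕 := atI)
    (f := fun z n => jacobiTheta₂_term n (z / 2) z)
    (g := fun n : ℤ => (if n = 0 then 1 else 0) + if n = -1 then 1 else 0) hs (fun n => ?_) ?_
  · rw [(hasSum_ite_eq (0 : ℤ) (1 : ℂ)).add (hasSum_ite_eq (-1 : ℤ) (1 : ℂ)) |>.tsum_eq,
      one_add_one_eq_two] at h
    exact h
  · by_cases a : n = 0
    · subst a
      simp [jacobiTheta₂_term]
    by_cases b : n = -1
    · subst b
      have : ∀ z : ℂ, jacobiTheta₂_term (-1) (z / 2) z = 1 := fun z => by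
        rw [jacobiTheta₂_term, ← Complex.exp_zero]
        congr 1
        push_cast
        ring
      simp [this]
    have hp : (0 : ℝ) < (n * (n + 1) : ℤ) := by
      exact_mod_cast (h0 n).lt_of_ne (mul_ne_zero a (by omega)).symm
    rw [if_neg a, if_neg b, add_zero, tendsto_zero_iff_norm_tendsto_zero]
    simp only [hn]
    exact Real.tendsto_exp_atBot.comp (tendsto_comap.const_mul_atTop_of_neg
      (neg_lt_zero.mpr (mul_pos Real.pi_pos hp)))
  · filter_upwards [tendsto_comap.eventually (eventually_ge_atTop (1 : ℝ))] with z hz n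
    have hp : (0 : ℝ) ≤ π * (n * (n + 1) : ℤ) :=
      mul_nonneg Real.pi_pos.le (by exact_mod_cast h0 n)
    rw [hn, hn, Real.exp_le_exp, I_im]
    nlinarith

theorem fa_lim (i : Option (Fin 2)) :
    Tendsto (fun z => fth i z ^ 24 / (ph 2 i z ^ 2 * Dl z)) atI (𝓝 1) := by
  rcases i with _ | k
  · have h2 : Tendsto (fun z => eul (q1 (2 * z))) atI (𝓝 1) := by
      simpa [Function.comp_def] using fa_lim_eul.comp (tendsto_affine two_pos 0)
    have h := ((fa_lim_two.pow 24).mul (fa_lim_eul.pow 24)).div ((h2.pow 48).const_mul (2 ^ 24))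
      (by norm_num)
    rw [show (2 : ℂ) ^ 24 * 1 ^ 24 / (2 ^ 24 * 1 ^ 48) = 1 by norm_num] at h
    refine h.congr' (ev_pos.mono fun z hz => ?_)
    have e1 := eul_ne hz
    have e2 : eul (q1 (2 * z)) ≠ 0 := eul_ne (by simpa using hz)
    have e3 := q1_ne z
    have e4 : q1 (2 * z) = q1 z ^ 2 := by simpa using q1_nat_mul 2 z
    have e5 : cexp (π * I * z / 4) ^ 24 = q1 z ^ 3 := by
      rw [q1, ← exp_nat_mul, ← exp_nat_mul]
      congr 1
      push_cast
      ring
    simp only [Pi.div_apply, fth_none, mul_pow, e5, ph_none, Dl_eq, Nat.cast_ofNat]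
    generalize eul (q1 (2 * z)) = u at e2
    rw [e4]
    field_simp
  · have ha : ∀ z : ℂ, act (rP 2 (some k)) z = ((1 / 2 : ℝ) : ℂ) * z + (k : ℕ) / 2 := fun z => by
      simp [rP, ut, act_of, mob]
      ring
    have h2 : Tendsto (fun z => eul (q1 (act (rP 2 (some k)) z))) atI (𝓝 1) := by
      simp only [ha]
      exact fa_lim_eul.comp (tendsto_affine one_half_pos _)
    have h3 : Tendsto (fth (some k)) atI (𝓝 1) := by
      rcases fa_cases (some k) with h | h | h
      · cases h
      · have := fa_lim_three.comp (tendsto_affine one_pos 1)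
        rw [h]
        refine this.congr fun z => ?_
        simp only [Function.comp_def, ofReal_one, one_mul, fa_theta_T, fth_zero, zero_add]
      · rw [h]
        exact fa_lim_three.congr fun z => (fth_one z).symm
    have h := ((h3.pow 24).mul (fa_lim_eul.pow 24)).div (h2.pow 48) (by norm_num)
    rw [show (1 : ℂ) ^ 24 * 1 ^ 24 / 1 ^ 48 = 1 by norm_num] at h
    refine h.congr' (ev_pos.mono fun z hz => ?_)
    have e1 := eul_ne hz
    have e2 := eul_ne (act_pos (rP_pos Nat.prime_two (some k)) hz)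
    have e3 := q1_ne z
    have e4 : q1 (act (rP 2 (some k)) z) ^ 2 = q1 z := by
      rw [← q1_nat_mul, ha, show ((2 : ℕ) : ℂ) * (((1 / 2 : ℝ) : ℂ) * z + (k : ℕ) / 2) =
        z + ((k : ℕ) : ℤ) by push_cast; ring, q1_add, q1_int, mul_one]
    have e5 : ph 2 (some k) z = Dl (act (rP 2 (some k)) z) * (Dl z)⁻¹ := by
      rw [ph, rP, phi_ut two_ne_zero]
      simp
    simp only [Pi.div_apply, e5, mul_pow, Dl_eq, e4]
    field_simp

/-- The product formula for the theta constants. -/
theorem fth_pow (i : Option (Fin 2)) {z : ℂ} (hz : 0 < z.im) :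
    fth i z ^ 24 = ph 2 i z ^ 2 * Dl z := by
  have hne : ∀ (i : Option (Fin 2)) {z : ℂ}, 0 < z.im → ph 2 i z ^ 2 * Dl z ≠ 0 := fun i z hz =>
    mul_ne_zero (pow_ne_zero _ (phi_ne (rP_pos Nat.prime_two i) hz)) (Dl_ne hz)
  have h := fa_three (G := fun i z => fth i z ^ 24 / (ph 2 i z ^ 2 * Dl z) - 1)
    (fun i z hz => (((fa_hol_th i z hz).pow 24).div
      (((fa_hol_ph i z hz).pow 2).mul (qe_Dl.hol z hz)) (hne i hz)).sub_const 1)
    (fun i z hz => by rw [fth_T, fa_ph_T i hz, fa_Dl_T hz])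
    (fun i z hz => by
      have h0 : z ≠ 0 := fun h => by simp [h] at hz
      rw [fth_S i hz, fa_ph_S i hz, fa_Dl_S hz, mul_left_comm,
        mul_div_mul_left _ _ (pow_ne_zero _ h0)])
    (fun i => by simpa using (fa_lim i).sub_const 1) i hz
  rwa [sub_eq_zero, div_eq_one_iff_eq (hne i hz)] at h

end Pool.Agent.B8
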