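import Pool.Agent.Lib.MP_696deb_nt.B8.ZB
import Pool.Agent.Lib.MP_696deb_nt.B6.LKb
import Pool.Agent.Lib.MP_696deb_nt.B6.UNc

/-! From the vanishing of the Selmer group to the central value. -/

set_option autoImplicit false

open Classical Complex Filter Topology
open scoped Real UpperHalfPlane

namespace Pool.Agent.B8

open Pool.Agent.Lib.MP_696deb_nt Pool.Agent.Lib.MP_696deb_nt.B2 Pool.Agent.B6 Pool.Agent.B4

theorem fn_tw [Cw] (g : Gam) (P : B6.EE) : B6.tw 1 g P = g • P := by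
  have := chi_sq 1 g
  rw [one_pow] at this
  rw [B6.tw, this, Units.val_one, one_smul]

theorem fn_loc [Cw] {ξ : Gam → B6.EE} {F : Type} [Field F] [CharZero F]
    (h : ∀ j : Qbar →+* AlgebraicClosure F, ∃ S, ∀ (s : Stmt.AbsGal F) (σ : Gam),
      (∀ x, j (σ x) = s (j x)) → ξ σ = B6.tw 1 σ S - S) : Stmt.LocTriv B6.Wu F ξ := fun j => by
  obtain ⟨S, hS⟩ := h j
  refine ⟨pmap j S, fun s (σ : Gam) k => ?_⟩
  have e : (s : AlgebraicClosure F →+* AlgebraicClosure F).comp j =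
      j.comp (σ : Qbar →+* Qbar) := RingHom.ext fun x => (k x).symm
  change pmap j (ξ σ) =
    pmap (s : AlgebraicClosure F →+* AlgebraicClosure F) (pmap j S) - pmap j S
  rw [hS s σ k, fn_tw, B6.smul_pt, map_sub, pmap_pmap, pmap_pmap, e]

theorem fn_isSel [Cw] {ξ : Gam → B6.EE} (h : B6.hSel 1 ξ) (hn : ∀ g, 2 • ξ g = 0) :
    Stmt.IsSel B6.Wu 2 ξ := by
  refine ⟨?_, hn, fun σ τ : Gam => (h.coc σ τ).trans (by rw [fn_tw]; rfl), fn_loc fun j => ?_,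
    fun p _ => fn_loc fun j => ?_⟩
  · let _ : TopologicalSpace B6.EE := ⊥
    have : DiscreteTopology B6.EE := ⟨rfl⟩
    exact (IsLocallyConstant.iff_continuous ξ).2 (continuousOn_univ.1 h.sm.continuousOn)
  · obtain ⟨k, hk⟩ := lk_real j
    obtain ⟨S, hS⟩ := h.inf
    refine ⟨B6.tw 1 k S - ξ k, fun s σ e => ?_⟩
    rcases hk s σ e with rfl | rfl
    · rw [h.one, B6.lk_tw_one, sub_self]
    · exact h.conj hS k
  · obtain ⟨w, hw⟩ := lk_plc p j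
    obtain ⟨S, hS⟩ := h.loc w
    exact ⟨S, fun s σ e => hS σ (hw s σ e)⟩

theorem fn_sel [Ce] (h : ∀ ξ, Stmt.IsSel B6.Wu 2 ξ → Stmt.Cohom B6.Wu 2 ξ 0) : Sel0 := by
  intro ξ h1 h2
  obtain ⟨S, a, b⟩ := h ξ (fn_isSel h1 h2)
  exact ⟨S, a, fun g => (sub_zero _).symm.trans (b g)⟩

/-- A supersingular curve has an odd number of points over the field with two elements. -/
theorem fn_odd {W : WeierstrassCurve (ZMod 2)} (h1 : W.a₁ = 0) (h3 : W.a₃ = 1) :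
    Odd (Nat.card W.toAffine.Point) := by
  have : Finite W.toAffine.Point := by
    refine Finite.of_injective (fun P : W.toAffine.Point => match P with
      | .zero => (none : Option (ZMod 2 × ZMod 2))
      | .some x y _ => some (x, y)) ?_
    rintro (_ | ⟨x, y, h⟩) (_ | ⟨x', y', h'⟩) e
    · rfl
    · cases e
    · cases e
    · cases e
      rfl
  refine Nat.not_even_iff_odd.1 fun e => ?_
  obtain ⟨P, hP⟩ := exists_prime_addOrderOf_dvd_card' (G := W.toAffine.Point) 2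
    (even_iff_two_dvd.1 e)
  have h2 := addOrderOf_nsmul_eq_zero P
  rw [hP, two_nsmul, add_eq_zero_iff_eq_neg] at h2
  rcases P with _ | ⟨x, y, h⟩
  · rw [← WeierstrassCurve.Affine.Point.zero_def, addOrderOf_zero] at hP
    omega
  · have := ((WeierstrassCurve.Affine.Point.some.injEq ..).mp h2).2
    rw [WeierstrassCurve.Affine.negY, h1, h3] at this
    revert this
    generalize x = x, y = y
    revert x y
    decide

theorem fn_even {W : WeierstrassCurve ℤ} (h1 : Even W.a₁) (h3 : Odd W.a₃) {c : ℤ}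
    (h : c = (2 : ℕ) + 1 - Nat.card (W.map (Int.castRingHom (ZMod 2))).toAffine.Point) :
    Even c := by
  rw [h]
  exact Odd.sub_odd (by decide) ((Int.odd_coe_nat _).2 (fn_odd
    ((ZMod.intCast_eq_zero_iff_even).2 h1) ((ZMod.intCast_eq_one_iff_odd).2 h3)))

theorem unit_of_sel (ta : TAStmt)
    (W : WeierstrassCurve ℤ) (N : ℕ) (hN : Squarefree N) (hN2 : Odd N) (hN3 : 3 < N)
    (hrad : ∀ p : ℕ, p.Prime → (p : ℤ) ∣ W.Δ → p ∣ N) (hc4 : IsCoprime W.c₄ W.Δ)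
    (hΔ : ∃ s : ℤ, W.Δ = -(N * s ^ 2)) (ha : Even W.a₁)
    (h2 : ∀ x : ℚ, 4 * x ^ 3 + W.b₂ * x ^ 2 + 2 * W.b₄ * x + W.b₆ ≠ 0)
    (hS : ∀ ξ, Stmt.IsSel (W.map (Int.castRingHom ℚ)) 2 ξ →
      Stmt.Cohom (W.map (Int.castRingHom ℚ)) 2 ξ 0)
    (f : CuspForm (CongruenceSubgroup.Gamma0 N) 2) (c : ℕ → ℤ) (hc : c 1 = 1)
    (hf : ∀ τ : ℍ, HasSum (fun n : ℕ => (c n : ℂ) * cexp (2 * π * I * τ) ^ n) (f τ))
    (hT : ∀ l : ℕ, l.Prime → ¬ l ∣ N → ∀ n : ℕ,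
      c (l * n) + (if l ∣ n then l * c (n / l) else 0) = c l * c n)
    (hU : ∀ p : ℕ, p.Prime → p ∣ N → c p ^ 2 = 1 ∧ ∀ n : ℕ, c (p * n) = c p * c n)
    (hW : ∀ τ τ' : ℍ, (τ' : ℂ) = -1 / (N * τ) → f τ' = -(N * τ ^ 2) * f τ)
    (hE : ∀ l : ℕ, l.Prime → ¬ l ∣ N →
      c l = l + 1 - Nat.card (W.map (Int.castRingHom (ZMod l))).toAffine.Point)
    (F : ℂ → ℂ) (hF : ∀ z : ℂ, F z = ∑' n : ℕ, (c n : ℂ) / n * cexp (2 * π * I * z) ^ n)
    (L : PeriodPair) (h4 : (W.c₄ : ℂ) = 12 * L.g₂) (h6 : (W.c₆ : ℂ) = 216 * L.g₃)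
    (k : ℤ) (hk : Odd k) (hL : ∀ γ ∈ CongruenceSubgroup.Gamma0 N, ∀ τ : ℍ,
      k * (F (γ • τ : ℍ) - F τ) ∈ L.lattice)
    (Ω : ℂ) (hΩ : Tendsto (fun y : ℝ => F (y * I)) (𝓝[>] 0) (𝓝 Ω)) :
    Even (c 2) ∧ ∀ m : ℤ, Odd m → m * ((k : ℚ) * Ω) / 2 ∉ L.lattice := by
  have h0 : W.Δ ≠ 0 := fun e => by
    obtain ⟨p, p1, p2⟩ := Nat.exists_infinite_primes (N + 1)
    exact absurd (Nat.le_of_dvd hN2.pos (hrad p p2 (e ▸ dvd_zero _))) (by omega)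
  let C : Ce := @Ce.mk (@Cs.mk ⟨W, h0⟩ N hN hN2 (by omega) hΔ hrad hc4 h2) ha hN3
  have k0 : (k : ℚ) ≠ 0 := Int.cast_ne_zero.2 fun e => by simp [e] at hk
  let D : GE.MD B6.Wu NN := ⟨hN.ne_zero, f, c, hc, hf, hT, hW, F, hF, L,
    ⟨B6.Wu_c₄.trans h4, B6.Wu_c₆.trans h6⟩, k, k0, by exact_mod_cast hL, Ω, hΩ⟩
  have ht : ∀ (l : ℕ) [Fact l.Prime], ¬ l ∣ 2 * N → c l = tr l B6.cub := fun l hl e => by
    rw [B6.cub_fun]
    refine (hE l hl.out fun k => e (k.mul_left _)).trans ?_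
    rw [card_mod (fun k => e (k ▸ dvd_mul_right _ _))
      (fun k => e ((hrad l hl.out k).mul_left _)) rfl rfl rfl, sub_sub_cancel]
    rfl
  have ev : Even (c 2) := fn_even ha a3_odd (hE 2 Nat.prime_two fun e => ne_two_of_dvd e rfl)
  refine ⟨ev, fun m hm e => ?_⟩
  have m0 : m ≠ 0 := fun e => by simp [e] at hm
  refine ta (mdMul D m0) (m * k) (by simp [mdMul, D]) (hm.mul hk) ⟨hU, ht, ev⟩ (fn_sel hS) ?_
  change (((m : ℚ) * (k : ℚ) : ℚ) : ℂ) * Ω / 2 ∈ L.lattice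
  rwa [Rat.cast_mul, Rat.cast_intCast, mul_assoc]

end Pool.Agent.B8
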