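import Pool.Agent.Lib.MP_696deb_nt.B8.Top
import Pool.Agent.Lib.MP_696deb_nt.B8.Fn
import Pool.Agent.Lib.MP_696deb_nt.B7.FinV

/-! Twists of the curves whose central value is a unit at two, or whose Selmer group vanishes. -/

set_option autoImplicit false

open Classical Complex Filter Topology
open scoped Real UpperHalfPlane

namespace Pool.Agent.B8

open Pool.Agent.Lib.MP_696deb_nt Pool.Agent.Lib.MP_696deb_nt.B2 Pool.Agent.B6 Pool.Agent.B4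
open Pool.Agent.B6.B7

open Pool.Agent.Lib.MP_696deb_nt.B4 Pool.Agent.B4.GE in
theorem ex_lim {N : ℕ} (hN : N ≠ 0) {f : CuspForm (CongruenceSubgroup.Gamma0 N) 2} {c : ℕ → ℤ}
    (hf : ∀ τ : ℍ, HasSum (fun n : ℕ => (c n : ℂ) * cexp (2 * π * I * τ) ^ n) (f τ))
    (hW : ∀ τ τ' : ℍ, (τ' : ℂ) = -1 / (N * τ) → f τ' = -(N * τ ^ 2) * f τ)
    {F : ℂ → ℂ} (hF : ∀ z : ℂ, F z = ∑' n : ℕ, (c n : ℂ) / n * cexp (2 * π * I * z) ^ n) :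
    ∃ Ω, Tendsto (fun y : ℝ => F (y * I)) (𝓝[>] 0) (𝓝 Ω) := by
  have : NeZero N := ⟨hN⟩
  have qe : QE (cf f) (PowerSeries.mk fun n => (c n : ℂ)) := QE.of_hasSum fun z hz => by
    simpa only [PowerSeries.coeff_mk, ← cf_coe, q1] using hf ⟨z, hz⟩
  obtain ⟨Ω, -, h2⟩ := gl_fricke hN qe (tendsto_nhds_unique qe.tendsto (by
    simpa only [act_one, den_one, one_pow, div_one] using cf_cusp f Matrix.det_one)) fun z hz => by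
    have k : 0 < (-1 / (N * z)).im := by
      simpa [act_of, mob] using act_pos (M := !![0, -1; (N : ℤ), 0])
        (by simpa using Nat.pos_of_ne_zero hN) hz
    simpa only [← cf_coe, neg_mul] using hW ⟨z, hz⟩ ⟨_, k⟩ rfl
  exact ⟨Ω, by simpa only [hF, prF, PowerSeries.coeff_mk, q1, mul_comm I] using h2⟩

theorem cnv_all
    (W : WeierstrassCurve ℤ) (N : ℕ) (hN : Squarefree N) (hN2 : Odd N) (hN3 : 3 < N)
    (hrad : ∀ p : ℕ, p.Prime → (p : ℤ) ∣ W.Δ → p ∣ N) (hc4 : IsCoprime W.c₄ W.Δ)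
    (h2 : ∀ x : ℚ, 4 * x ^ 3 + W.b₂ * x ^ 2 + 2 * W.b₄ * x + W.b₆ ≠ 0)
    (f : CuspForm (CongruenceSubgroup.Gamma0 N) 2) (c : ℕ → ℤ) (hc : c 1 = 1)
    (hf : ∀ τ : ℍ, HasSum (fun n : ℕ => (c n : ℂ) * cexp (2 * π * I * τ) ^ n) (f τ))
    (hT : ∀ l : ℕ, l.Prime → ¬ l ∣ N → ∀ n : ℕ,
      c (l * n) + (if l ∣ n then l * c (n / l) else 0) = c l * c n)
    (hU : ∀ p : ℕ, p.Prime → p ∣ N → c p ^ 2 = 1 ∧ ∀ n : ℕ, c (p * n) = c p * c n)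
    (hW : ∀ τ τ' : ℍ, (τ' : ℂ) = -1 / (N * τ) → f τ' = -(N * τ ^ 2) * f τ)
    (hE : ∀ l : ℕ, l.Prime → ¬ l ∣ N →
      c l = l + 1 - Nat.card (W.map (Int.castRingHom (ZMod l))).toAffine.Point)
    (F : ℂ → ℂ) (hF : ∀ z : ℂ, F z = ∑' n : ℕ, (c n : ℂ) / n * cexp (2 * π * I * z) ^ n)
    (L : PeriodPair) (h4 : (W.c₄ : ℂ) = 12 * L.g₂) (h6 : (W.c₆ : ℂ) = 216 * L.g₃)
    (k : ℚ) (hL : ∀ γ ∈ CongruenceSubgroup.Gamma0 N, ∀ τ : ℍ,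
      k * (F (γ • τ : ℍ) - F τ) ∈ L.lattice)
    (hH : (∃ Ω : ℂ, Tendsto (fun y : ℝ => F (y * I)) (𝓝[>] 0) (𝓝 Ω) ∧
        ∀ m : ℤ, Odd m → m * (k * Ω) / 2 ∉ L.lattice) ∨
      Even (c 2) ∧ Odd k.num ∧ (∃ s : ℤ, W.Δ = -(N * s ^ 2)) ∧
        ∀ ξ, Stmt.IsSel (W.map (Int.castRingHom ℚ)) 2 ξ →
          Stmt.Cohom (W.map (Int.castRingHom ℚ)) 2 ξ 0) :
    ∃ (C : Cs) (D : GE.MD (@B6.Wu C.toCw) (@NN C)), @WZ C.toCw = W ∧ @NN C = N ∧ D.c = c ∧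
      G5.Nw D ∧ ∀ d, Squarefree d → d % 4 = 1 ∨ Even (c 2) → @Cnv C D.c d := by
  rcases hH with ⟨Ω, hΩ, hH⟩ | ⟨a1, a2, a3, a4⟩
  · exact hyp_d W N hN hN2 (by omega) hrad hc4 h2 f c hc hf hT hU hW hE F hF L h4 h6 k hL Ω hΩ hH
  obtain ⟨Ω, hΩ⟩ := ex_lim hN.ne_zero hf hW hF
  have hL' : ∀ γ ∈ CongruenceSubgroup.Gamma0 N, ∀ τ : ℍ,
      k.num * (F (γ • τ : ℍ) - F τ) ∈ L.lattice := fun γ hγ τ => by
    have := nsmul_mem (hL γ hγ τ) k.den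
    rwa [nsmul_eq_mul, ← mul_assoc, ← Rat.cast_natCast, ← Rat.cast_mul, Rat.den_mul_eq_num,
      Rat.cast_intCast] at this
  have ha : Even W.a₁ := Int.not_odd_iff_even.1 fun j => by
    have n2 := hN2.not_two_dvd_nat
    obtain ⟨m, hm⟩ := card_even (W := W.map (Int.castRingHom (ZMod 2)))
      (ZMod.intCast_eq_one_iff_odd.2 j) (by
        rw [WeierstrassCurve.map_Δ]
        exact fun z => n2 (hrad 2 Nat.prime_two ((ZMod.intCast_zmod_eq_zero_iff_dvd _ 2).1 z)))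
    rw [hE 2 Nat.prime_two n2, hm, Int.even_iff] at a1
    omega
  exact hyp_d W N hN hN2 (by omega) hrad hc4 h2 f c hc hf hT hU hW hE F hF L h4 h6 k.num
    (by simpa only [Rat.cast_intCast] using hL') Ω hΩ
    (unit_of_sel ta_all W N hN hN2 hN3 hrad hc4 a3 ha h2 a4 f c hc hf hT hU hW hE F hF L h4 h6 _ a2
      hL' Ω hΩ).2

end Pool.Agent.B8
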