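import Pool.Agent.Lib.MP_696deb_nt.B8.ZA
import Pool.Agent.Lib.MP_60ff09_nt.Dih.ANb

/-! The form attached to a point of a class, and its theta series. -/

set_option autoImplicit false

open Complex
open scoped Classical Real

namespace Pool.Agent.B8
open Pool.Agent.Lib.MP_696deb_nt Pool.Agent.Lib.MP_696deb_nt.B2.CM Pool.Agent.Dih

variable {n c : ℕ} {τ z : ℂ} {x : Pc n c} {Q : Fm}

/-- The values of the norm on the lattice of a point, with their multiplicities. -/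
theorem lk_fib (ok : Ok n c) (hs : Squarefree n) (h : Rp n c τ x) : ∃ g : ℤ × ℤ → ℕ,
    (∀ v : ℤ × ℤ, (g v : ℝ) * τ.im = normSq (v.1 * τ + v.2) * (c * √n / 2)) ∧
      ∀ k, Nat.card (g ⁻¹' {k}) = rC n c x k := by
  obtain ⟨hτ, hv, rfl⟩ := h
  obtain ⟨a, b, h, -, e⟩ := exists_fo ok (cl _ (sp2 τ 1)) one_ne_zero
  obtain ⟨μ, μ0, e1⟩ := (cl_eq_iff (h.isIv ok hs) hv).1 e
  have a0 : (0 : ℝ) < a := Nat.cast_pos.2 (h.pos ok)
  have N0 := Complex.normSq_pos.2 μ0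
  have h2 : ∀ p : ℤ × ℤ, μ⁻¹ * (p.1 * τ + p.2) ∈ idl n c a b := fun p => by
    rw [← mul_mem_sc μ0, ← e1, mul_inv_cancel_left₀ μ0]
    exact mem_sp2.2 ⟨p.1, p.2, by rw [mul_one]⟩
  choose g _ _ hg _ using fun p => h.val (h2 p)
  refine ⟨g, fun p => ?_, fun k => ?_⟩
  · have h3 := hg p
    rw [map_mul, map_inv₀, inv_mul_eq_iff_eq_mul₀ N0.ne'] at h3
    rw [h3, h.im ok hτ e1]
    ring
  · rw [← e, rC_eq ok hs h, rq]
    refine Nat.card_eq_of_bijective (fun p : g ⁻¹' {k} => ⟨_, h2 p.1, (hg p.1).trans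
      (by rw [p.2])⟩) ⟨fun p q e => ?_, fun ⟨z, h3, h4⟩ => ?_⟩
    · obtain ⟨h3, h4⟩ := tau_indep hτ.ne' (x := p.1.1 - q.1.1) (y := p.1.2 - q.1.2) (by
        push_cast
        linear_combination mul_left_cancel₀ (inv_ne_zero μ0) (Subtype.mk.inj e))
      exact Subtype.ext (Prod.ext (sub_eq_zero.1 h3) (sub_eq_zero.1 h4))
    · obtain ⟨x, y, h5⟩ := mem_sp2.1 (e1.ge ((mul_mem_sc μ0).2 h3))
      have h6 : μ⁻¹ * (x * τ + y) = z := by rw [← mul_one (y : ℂ), ← h5, inv_mul_cancel_left₀ μ0]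
      refine ⟨⟨(x, y), ?_⟩, Subtype.ext h6⟩
      have h7 := hg (x, y)
      rw [h6, h4] at h7
      exact_mod_cast (mul_right_cancel₀ a0.ne' h7).symm

theorem lk_nsq (τ : ℂ) (u v : ℤ) :
    normSq (u * τ + v) = u ^ 2 * (τ.re ^ 2 + τ.im ^ 2) + 2 * u * v * τ.re + v ^ 2 := by
  simp only [normSq_apply, add_re, add_im, mul_re, mul_im, intCast_re, intCast_im]
  ring

/-- The form of a point. -/
structure Fp (n c : ℕ) (τ : ℂ) (x : Pc n c) (Q : Fm) : Prop where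
  disc : fdisc Q = -(n * c ^ 2)
  pos : 0 < Q.1
  val : ∀ u v : ℤ, (fval Q u v : ℝ) * τ.im = normSq (u * τ + v) * (c * √n / 2)
  rep : ∀ k : ℕ, rep Q k = rC n c x k

theorem lk_form (ok : Ok n c) (hs : Squarefree n) (h : Rp n c τ x) : ∃ Q, Fp n c τ x Q := by
  obtain ⟨g, hg, hk⟩ := lk_fib ok hs h
  have hτ := h.pos
  have n0 : (0 : ℝ) < n := by
    have := ok.gt
    exact_mod_cast (by omega : 0 < n)
  have c0 : (0 : ℝ) < c := Nat.cast_pos.2 (Nat.pos_of_ne_zero ok.ne)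
  have s0 : 0 < c * √n / 2 := by positivity
  have s2 : (c * √n / 2) ^ 2 = n * c ^ 2 / 4 := by
    rw [div_pow, mul_pow, Real.sq_sqrt n0.le]
    ring
  obtain ⟨s, es⟩ : ∃ s : ℝ, s = c * √n / 2 := ⟨_, rfl⟩
  rw [← es] at s0 s2
  simp only [lk_nsq, ← es] at hg
  have h1 := hg (1, 0)
  have h2 := hg (0, 1)
  have h3 := hg (1, 1)
  simp only [Int.cast_one, Int.cast_zero] at h1 h2 h3
  have hv : ∀ u v : ℤ, (fval ((g (1, 0) : ℤ), (g (1, 1) : ℤ) - g (1, 0) - g (0, 1), (g (0, 1) : ℤ))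
      u v : ℝ) * τ.im = (u ^ 2 * (τ.re ^ 2 + τ.im ^ 2) + 2 * u * v * τ.re + v ^ 2) * s := by
    intro u v
    simp only [fval]
    push_cast
    linear_combination ((u : ℝ) ^ 2 - u * v) * h1 + ((v : ℝ) ^ 2 - u * v) * h2 + u * v * h3
  have he : ∀ v : ℤ × ℤ, fval ((g (1, 0) : ℤ), (g (1, 1) : ℤ) - g (1, 0) - g (0, 1), (g (0, 1) : ℤ))
      v.1 v.2 = g v := fun v => by
    exact_mod_cast mul_right_cancel₀ hτ.ne' ((hv v.1 v.2).trans (hg v).symm)
  refine ⟨((g (1, 0) : ℤ), (g (1, 1) : ℤ) - g (1, 0) - g (0, 1), (g (0, 1) : ℤ)), ?_, ?_,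
    fun u v => ?_, fun k => ?_⟩
  · have h4 : (((g (1, 1) : ℝ) - g (1, 0) - g (0, 1)) ^ 2 - 4 * g (1, 0) * g (0, 1)) * τ.im ^ 2 =
        -(n * c ^ 2) * τ.im ^ 2 := by
      have e1 : (g (1, 0) : ℝ) * τ.im = (τ.re ^ 2 + τ.im ^ 2) * s := by linear_combination h1
      have e2 : (g (0, 1) : ℝ) * τ.im = s := by linear_combination h2
      have e3 : ((g (1, 1) : ℝ) - g (1, 0) - g (0, 1)) * τ.im = 2 * τ.re * s := by
        linear_combination h3 - h1 - h2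
      calc _ = (((g (1, 1) : ℝ) - g (1, 0) - g (0, 1)) * τ.im) ^ 2 -
            4 * (g (1, 0) * τ.im) * (g (0, 1) * τ.im) := by ring
        _ = _ := by rw [e1, e2, e3]; linear_combination -4 * τ.im ^ 2 * s2
    have h5 := mul_right_cancel₀ (pow_pos hτ 2).ne' h4
    simp only [fdisc]
    exact_mod_cast h5
  · have h4 : (0 : ℝ) < g (1, 0) * τ.im := by
      rw [h1]
      have : 0 < τ.re ^ 2 + τ.im ^ 2 := by positivity
      nlinarith
    exact Nat.cast_pos.2 (Nat.cast_pos.1 (pos_of_mul_pos_left h4 hτ.le))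
  · rw [lk_nsq, ← es]
    exact hv u v
  · rw [← hk, Dih.rep, ← Nat.card_coe_set_eq]
    congr 2
    ext v
    simp only [Set.mem_ofPred_eq, he, Set.mem_preimage, Set.mem_singleton_iff, Nat.cast_inj]

theorem Fp.neg (ok : Ok n c) (h : Fp n c τ x Q) : fdisc Q < 0 := by
  have h1 : 0 < n := by have := ok.gt; omega
  have h2 := ok.ne
  have : (0 : ℤ) < n * c ^ 2 := by positivity
  rw [h.disc]
  omega

theorem lk_summable (hD : fdisc Q < 0) (ha : 0 < Q.1) (hz : 0 < z.im) :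
    Summable fun v : ℤ × ℤ => q1 (fval Q v.1 v.2 * z / 2) := by
  refine Summable.of_norm ((summable_form hD ha (mul_pos Real.pi_pos hz)).congr fun v => ?_)
  rw [norm_q1]
  congr 1
  simp only [div_ofNat_im, mul_im, intCast_re, intCast_im]
  ring

/-- The series of a class. -/
noncomputable def TC (n c : ℕ) (x : Pc n c) (z : ℂ) : ℂ := ∑' k : ℕ, rC n c x k * q1 (k * z / 2)

theorem Fp.hasSum (ok : Ok n c) (h : Fp n c τ x Q) (hz : 0 < z.im) :
    HasSum (fun k : ℕ => (rC n c x k : ℂ) * q1 (k * z / 2))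
      (∑' v : ℤ × ℤ, q1 (fval Q v.1 v.2 * z / 2)) := by
  have := hasSum_rep (h.neg ok) h.pos (g := fun N => q1 (N * z / 2))
    (lk_summable (h.neg ok) h.pos hz)
  simpa only [h.rep, Int.cast_natCast] using this

theorem Fp.tc (ok : Ok n c) (h : Fp n c τ x Q) (hz : 0 < z.im) :
    TC n c x z = ∑' v : ℤ × ℤ, q1 (fval Q v.1 v.2 * z / 2) := (h.hasSum ok hz).tsum_eq

/-- The series of the character in terms of the series of the classes. -/
theorem lk_hasSum [Fintype (Pc n 2)] {ψ : Pc n 2 →* Z3} {g : ℕ → ℤ} (nb : NBStmt) (hn : Nk n)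
    (hg : ∀ k, gS ψ k = 2 * g k) (hz : 0 < z.im) :
    HasSum (fun k : ℕ => (g k : ℂ) * q1 (k * z / 2)) ((∑ x, bw (ψ x) * TC n 2 x z) / 2) := by
  have ok : Ok n 2 := hn.ok two_ne_zero
  have h1 : ∀ x : Pc n 2, HasSum (fun k : ℕ => (rC n 2 x k : ℂ) * q1 (k * z / 2)) (TC n 2 x z) :=
    fun x => by
      obtain ⟨τ, hτ⟩ := (nb n hn).1 2 x two_ne_zero
      obtain ⟨Q, hQ⟩ := lk_form ok hn.sqf hτ
      exact (hQ.hasSum ok hz).summable.hasSum
  have h2 := (hasSum_sum fun x (_ : x ∈ Finset.univ) => (h1 x).mul_left (bw (ψ x) : ℂ)).div_const 2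
  refine (funext fun k => ?_ : _ = fun k : ℕ => (g k : ℂ) * q1 (k * z / 2)) ▸ h2
  have h3 : ((∑ x, bw (ψ x) * rC n 2 x k : ℤ) : ℂ) = ((2 * g k : ℤ) : ℂ) := congrArg _ (hg k)
  push_cast at h3
  simp only [← mul_assoc, ← Finset.sum_mul, h3]
  ring

theorem lk_th [Fintype (Pc n 2)] {ψ : Pc n 2 →* Z3} {g : ℕ → ℤ} (nb : NBStmt) (hn : Nk n)
    (hg : ∀ k, gS ψ k = 2 * g k) (hz : 0 < z.im) :
    2 * Th g z = ∑ x, bw (ψ x) * TC n 2 x z := by
  rw [Th, (lk_hasSum nb hn hg hz).tsum_eq]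
  ring

end Pool.Agent.B8
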