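import Pool.Agent.Lib.MP_23455a_nt.H4.CNb
import Pool.Agent.Lib.MP_696deb_nt.B2.CMc

/-! Numbers of representations for the classes of an order. -/

set_option autoImplicit false

open Filter Topology Real NumberTheorySymbols
open scoped Classical

namespace Pool.Agent.B8
open Pool.Agent.Lib.MP_696deb_nt.B2.CM Pool.Agent.H3.T

/-- The first two coefficients of a form whose first coefficient is prime to the conductor. -/
def Fo (n c a : ℕ) (b : ℤ) : Prop := a.Coprime c ∧ ∃ k : ℤ, b ^ 2 + n * c ^ 2 = 4 * a * k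

/-- The number of representations by a form. -/
noncomputable def rq (n c a : ℕ) (b : ℤ) (k : ℕ) : ℕ :=
  Nat.card {z : ℂ // z ∈ idl n c a b ∧ Complex.normSq z = k * a}

/-- The number of representations by a class. -/
noncomputable def rC (n c : ℕ) (x : Pc n c) (k : ℕ) : ℕ :=
  if h : ∃ p : ℕ × ℤ, Fo n c p.1 p.2 ∧ cl _ (idl n c p.1 p.2) = x then
    rq n c h.choose.1 h.choose.2 k else 0

variable {n c a a' k p : ℕ} {b b' : ℤ} {τ μ : ℂ} {s : ℝ}

theorem Fo.pos (ok : Ok n c) (h : Fo n c a b) : 0 < a := by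
  obtain ⟨-, k, h⟩ := h
  refine Nat.pos_of_ne_zero ?_
  rintro rfl
  have h1 : 0 < n := by have := ok.gt; omega
  have h2 := ok.ne
  have : 0 < b ^ 2 + n * c ^ 2 := by positivity
  rw [h] at this
  simp at this

theorem Fo.isIv (ok : Ok n c) (hs : Squarefree n) (h : Fo n c a b) :
    IsIv (Oc n c) (idl n c a b) := by
  have a0 := h.pos ok
  obtain ⟨h1, k, h⟩ := h
  refine isIv_idl ok.m4 h (by omega) ?_
  obtain ⟨g, x, y, z, m', b', k', e1, e2, e3, e4⟩ := cmb_gcd a b k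
  have h2 : IsCoprime g c := (Nat.isCoprime_iff_coprime.2 h1).of_isCoprime_of_dvd_left ⟨m', e2⟩
  obtain ⟨u, hu⟩ := (Int.squarefree_natCast.2 hs g ((h2.mul_left h2).pow_right.dvd_of_dvd_mul_right
    ⟨4 * m' * k' - b' ^ 2, show (n : ℤ) * c ^ 2 = _ by
      rw [e2, e3, e4] at h
      linear_combination h⟩)).exists_left_inv
  exact ⟨u * x, u * y, u * z, by linear_combination u * e1 + hu⟩

theorem exists_fo (ok : Ok n c) (x : Pc n c) {M : ℕ} (hM : M ≠ 0) :
    ∃ a b, Fo n c a b ∧ a.Coprime M ∧ cl _ (idl n c a b) = x := by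
  obtain ⟨a, b, k, -, h1, h2, -, h3⟩ := exists_idl_coprime ok x (M := M * c)
    (by exact_mod_cast mul_ne_zero hM ok.ne)
  exact ⟨a, b, ⟨Nat.isCoprime_iff_coprime.1 h2.of_mul_right_right, k, h1⟩,
    Nat.isCoprime_iff_coprime.1 h2.of_mul_right_left, h3.symm⟩

theorem cnt_re (n c : ℕ) (b : ℤ) : (be n c b).re = b / 2 := by simp [be, dl]

theorem cnt_im (n c : ℕ) (b : ℤ) : (be n c b).im = c * √n / 2 := by simp [be, dl]

theorem cnt_det {p q p' q' : ℂ} (h : sp2 p' q' ≤ sp2 p q) : ∃ j : ℤ,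
    p'.re * q'.im - p'.im * q'.re = j * (p.re * q.im - p.im * q.re) := by
  obtain ⟨⟨x, y, rfl⟩, u, v, rfl⟩ := (sp2_le.1 h).imp mem_sp2.1 mem_sp2.1
  refine ⟨x * v - y * u, ?_⟩
  simp
  ring

theorem cnt_cov {p q : ℂ} (e : sp2 p q = sc μ (idl n c a b)) :
    |p.re * q.im - p.im * q.re| = Complex.normSq μ * a * (c * √n / 2) := by
  rw [idl, sc_sp2] at e
  obtain ⟨i, hi⟩ := cnt_det e.le
  obtain ⟨j, hj⟩ := cnt_det e.ge
  have h1 : (μ * (a : ℤ)).re * (μ * be n c b).im - (μ * (a : ℤ)).im * (μ * be n c b).re =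
      Complex.normSq μ * a * (c * √n / 2) := by
    simp [cnt_re, cnt_im, Complex.normSq_apply]
    ring
  have h2 : 0 ≤ Complex.normSq μ * a * (c * √n / 2) := by
    have := Complex.normSq_nonneg μ
    positivity
  rw [h1] at hi hj
  rw [hi] at hj ⊢
  rcases h2.eq_or_lt with h | h
  · rw [← h, mul_zero, abs_zero]
  have h3 : i * j = 1 := by
    have : (i : ℝ) * j = 1 := mul_right_cancel₀ h.ne' (by linear_combination -hj)
    exact_mod_cast this
  rcases Int.eq_one_or_neg_one_of_mul_eq_one h3 with rfl | rfl <;> simp [abs_of_pos h]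

set_option linter.unusedVariables false in
/-- The covolume. -/
theorem Fo.norm (ok : Ok n c) (h : Fo n c a b) (h' : Fo n c a' b')
    (e : idl n c a' b' = sc μ (idl n c a b)) : Complex.normSq μ * a = a' := by
  have h1 := cnt_cov e
  have h2 : 0 < n := by have := ok.gt; omega
  have h3 := ok.ne
  have h4 : 0 < c * √n / 2 := by positivity
  simp only [zero_mul, sub_zero, cnt_im, Int.cast_natCast, Complex.natCast_re,
    Complex.natCast_im] at h1
  rw [abs_of_nonneg (by positivity)] at h1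
  exact mul_right_cancel₀ h4.ne' h1.symm

set_option linter.unusedVariables false in
theorem Fo.im (ok : Ok n c) (h : Fo n c a b) (hτ : 0 < τ.im) (e : sp2 τ 1 = sc μ (idl n c a b)) :
    τ.im = Complex.normSq μ * a * (c * √n / 2) := by
  simpa [abs_of_pos hτ] using cnt_cov e

theorem Fo.val (h : Fo n c a b) {z : ℂ} (hz : z ∈ idl n c a b) : ∃ (k : ℕ) (x y : ℤ),
    Complex.normSq z = k * a ∧ 4 * a * k = x ^ 2 + n * c ^ 2 * y ^ 2 := by
  obtain ⟨-, k, h⟩ := h
  obtain ⟨x, y, rfl⟩ := mem_sp2.1 hz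
  obtain ⟨q, hq⟩ : ∃ q, q = a * x ^ 2 + b * x * y + k * y ^ 2 := ⟨_, rfl⟩
  have h1 : 4 * a * q = (2 * a * x + b * y) ^ 2 + n * c ^ 2 * y ^ 2 := by
    rw [hq]
    linear_combination -y ^ 2 * h
  have h2 : (q.toNat : ℤ) * a = q * a := by
    rcases Nat.eq_zero_or_pos a with rfl | a0
    · simp
    · rw [Int.toNat_of_nonneg (nonneg_of_mul_nonneg_right (a := 4 * (a : ℤ))
        (by rw [h1]; positivity) (by positivity))]
  refine ⟨q.toNat, 2 * a * x + b * y, y, ?_, by linear_combination h1 + 4 * h2⟩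
  have h3 : (q.toNat : ℝ) * a = q * a := by exact_mod_cast h2
  have h4 : (4 : ℝ) * a * q = (2 * a * x + b * y) ^ 2 + n * c ^ 2 * y ^ 2 := by exact_mod_cast h1
  simp only [Complex.normSq_apply, Complex.add_re, Complex.add_im, Complex.mul_re, Complex.mul_im,
    Complex.intCast_re, Complex.intCast_im, cnt_re, cnt_im, h3]
  push_cast
  linear_combination -h4 / 4 + y ^ 2 * c ^ 2 / 4 * Real.sq_sqrt (Nat.cast_nonneg (α := ℝ) n)

theorem rC_eq (ok : Ok n c) (hs : Squarefree n) (h : Fo n c a b) (k : ℕ) :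
    rC n c (cl _ (idl n c a b)) k = rq n c a b k := by
  have h1 : ∃ p : ℕ × ℤ, Fo n c p.1 p.2 ∧ cl _ (idl n c p.1 p.2) = cl (Oc n c) (idl n c a b) :=
    ⟨(a, b), h, rfl⟩
  rw [rC, dif_pos h1]
  obtain ⟨h2, h3⟩ := h1.choose_spec
  generalize h1.choose = q at h2 h3
  obtain ⟨μ, μ0, e⟩ := (cl_eq_iff (h2.isIv ok hs) (h.isIv ok hs)).1 h3
  refine Nat.card_congr ((Equiv.mulLeft₀ μ μ0).subtypeEquiv fun z => ?_)
  change _ ↔ μ * z ∈ _ ∧ Complex.normSq (μ * z) = _
  rw [← h2.norm ok h e, e, mul_mem_sc μ0, map_mul, mul_left_comm,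
    mul_right_inj' (Complex.normSq_pos.2 μ0).ne']

theorem Fo.rep (ok : Ok n c) (hs : Squarefree n) (h : Fo n c a b) (h' : Fo n c a' b')
    (e : cl (Oc n c) (idl n c a b) = cl _ (idl n c a' b')) :
    ∃ x y : ℤ, 4 * a * a' = x ^ 2 + n * c ^ 2 * y ^ 2 := by
  obtain ⟨μ, -, e⟩ := (cl_eq_iff (h.isIv ok hs) (h'.isIv ok hs)).1 e
  obtain ⟨z, hz, h1⟩ := mem_sc.1 (e.le (left_mem_sp2 _ _))
  obtain ⟨k, x, y, h2, h3⟩ := h.val hz
  have h4 := congrArg Complex.normSq h1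
  rw [map_mul, h2, mul_left_comm, h.norm ok h' e, Int.cast_natCast, Complex.normSq_natCast] at h4
  obtain rfl : k = a' := by
    exact_mod_cast mul_right_cancel₀ (Nat.cast_ne_zero.2 (h'.pos ok).ne') h4
  exact ⟨x, y, h3⟩

/-- The Eisenstein series as a Dirichlet series. -/
theorem cnt_series (ok : Ok n c) (hs : Squarefree n) (hτ : 0 < τ.im)
    (hv : IsIv (Oc n c) (sp2 τ 1)) (h1 : 1 < s) :
    HasSum (fun k : ℕ => (c * √n / 2) ^ s * (rC n c (cl _ (sp2 τ 1)) k * (k : ℝ) ^ (-s)))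
      (Ez τ s) := by
  obtain ⟨a, b, h, -, e⟩ := exists_fo ok (cl _ (sp2 τ 1)) one_ne_zero
  obtain ⟨μ, μ0, e1⟩ := (cl_eq_iff (h.isIv ok hs) hv).1 e
  have a0 : (0 : ℝ) < a := Nat.cast_pos.2 (h.pos ok)
  have N0 := Complex.normSq_pos.2 μ0
  have h2 : ∀ p : ℤ × ℤ, μ⁻¹ * (p.1 * τ + p.2) ∈ idl n c a b := fun p => by
    rw [← mul_mem_sc μ0, ← e1, mul_inv_cancel_left₀ μ0]
    exact mem_sp2.2 ⟨p.1, p.2, by rw [mul_one]⟩
  choose g _ _ hg _ using fun p => h.val (h2 p)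
  refine Eq.mp (congrArg (HasSum · _) (funext fun k => Eq.symm ?_))
    (((kl_summable hτ h1).mul_left (τ.im ^ s)).hasSum.tsum_fiberwise g)
  rw [tsum_congr (g := fun _ => (c * √n / 2) ^ s * (k : ℝ) ^ (-s)) fun p => ?_, tsum_const,
    nsmul_eq_mul, mul_left_comm, ← e, rC_eq ok hs h, rq]
  · congr 2
    refine (Nat.card_eq_of_bijective (fun p : g ⁻¹' {k} => ⟨_, h2 p.1, (hg p.1).trans
      (by rw [p.2])⟩) ⟨fun p q e => ?_, fun ⟨z, h3, h4⟩ => ?_⟩).symm
    · obtain ⟨h3, h4⟩ := tau_indep hτ.ne' (x := p.1.1 - q.1.1) (y := p.1.2 - q.1.2) (by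
        push_cast
        linear_combination mul_left_cancel₀ (inv_ne_zero μ0) (Subtype.mk.inj e))
      exact Subtype.ext (Prod.ext (sub_eq_zero.1 h3) (sub_eq_zero.1 h4))
    · obtain ⟨x, y, h5⟩ := mem_sp2.1 (e1.ge ((mul_mem_sc μ0).2 h3))
      have h6 : μ⁻¹ * (x * τ + y) = z := by rw [← mul_one (y : ℂ), ← h5, inv_mul_cancel_left₀ μ0]
      refine ⟨⟨(x, y), ?_⟩, Subtype.ext h6⟩
      have h7 := hg (x, y)
      rw [h6, h4] at h7
      exact_mod_cast (mul_right_cancel₀ a0.ne' h7).symm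
  · have h3 := hg p.1
    rw [map_mul, map_inv₀, inv_mul_eq_iff_eq_mul₀ N0.ne', show g p.1 = k from p.2, mul_comm (k : ℝ),
      ← mul_assoc] at h3
    rw [h3, h.im ok hτ e1, Real.mul_rpow (by positivity) (by positivity),
      Real.mul_rpow (x := _ * _) (by positivity) (by positivity), Real.rpow_neg (by positivity),
      mul_mul_mul_comm, mul_inv_cancel₀ (by positivity), one_mul]

theorem cnt_sc {I : Lt} (hμ : μ ≠ 0) (r : ℝ) :
    Nat.card {z : ℂ // z ∈ sc μ I ∧ Complex.normSq z = Complex.normSq μ * r} =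
      Nat.card {z : ℂ // z ∈ I ∧ Complex.normSq z = r} :=
  (Nat.card_congr ((Equiv.mulLeft₀ μ hμ).subtypeEquiv fun z => by
    rw [Equiv.mulLeft₀_apply, mul_mem_sc hμ, map_mul,
      mul_right_inj' (Complex.normSq_pos.2 hμ).ne'])).symm

theorem cnt_nsq (n c : ℕ) (u v b : ℤ) :
    4 * Complex.normSq (u + v * be n c b) = ((2 * u + v * b) ^ 2 + n * (c * v) ^ 2 : ℤ) := by
  have := Real.mul_self_sqrt (Nat.cast_nonneg n : (0 : ℝ) ≤ n)
  simp only [Complex.normSq_apply, be, dl, Complex.add_re, Complex.mul_re, Complex.add_im,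
    Complex.mul_im, Complex.div_ofNat_re, Complex.div_ofNat_im, Complex.intCast_re,
    Complex.intCast_im, Complex.natCast_re, Complex.natCast_im, Complex.ofReal_re,
    Complex.ofReal_im, Complex.I_re, Complex.I_im]
  push_cast
  linear_combination (c * v) ^ 2 * this

end Pool.Agent.B8
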