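import Pool.Agent.Lib.MP_23455a_nt.H4.CNs
import Pool.Agent.Lib.MP_696deb_nt.B8.RPa

/-! Ideals of an imaginary quadratic field as lattices. -/

set_option autoImplicit false

open NumberField Filter Topology Real NumberTheorySymbols
open scoped Classical nonZeroDivisors

namespace Pool.Agent.B8
open Pool.Agent.Lib.MP_696deb_nt.B2.CM Pool.Agent.H3.T

variable {n : ℕ} {K : Type} [Field K] [NumberField K]

theorem ex_prim (hs : Squarefree n) {a b k : ℤ} (h : b ^ 2 + n * (1 : ℕ) ^ 2 = 4 * a * k) :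
    ∃ x y z : ℤ, x * a + y * b + z * k = 1 := by
  obtain ⟨g, x, y, z, m', b', k', e1, e2, e3, e4⟩ := cmb_gcd a b k
  obtain ⟨u, hu⟩ := (Int.squarefree_natCast.2 hs g ⟨4 * m' * k' - b' ^ 2, by
    rw [e2, e3, e4] at h
    push_cast at h
    linear_combination h⟩).exists_left_inv
  exact ⟨u * x, u * y, u * z, by linear_combination u * e1 + hu⟩

theorem ex_ne (ok : Ok n 1) {a : ℕ} {b k : ℤ} (h : b ^ 2 + n * (1 : ℕ) ^ 2 = 4 * a * k) :
    (0 : ℤ) < a := by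
  refine Nat.cast_pos.2 (Nat.pos_of_ne_zero ?_)
  rintro rfl
  have := ok.gt
  have := sq_nonneg b
  push_cast at h
  omega

/-- The lattice of an ideal. -/
noncomputable def fihL (ι : K →+* ℂ) (a : Ideal (𝓞 K)) : Lt :=
  (a.restrictScalars ℤ).map (ι.comp (algebraMap (𝓞 K) K)).toIntAlgHom.toLinearMap

section

variable {ι : K →+* ℂ} {a a' : Ideal (𝓞 K)}

omit [NumberField K] in
theorem fih_mem {z : ℂ} : z ∈ fihL ι a ↔ ∃ x ∈ a, ι (x : K) = z := Iff.rfl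

omit [NumberField K] in
theorem fih_inj (h : fihL ι a = fihL ι a') : a = a' := by
  have key : ∀ {b b' : Ideal (𝓞 K)}, fihL ι b = fihL ι b' → b ≤ b' := fun {b b'} e x hx => by
    obtain ⟨y, hy, e'⟩ := fih_mem.1 (e ▸ fih_mem.2 ⟨x, hx, rfl⟩ : ι (x : K) ∈ fihL ι b')
    rwa [← RingOfIntegers.ext (ι.injective e')]
  exact le_antisymm (key h) (key h.symm)

omit [NumberField K] in
theorem fih_sc (x : 𝓞 K) : fihL ι (Ideal.span {x} * a) = sc (ι x) (fihL ι a) := by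
  ext z
  rw [fih_mem, mem_sc]
  constructor
  · rintro ⟨y, hy, rfl⟩
    obtain ⟨w, hw, rfl⟩ := Ideal.mem_span_singleton_mul.1 hy
    exact ⟨_, fih_mem.2 ⟨w, hw, rfl⟩, by simp⟩
  · rintro ⟨_, ⟨w, hw, rfl⟩, rfl⟩
    exact ⟨x * w, Ideal.mem_span_singleton_mul.2 ⟨w, hw, rfl⟩, by simp⟩

omit [NumberField K] in
theorem fih_ne {x : 𝓞 K} (hx : x ≠ 0) : ι (x : K) ≠ 0 := by simpa using hx

theorem fih_beta (hn : n % 4 = 3) {δ : K} (hδ : δ ^ 2 = -n) (ι : K →+* ℂ) :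
    ∃ β : 𝓞 K, ι β = be n 1 1 ∧ (β : K) ^ 2 = β - (((n : ℤ) + 1) / 4 : ℤ) := by
  obtain ⟨e, he, h2⟩ : ∃ e : K, ι e = dl n ∧ e ^ 2 = -n := by
    have h : ι δ ^ 2 = dl n ^ 2 := by rw [← map_pow, hδ, dl_sq]; simp
    rcases sq_eq_sq_iff_eq_or_eq_neg.1 h with h | h
    · exact ⟨δ, h, hδ⟩
    · exact ⟨-δ, by rw [map_neg, h, neg_neg], by rw [neg_sq, hδ]⟩
  have h4 : (4 : K) * ((((n : ℤ) + 1) / 4 : ℤ) : K) = n + 1 := by
    exact_mod_cast congrArg (Int.cast : ℤ → K) (cma_four hn)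
  have h5 : ((1 + e) / 2) ^ 2 = (1 + e) / 2 - ((((n : ℤ) + 1) / 4 : ℤ) : K) := by
    linear_combination h2 / 4 + h4 / 4
  have h6 : IsIntegral ℤ ((1 + e) / 2) := by
    refine ⟨Polynomial.X ^ 2 - Polynomial.X + Polynomial.C (((n : ℤ) + 1) / 4), by monicity!, ?_⟩
    rw [Polynomial.eval₂_add, Polynomial.eval₂_sub, Polynomial.eval₂_X_pow, Polynomial.eval₂_X,
      Polynomial.eval₂_C, h5, eq_intCast]
    ring
  refine ⟨⟨_, h6⟩, ?_, h5⟩
  change ι ((1 + e) / 2) = _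
  simp [be, he, map_ofNat]

omit [NumberField K] in
theorem fih_Oc (hn : n % 4 = 3) {β : 𝓞 K} (hβ : ι β = be n 1 1) {u : ℂ} (hu : u ∈ Oc n 1) :
    ∃ x : 𝓞 K, ι x = u := by
  obtain ⟨x, y, -, rfl⟩ := (mem_Oc hn).1 hu
  exact ⟨x + y * β, by simp [el, hβ]⟩

end

variable {ι : K →+* ℂ} {τ : ℂ} {s : ℝ} {I I' : Ideal (𝓞 K)}

theorem cnr_sqf (h : Qd K (-n)) : Squarefree n :=
  Int.squarefree_natCast.1 (h.sqf.squarefree_of_dvd (dvd_neg.2 dvd_rfl))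

theorem cnr_beta (ok : Ok n 1) (h : Qd K (-n)) (ι : K →+* ℂ) : ∃ β : 𝓞 K, ι β = be n 1 1 := by
  obtain ⟨δ, hδ⟩ := h.root
  obtain ⟨β, hβ, -⟩ := fih_beta ok.m4 (δ := δ) (by rw [hδ]; push_cast; rfl) ι
  exact ⟨β, hβ⟩

theorem cnr_mem (ok : Ok n 1) (h : Qd K (-n)) (ι : K →+* ℂ) (x : 𝓞 K) : ι x ∈ Oc n 1 := by
  obtain ⟨-, β, hβ, hx⟩ := h.basis
  obtain ⟨a, b, rfl⟩ := hx x
  have h1 : (2 * ι β - 1) ^ 2 = dl n ^ 2 := by
    have := congrArg (fun y : 𝓞 K => ι y) hβ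
    rw [dl_sq]
    simpa [map_ofNat] using this
  have h2 : be n 1 1 ∈ Oc n 1 := be_mem ok.m4 (by simp)
  have h3 : ι β ∈ Oc n 1 := by
    rcases sq_eq_sq_iff_eq_or_eq_neg.1 h1 with e | e
    · have : ι β = be n 1 1 := by
        simp only [be]; push_cast; linear_combination e / 2
      rwa [this]
    · have : ι β = 1 - be n 1 1 := by
        simp only [be]; push_cast; linear_combination e / 2
      rw [this]
      exact sub_mem (one_mem _) h2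
  have : ι ((a + b * β : 𝓞 K) : K) = a + b * ι β := by simp
  rw [this]
  exact add_mem (intCast_mem _ a) (mul_mem (intCast_mem _ b) h3)

theorem cnr_top (ok : Ok n 1) (h : Qd K (-n)) : fihL ι ⊤ = ot (Oc n 1) := by
  obtain ⟨β, hβ⟩ := cnr_beta ok h ι
  ext z
  refine ⟨?_, fun hz => ?_⟩
  · rintro ⟨x, -, rfl⟩
    exact cnr_mem ok h ι x
  · obtain ⟨x, rfl⟩ := fih_Oc ok.m4 hβ hz
    exact fih_mem.2 ⟨x, trivial, rfl⟩

omit [NumberField K] in
theorem cnr_mul (I I' : Ideal (𝓞 K)) : fihL ι (I * I') = fihL ι I * fihL ι I' := by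
  rw [fihL, Ideal.restrictScalars_mul, Submodule.map_mul]
  rfl

theorem cnr_span (ok : Ok n 1) (h : Qd K (-n)) (x : 𝓞 K) :
    fihL ι (Ideal.span {x}) = sc (ι x) (ot (Oc n 1)) := by
  rw [← cnr_top (ι := ι) ok h, ← fih_sc, Ideal.mul_top]

theorem cnr_ot (ok : Ok n 1) (h : Qd K (-n)) (I : Ideal (𝓞 K)) :
    fihL ι I * ot (Oc n 1) = fihL ι I := by
  rw [← cnr_top (ι := ι) ok h, ← cnr_mul, Ideal.mul_top]

theorem cnr_iv (ok : Ok n 1) (h : Qd K (-n)) (hI : I ≠ ⊥) : IsIv (Oc n 1) (fihL ι I) := by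
  obtain ⟨x, hx, x0⟩ := (Submodule.ne_bot_iff _).1 hI
  obtain ⟨J, hJ⟩ := Ideal.dvd_iff_le.2 ((Ideal.span_singleton_le_iff_mem I).2 hx)
  refine ⟨cnr_ot ok h I, sc (ι x)⁻¹ (fihL ι J), ?_⟩
  rw [mul_sc, ← cnr_mul, ← hJ, cnr_span ok h, sc_inv_sc (fih_ne x0)]

/-- The ideals that belong to forms. -/
theorem cnr_idl (ok : Ok n 1) (h : Qd K (-n)) {a : ℕ} {b k : ℤ}
    (e : b ^ 2 + n * (1 : ℕ) ^ 2 = 4 * a * k) :
    ∃ I : Ideal (𝓞 K), fihL ι I = idl n 1 a b ∧ Ideal.absNorm I = a := by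
  obtain ⟨β, hβ⟩ := cnr_beta ok h ι
  have n0 : 0 < n := by have := ok.gt; omega
  have h1 := isIv_idl ok.m4 e (ex_ne ok e).ne' (ex_prim (cnr_sqf h) e)
  let J : Ideal (𝓞 K) :=
    { carrier := {x | ι x ∈ idl n 1 a b}
      add_mem' := fun {x y} hx hy => by simpa using add_mem hx hy
      zero_mem' := by simp
      smul_mem' := fun r x hx => by simpa using h1.mul_mem (cnr_mem ok h ι r) hx }
  have hJ : ∀ x, x ∈ J ↔ ι x ∈ idl n 1 a b := fun _ => Iff.rfl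
  refine ⟨J, ?_, ?_⟩
  · ext z
    refine ⟨?_, fun hz => ?_⟩
    · rintro ⟨x, hx, rfl⟩
      exact hx
    · obtain ⟨x, rfl⟩ := fih_Oc ok.m4 hβ (idl_le ok.m4 e hz)
      exact fih_mem.2 ⟨x, hz, rfl⟩
  · let f : ℤ →+* 𝓞 K ⧸ J := (Ideal.Quotient.mk J).comp (Int.castRingHom _)
    have f1 : Function.Surjective f := fun y => by
      obtain ⟨x, rfl⟩ := Ideal.Quotient.mk_surjective y
      have hx : ι x ∈ ot (Oc n 1) := cnr_mem ok h ι x
      rw [cmb_ot ok.m4 e] at hx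
      obtain ⟨u, v, huv⟩ := mem_sp2.1 hx
      refine ⟨u, (Ideal.Quotient.eq.2 ((hJ _).2 (mem_sp2.2 ⟨0, v, ?_⟩))).symm⟩
      have : ι ((x - Int.castRingHom (𝓞 K) u : 𝓞 K) : K) = ι x - u := by simp
      rw [this, huv]
      push_cast
      ring
    have f2 : RingHom.ker f = Ideal.span {(a : ℤ)} := by
      ext t
      rw [RingHom.mem_ker, Ideal.mem_span_singleton]
      refine Ideal.Quotient.eq_zero_iff_mem.trans ((hJ _).trans ?_)
      have : ι ((Int.castRingHom (𝓞 K) t : 𝓞 K) : K) = t := by simp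
      rw [this, idl, mem_sp2]
      constructor
      · rintro ⟨u, v, huv⟩
        have := (be_indep (b := b) n0 one_ne_zero (x := u * a - t) (y := v) (by
          push_cast at huv ⊢
          linear_combination -huv)).1
        exact ⟨u, by linear_combination -this⟩
      · rintro ⟨u, rfl⟩
        exact ⟨u, 0, by push_cast; ring⟩
    rw [Ideal.absNorm_apply, Submodule.cardQuot_apply,
      ← Nat.card_congr (RingHom.quotientKerEquivOfSurjective f1).toEquiv, f2,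
      Nat.card_congr (Int.quotientSpanNatEquivZMod a).toEquiv, Nat.card_zmod]

theorem cnr_prime (ok : Ok n 1) (h : Qd K (-n)) {p : ℕ} (hp : p.Prime)
    (e : Ideal.absNorm I = p) :
    ∃ b k : ℤ, b ^ 2 + n * (1 : ℕ) ^ 2 = 4 * p * k ∧ fihL ι I = idl n 1 p b := by
  obtain ⟨β, hβ⟩ := cnr_beta ok h ι
  have := Fact.mk hp
  have h1 : (1 : 𝓞 K ⧸ I) ≠ 0 := fun e1 => by
    have : I = ⊤ := (Ideal.eq_top_iff_one I).2 (Ideal.Quotient.eq_zero_iff_mem.1 e1)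
    rw [this, Ideal.absNorm_top] at e
    exact hp.one_lt.ne e
  obtain ⟨u, hu⟩ := AddSubgroup.mem_zmultiples_iff.1 (mem_zmultiples_of_prime_card
    (p := p) (G := 𝓞 K ⧸ I) (by rw [← e, Ideal.absNorm_apply, Submodule.cardQuot_apply])
    (g' := Ideal.Quotient.mk I β) h1)
  have h2 : β - u ∈ I := Ideal.Quotient.eq.1 (by rw [← hu]; simp)
  have h3 : ι ((β - u : 𝓞 K) : K) = be n 1 (1 + 2 * -u) := by
    rw [cmc_be_add, ← hβ]
    simp [sub_eq_add_neg]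
  obtain ⟨q, hq⟩ : ∃ q : ℤ, (1 + 2 * -u) ^ 2 + n * (1 : ℕ) ^ 2 = 4 * q :=
    ⟨u ^ 2 - u + ((n : ℤ) + 1) / 4, by push_cast; linear_combination -cma_four ok.m4⟩
  have h4 : (q : 𝓞 K) = (β - u) * ((1 + 2 * -u : ℤ) - (β - u)) := by
    refine RingOfIntegers.ext (ι.injective ?_)
    have : ι (((β - u) * ((1 + 2 * -u : ℤ) - (β - u)) : 𝓞 K) : K) =
        ι ((β - u : 𝓞 K) : K) * (((1 + 2 * -u : ℤ) : ℂ) - ι ((β - u : 𝓞 K) : K)) := by
      simp [map_ofNat]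
    rw [this, h3]
    have h5 : ι ((q : 𝓞 K) : K) = q := by simp
    rw [h5]
    linear_combination be_sq hq
  have h5 : (p : ℤ) ∣ q := by
    have h6 : (q : 𝓞 K) ∈ I := h4 ▸ I.mul_mem_right _ h2
    have := Ideal.absNorm_dvd_norm_of_mem (x := algebraMap ℤ (𝓞 K) q) h6
    rw [e, Algebra.norm_algebraMap] at this
    exact (Nat.prime_iff_prime_int.1 hp).dvd_of_dvd_pow this
  obtain ⟨k, rfl⟩ := h5
  rw [← mul_assoc] at hq
  refine ⟨_, k, hq, ?_⟩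
  obtain ⟨J, j1, j2⟩ := cnr_idl (ι := ι) ok h hq
  have h6 : J ≤ I := fun x hx => by
    have h7 : fihL ι J ≤ fihL ι I := by
      rw [j1]
      exact sp2_le.2 ⟨fih_mem.2 ⟨p, e ▸ Ideal.absNorm_mem I, by simp⟩, fih_mem.2 ⟨_, h2, h3⟩⟩
    obtain ⟨y, hy, e'⟩ := fih_mem.1 (h7 (fih_mem.2 ⟨x, hx, rfl⟩))
    rwa [← RingOfIntegers.ext (ι.injective e')]
  obtain ⟨L, rfl⟩ := Ideal.dvd_iff_le.2 h6
  rw [map_mul, e, mul_eq_left₀ hp.ne_zero, Ideal.absNorm_eq_one_iff] at j2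
  rw [← j1, j2, Ideal.mul_top]

theorem cnr_norm (ok : Ok n 1) (h : Qd K (-n)) (ι : K →+* ℂ) (x : 𝓞 K) :
    (Ideal.absNorm (Ideal.span {x}) : ℝ) = Complex.normSq (ι x) := by
  obtain ⟨h1, h2⟩ := h.places_neg (by have := ok.gt; omega)
  have h3 := InfinitePlace.card_eq_nrRealPlaces_add_nrComplexPlaces K
  rw [h1, h2] at h3
  have : Subsingleton (InfinitePlace K) := Fintype.card_le_one_iff_subsingleton.1 h3.le
  have h4 := InfinitePlace.sum_mult_eq (K := K)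
  have h5 := InfinitePlace.prod_eq_abs_norm (x : K)
  rw [Fintype.sum_subsingleton _ (InfinitePlace.mk ι), h.rank] at h4
  rw [Fintype.prod_subsingleton _ (InfinitePlace.mk ι), h4, InfinitePlace.apply,
    ← Algebra.coe_norm_int] at h5
  rw [Ideal.absNorm_span_singleton, Complex.normSq_eq_norm_sq, h5, Nat.cast_natAbs]
  push_cast
  rfl

theorem cnr_neg (z : ℂ) (A : Subalgebra ℤ ℂ) : sc (-z) (ot A) = sc z (ot A) := by
  have key : ∀ z : ℂ, sc (-z) (ot A) ≤ sc z (ot A) := fun z w hw => by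
    obtain ⟨y, hy, rfl⟩ := mem_sc.1 hw
    exact mem_sc.2 ⟨-y, neg_mem hy, by ring⟩
  exact le_antisymm (key z) (by simpa using key (-z))

end Pool.Agent.B8
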