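import Pool.Agent.Lib.MP_696deb_nt.B8.ZC

/-! The cocycle attached to a family of square roots. -/

set_option autoImplicit false

open scoped Classical

namespace Pool.Agent.B8
open Pool.Agent.Lib.MP_696deb_nt Pool.Agent.Lib.MP_696deb_nt.B2 Pool.Agent.B6

variable [Cw] {P Q : B6.EE}

/-- The sign of a point of order two at a root. -/
noncomputable def seaS (P : B6.EE) (j : Fin 3) : ℤ := if P = 0 ∨ xco P = er j then 1 else -1

/-- The points of order two. -/
noncomputable def seaT (i : Fin 3) : B6.EE := tp (er i) (cub_er i)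

theorem seaS_zero (j : Fin 3) : seaS 0 j = 1 := if_pos (.inl rfl)

theorem seaS_T (i j : Fin 3) : seaS (seaT i) j = if i = j then 1 else -1 :=
  if_congr ⟨fun h => er_inj (h.resolve_left (tp_ne _ _)), fun h => .inr (congrArg er h)⟩ rfl rfl

theorem seaS_sq (P : B6.EE) (j : Fin 3) : seaS P j * seaS P j = 1 := by
  unfold seaS
  split_ifs <;> rfl

theorem sea_two : 2 • P = 0 ↔ P = 0 ∨ ∃ i, P = seaT i := by
  refine B6.two_eq_zero.trans (or_congr_right ⟨?_, ?_⟩)
  · rintro (h | h | h)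
    exacts [⟨0, h⟩, ⟨1, h⟩, ⟨2, h⟩]
  · rintro ⟨i, rfl⟩
    fin_cases i
    exacts [.inl rfl, .inr (.inl rfl), .inr (.inr rfl)]

theorem seaS_inj (hP : 2 • P = 0) (hQ : 2 • Q = 0) (h : ∀ j, seaS P j = seaS Q j) : P = Q := by
  have a : ∀ i : Fin 3, ¬ ∀ j, (1 : ℤ) = if i = j then 1 else -1 := by decide
  have b : ∀ i k : Fin 3, (∀ j, (if i = j then 1 else -1 : ℤ) = if k = j then 1 else -1) →
    i = k := by decide
  rcases sea_two.1 hP with rfl | ⟨i, rfl⟩ <;> rcases sea_two.1 hQ with rfl | ⟨k, rfl⟩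
  · rfl
  · exact (a k fun j => by rw [← seaS_T, ← h, seaS_zero]).elim
  · exact (a i fun j => by rw [← seaS_T, h, seaS_zero]).elim
  · rw [b i k fun j => by rw [← seaS_T, h, seaS_T]]

theorem seaS_add (hP : 2 • P = 0) (hQ : 2 • Q = 0) (j : Fin 3) :
    seaS (P + Q) j = seaS P j * seaS Q j := by
  have b : ∀ i k l j : Fin 3, i ≠ k → l ≠ i → l ≠ k → (if l = j then 1 else -1 : ℤ) =
    (if i = j then 1 else -1) * if k = j then 1 else -1 := by decide
  have h2 : 2 • (P + Q) = 0 := by rw [smul_add, hP, hQ, add_zero]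
  rcases sea_two.1 hP with rfl | ⟨i, rfl⟩
  · rw [zero_add, seaS_zero, one_mul]
  rcases sea_two.1 hQ with rfl | ⟨k, rfl⟩
  · rw [add_zero, seaS_zero, mul_one]
  rcases eq_or_ne i k with rfl | e
  · rw [← two_nsmul, hP, seaS_zero, seaS_sq]
  rcases sea_two.1 h2 with z | ⟨l, z⟩
  · exact (e (er_inj (congrArg xco ((eq_neg_of_add_eq_zero_left z).trans (B6.neg_two hQ))))).elim
  · rw [z, seaS_T, seaS_T, seaS_T]
    refine b i k l j e ?_ ?_ <;> rintro rfl
    exacts [tp_ne _ _ (add_eq_left.1 z), tp_ne _ _ (add_eq_right.1 z)]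

theorem seaS_surj {ε : Fin 3 → ℤ} (h : ∀ j, ε j = 1 ∨ ε j = -1) (h1 : ε 0 * ε 1 * ε 2 = 1) :
    ∃ P : B6.EE, 2 • P = 0 ∧ ∀ j, seaS P j = ε j := by
  have : (∀ j, 1 = ε j) ∨ ∃ i : Fin 3, ∀ j, (if i = j then 1 else -1) = ε j := by
    rcases h 0 with a | a <;> rcases h 1 with b | b <;> rcases h 2 with c | c <;>
      simp [a, b, c, Fin.forall_fin_succ, Fin.exists_fin_succ] at h1 ⊢
  rcases this with k | ⟨i, k⟩
  · exact ⟨0, smul_zero 2, fun j => (seaS_zero j).trans (k j)⟩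
  · exact ⟨seaT i, two_tp _ _, fun j => (seaS_T i j).trans (k j)⟩

theorem seaS_smul {g : Gam} {i j : Fin 3} (h : g (er i) = er j) (P : B6.EE) :
    seaS (g • P) j = seaS P i :=
  if_congr (or_congr (smul_eq_zero_iff_eq g) (by rw [B6.xco_smul, ← h, g.injective.eq_iff])) rfl rfl

theorem sea_two_smul (g : Gam) (h : 2 • P = 0) : 2 • g • P = 0 := by
  rw [smul_comm, h, smul_zero]

omit [Cw] in
theorem sea_sign {x y : Qbar} (h : x ^ 2 = y ^ 2) : ∃ ε : ℤ, (ε = 1 ∨ ε = -1) ∧ x = ε * y :=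
  (sq_eq_sq_iff_eq_or_eq_neg.1 h).elim (fun k => ⟨1, .inl rfl, by simpa using k⟩)
    fun k => ⟨-1, .inr rfl, by simpa using k⟩

omit [Cw] in
theorem sea_cancel {a b : ℤ} {y : Qbar} (hy : y ≠ 0) (h : a * y = b * y) : a = b :=
  Int.cast_injective (mul_right_cancel₀ hy h)

omit [Cw] in
theorem sea_stmt : SEaStmt := by
  intro _ A q hA A0 hq hAq
  choose r hr using fun i => IsAlgClosed.exists_pow_nat_eq (A i) two_pos
  have r0 : ∀ i, r i ≠ 0 := fun i k => A0 i (by rw [← hr, k, zero_pow two_ne_zero])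
  obtain ⟨σ, hσ⟩ := exists_pr
  have pre : ∀ (g : Gam) j, g (er ((σ g)⁻¹ j)) = er j := fun g j => by
    rw [hσ, Equiv.Perm.coe_inv, Equiv.apply_symm_apply]
  have nrm : Fx ⊤ (r 0 * r 1 * r 2) := fun g hg => by
    obtain ⟨ε, -, k⟩ := sea_sign (x := r 0 * r 1 * r 2) (y := q) (by
      rw [← hAq, mul_pow, mul_pow, hr, hr, hr])
    rw [k, map_mul, map_intCast, hq g hg]
  have ex : ∀ g : Gam, ∃ P : B6.EE, 2 • P = 0 ∧
      ∀ i j, g (er i) = er j → g (r i) = seaS P j * r j := fun g => by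
    choose ε hε k using fun j => sea_sign (x := g (r ((σ g)⁻¹ j))) (y := r j) (by
      rw [← map_pow, hr, hr, hA g trivial _ _ (pre g j)])
    obtain ⟨P, p1, p2⟩ := seaS_surj hε (sea_cancel
      (mul_ne_zero (mul_ne_zero (r0 0) (r0 1)) (r0 2)) (by
        have := Equiv.prod_comp (σ g)⁻¹ fun i => g (r i)
        simp only [k, Fin.prod_univ_three, ← map_mul, nrm g trivial] at this
        push_cast
        linear_combination this))
    refine ⟨P, p1, fun i j e => ?_⟩
    rw [p2, ← k, er_inj (g.injective (e.trans (pre g j).symm))]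
  choose ξ x2 hξ using ex
  refine ⟨r, ξ, ⟨hA, A0, hr, nrm, x2, fun g i j e => ?_⟩, ?_, fun g h => ?_, fun D => ⟨?_, ?_⟩⟩
  · rw [hξ g i j e, seaS]
    split_ifs with c
    · simpa using c
    · exact iff_of_false (fun k => absurd (sea_cancel (a := -1) (b := 1) (r0 j)
        (by simpa using k)) (by decide)) c
  · obtain ⟨U, u1, u2, u3⟩ := Sm.pi (H := ⊤) fun i => (sm_apply (er i)).comp₂ (sm_apply (r i))
      Prod.mk
    refine ⟨U, u1, u2, fun g hg h hh e => seaS_inj (x2 g) (x2 h) fun j => sea_cancel (r0 j) ?_⟩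
    have := congrFun (u3 g hg h hh e) ((σ g)⁻¹ j)
    rw [← hξ g _ j (pre g j), ← hξ h _ j ((congrArg Prod.fst this).symm.trans (pre g j))]
    exact congrArg Prod.snd this
  · refine seaS_inj (x2 _) (by rw [smul_add, x2, sea_two_smul g (x2 h), add_zero]) fun j =>
      sea_cancel (r0 j) ?_
    have e1 := pre g j
    have e2 := pre h ((σ g)⁻¹ j)
    rw [← hξ (g * h) _ j (by rw [AlgEquiv.mul_apply, e2, e1]), AlgEquiv.mul_apply, hξ h _ _ e2,
      map_mul, map_intCast, hξ g _ _ e1, seaS_add (x2 g) (sea_two_smul g (x2 h)), seaS_smul e1]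
    push_cast
    ring
  · rintro ⟨u, hu, hD⟩
    choose δ hδ k using fun i => sea_sign (x := u i) (y := r i) (by rw [hu, hr])
    obtain ⟨T, t1, t2⟩ := seaS_surj (ε := fun i => δ 0 * δ 1 * δ 2 * δ i) (fun i => by
      rcases hδ 0 with a | a <;> rcases hδ 1 with b | b <;> rcases hδ 2 with c | c <;>
        rcases hδ i with d | d <;> rw [d, a, b, c] <;> decide) (by
      rcases hδ 0 with a | a <;> rcases hδ 1 with b | b <;> rcases hδ 2 with c | c <;>
        rw [a, b, c] <;> decide)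
    refine ⟨T, t1, fun g hg => ?_⟩
    rw [sub_eq_add_neg, B6.neg_two t1]
    refine seaS_inj (x2 g) (by rw [smul_add, t1, sea_two_smul g t1, add_zero]) fun j => ?_
    have e := pre g j
    have := hD g hg _ _ e
    rw [k, k, map_mul, map_intCast, hξ g _ _ e, ← mul_assoc, ← Int.cast_mul] at this
    have := sea_cancel (r0 j) this
    rw [seaS_add (sea_two_smul g t1) t1, seaS_smul e, t2, t2, ← this]
    have s : ∀ i, δ i * δ i = 1 := fun i => by rcases hδ i with a | a <;> rw [a] <;> decide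
    generalize (σ g)⁻¹ j = i
    calc seaS (ξ g) j = δ 0 * δ 0 * (δ 1 * δ 1) * (δ 2 * δ 2) * (δ i * δ i) * seaS (ξ g) j := by
          simp only [s, one_mul]
      _ = _ := by ring
  · rintro ⟨T, t1, hT⟩
    refine ⟨fun i => seaS T i * r i, fun i => ?_, fun g hg i j e => ?_⟩
    · rw [mul_pow, hr, sq, ← Int.cast_mul, seaS_sq, Int.cast_one, one_mul]
    · rw [map_mul, map_intCast, hξ g i j e, hT g hg, sub_eq_add_neg, B6.neg_two t1,
        seaS_add (sea_two_smul g t1) t1, seaS_smul e, ← mul_assoc, ← Int.cast_mul, ← mul_assoc,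
        seaS_sq, one_mul]

end Pool.Agent.B8
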