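import Pool.Agent.Lib.MP_696deb_nt.B8.ZC

/-! The cocycle of a point. -/

set_option autoImplicit false

open scoped Classical
open WeierstrassCurve

namespace Pool.Agent.B8
open Pool.Agent.Lib.MP_696deb_nt Pool.Agent.Lib.MP_696deb_nt.B2 Pool.Agent.B6

section
variable [Cw] {x r s t a b c : Qbar} {Q Q' T : B6.EE}

/-- The half of a point that belongs to three square roots. -/
def Hq (x r s t : Qbar) (Q : B6.EE) : Prop := Q ≠ 0 ∧ xco Q = x + (r * s + r * t + s * t) ∧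
  2 * yco Q + WZ.a₁ * xco Q + WZ.a₃ = 2 * ((r + s) * (r + t) * (s + t))

theorem hq_ex (h0 : r ^ 2 = x - er 0) (h1 : s ^ 2 = x - er 1) (h2 : t ^ 2 = x - er 2) :
    ∃ Q, Hq x r s t Q := by
  obtain ⟨X, hX⟩ : ∃ X, X = x + (r * s + r * t + s * t) := ⟨_, rfl⟩
  obtain ⟨η, hη⟩ : ∃ η, η = 2 * ((r + s) * (r + t) * (s + t)) := ⟨_, rfl⟩
  have e1 : cub X = η ^ 2 := by
    rw [cub_eq, show er 0 = x - r ^ 2 by rw [h0]; ring, show er 1 = x - s ^ 2 by rw [h1]; ring,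
      show er 2 = x - t ^ 2 by rw [h2]; ring, hX, hη]
    ring
  have hq : (Wu.baseChange Qbar).toAffine.Nonsingular X ((η - WZ.a₁ * X - WZ.a₃) / 2) := by
    rw [Wu_nonsingular]
    simp only [cub, b₂, b₄, b₆] at e1
    push_cast at e1
    linear_combination (-1 / 4) * e1
  exact ⟨.some X _ hq, Affine.Point.some_ne_zero _, hX, by rw [xco_some, yco_some, ← hη]; ring⟩

theorem Hq.uniq (h : Hq x r s t Q) (k : Hq x r s t Q') : Q = Q' :=
  r0_ext h.1 k.1 (h.2.1.trans k.2.1.symm) (by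
    linear_combination (1 / 2) * h.2.2 - (1 / 2) * k.2.2 -
      (WZ.a₁ / 2 : Qbar) * (h.2.1.trans k.2.1.symm))

theorem Hq.rot (h : Hq x r s t Q) : Hq x s t r Q :=
  ⟨h.1, by rw [h.2.1]; ring, by rw [h.2.2]; ring⟩

theorem Hq.smul (h : Hq x r s t Q) {g : Gam} (hg : g x = x) : Hq x (g r) (g s) (g t) (g • Q) := by
  refine ⟨mt (smul_eq_zero_iff_eq g).1 h.1, ?_, ?_⟩
  · rw [B6.xco_smul, h.2.1]
    simp only [map_add, map_mul, hg]
  · have := congrArg g h.2.2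
    simpa only [B6.xco_smul, B6.yco_smul, map_add, map_mul, map_intCast, map_ofNat] using this

theorem Hq.perm {u : Fin 3 → Qbar} {σ : Equiv.Perm (Fin 3)}
    (h : Hq x (u (σ 0)) (u (σ 1)) (u (σ 2)) Q) : Hq x (u 0) (u 1) (u 2) Q := by
  have h1 := Equiv.sum_comp σ u
  have h2 := Equiv.sum_comp σ fun i => u i ^ 2
  have h3 := Equiv.prod_comp σ u
  simp only [Fin.sum_univ_three, Fin.prod_univ_three] at h1 h2 h3
  have h4 : u (σ 0) * u (σ 1) + u (σ 0) * u (σ 2) + u (σ 1) * u (σ 2) =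
      u 0 * u 1 + u 0 * u 2 + u 1 * u 2 := by
    linear_combination (1 / 2) * (u (σ 0) + u (σ 1) + u (σ 2) + u 0 + u 1 + u 2) * h1 - (1 / 2) * h2
  refine ⟨h.1, by rw [h.2.1, h4], ?_⟩
  rw [h.2.2]
  linear_combination 2 * (u (σ 0) + u (σ 1) + u (σ 2)) * h4 +
    2 * (u 0 * u 1 + u 0 * u 2 + u 1 * u 2) * h1 - 2 * h3

theorem Hq.add (h : Hq x r s t Q) (b2 : (WZ.b₂ : Qbar) = -4 * (a + b + c)) (n1 : a ≠ b)
    (n2 : a ≠ c) (h0 : r ^ 2 = x - a) (h1 : s ^ 2 = x - b) (h2 : t ^ 2 = x - c) (T0 : T ≠ 0)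
    (T2 : 2 • T = 0) (hT : xco T = a) : Hq x r (-s) (-t) (Q + T) := by
  obtain ⟨q0, q1, q2⟩ := h
  have e0 : (r + s) * (r + t) ≠ 0 := mul_ne_zero
    (fun k => n1 (by linear_combination h0 - h1 - (r - s) * k))
    fun k => n2 (by linear_combination h0 - h2 - (r - t) * k)
  have e1 : xco Q - a = (r + s) * (r + t) := by linear_combination q1 - h0
  have n : Q + T ≠ 0 := fun k => e0 (by
    rw [← e1, eq_neg_of_add_eq_zero_left k, xco_neg, hT, sub_self])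
  obtain ⟨l, ν, l1, l2, l3, l4, -⟩ := r0_line q0 T0 n
  rw [r0_two_y T0 T2] at l2
  rw [r0_neg n] at l3
  rw [hT] at l2 l4
  rw [b₂] at b2
  push_cast at b2
  obtain rfl : l = s + t - WZ.a₁ / 2 := mul_left_cancel₀ e0 (by
    linear_combination (1 / 2) * q2 - l1 + l2 - (l + WZ.a₁ / 2) * e1)
  have e2 : xco (Q + T) = x + (r * -s + r * -t + -s * -t) := by
    linear_combination l4 - q1 - (1 / 4) * b2 + h1 + h2
  refine ⟨n, e2, ?_⟩
  linear_combination -2 * l3 + 2 * l2 - 2 * (s + t) * e2 + 2 * (s + t) * h0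

end

theorem seb_stmt : SEbStmt := by
  intro _ A r ξ D P K _ _ hD ⟨u, hu, eu⟩
  obtain ⟨σ, hσ⟩ := exists_pr
  have r0 : ∀ i, r i ≠ 0 := fun i k => K.ne i (by rw [← K.sq, k, zero_pow two_ne_zero])
  obtain ⟨s, hs⟩ : ∃ s : Fin 3 → Qbar, ∀ i, s i = u i / r i := ⟨_, fun _ => rfl⟩
  have s2 : ∀ i, s i ^ 2 = xco P - er i := fun i => by
    rw [hs, div_pow, hu, K.sq, mul_div_cancel_left₀ _ (K.ne i)]
  obtain ⟨Q, hQ⟩ := hq_ex (s2 0) (s2 1) (s2 2)
  refine ⟨Q, fun g hg => eq_sub_of_add_eq' ?_⟩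
  have gx : g (xco P) = xco P := by rw [← B6.xco_smul, hD g hg]
  obtain ⟨t, ht⟩ : ∃ t : Fin 3 → Qbar, ∀ j,
      t j = if ξ g = 0 ∨ xco (ξ g) = er j then s j else -s j := ⟨_, fun _ => rfl⟩
  have gs : ∀ i, g (s i) = t (σ g i) := fun i => by
    have e := K.sgn g i _ (hσ g i)
    have f : g (r i) ^ 2 = r (σ g i) ^ 2 := by
      rw [← map_pow, K.sq, K.sq, K.eqv g trivial _ _ (hσ g i)]
    rw [ht, hs, hs, map_div₀, eu g hg _ _ (hσ g i)]
    split_ifs with k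
    · rw [e.2 k]
    · rw [(sq_eq_sq_iff_eq_or_eq_neg.1 f).resolve_left (mt e.1 k), div_neg]
  have h := hQ.smul gx
  rw [gs, gs, gs] at h
  have h := h.perm
  rw [ht, ht, ht] at h
  obtain ⟨n1, n2, n3⟩ := er_ne
  by_cases z : ξ g = 0
  · simp only [z, true_or, if_true] at h
    rw [z, add_zero]
    exact hQ.uniq h
  simp only [z, false_or] at h
  rcases cub_eq_zero.1 ((two_iff.1 (K.two g)).resolve_left z) with k | k | k
  · simp only [k, n1, n2, if_true, if_false] at h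
    exact (hQ.add er_b₂ n1 n2 (s2 0) (s2 1) (s2 2) z (K.two g) k).uniq h
  · simp only [k, n1.symm, n3, if_true, if_false] at h
    exact (hQ.rot.add (er_b₂.trans (by ring)) n3 n1.symm (s2 1) (s2 2) (s2 0) z (K.two g) k).uniq
      h.rot
  · simp only [k, n2.symm, n3.symm, if_true, if_false] at h
    exact (hQ.rot.rot.add (er_b₂.trans (by ring)) n2.symm n3.symm (s2 2) (s2 0) (s2 1) z (K.two g)
      k).uniq h.rot.rot

end Pool.Agent.B8
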