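import Pool.Agent.Lib.MP_696deb_nt.B8.ZC
import Pool.Agent.Lib.MP_696deb_nt.B6.TAa
import Pool.Agent.Lib.MP_696deb_nt.B6.TAf
import Pool.Agent.Lib.MP_696deb_nt.B6.TAh

/-! Unramified cocycles with values in the points of order two are locally trivial. -/

set_option autoImplicit false

open scoped Classical NNReal
open Matrix

namespace Pool.Agent.B8
open Pool.Agent.Lib.MP_696deb_nt Pool.Agent.Lib.MP_696deb_nt.B2 Pool.Agent.B6

section
variable [Cw] {w : Plc} {φ : Gam}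

/-- A cocycle that is a coboundary on inertia and at a Frobenius element. -/
theorem sec_gen {ξ : Gam → B6.EE} {S : B6.EE} (hφ : IsFrob w w.p φ) (hs : Sm ⊤ ξ)
    (hc : ∀ g h, ξ (g * h) = ξ g + g • ξ h) (e1 : ξ φ = φ • S - S)
    (e2 : ∀ σ ∈ Ine w, ξ σ = σ • S - S) : ∀ g ∈ Dec w, ξ g = g • S - S := by
  have k1 : ∀ g u : Gam, ξ g = g • S - S → ξ u = u • S - S → ξ (g * u) = (g * u) • S - S :=
    fun g u e e' => by
      rw [hc, e, e', smul_sub, mul_smul]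
      abel
  have k2 : ∀ j : ℕ, ξ (φ ^ j) = φ ^ j • S - S := fun j => by
    induction j with
    | zero => exact e2 _ (pow_zero φ ▸ one_mem _)
    | succ j ih => rw [pow_succ]; exact k1 _ _ ih e1
  obtain ⟨U, u1, -, u3⟩ := hs.comp₂ (B6.sm_pt ⊤ S) fun z P => z - (P - S)
  intro g hg
  obtain ⟨j, σ, hσ, k⟩ := dec_gen hφ hg u1
  exact sub_eq_zero.1 ((u3 _ trivial g trivial k.1).symm.trans
    (sub_eq_zero.2 (k1 _ _ (k2 j) (e2 σ hσ))))

theorem sec_lift (T : B6.TB) {P : B6.EE} (h : 2 • P = 0) : ∃ s : Fin 2 → ℤ_[2],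
    T.emb 1 (fun i => PadicInt.toZModPow 1 (s i)) = P := by
  obtain ⟨x, hx⟩ := T.surj 1 P h
  refine ⟨fun i => ((x i).val : ℤ_[2]), ?_⟩
  rw [← hx]
  exact congrArg _ (funext fun i => by rw [map_natCast, ZMod.natCast_zmod_val])

/-- A point of order two of the form `φ • S - S`. -/
theorem sec_pre (T : B6.TB) {u v : Fin 2 → ℤ_[2]} {a : ℤ_[2]} (ha : a ≠ 0)
    (h : T.ρ φ *ᵥ u - u = a • v) (hu : ∀ σ ∈ Ine w, T.ρ σ *ᵥ u = u) : ∃ S : B6.EE,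
      φ • S - S = T.emb 1 (fun i => PadicInt.toZModPow 1 (v i)) ∧ ∀ σ ∈ Ine w, σ • S = S := by
  obtain ⟨b, N, e⟩ : ∃ (b : ℤ_[2]ˣ) (N : ℕ), a = b * 2 ^ N := ⟨_, _, PadicInt.unitCoeff_spec ha⟩
  have h1 : T.ρ φ *ᵥ ((↑b⁻¹ : ℤ_[2]) • u) - (↑b⁻¹ : ℤ_[2]) • u = 2 ^ N • v := by
    rw [mulVec_smul, ← smul_sub, h, e, smul_smul, Units.inv_mul_cancel_left,
      ← Nat.cast_smul_eq_nsmul ℤ_[2]]
    norm_cast
  refine ⟨T.emb (1 + N) fun i => PadicInt.toZModPow (1 + N) (((↑b⁻¹ : ℤ_[2]) • u) i), ?_,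
    fun σ hσ => by rw [T.smul, tah_red, mulVec_smul, hu σ hσ]⟩
  rw [T.smul, tah_red, ← map_sub]
  have h2 := T.two 1 N fun i => PadicInt.toZModPow (1 + N) (v i)
  rw [← map_nsmul] at h2
  refine Eq.trans (congrArg _ (funext fun i => ?_)) (h2.trans (congrArg _ (funext fun i => ?_)))
  · rw [Pi.sub_apply, ← map_sub, Pi.smul_apply (2 ^ N), ← map_nsmul]
    exact congrArg _ (congrFun h1 i)
  · rw [ZMod.castHom_apply, PadicInt.cast_toZModPow _ _ (Nat.le_add_right 1 N)]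

theorem sec_good (T : B6.TB) (h2 : w.p ≠ 2) (hw : ¬ (w.p : ℤ) ∣ WZ.Δ) (hφ : IsFrob w w.p φ)
    {P : B6.EE} (hP : 2 • P = 0) : ∃ S : B6.EE, φ • S - S = P ∧ ∀ σ ∈ Ine w, σ • S = S := by
  obtain ⟨v, rfl⟩ := sec_lift T hP
  have hd := T.hasse w φ 1 1 h2 hw (by rwa [pow_one]) one_ne_zero
  rw [Units.val_one, one_smul] at hd
  refine sec_pre T hd (u := (T.ρ φ - 1).adjugate *ᵥ v) ?_ fun σ hσ => by
    rw [T.unr w h2 hw σ hσ, one_mulVec]
  conv_lhs => rw [← one_mulVec ((T.ρ φ - 1).adjugate *ᵥ v), mulVec_mulVec, mul_one, ← sub_mulVec]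
  rw [mulVec_mulVec, mul_adjugate, smul_mulVec, one_mulVec]

end

section
variable [Cs] {w : Plc} {φ : Gam}

theorem sec_TB : Nonempty B6.TB := by
  obtain ⟨p, hp, h⟩ := Nat.exists_prime_and_dvd NN_gt.ne'
  have h1 := (dvd_Δ hp).2 h
  have h2 := Nat.prime_iff_prime_int.1 hp
  have h3 : ¬ (p : ℤ) ∣ WZ.c₄ := fun k => h2.not_isUnit (WZ_cop.isUnit_of_dvd' k h1)
  obtain ⟨E⟩ := B6.exists_emb (fun k => h3 (k ▸ dvd_zero _)) fun k =>
    h3 (h2.dvd_of_dvd_pow (n := 3) (by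
      have := WZ.c_relation
      rw [k, zero_pow two_ne_zero, sub_zero] at this
      exact this ▸ h1.mul_left _))
  exact E.exists_rho.elim fun T _ => ⟨T⟩

theorem sec_bad (T : B6.TB) (hw : w.p ∣ NN) (hφ : IsFrob w w.p φ) {P : B6.EE} (hP : 2 • P = 0)
    (hI : ∀ σ ∈ Ine w, σ • P = P) : ∃ S : B6.EE, φ • S - S = P ∧ ∀ σ ∈ Ine w, σ • S = S := by
  obtain ⟨v, rfl, hv⟩ := T.exists_vec hw hP hI
  obtain ⟨B, s, hs, hB, h1, h2⟩ := T.mult w hw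
  obtain ⟨τ, hτ⟩ := exists_gen (ne_two_of_dvd hw)
  obtain ⟨c, e1, c1⟩ := h1 τ hτ.1
  obtain ⟨b, e2⟩ := h2 φ hφ
  refine sec_pre T (a := s * w.p - 1) (u := v) (fun k => ?_) ?_ hv
  · have k1 : s * w.p - 1 = (0 : ℤ) := by exact_mod_cast k
    have := w.prime.one_lt
    rcases hs with rfl | rfl <;> omega
  obtain ⟨y, rfl⟩ : ∃ y, v = B *ᵥ y := ⟨B.adjugate *ᵥ v, by
    rw [mulVec_mulVec, mul_adjugate, hB, one_smul, one_mulVec]⟩
  have h3 := congrArg (B.adjugate *ᵥ ·) (hv τ hτ.1)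
  simp only [mulVec_mulVec, e1, ← mul_assoc, adjugate_mul, hB, one_smul, one_mul,
    one_mulVec] at h3
  have h4 : y 1 = 0 := (c1 hτ).mul_right_eq_zero.1
    (by simpa [mulVec, dotProduct] using congrFun h3 0)
  rw [mulVec_mulVec, e2, ← mulVec_mulVec, ← mulVec_sub, ← mulVec_smul]
  refine congrArg _ (funext fun i => ?_)
  fin_cases i <;> simp [dotProduct, h4, sub_mul]

end

theorem sec_stmt : SEcStmt := by
  intro _ ξ w T h2 hs hc h0 hT hI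
  obtain ⟨φ, hφ⟩ := exists_frob w
  obtain ⟨R⟩ := sec_TB
  have hP : 2 • (ξ φ - (φ • T - T)) = 0 := by
    rw [smul_sub, smul_sub, h0, smul_comm, hT, smul_zero, sub_self, sub_self]
  have hF : ∀ σ ∈ Ine w, σ • (ξ φ - (φ • T - T)) = ξ φ - (φ • T - T) := fun σ hσ => by
    have k0 : φ⁻¹ * σ * φ ∈ Ine w := by simpa using conj_mem_Ine (inv_mem hφ.1) hσ
    have k1 := (hc σ φ).symm.trans ((congrArg ξ (by group)).trans (hc φ (φ⁻¹ * σ * φ)))
    rw [hI σ hσ, hI _ k0, smul_sub, ← mul_smul, show φ * (φ⁻¹ * σ * φ) = σ * φ by group,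
      mul_smul] at k1
    rw [smul_sub, smul_sub]
    linear_combination (norm := abel1) k1
  obtain ⟨S, e1, e2⟩ : ∃ S : B6.EE, φ • S - S = ξ φ - (φ • T - T) ∧ ∀ σ ∈ Ine w, σ • S = S := by
    by_cases hw : w.p ∣ NN
    · exact sec_bad R hw hφ hP hF
    · exact sec_good R h2 (mt (dvd_Δ w.prime).1 hw) hφ hP
  refine ⟨S + T, sec_gen hφ hs hc ?_ fun σ hσ => ?_⟩
  · rw [smul_add]
    linear_combination (norm := abel1) -e1
  · rw [hI σ hσ, smul_add, e2 σ hσ]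
    abel

end Pool.Agent.B8
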