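import Pool.Agent.Lib.MP_696deb_nt.B8.ZC

/-! Square roots at the odd places and at infinity. -/

set_option autoImplicit false

open scoped Classical

namespace Pool.Agent.B8
open Pool.Agent.Lib.MP_696deb_nt Pool.Agent.Lib.MP_696deb_nt.B2 Pool.Agent.B6

theorem sed_ine {w : Plc} (hw : w.p ≠ 2) {σ : Gam} (hσ : σ ∈ Ine w) {s y : Qbar} (h0 : s ^ 2 ≠ 0)
    (hs : w.V (s ^ 2) = w.V y ^ 2) (hy : σ y = y) (h2 : σ (s ^ 2) = s ^ 2) : σ s = s := by
  have r0 : w.V y ≠ 0 := fun k => h0 (w.V.zero_iff.1 (by rw [hs, k]; simp))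
  have v1 : w.V (s / y) = 1 := by
    rw [← pow_eq_one_iff_of_nonneg zero_le two_ne_zero, map_div₀, div_pow, ← map_pow, hs,
      div_self (pow_ne_zero _ r0)]
  rw [map_pow] at h2
  refine (sq_eq_sq_iff_eq_or_eq_neg.1 h2).resolve_right fun e => ?_
  have v2 := hσ.2 _ v1.le
  have v3 : w.V ((-2 : ℤ) : Qbar) = 1 := w.V_int_eq_one.2 fun e =>
    hw ((Nat.prime_dvd_prime_iff_eq w.prime Nat.prime_two).1 (by exact_mod_cast dvd_neg.1 e))
  rw [map_div₀, hy, e, show -s / y - s / y = ((-2 : ℤ) : Qbar) * (s / y) by push_cast; ring,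
    map_mul, v1, v3, one_mul] at v2
  exact v2.false

variable [Ce]

/-- It is enough to look at the stabilizers. -/
theorem sed_glue {D : Subgroup Gam} {A : Fin 3 → Qbar} (hA : Eqv ⊤ A)
    (h : ∀ g ∈ D, ∀ i, g (er i) = er i → ∀ r, r ^ 2 = A i → g r = r) : Sq8 D A := by
  choose r hr using fun i => IsAlgClosed.exists_pow_nat_eq (A i) two_pos
  let P : Fin 3 → Fin 3 → Prop := fun j k => ∃ g ∈ D, g (er k) = er j
  have h1 : ∀ j, P j (Classical.epsilon (P j)) := fun j =>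
    Classical.epsilon_spec ⟨j, 1, one_mem _, rfl⟩
  choose t ht ht' using h1
  refine ⟨fun j => t j (r (Classical.epsilon (P j))), fun j => ?_, fun g hg i j e => ?_⟩
  · rw [← map_pow, hr, hA _ trivial _ _ (ht' j)]
  · have h2 : P i = P j := funext fun k => propext
      ⟨fun ⟨a, a1, a2⟩ => ⟨g * a, mul_mem hg a1, by rw [AlgEquiv.mul_apply, a2, e]⟩,
        fun ⟨a, a1, a2⟩ => ⟨g⁻¹ * a, mul_mem (inv_mem hg) a1, by
          rw [AlgEquiv.mul_apply, a2, ← e]
          exact g.symm_apply_apply _⟩⟩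
    have h3 := ht' i
    have h4 := ht' j
    dsimp only
    rw [h2] at h3 ⊢
    have h5 := h ((t j)⁻¹ * (g * t i)) (mul_mem (inv_mem (ht j)) (mul_mem hg (ht i))) _ (by
      rw [AlgEquiv.mul_apply, AlgEquiv.mul_apply, h3, e, ← h4]
      exact (t j).symm_apply_apply _) _ (hr _)
    rw [AlgEquiv.mul_apply, AlgEquiv.mul_apply] at h5
    exact ((t j).apply_symm_apply _).symm.trans (congrArg (t j) h5)

theorem sed_move : ¬ ∀ i, cc (er i) = er i := fun h => by
  obtain ⟨s, -, hs⟩ := exists_s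
  have h1 : (4 * ((er 0 - er 1) * ((er 0 - er 2) * (er 1 - er 2)))) ^ 2 = (WZ.Δ : Qbar) := by
    rw [er_Δ]; ring
  have h2 := chi_spec h1 cc
  have h0 : 4 * ((er 0 - er 1) * ((er 0 - er 2) * (er 1 - er 2))) ≠ 0 := fun k =>
    Int.cast_ne_zero.2 WZ_ne (by rw [← h1, k]; ring : (WZ.Δ : Qbar) = 0)
  have h3 : ¬ 0 < WZ.Δ := by
    rw [hs, not_lt, neg_nonpos]
    positivity
  rw [chi_cc WZ_ne, if_neg h3] at h2
  simp only [map_mul, map_sub, map_ofNat, h, Units.val_neg, Units.val_one, Int.cast_neg,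
    Int.cast_one] at h2
  exact h0 (by linear_combination (1 / 2) * h2)

theorem sed_swap {i : Fin 3} (hi : cc (er i) = er i) {A : Fin 3 → Qbar} :
    ∃ j k, cc (er j) = er k ∧ A i * A j * A k = A 0 * A 1 * A 2 := by
  obtain ⟨σ, hσ⟩ := exists_pr
  have h1 : σ cc i = i := er_inj ((hσ cc i).symm.trans hi)
  rcases nf_cases (σ cc) with e | e | e | e | e
  · exact absurd (fun j => by rw [hσ, e]; rfl) sed_move
  · exact absurd h1 (e i)
  · obtain rfl : i = 2 := by
      fin_cases i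
      exacts [absurd (h1.symm.trans e.1) (by decide), absurd (h1.symm.trans e.2.1) (by decide), rfl]
    exact ⟨0, 1, by rw [hσ, e.1], by ring⟩
  · obtain rfl : i = 1 := by
      fin_cases i
      exacts [absurd (h1.symm.trans e.1) (by decide), rfl, absurd (h1.symm.trans e.2.2) (by decide)]
    exact ⟨0, 2, by rw [hσ, e.1], by ring⟩
  · obtain rfl : i = 0 := by
      fin_cases i
      exacts [rfl, absurd (h1.symm.trans e.2.1) (by decide),
        absurd (h1.symm.trans e.2.2) (by decide)]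
    exact ⟨1, 2, by rw [hσ, e.2.1], rfl⟩

theorem sed_cc {A : Fin 3 → Qbar} (hA : Eqv ⊤ A) (h0 : ∀ i, A i ≠ 0) {q : Qbar} (hq : cc q = q)
    (e : A 0 * A 1 * A 2 = q ^ 2) {i : Fin 3} (hi : cc (er i) = er i) {r : Qbar}
    (hr : r ^ 2 = A i) : cc r = r := by
  obtain ⟨j, k, h1, h2⟩ := sed_swap hi (A := A)
  obtain ⟨s, hs⟩ := IsAlgClosed.exists_pow_nat_eq (A j) two_pos
  have h3 : cc s ^ 2 = A k := by rw [← map_pow, hs, hA _ trivial _ _ h1]
  have h4 : cc (cc s) = s := by rw [← AlgEquiv.mul_apply, cc_mul_cc]; rfl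
  have h5 : (r * s * cc s) ^ 2 = q ^ 2 := by rw [mul_pow, mul_pow, hr, hs, h3, h2, e]
  have h6 : cc (r * s * cc s) = r * s * cc s := by
    rcases sq_eq_sq_iff_eq_or_eq_neg.1 h5 with k | k
    · rw [k, hq]
    · rw [k, map_neg, hq]
  have h7 : s * cc s ≠ 0 := fun z => mul_ne_zero (h0 j) (h0 k) (by
    rw [← hs, ← h3, ← mul_pow, z]; ring)
  rw [map_mul, map_mul, h4] at h6
  exact mul_right_cancel₀ h7 (by linear_combination h6)

omit [Ce] in
theorem sed_stmt : SEdStmt := by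
  intro _ A hA h0
  refine ⟨fun w hw hE => sed_glue hA fun g hg i e r hr => ?_,
    fun q hq e => sed_glue hA fun g hg i e' r hr => ?_⟩
  · obtain ⟨y, hy, hv⟩ := hE i
    exact sed_ine hw hg (hr ▸ h0 i) (hr ▸ hv) (hy g e) (hr ▸ hA g trivial i i e)
  · obtain ⟨k, rfl⟩ := Subgroup.mem_zpowers_iff.1 hg
    have h2 : cc ^ (2 : ℤ) = 1 := by rw [zpow_two, cc_mul_cc]
    rw [zpow_eq_zpow_emod k h2] at e' ⊢
    rcases Int.emod_two_eq_zero_or_one k with z | z <;> rw [z] at e' ⊢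
    · rfl
    · rw [zpow_one] at e' ⊢
      exact sed_cc hA h0 (hq _ trivial) e e' hr

end Pool.Agent.B8
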