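import Pool.Agent.Lib.MP_696deb_nt.B8.ZC

/-! The local image at two. -/

set_option autoImplicit false

open scoped Classical NNReal

namespace Pool.Agent.B8
open Pool.Agent.Lib.MP_696deb_nt Pool.Agent.Lib.MP_696deb_nt.B2 Pool.Agent.B6

theorem see_root (w : Plc) (γ : Qbar) {t : Qbar} (ht : w.V t < 1) :
    ∃ y, w.V y < 1 ∧ y ^ 2 + γ * y = t := by
  obtain ⟨y, hy⟩ := r0_root γ t
  by_cases h : w.V y < 1
  · exact ⟨y, h, hy⟩
  refine ⟨-(y + γ), ?_, by linear_combination hy⟩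
  rw [w.V.map_neg]
  refine lt_of_le_of_lt (le_mul_of_one_le_left' (not_lt.1 h)) ?_
  rwa [← map_mul, show y * (y + γ) = t by linear_combination hy]

theorem see_uniq (w : Plc) {γ y z : Qbar} (hγ : w.V γ = 1) (hy : w.V y < 1) (hz : w.V z < 1)
    (h : y ^ 2 + γ * y = z ^ 2 + γ * z) : y = z := by
  refine sub_eq_zero.1 ((mul_eq_zero.1
    (show (y - z) * (y + z + γ) = 0 by linear_combination h)).resolve_right fun e => ?_)
  have := w.V.map_add_lt hy hz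
  rw [eq_neg_of_add_eq_zero_left e, w.V.map_neg, hγ] at this
  exact this.false

theorem see_two {w : Plc} (hw : w.p = 2) : w.V 2 < 1 := by
  have := w.hV
  rw [hw, Nat.cast_ofNat, Nat.cast_ofNat] at this
  rw [this]
  norm_num

theorem see_norm {R : Type} [CommRing R] {x y z s t r : R} (a b c : R) (h1 : x + y + z = s)
    (h2 : x * y + x * z + y * z = t) (h3 : x * y * z = r) :
    (a + b * x + c * x ^ 2) * (a + b * y + c * y ^ 2) * (a + b * z + c * z ^ 2) =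
      a ^ 3 + a ^ 2 * b * s + a * b ^ 2 * t + b ^ 3 * r + a ^ 2 * c * (s ^ 2 - 2 * t) +
        a * c ^ 2 * (t ^ 2 - 2 * s * r) + c ^ 3 * r ^ 2 + a * b * c * (s * t - 3 * r) +
        b ^ 2 * c * (s * r) + b * c ^ 2 * (t * r) := by
  subst h1 h2 h3
  ring

/-- The classes of the squares of the units. -/
def SeeG (κ a b c : ℤ) : Prop :=
  (8 ∣ a - 1 ∧ 4 ∣ b ∧ 4 ∣ c) ∨ (8 ∣ a - 1 ∧ 4 ∣ b - 2 ∧ 4 ∣ c - 1) ∨
    (8 ∣ a - 1 - 4 * κ ∧ 4 ∣ b - 2 ∧ 4 ∣ c - 2) ∨ (8 ∣ a - 5 - 4 * κ ∧ 4 ∣ b ∧ 4 ∣ c - 3)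

theorem see_par (x y : ℤ) : (x % 2 = 0 ∨ y % 2 = 0 → x * y % 2 = 0) ∧
    (x % 2 = 1 → y % 2 = 1 → x * y % 2 = 1) :=
  ⟨fun h => by rcases h with h | h <;> simp [Int.mul_emod, h], fun h k => by
    simp [Int.mul_emod, h, k]⟩

theorem see_int {a b c κ β q T : ℤ} (x y z : ℤ)
    (h : q ^ 2 = (2 * a + 1) ^ 3 + 4 * (-κ * b * (2 * a + 1) ^ 2 + κ ^ 2 * (2 * a + 1) ^ 2 * c +
      c ^ 3 * (2 * β + 1) ^ 2 + 3 * (2 * a + 1) * b * c * (2 * β + 1)) + 8 * T) :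
    SeeG κ (2 * a + 1) (2 * b) c ∨
      SeeG κ (2 * a + 1 + 4 * κ + 4 * c + 8 * x) (2 * b + 2 + 4 * y) (c + 4 * z) := by
  have k1 : ∀ a b c κ β : ZMod 2, -κ * b * (2 * a + 1) ^ 2 + κ ^ 2 * (2 * a + 1) ^ 2 * c +
      c ^ 3 * (2 * β + 1) ^ 2 + 3 * (2 * a + 1) * b * c * (2 * β + 1) -
      (κ * b + κ * c + c + b * c) = 0 := by decide +kernel
  have k2 : ∀ a m q : ZMod 8, q ^ 2 = (2 * a + 1) ^ 3 + 4 * m → 2 * a + 4 * m = 0 := by
    decide +kernel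
  have k3 := (ZMod.intCast_zmod_eq_zero_iff_dvd (-κ * b * (2 * a + 1) ^ 2 +
    κ ^ 2 * (2 * a + 1) ^ 2 * c + c ^ 3 * (2 * β + 1) ^ 2 + 3 * (2 * a + 1) * b * c * (2 * β + 1) -
      (κ * b + κ * c + c + b * c)) 2).1 (by push_cast; exact k1 a b c κ β)
  generalize -κ * b * (2 * a + 1) ^ 2 + κ ^ 2 * (2 * a + 1) ^ 2 * c +
    c ^ 3 * (2 * β + 1) ^ 2 + 3 * (2 * a + 1) * b * c * (2 * β + 1) = m at h k3
  have k4 := (ZMod.intCast_zmod_eq_zero_iff_dvd (2 * a + 4 * m) 8).1 (by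
    have e := congrArg (Int.cast : ℤ → ZMod 8) h
    push_cast at e ⊢
    exact k2 a m q (by rw [e, show (8 : ZMod 8) = 0 from rfl, zero_mul, add_zero]))
  have p1 := see_par κ b
  have p2 := see_par κ c
  have p3 := see_par b c
  generalize κ * b = u, κ * c = v, b * c = r at k3 p1 p2 p3
  clear k1 k2 h
  push_cast at k3 k4
  have h1 : b % 2 = 0 ∨ b % 2 = 1 := by omega
  have h2 : c % 4 = 0 ∨ c % 4 = 1 ∨ c % 4 = 2 ∨ c % 4 = 3 := by omega
  rcases h1 with h1 | h1 <;> rcases h2 with h2 | h2 | h2 | h2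
  · exact .inl (.inl (by omega))
  · exact .inr (.inr (.inl (by omega)))
  · exact .inr (.inr (.inr (.inl (by omega))))
  · exact .inl (.inr (.inr (.inr (by omega))))
  · exact .inr (.inl (by omega))
  · exact .inl (.inr (.inl (by omega)))
  · exact .inl (.inr (.inr (.inl (by omega))))
  · exact .inr (.inr (.inr (.inr (by omega))))

variable [Ce] {w : Plc}

theorem see_sq8 {γ t : Fin 3 → Qbar} (e1 : Eqv (Dec w) γ) (e2 : Eqv (Dec w) t)
    (h1 : ∀ i, w.V (γ i) = 1) (h2 : ∀ i, w.V (t i) < 1) :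
    Sq8 (Dec w) fun i => γ i ^ 2 + 4 * t i := by
  choose y y1 y2 using fun i => see_root w (γ i) (h2 i)
  refine ⟨fun i => γ i + 2 * y i, fun i => by linear_combination 4 * y2 i, fun g hg i j e => ?_⟩
  have : g (y i) = y j := see_uniq w (h1 j) (by rw [mem_Dec.1 hg]; exact y1 i) (y1 j) (by
    rw [y2 j, ← e2 g hg i j e, ← e1 g hg i j e, ← y2 i, map_add, map_pow, map_mul])
  simp only [map_add, map_mul, map_ofNat, this, e1 g hg i j e]

theorem see_eqv (D : Subgroup Gam) (a b c : ℤ) : Eqv D (al a b c) := fun g _ i j e => by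
  simp only [al, map_add, map_mul, map_pow, map_intCast, map_ofNat, e]

theorem see_b : ∃ κ μ β : ℤ, WZ.b₂ = 4 * κ ∧ WZ.b₄ = 2 * μ ∧ WZ.b₆ = 2 * β + 1 := by
  obtain ⟨k, hk⟩ := a1_even
  obtain ⟨l, hl⟩ := a3_odd
  refine ⟨k ^ 2 + WZ.a₂, WZ.a₄ + k * WZ.a₃, 2 * l ^ 2 + 2 * l + 2 * WZ.a₆, ?_, ?_, ?_⟩
  · rw [WeierstrassCurve.b₂, hk]; ring
  · rw [WeierstrassCurve.b₄, hk]; ring
  · rw [WeierstrassCurve.b₆, hl]; ring

theorem see_small (hw : w.p = 2) (h : ∀ i, w.V (2 * er i) < 1) (x y z : ℤ) (i : Fin 3) :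
    w.V (al (2 * x) y z i) < 1 := by
  rw [show al (2 * x) y z i = 2 * x + 2 * er i * (y + z * (2 * er i)) by
    rw [al]; push_cast; ring]
  exact w.V.map_add_lt (r0_mul w (see_two hw) (intCast_mem _ _)) (r0_mul w (h i)
    (add_mem (intCast_mem _ _) (mul_mem (intCast_mem _ _) (h i).le)))

variable {κ μ β : ℤ}

theorem see_cub (h2 : WZ.b₂ = 4 * κ) (h4 : WZ.b₄ = 2 * μ) (h6 : WZ.b₆ = 2 * β + 1) (i : Fin 3) :
    4 * er i ^ 3 + 4 * κ * er i ^ 2 + 4 * μ * er i + (2 * β + 1) = 0 := by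
  have := cub_er i
  rw [cub, h2, h4, h6] at this
  push_cast at this
  linear_combination this

theorem see_near (hw : w.p = 2) (h : ∀ i, w.V (2 * er i) < 1) (h2 : WZ.b₂ = 4 * κ)
    (h4 : WZ.b₄ = 2 * μ) (h6 : WZ.b₆ = 2 * β + 1) {a b c : ℤ} (s t : ℤ)
    (e1 : 8 ∣ a - (1 - 4 * s * t * (2 * β + 1) + 4 * t ^ 2 * κ * (2 * β + 1)))
    (e2 : 4 ∣ b - (2 * s - 8 * s * t * μ + t ^ 2 * (8 * κ * μ - 2 * (2 * β + 1))))
    (e3 : 4 ∣ c - (s ^ 2 + 2 * t - 4 * s * t * κ + t ^ 2 * (4 * κ ^ 2 - 4 * μ))) :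
    Sq8 (Dec w) (al a b c) := by
  obtain ⟨x, hx⟩ := e1
  obtain ⟨y, hy⟩ := e2
  obtain ⟨z, hz⟩ := e3
  have := see_sq8 (see_eqv _ 1 s t) (see_eqv _ (2 * x) y z) (fun i => by
    have := r0_one w (see_small hw h 0 s t i)
    rwa [show 1 + al (2 * 0) s t i = al 1 s t i by simp only [al]; push_cast; ring] at this)
    (see_small hw h x y z)
  convert this using 2 with i
  rw [eq_add_of_sub_eq hx, eq_add_of_sub_eq hy, eq_add_of_sub_eq hz]
  simp only [al]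
  push_cast
  linear_combination (-4 * s * t - 4 * t ^ 2 * er i + 4 * t ^ 2 * κ) * see_cub h2 h4 h6 i

theorem see_good (hw : w.p = 2) (h : ∀ i, w.V (2 * er i) < 1) (h2 : WZ.b₂ = 4 * κ)
    (h4 : WZ.b₄ = 2 * μ) (h6 : WZ.b₆ = 2 * β + 1) {a b c : ℤ} (g : SeeG κ a b c) :
    Sq8 (Dec w) (al a b c) := by
  obtain ⟨p, q, r⟩ | ⟨p, q, r⟩ | ⟨p, q, r⟩ | ⟨p, q, r⟩ := g
  · exact see_near hw h h2 h4 h6 0 0 (by simpa using p) (by simpa using q) (by simpa using r)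
  · exact see_near hw h h2 h4 h6 1 0 (by simpa using p) (by simpa using q) (by simpa using r)
  · refine see_near hw h h2 h4 h6 0 1 ?_ ?_ ?_ <;> ring_nf <;> omega
  · refine see_near hw h h2 h4 h6 1 1 ?_ ?_ ?_ <;> ring_nf <;> omega

/-- A point of the kernel of reduction that is not a double. -/
theorem see_pt (hw : w.p = 2) (h2 : WZ.b₂ = 4 * κ) (h4 : WZ.b₄ = 2 * μ) :
    ∃ P : B6.EE, P ≠ 0 ∧ cub (xco P) ≠ 0 ∧ (∀ g ∈ Dec w, g • P = P) ∧
      xco P = (1 + 4 * κ) / 4 := by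
  obtain ⟨m, hm⟩ : ∃ m : ℤ, m = 2 * κ + 10 * κ ^ 2 + 16 * κ ^ 3 + 2 * μ * (1 + 4 * κ) + 2 * WZ.b₆ :=
    ⟨_, rfl⟩
  have v2 : w.V (2 * m) < 1 := r0_mul w (see_two hw) (intCast_mem _ _)
  have e : cub ((1 + 4 * κ) / 4 : Qbar) = (1 + 4 * (2 * m)) / 16 := by
    rw [cub, h2, h4, hm]
    push_cast
    ring
  obtain ⟨y, y1, y2⟩ := see_root w 1 v2
  have hn : (Wu.baseChange Qbar).toAffine.Nonsingular ((1 + 4 * κ) / 4)
      (((1 + 2 * y) / 4 - WZ.a₁ * ((1 + 4 * κ) / 4) - WZ.a₃) / 2) := by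
    rw [Wu_nonsingular]
    simp only [cub, WeierstrassCurve.b₂, WeierstrassCurve.b₄, WeierstrassCurve.b₆] at e
    push_cast at e
    linear_combination (1 / 16) * y2 - (1 / 4) * e
  refine ⟨.some _ _ hn, WeierstrassCurve.Affine.Point.some_ne_zero _, ?_, fun g hg => ?_, rfl⟩
  · rw [xco_some, e]
    refine div_ne_zero (fun k => ?_) (by norm_num)
    have := r0_one w (mul_comm (2 * m : Qbar) 4 ▸ r0_mul w v2 (ofNat_mem _ 4))
    rw [k, map_zero] at this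
    exact zero_ne_one this
  · have : g y = y := see_uniq w (map_one _) (by rwa [mem_Dec.1 hg]) y1 (by
      have := congrArg g y2
      simp only [map_add, map_pow, map_mul, map_one, map_ofNat, map_intCast] at this
      rw [this, y2])
    refine B6.r0_fix g (WeierstrassCurve.Affine.Point.some_ne_zero _) ?_ ?_ <;>
      simp [xco_some, yco_some, map_ofNat, this]

omit [Ce] in
theorem see_stmt : SEeStmt := by
  intro cfa _ a b c q w hw ⟨a0, ha⟩ ⟨b0, hb⟩ hq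
  obtain ⟨κ, μ, β, h2, h4, h6⟩ := see_b
  have h : ∀ i, w.V (2 * er i) < 1 := fun i => lt_of_pow_lt_pow_left₀ 3 zero_le_one (by
    rw [(cfa.2.2.2.2.2 w hw).1 i, one_pow]
    exact see_two hw)
  have k2 := er_b₂
  have k4 := er_b₄
  have k6 := er_b₆
  rw [h2] at k2
  rw [h4] at k4
  rw [h6] at k6
  push_cast at k2 k4 k6
  rw [← two_mul] at hb
  subst ha hb
  rw [al, al, al, see_norm (x := 2 * er 0) (y := 2 * er 1) (z := 2 * er 2) (s := -2 * κ)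
    (t := 4 * μ) (r := -2 * (2 * β + 1)) _ _ _
    (by linear_combination (1 / 2) * k2) (by linear_combination (-2) * k4)
    (by linear_combination 2 * k6)] at hq
  refine (see_int (a := a0) (b := b0) (c := c) (κ := κ) (β := β) (q := q)
    (T := 2 * (2 * a0 + 1) * b0 ^ 2 * μ - 2 * b0 ^ 3 * (2 * β + 1) - (2 * a0 + 1) ^ 2 * c * μ +
      (2 * a0 + 1) * c ^ 2 * (2 * μ ^ 2 - κ * (2 * β + 1)) - 2 * (2 * a0 + 1) * b0 * c * κ * μ +
      2 * b0 ^ 2 * c * κ * (2 * β + 1) - 2 * b0 * c ^ 2 * μ * (2 * β + 1))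
    (κ * a0 + c * β) (2 * κ * b0 - a0 - 1 + 2 * c * μ) (2 * κ * c - b0)
    (Int.cast_injective (α := Qbar) (by push_cast at hq ⊢; linear_combination -hq))).imp
    (see_good hw h h2 h4 h6) fun g => ?_
  obtain ⟨P, p1, p2, p3, p4⟩ := see_pt hw h2 h4
  obtain ⟨u, u1, u2⟩ := see_good hw h h2 h4 h6 g
  refine ⟨P, p1, p2, p3, fun i => u i / 2, fun i => ?_, fun g hg i j e => by
    simp only [map_div₀, map_ofNat, u2 g hg i j e]⟩
  rw [div_pow, u1, p4]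
  simp only [al]
  push_cast
  linear_combination c * see_cub h2 h4 h6 i

end Pool.Agent.B8
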