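import Pool.Agent.Lib.MP_696deb_nt.B8.ZC

/-! The descent for numbers of the cubic field. -/

set_option autoImplicit false

open NumberField
open scoped Classical NNReal

namespace Pool.Agent.B8
open Pool.Agent.Lib.MP_696deb_nt Pool.Agent.Lib.MP_696deb_nt.B2 Pool.Agent.B6

section
variable {w : Plc} {t : Qbar}

theorem sey_two (x y : Qbar) (h : w.V x = w.V y → w.V x = 0) :
    w.V (x + y) = max (w.V x) (w.V y) := by
  by_cases e : w.V x = w.V y
  · have h1 := h e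
    have h2 := e ▸ h1
    rw [w.V.zero_iff.1 h1, w.V.zero_iff.1 h2]
    simp
  · exact w.V.map_add_of_distinct_val e

theorem sey_three (x y z : Qbar) (h1 : w.V x = w.V y → w.V x = 0) (h2 : w.V x = w.V z → w.V x = 0)
    (h3 : w.V y = w.V z → w.V y = 0) :
    w.V (x + y + z) = max (max (w.V x) (w.V y)) (w.V z) := by
  rw [sey_two (x + y) z fun e => ?_, sey_two x y h1]
  rw [sey_two x y h1] at e
  rw [sey_two x y h1, e]
  rcases max_choice (w.V x) (w.V y) with k | k <;> rw [k] at e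
  · exact e ▸ h2 e
  · exact e ▸ h3 e

theorem sey_lt (hw : w.p = 2) : 0 < w.V 2 ∧ w.V 2 < 1 := by
  have := b2a_p_lt w
  rw [hw] at this
  exact ⟨w.V.pos_iff.2 two_ne_zero, by exact_mod_cast this⟩

theorem sey_t (hw : w.p = 2) (ht : w.V t ^ 3 = w.V 2) : 0 < w.V t ∧ w.V t < 1 :=
  ⟨pos_of_ne_zero fun e => (sey_lt hw).1.ne' (by rw [← ht, e]; simp),
    (pow_lt_one_iff_of_nonneg zero_le three_ne_zero).1 (ht.trans_lt (sey_lt hw).2)⟩

theorem sey_rat (hw : w.p = 2) (ht : w.V t ^ 3 = w.V 2) {r : ℚ} (hr : r ≠ 0) :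
    ∃ k : ℤ, w.V r = w.V t ^ (3 * k) := by
  have h := w.hV
  refine ⟨padicValRat w.p r, ?_⟩
  rw [w.V_rat hr, zpow_mul, zpow_ofNat, ht, ← inv_zpow, ← h, hw]
  norm_num

theorem sey_ne (hw : w.p = 2) (ht : w.V t ^ 3 = w.V 2) (a b : ℚ) (i j : ℕ) (hij : i % 3 ≠ j % 3)
    (e : w.V (a * t ^ i) = w.V (b * t ^ j)) : w.V (a * t ^ i) = 0 := by
  by_contra h0
  have ha : a ≠ 0 := by
    rintro rfl
    simp at h0
  have hb : b ≠ 0 := by
    rintro rfl
    exact h0 (by rw [e]; simp)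
  obtain ⟨k, hk⟩ := sey_rat hw ht ha
  obtain ⟨l, hl⟩ := sey_rat hw ht hb
  obtain ⟨p0, p1⟩ := sey_t hw ht
  rw [map_mul, map_mul, map_pow, map_pow, hk, hl, ← zpow_natCast, ← zpow_natCast,
    ← zpow_add₀ p0.ne', ← zpow_add₀ p0.ne', zpow_right_inj₀ p0 p1.ne] at e
  omega

theorem sey_max (hw : w.p = 2) (ht : w.V t ^ 3 = w.V 2) (a b c : ℚ) :
    w.V (a + b * t + c * t ^ 2) = max (max (w.V a) (w.V (b * t))) (w.V (c * t ^ 2)) := by
  refine sey_three _ _ _ ?_ ?_ ?_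
  · simpa only [pow_zero, pow_one, mul_one] using sey_ne hw ht a b 0 1 (by decide)
  · simpa only [pow_zero, mul_one] using sey_ne hw ht a c 0 2 (by decide)
  · simpa only [pow_one] using sey_ne hw ht b c 1 2 (by decide)

theorem sey_odd (hw : w.p = 2) {m : ℤ} : w.V m = 1 ↔ Odd m := by
  rw [w.V_int_eq_one, hw, ← Int.not_even_iff_odd, even_iff_two_dvd]
  rfl

theorem sey_den (hw : w.p = 2) (ht : w.V t ^ 3 = w.V 2) {r : ℚ} {i : ℕ} (hi : i < 3)
    (h : w.V (r * t ^ i) ≤ 1) : Odd (r.den : ℤ) := by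
  obtain ⟨p0, p1⟩ := sey_t hw ht
  refine Int.not_even_iff_odd.1 fun ⟨k, hk⟩ => ?_
  have h1 : w.V r.num = 1 := (sey_odd hw).2 (Int.not_even_iff_odd.1 fun ⟨l, hl⟩ => by
    have h2 : IsCoprime r.num (r.den : ℤ) := Int.isCoprime_iff_gcd_eq_one.2 r.reduced
    obtain ⟨u, v, e⟩ := h2
    rw [hl, hk] at e
    have : 2 * (u * l + v * k) = 1 := by linear_combination e
    omega)
  have h2 : (r.num : Qbar) * t ^ i = 2 * (k * (r * t ^ i)) := by
    have h3 : (r.den : Qbar) = k + k := by exact_mod_cast hk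
    have h4 : (r : Qbar) * r.den = r.num := by exact_mod_cast r.mul_den_eq_num
    linear_combination (-t ^ i) * h4 + r * t ^ i * h3
  have h3 := congrArg w.V h2
  rw [map_mul, h1, one_mul, map_mul, map_mul, map_pow, ← ht] at h3
  have h4 : w.V t ^ i ≤ w.V t ^ 3 :=
    h3.trans_le (mul_le_of_le_one_right' (mul_le_one' (w.V_int_le k) h))
  exact (pow_lt_pow_right_of_lt_one₀ p0 p1 hi).not_ge h4

theorem sey_small (hw : w.p = 2) (ht : w.V t ^ 3 = w.V 2) {a b c m : ℤ} (ha : Even a) (hb : Even b)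
    (hm : Odd m) {x : Qbar} (e : m * x = a + b * t + c * t ^ 2) : w.V x ^ 3 < w.V 2 := by
  obtain ⟨p0, p1⟩ := sey_t hw ht
  obtain ⟨k, rfl⟩ := ha
  obtain ⟨l, rfl⟩ := hb
  have h1 : w.V x = w.V (t ^ 2 * c + 2 * (k + l * t)) := by
    rw [← one_mul (w.V x), ← (sey_odd hw).2 hm, ← map_mul, e]
    congr 1
    push_cast
    ring
  rw [← ht, pow_lt_pow_iff_left₀ zero_le zero_le three_ne_zero, h1]
  refine w.V.map_add_lt ?_ ?_
  · rw [map_mul, map_pow]
    exact (mul_le_of_le_one_right' (w.V_int_le c)).trans_lt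
      (pow_lt_self_of_lt_one₀ p0 p1 (by norm_num))
  · rw [map_mul, ← ht]
    refine (mul_le_of_le_one_right' (w.V.map_add_le (w.V_int_le k) ?_)).trans_lt
      (pow_lt_self_of_lt_one₀ p0 p1 (by norm_num))
    rw [map_mul]
    exact mul_le_one' (w.V_int_le l) p1.le

theorem sey_unit (hw : w.p = 2) (ht : w.V t ^ 3 = w.V 2) {a b c m : ℤ} (hm : Odd m) {x : Qbar}
    (e : m * x = a + b * t + c * t ^ 2) (h : w.V x = 1) : Odd a := by
  obtain ⟨p0, p1⟩ := sey_t hw ht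
  by_contra ha
  have h1 : w.V a < 1 := (w.V_int_le a).lt_of_ne (mt (sey_odd hw).1 ha)
  have h2 : w.V (a + t * (b + c * t)) < 1 := by
    refine w.V.map_add_lt h1 ?_
    rw [map_mul]
    refine (mul_le_of_le_one_right' (w.V.map_add_le (w.V_int_le b) ?_)).trans_lt p1
    rw [map_mul]
    exact mul_le_one' (w.V_int_le c) p1.le
  rw [show a + t * (b + c * t) = m * x by rw [e]; ring, map_mul, (sey_odd hw).2 hm, h,
    mul_one] at h2
  exact h2.false

end

variable [Ce]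

theorem sey_rep (lc : LCStmt) (cfa : CFaStmt) (α : Lc) :
    ∃ a b c : ℚ, (α : Qbar) = a + b * (2 * e0) + c * (2 * e0) ^ 2 := by
  obtain ⟨θ, hθ, hC, -⟩ := lc
  obtain ⟨w, hw⟩ := exists_plc Nat.prime_two
  have ht : w.V (2 * e0) ^ 3 = w.V 2 := (cfa.2.2.2.2.2 w hw).1 _
  have p0 := (sey_t hw ht).1
  have e : ∀ g : Fin 3 → ℚ, ((∑ i, g i • ![1, θ, θ ^ 2] i : Lc) : Qbar) =
      g 0 + g 1 * (2 * e0) + g 2 * (2 * e0) ^ 2 := fun g => by
    rw [Fin.sum_univ_three, ← hθ]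
    simp [Rat.smul_def]
  have h : LinearIndependent ℚ ![1, θ, θ ^ 2] := by
    refine Fintype.linearIndependent_iff.2 fun g hg i => ?_
    have h1 := sey_max hw ht (g 0) (g 1) (g 2)
    rw [← e g, hg, ZeroMemClass.coe_zero, map_zero] at h1
    have h2 := h1.ge
    have h3 := w.V.pos_iff.1 p0
    rw [max_le_iff, max_le_iff] at h2
    simp only [nonpos_iff_eq_zero, Valuation.zero_iff, mul_eq_zero (b := 2 * e0), h3,
      mul_eq_zero (b := (2 * e0) ^ 2), pow_ne_zero 2 h3, Rat.cast_eq_zero, or_false] at h2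
    fin_cases i
    exacts [h2.1.1, h2.1.2, h2.2]
  have h1 := h.span_eq_top_of_card_eq_finrank' (by rw [hC.rank]; simp)
  obtain ⟨g, hg⟩ := (Submodule.mem_span_range_iff_exists_fun ℚ).1 (h1 ▸ Submodule.mem_top (x := α))
  exact ⟨_, _, _, by rw [← hg, e]⟩

theorem sey_int (lc : LCStmt) (cfa : CFaStmt) (α : Lc) {w : Plc} (hw : w.p = 2) (h : w.V α ≤ 1) :
    ∃ a b c m : ℤ, Odd m ∧ m * (α : Qbar) = a + b * (2 * e0) + c * (2 * e0) ^ 2 := by
  obtain ⟨a, b, c, e⟩ := sey_rep lc cfa α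
  have ht : w.V (2 * e0) ^ 3 = w.V 2 := (cfa.2.2.2.2.2 w hw).1 _
  rw [e, sey_max hw ht, max_le_iff, max_le_iff] at h
  have h1 := sey_den hw ht (r := a) (i := 0) (by norm_num) (by simpa using h.1.1)
  have h2 := sey_den hw ht (r := b) (i := 1) (by norm_num) (by simpa using h.1.2)
  have h3 := sey_den hw ht (r := c) (i := 2) (by norm_num) h.2
  refine ⟨a.num * b.den * c.den, a.den * b.num * c.den, a.den * b.den * c.num, _,
    (h1.mul h2).mul h3, ?_⟩
  have k1 : (a : Qbar) * a.den = a.num := by exact_mod_cast a.mul_den_eq_num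
  have k2 : (b : Qbar) * b.den = b.num := by exact_mod_cast b.mul_den_eq_num
  have k3 : (c : Qbar) * c.den = c.num := by exact_mod_cast c.mul_den_eq_num
  push_cast
  rw [e, ← k1, ← k2, ← k3]
  ring

theorem sey_trans (i : Fin 3) : ∃ g : Gam, g e0 = er i := by
  have h : ∀ a : Equiv.Perm (Fin 3), (∀ i, a i ≠ i) → ∀ i j, i = j ∨ a i = j ∨ (a * a) i = j := by
    decide +kernel
  obtain ⟨σ, hσ⟩ := exists_pr
  obtain ⟨s, hs⟩ := un_three cub_irr
  rcases h (σ s) (fun i e => hs i (by rw [hσ, e])) exists_i0.choose i with e | e | e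
  · exact ⟨1, congrArg er e⟩
  · exact ⟨s, (hσ s _).trans (congrArg er e)⟩
  · exact ⟨s * s, (hσ (s * s) _).trans (congrArg er (by rw [map_mul]; exact e))⟩

theorem sey_norm (lc : LCStmt) {g : Fin 3 → Gam} (hg : ∀ i, g i e0 = er i) (β : Lc) :
    (Algebra.norm ℚ β : Qbar) = g 0 β * g 1 β * g 2 β := by
  obtain ⟨θ, hθ, hC, -⟩ := lc
  let f : Fin 3 → (Lc →ₐ[ℚ] Qbar) := fun i => (g i).toAlgHom.comp Lc.val
  have hf : Function.Bijective f := by
    refine (Fintype.bijective_iff_injective_and_card f).2 ⟨fun i j e => ?_, ?_⟩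
    · have h : g i θ = g j θ := DFunLike.congr_fun e θ
      rw [hθ, map_mul, map_mul, map_ofNat, map_ofNat, hg, hg] at h
      exact er_inj (mul_left_cancel₀ two_ne_zero h)
    · rw [AlgHom.card, hC.rank]
      simp
  have h := Algebra.norm_eq_prod_embeddings ℚ Qbar β
  rw [← hf.prod_comp, Fin.prod_univ_three] at h
  exact h

theorem sey_prod (a b c : ℤ) : ∃ n : ℤ, al a b c 0 * al a b c 1 * al a b c 2 = n := by
  obtain ⟨k, hk⟩ := a1_even
  obtain ⟨s, hs⟩ : ∃ s : ℤ, (s : Qbar) = 2 * er 0 + 2 * er 1 + 2 * er 2 := by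
    refine ⟨-2 * (k ^ 2 + WZ.a₂), ?_⟩
    have h := er_b₂
    rw [WeierstrassCurve.b₂, hk] at h
    push_cast at h ⊢
    linear_combination (-1 / 2) * h
  obtain ⟨u, hu⟩ : ∃ u : ℤ, (u : Qbar) = 4 * (er 0 * er 1 + er 0 * er 2 + er 1 * er 2) :=
    ⟨2 * WZ.b₄, by push_cast; linear_combination 2 * er_b₄⟩
  obtain ⟨v, hv⟩ : ∃ v : ℤ, (v : Qbar) = 8 * (er 0 * er 1 * er 2) :=
    ⟨-2 * WZ.b₆, by push_cast; linear_combination -2 * er_b₆⟩
  refine ⟨a ^ 3 + a ^ 2 * b * s + a ^ 2 * c * (s ^ 2 - 2 * u) + a * b ^ 2 * u +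
    a * b * c * (s * u - 3 * v) + a * c ^ 2 * (u ^ 2 - 2 * s * v) + b ^ 3 * v + b ^ 2 * c * s * v +
    b * c ^ 2 * u * v + c ^ 3 * v ^ 2, ?_⟩
  push_cast
  rw [hs, hu, hv, al, al, al]
  ring

omit [Ce] in
theorem sex_stmt (lc : LCStmt) (cfa : CFaStmt) : SExStmt := by
  intro _ α w hw h
  obtain ⟨a, b, c, m, hm, e⟩ := sey_int lc cfa α hw h.le
  have ht : w.V (2 * e0) ^ 3 = w.V 2 := (cfa.2.2.2.2.2 w hw).1 _
  have ha := sey_unit hw ht hm e h
  rcases Int.even_or_odd b with hb | hb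
  · exact .inl (sey_small hw ht (ha.sub_odd hm) hb hm (c := c) (by push_cast; linear_combination e))
  · exact .inr (sey_small hw ht (ha.sub_odd hm) (hb.sub_odd hm) hm (c := c)
      (by push_cast; linear_combination e))

omit [Ce] in
theorem sey_stmt (lc : LCStmt) (cfa : CFaStmt) (z : SEzStmt) : SEyStmt := by
  intro _ α w hS hw ⟨r, hr⟩ hv h
  have ht : w.V (2 * e0) ^ 3 = w.V 2 := (cfa.2.2.2.2.2 w hw).1 _
  obtain ⟨p0, p1⟩ := sey_t hw ht
  rw [← ht, pow_lt_pow_iff_left₀ zero_le zero_le three_ne_zero] at h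
  have h1 : w.V α = 1 := by
    rw [← w.V.map_one_add_of_lt (h.trans p1)]
    congr 1
    ring
  obtain ⟨a, b, c, m, hm, e⟩ := sey_int lc cfa α hw h1.le
  have ha := sey_unit hw ht hm e h1
  have hb : Even b := Int.not_odd_iff_even.1 fun hb => by
    have h2 := sey_max hw ht ((a - m : ℤ) : ℚ) b c
    rw [Rat.cast_intCast, Rat.cast_intCast, Rat.cast_intCast, show ((a - m : ℤ) : Qbar) +
      b * (2 * e0) + c * (2 * e0) ^ 2 = m * (α - 1) by push_cast; linear_combination -e, map_mul,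
      (sey_odd hw).2 hm, one_mul, map_mul w.V (b : Qbar), (sey_odd hw).2 hb, one_mul] at h2
    exact (h2 ▸ h).not_ge ((le_max_right _ _).trans (le_max_left _ _))
  choose g hg using sey_trans
  have h2 : ∀ i, al (m * a) (m * b) (m * c) i = g i (m ^ 2 * α) := fun i => by
    have h3 := congrArg (g i) e
    simp only [map_add, map_mul, map_pow, map_intCast, map_ofNat, hg] at h3 ⊢
    rw [al]
    push_cast
    linear_combination (-m : Qbar) * h3
  obtain ⟨n, hn⟩ := sey_prod (m * a) (m * b) (m * c)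
  have h3 : (n : Qbar) = ((m ^ 3 * r) * (m ^ 3 * r) : ℚ) := by
    have h4 := sey_norm lc hg α
    rw [hr] at h4
    rw [← hn, h2, h2, h2]
    simp only [map_mul, map_pow, map_intCast]
    push_cast at h4 ⊢
    linear_combination (-m ^ 6 : Qbar) * h4
  obtain ⟨q, hq⟩ := Rat.isSquare_intCast_iff.1 (⟨_, by exact_mod_cast h3⟩ : IsSquare (n : ℚ))
  obtain ⟨u, hu, hu'⟩ := z (m * a) (m * b) (m * c) q hS (hm.mul ha) (hb.mul_left m)
    (by rw [hn, hq]; push_cast; ring) fun v _ i => by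
      obtain ⟨y, hy⟩ := hv ((g i)⁻¹ • v)
      rw [smul_V, smul_V, inv_inv] at hy
      refine ⟨m * g i y, fun s hs => ?_, ?_⟩
      · have h4 := fx_Kf y ((g i)⁻¹ * (s * g i)) (show ((g i)⁻¹ * (s * g i)) e0 = e0 by
          rw [AlgEquiv.mul_apply, AlgEquiv.mul_apply, hg, hs, ← hg]
          exact (g i).symm_apply_apply _)
        rw [AlgEquiv.mul_apply, AlgEquiv.mul_apply] at h4
        rw [map_mul, map_intCast]
        exact congrArg _ (((g i).apply_symm_apply _).symm.trans (congrArg (g i) h4))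
      · rw [h2, map_mul, map_pow, map_intCast, map_mul, hy, map_mul, map_pow, mul_pow]
  have h4 : u exists_i0.choose ∈ Lc := (IntermediateField.mem_fixedField_iff _ _).2
    fun s hs => hu' s trivial _ _ hs
  have m0 : (m : Qbar) ≠ 0 := Int.cast_ne_zero.2 (by rintro rfl; simp at hm)
  refine ⟨⟨_, h4⟩ / m, Subtype.ext ?_⟩
  have h5 := hu exists_i0.choose
  rw [al] at h5
  change _ = _ + _ * (2 * e0) + _ * (2 * e0) ^ 2 at h5
  push_cast at h5 ⊢
  field_simp
  linear_combination m * e - h5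

end Pool.Agent.B8
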