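import Pool.Agent.Lib.MP_696deb_nt.B8.ZC

/-! The descent: the local conditions are assembled. -/

set_option autoImplicit false

open scoped Classical NNReal

namespace Pool.Agent.B8
open Pool.Agent.Lib.MP_696deb_nt Pool.Agent.Lib.MP_696deb_nt.B2 Pool.Agent.Lib.MP_696deb_nt.B2.CM
  Pool.Agent.B6 Pool.Agent.B4

section
variable [Ce]

theorem sez_eqv (a b c : ℤ) : Eqv ⊤ (al a b c) := by
  intro g _ i j h
  simp only [al, map_add, map_mul, map_pow, map_intCast, map_ofNat, h]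

theorem sez_ne (cfa : CFaStmt) {a : ℤ} (b c : ℤ) (ha : Odd a) (i : Fin 3) : al a b c i ≠ 0 := by
  obtain ⟨w, hw⟩ := exists_plc Nat.prime_two
  have h1 := (cfa.2.2.2.2.2 w hw).1 i
  have h2 : w.V 2 < 1 := by
    have := w.hV
    rw [hw] at this
    rw [show (2 : Qbar) = ((2 : ℕ) : Qbar) by norm_num, this]
    exact inv_lt_one_of_one_lt₀ (by norm_num)
  have h3 : w.V (2 * er i) < 1 := by
    by_contra h
    exact absurd (one_le_pow₀ (n := 3) (not_lt.1 h)) (not_le.2 (h1 ▸ h2))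
  have h4 : w.V a = 1 := by
    rw [w.V_int_eq_one, hw]
    exact fun h => (Int.not_even_iff_odd.2 ha) (even_iff_two_dvd.2 (by exact_mod_cast h))
  have h5 : w.V (b * (2 * er i) + c * (2 * er i) ^ 2) < 1 := by
    refine Valuation.map_add_lt _ ?_ ?_
    · rw [map_mul]
      exact mul_lt_one_of_nonneg_of_lt_one_right (w.V_int_le b) zero_le h3
    · rw [map_mul, map_pow]
      exact mul_lt_one_of_nonneg_of_lt_one_right (w.V_int_le c) zero_le
        (pow_lt_one₀ zero_le h3 two_ne_zero)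
  intro h
  have h6 : (b * (2 * er i) + c * (2 * er i) ^ 2 : Qbar) = -a := by
    rw [al] at h
    linear_combination h
  rw [h6, Valuation.map_neg, h4] at h5
  exact lt_irrefl _ h5

theorem sez_tw (g : Gam) (P : B6.EE) : B6.tw 1 g P = g • P := by
  rw [B6.tw, show chi 1 g = 1 by simpa using chi_sq 1 g, Units.val_one, one_smul]

end

theorem sez_stmt (cfa : CFaStmt) (a : SEaStmt) (b : SEbStmt) (c : SEcStmt) (d : SEdStmt)
    (e : SEeStmt) : SEzStmt := by
  intro _ x y z q hS hx hy hq hev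
  have h1 := sez_eqv x y z
  have h2 := sez_ne cfa y z hx
  have h3 : Fx ⊤ (q : Qbar) := fun g _ => map_intCast g q
  obtain ⟨r, ξ, hK, hsm, hco, hiff⟩ := a _ _ h1 h2 h3 hq
  obtain ⟨d1, d2⟩ := d _ h1 h2
  have hsel : B6.hSel 1 ξ := by
    refine ⟨hsm, fun g h => by rw [sez_tw, hco], fun w => ?_, ?_⟩
    · simp only [sez_tw]
      by_cases hw : w.p = 2
      · rcases e cfa x y z q w hw hx hy hq with h | ⟨P, p1, p2, p3, p4⟩
        · obtain ⟨T, -, hT⟩ := (hiff _).1 h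
          exact ⟨T, hT⟩
        · exact b _ r ξ _ P hK p1 p2 p3 p4
      · obtain ⟨T, t1, t2⟩ := (hiff _).1 (d1 w hw (hev w hw))
        exact c ξ w T hw hsm hco hK.two t1 t2
    · obtain ⟨T, -, hT⟩ := (hiff _).1 (d2 _ h3 hq)
      exact ⟨T, by rw [sez_tw]; exact hT _ (Subgroup.mem_zpowers _)⟩
  obtain ⟨T, t1, t2⟩ := hS ξ hsel hK.two
  exact (hiff ⊤).2 ⟨T, t1, fun g _ => t2 g⟩

end Pool.Agent.B8
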