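import Pool.Agent.Lib.MP_696deb_nt.B8.ZB
import Pool.Agent.Lib.MP_696deb_nt.B2.CMh

/-! The central value is not a period. -/

set_option autoImplicit false

open scoped Classical NNReal

namespace Pool.Agent.B8
open Pool.Agent.Lib.MP_696deb_nt Pool.Agent.Lib.MP_696deb_nt.B2 Pool.Agent.Lib.MP_696deb_nt.B2.CM
  Pool.Agent.B6 Pool.Agent.B4

/-- The point is fixed by the involution. -/
theorem ta_fix {n : ℕ} (hn : n ≠ 0) : -1 / (n * x0 n) = x0 n := by
  have h1 : ((√n : ℝ) : ℂ) ^ 2 = n := by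
    rw [← Complex.ofReal_pow, Real.sq_sqrt (Nat.cast_nonneg n), Complex.ofReal_natCast]
  have h2 : ((√n : ℝ) : ℂ) ≠ 0 := fun e => hn (by
    rw [e, zero_pow two_ne_zero] at h1
    exact_mod_cast h1.symm)
  have h3 := Complex.I_ne_zero
  rw [x0, ← h1]
  field_simp
  rw [Complex.I_sq]

theorem ta_stmt (nb : NBStmt) (rm : RMStmt) (ov : OVStmt) (un : UNStmt) (di : DIStmt) :
    TAStmt := by
  intro _ D k hk ho hD hs hm
  obtain ⟨w, hw⟩ := exists_plc Nat.prime_two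
  obtain ⟨V, hV⟩ := ov w
  obtain ⟨g, hg, hr⟩ := rm w hw
  obtain ⟨σ, hσ⟩ := exists_ex g
  obtain ⟨u1, u2⟩ := un D w V hD hs hw hV
  have hx := (nb NN nk).2.1
  have ok : Ok NN 2 := nk.ok two_ne_zero
  have hy : jC (jQ NN 2 1) = jf (x0 NN) := by
    rw [jC_jQ ok, ← hx.eq, jP_cl ok hx.iv, jL_tau hx.pos]
  have hF : D.F (x0 NN) = D.Ω / 2 := by
    have h := D.fricke hx.pos
    rw [ta_fix D.N0] at h
    linear_combination h / 2
  have h0 : D.par.φ (x0 NN) = 0 := by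
    rw [D.par_φ, D.per.unif_eq_zero_iff, hF, ← mul_div_assoc]
    exact hm
  exact hr (jQ_inj ok ((jQ_rho ok g).trans
    (di D k w V g σ _ _ hk ho hw hV hg hσ hx.pos hy u2 u1 h0)))

end Pool.Agent.B8
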