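import Pool.Agent.Lib.MP_696deb_nt.B8.ZA
import Pool.Agent.Lib.MP_60ff09_nt.Dih.ANc

/-! Modularity of the theta series: definitions and statements. -/

set_option autoImplicit false

open Complex NumberTheorySymbols
open scoped Classical Real

namespace Pool.Agent.B8
open Pool.Agent.Lib.MP_696deb_nt

/-- Sections that transform like the theta series of the discriminant form. -/
structure Sec (n : ℕ) (u a : ℤ) (φ : ℤ → ℤ → ℤ → ℂ) : Prop where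
  congr : ∀ {N c d N' c' d' : ℤ}, (n : ℤ) ∣ N - N' → (n : ℤ) ∣ c - c' → (n : ℤ) ∣ d - d' →
    φ N c d = φ N' c' d'
  le : ∀ N c d, ‖φ N c d‖ ≤ 1
  shift : ∀ N c d, φ N c (c + d) = φ N c d * q1 (u * N / n)
  zero : ∀ N d, φ N 0 d = if (n : ℤ) ∣ N then (J(d | n) : ℂ) else 0
  inv : ∃ μ : ℂ, ∀ c d k : ℤ, ∑ r ∈ Finset.range n,
    φ (a * r ^ 2) c d * q1 (u * (2 * a * r * k) / n) = μ * φ (a * k ^ 2) d (-c)

/-- The theta series paired with a section. -/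
noncomputable def Fq (n : ℕ) (φ : ℤ → ℤ → ℤ → ℂ) (Q : Fm) (f : ZMod 2 × ZMod 2 → ℤ) (c d : ℤ)
    (z : ℂ) : ℂ :=
  ∑' v : ℤ × ℤ, φ (fval Q v.1 v.2) c d * f (v.1, v.2) * q1 (fval Q v.1 v.2 * z / (2 * n))

/-- Normal forms with a weight and a section. -/
structure Nm (n : ℕ) (x y t : ℤ) (f : ZMod 2 × ZMod 2 → ℤ) (φ : ℤ → ℤ → ℤ → ℂ) : Prop where
  nk : Nk n
  pos : 0 < x
  det : 2 * x * (2 * t) - n * y * y = 1
  zero : f 0 = 0
  sum : ∑ v, f v = 0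
  sec : Sec n ((n + 1) / 2) x φ

/-- The laws for the two generators. -/
structure Law (F : ℤ → ℤ → ℂ → ℂ) : Prop where
  shift : ∀ (c d : ℤ) (z : ℂ), 0 < z.im → F c d (z + 1) = -F c (c + d) z
  inv : ∃ μ : ℂ, ∀ (c d : ℤ) (z : ℂ), 0 < z.im → F c d (-1 / z) = μ * z * F d (-c) z

/-- Sections exist. -/
def THaStmt : Prop := ∀ (n : ℕ) (u a : ℤ), Squarefree n → Odd n → IsCoprime u n → IsCoprime a n →
  ∃ φ, Sec n u a φ

/-- The laws hold. -/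
def THbStmt : Prop := ∀ (n : ℕ) (x y t : ℤ) (f : ZMod 2 × ZMod 2 → ℤ) (φ : ℤ → ℤ → ℤ → ℂ),
  Nm n x y t f φ → Law (Fq n φ (x, n * y, n * t) f)

/-- The law for the full modular group. -/
def THcStmt : Prop := ∀ g : MZ, g.det = 1 → ∃ s : ℂ, s ^ 2 = 1 ∧ ∀ F, Law F →
  ∀ (x y : ℤ) (z : ℂ), 0 < z.im →
    F x y (act g z) = s * den g z * F (x * g 0 0 + y * g 1 0) (x * g 0 1 + y * g 1 1) z

/-- Reduction to the normal form, holomorphy and bounds. -/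
def THdStmt : Prop := THaStmt → ∀ (n : ℕ) (Q : Fm) (f : ZMod 2 × ZMod 2 → ℤ), Nk n →
  fdisc Q = -n → 0 < Q.1 → f 0 = 0 → ∑ v, f v = 0 →
  ∃ (x y t : ℤ) (f' : ZMod 2 × ZMod 2 → ℤ) (φ : ℤ → ℤ → ℤ → ℂ), Nm n x y t f' φ ∧
    (∀ (d : ℤ) (z : ℂ), Fq n φ (x, n * y, n * t) f' 0 d z = J(d | n) * thQ Q f z) ∧
    Hol (thQ Q f) ∧ ∀ c d, Bdd (Fq n φ (x, n * y, n * t) f' c d)

end Pool.Agent.B8
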