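import Pool.Agent.Lib.MP_696deb_nt.B8.TpU
import Pool.Agent.Lib.MP_696deb_nt.B8.TpD
import Pool.Agent.Lib.MP_696deb_nt.B8.RRS
import Pool.Agent.Lib.MP_696deb_nt.B8.OV
import Pool.Agent.Lib.MP_696deb_nt.B8.TA

/-! The central value is a unit at two when the Selmer group vanishes. -/

set_option autoImplicit false

namespace Pool.Agent.B8

theorem ta_all : TAStmt :=
  ta_stmt nb_stmt (rm_stmt cfa_stmt cfb_stmt) ov_stmt un_all (di_all reg8 root8 shift8)

end Pool.Agent.B8
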