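import Pool.Agent.Lib.MP_696deb_nt.B8.A0
import Pool.Agent.Lib.MP_696deb_nt.B8.A1
import Pool.Agent.Lib.MP_696deb_nt.B8.A2a
import Pool.Agent.Lib.MP_696deb_nt.B8.A2b
import Pool.Agent.Lib.MP_696deb_nt.B8.A3
import Pool.Agent.Lib.MP_696deb_nt.B8.A4
import Pool.Agent.Lib.MP_696deb_nt.B8.CFa
import Pool.Agent.Lib.MP_696deb_nt.B8.CFb
import Pool.Agent.Lib.MP_696deb_nt.B8.CFc
import Pool.Agent.Lib.MP_696deb_nt.B8.EP
import Pool.Agent.Lib.MP_696deb_nt.B8.EQ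
import Pool.Agent.Lib.MP_696deb_nt.B8.EX
import Pool.Agent.Lib.MP_696deb_nt.B8.FA
import Pool.Agent.Lib.MP_696deb_nt.B8.KR
import Pool.Agent.Lib.MP_696deb_nt.B8.LC
import Pool.Agent.Lib.MP_696deb_nt.B8.LKc
import Pool.Agent.Lib.MP_696deb_nt.B8.ME
import Pool.Agent.Lib.MP_696deb_nt.B8.NB
import Pool.Agent.Lib.MP_696deb_nt.B8.PE
import Pool.Agent.Lib.MP_696deb_nt.B8.SEL
import Pool.Agent.Lib.MP_696deb_nt.B8.SEa
import Pool.Agent.Lib.MP_696deb_nt.B8.SEb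
import Pool.Agent.Lib.MP_696deb_nt.B8.SEc
import Pool.Agent.Lib.MP_696deb_nt.B8.SEd
import Pool.Agent.Lib.MP_696deb_nt.B8.SEe
import Pool.Agent.Lib.MP_696deb_nt.B8.SEy
import Pool.Agent.Lib.MP_696deb_nt.B8.SEz
import Pool.Agent.Lib.MP_696deb_nt.B8.TH
import Pool.Agent.Lib.MP_696deb_nt.B8.THa
import Pool.Agent.Lib.MP_696deb_nt.B8.THb
import Pool.Agent.Lib.MP_696deb_nt.B8.THc
import Pool.Agent.Lib.MP_696deb_nt.B8.THd
import Pool.Agent.Lib.MP_696deb_nt.B8.UN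
import Pool.Agent.Lib.MP_696deb_nt.B8.UNa
import Pool.Agent.Lib.MP_696deb_nt.B8.UNb
import Pool.Agent.Lib.MP_696deb_nt.B8.UNc
import Pool.Agent.Lib.MP_696deb_nt.B8.VJ

/-! The value of the newform at the fixed point of the Fricke involution is a unit. -/

set_option autoImplicit false

namespace Pool.Agent.B8

theorem lk_all : LKStmt := lk_stmt nb_stmt (th_stmt tha_stmt thb_stmt thc_stmt thd_stmt)

theorem vj_all : VJStmt := vj_stmt nb_stmt (me_stmt pe_stmt)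

theorem kr_all : KRStmt :=
  kr_stmt a0_stmt' (a2_stmt a3_stmt (a2a_stmt cfa_stmt) a2b_stmt) a3_stmt a4_stmt

theorem sel_all : SELStmt :=
  sel_stmt lc_stmt cfa_stmt a3_stmt a4_stmt (sey_stmt lc_stmt cfa_stmt
    (sez_stmt cfa_stmt sea_stmt seb_stmt sec_stmt sed_stmt see_stmt)) (sex_stmt lc_stmt cfa_stmt)

theorem un_all : UNStmt :=
  un_stmt (cf_stmt cfa_stmt cfb_stmt) a0_stmt' a1_stmt lk_all
    (unb_stmt nb_stmt lk_all fa_stmt vj_all (ex_stmt' vj_all (ep_stmt pe_stmt eq_stmt)) kr_all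
      lc_stmt a3_stmt a4_stmt sel_all una_stmt) unc_stmt

end Pool.Agent.B8
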