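import Pool.Agent.Lib.MP_696deb_nt.B8.ZD
import Pool.Agent.Lib.MP_696deb_nt.B5.AL

/-! The newform is a unit at the fixed point of the Fricke involution. -/

set_option autoImplicit false

open scoped Classical NNReal

namespace Pool.Agent.B8
open Pool.Agent.Lib.MP_696deb_nt Pool.Agent.Lib.MP_696deb_nt.B2 Pool.Agent.Lib.MP_696deb_nt.B2.CM
  Pool.Agent.B6 Pool.Agent.B4

theorem un_stmt (cf : CFStmt) (a0 : A0Stmt) (a1 : A1Stmt) (lk : LKStmt) (b : UNbStmt)
    (c : UNcStmt) : UNStmt := by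
  intro _ D w V hD hs hw hV
  have hn := nk
  have : Finite (Pc NN 2) := finite_Pc (hn.ok two_ne_zero).m4 hn.gt 2
  have := Fintype.ofFinite (Pc NN 2)
  obtain ⟨ψ, hψ⟩ := cf
  obtain ⟨g, hg, hr⟩ := a0 ψ hψ
  obtain ⟨h1, h2⟩ := b ψ g w V hψ hg hr.even hs hw hV
  obtain ⟨k1, ⟨A, k2, k3⟩, -⟩ := lk NN ψ g hn hψ.ram hg hr.even
  have hv : V 2 < 1 := by
    have h3 := w.hV
    rw [hw] at h3
    rw [← map_ofNat jC, hV, show w.V 2 = 2⁻¹ by exact_mod_cast h3]
    exact inv_lt_one_of_one_lt₀ one_lt_two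
  have hx : 0 < (x0 NN).im := by
    have : (0 : ℝ) < NN := by exact_mod_cast (show 0 < NN by have := hn.gt; omega)
    rw [x0, Complex.div_ofReal_im, Complex.I_im]
    positivity
  refine ⟨c NN V _ _ (PowerSeries.mk D.c) A _ (Nat.odd_iff.2 (by have := hn.m8; omega)) hv
    (B5.md_mk D) k1 ?_ k2 (fun k => ?_) hx h2.le (by rwa [← pow_mul]), h2⟩
  · convert D.qe using 1
    ext k
    simp [GE.MD.S]
  · have h3 := (a1 g D hr hD k).sub (k3 k)
    rwa [PowerSeries.coeff_mk, ← sub_sub_sub_cancel_right _ _ (g k)]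

end Pool.Agent.B8
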