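import Pool.Agent.Lib.MP_696deb_nt.B8.ZE

/-! Integral homogeneous coordinates of the parametrization. -/

set_option autoImplicit false

open Filter Topology
open scoped Classical NNReal

namespace Pool.Agent.B8
open Pool.Agent.Lib.MP_696deb_nt Pool.Agent.Lib.MP_696deb_nt.B2 Pool.Agent.B6 Pool.Agent.B4
  Pool.Agent.B4.GE Pool.Agent.Shared.Weier Pool.Agent.B5
open Pool.Agent.B6.D9 (tt dd Dv Ty IM Gf)

theorem xyz_alg {D : Type} [CommRing D] [IsDomain D] (h2 : (2 : D) = 0) {x y b x' y' b' h : D}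
    {a1 a2 a3 a4 a6 : ℤ} (ha1 : Even a1) (ha3 : Odd a3) (hh : h ≠ 0)
    (e1 : y ^ 2 * b + a1 * x * y * b + a3 * y * b ^ 2 =
      x ^ 3 + a2 * x ^ 2 * b + a4 * x * b ^ 2 + a6 * b ^ 3)
    (e2 : b * x' - x * b' = h * (b * (2 * y + a1 * x + a3 * b)))
    (e3 : x * y' - y * x' = h * (y ^ 2 + a1 * x * y + 2 * a3 * y * b - a2 * x ^ 2 -
      2 * a4 * x * b - 3 * a6 * b ^ 2))
    (dx : ∀ r : ℤ, x = r * b → x' = r * b') (dy : y = 0 → y' = 0)
    (hne : x ≠ 0 ∨ y ≠ 0 ∨ b ≠ 0) : y ≠ 0 ∧ b ≠ 0 := by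
  have hb : b ≠ 0 := by
    rintro rfl
    obtain rfl : x = 0 := pow_eq_zero_iff (n := 3) (by norm_num) |>.1 (by linear_combination -e1)
    obtain rfl : x' = 0 := by simpa using dx 0 (by simp)
    have : h * y ^ 2 = 0 := by linear_combination -e3
    have hy : y = 0 := pow_eq_zero_iff (n := 2) (by norm_num) |>.1
      ((mul_eq_zero.1 this).resolve_left hh)
    simp [hy] at hne
  refine ⟨?_, hb⟩
  rintro rfl
  obtain rfl := dy rfl
  obtain ⟨k, rfl⟩ := ha1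
  obtain ⟨l, rfl⟩ := ha3
  obtain ⟨m, hm⟩ := Int.even_mul_succ_self a4
  have hm' : (a4 : D) * (a4 + 1) = m + m := by exact_mod_cast congrArg (Int.cast : ℤ → D) hm
  have k1 : (a2 : D) * x ^ 2 + 2 * a4 * x * b + 3 * a6 * b ^ 2 = 0 :=
    (mul_eq_zero.1 (by linear_combination e3)).resolve_left hh
  have k2 : x * (x - a4 * b) ^ 2 = 0 := by
    linear_combination -e1 - b * k1 + x * b ^ 2 * hm' +
      (a6 * b ^ 3 + m * x * b ^ 2 - a4 * x ^ 2 * b) * h2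
  obtain ⟨r, hr⟩ : ∃ r : ℤ, x = r * b := by
    rcases mul_eq_zero.1 k2 with k | k
    · exact ⟨0, by simpa using k⟩
    · exact ⟨a4, sub_eq_zero.1 (pow_eq_zero_iff (n := 2) (by norm_num) |>.1 k)⟩
  have hr' := dx r hr
  have k3 : h * b ^ 2 = 0 := by
    push_cast at e2
    linear_combination -e2 + b * hr' - b' * hr - h * b * (k * x + l * b) * h2
  exact mul_ne_zero hh (pow_ne_zero 2 hb) k3

variable {V : Valuation ℂ ℝ≥0} {N : ℕ} {F : ℂ → ℂ} {c d : ℂ}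

theorem xyz_odd (h2 : V 2 < 1) {n : ℕ} (hn : Odd n) : V n = 1 := by
  obtain ⟨k, rfl⟩ := hn
  rw [show ((2 * k + 1 : ℕ) : ℂ) = 1 + k * 2 by push_cast; ring]
  refine V.map_one_add_of_lt ?_
  rw [map_mul]
  exact mul_lt_one_of_nonneg_of_lt_one_right (val_nat V k) zero_le h2

theorem xyz_sc (hc : c ≠ 0) (h : (fun z => c⁻¹ * F z) ∈ LR V.integer) (hd : V c ≤ V d) :
    (fun z => d⁻¹ * F z) ∈ LR V.integer := by
  have d0 : 0 < V d := ((V.pos_iff).2 hc).trans_le hd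
  refine LE.congr (mul_mem (const_mem V (c := d⁻¹ * c) ?_) h) fun z _ => ?_
  · rw [map_mul, map_inv₀]
    exact (inv_mul_le_one₀ d0).2 hd
  · simp only [Pi.mul_apply]
    field_simp

theorem xyz_up (hN : N ≠ 0) (hF : MF N F) (hc : c ≠ 0) : ∃ d, d ≠ 0 ∧ V c ≤ V d ∧
    (fun z => d⁻¹ * F z) ∈ LR V.integer ∧ (d = c ∨ GN V F d) := by
  by_cases h : ∀ z : ℂ, 0 < z.im → F z = 0
  · exact ⟨c, hc, le_rfl, LE.congr (zero_mem (LR V.integer)) fun z hz => by simp [h z hz],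
      .inl rfl⟩
  push Not at h
  obtain ⟨z, hz, h0⟩ := h
  obtain ⟨e, he⟩ := exists_gn V hN hF hz h0
  rcases le_total (V e) (V c) with k | k
  · exact ⟨c, hc, le_rfl, xyz_sc he.ne he.mem k, .inl rfl⟩
  · exact ⟨e, he.ne, k, he.mem, .inr he⟩

theorem xyz_dd (tc : TYcStmt) {L : ℕ} (hL : V L = 1) (h9 : 9 ∣ L) (hF : MF L F)
    (h : LE (V.ltAddSubgroup 1) F) : LE (V.ltAddSubgroup 1) (dd F) := by
  have L0 : L ≠ 0 := by
    rintro rfl
    simp at hL
  by_cases h0 : ∀ z : ℂ, 0 < z.im → F z = 0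
  · refine (LE.const (AddSubgroup.zero_mem _)).congr fun z hz => ?_
    have : F =ᶠ[𝓝 z] fun _ => 0 :=
      ((isOpen_lt continuous_const Complex.continuous_im).mem_nhds hz : _ ∈ 𝓝 z) |>
        fun k => Filter.mem_of_superset k fun w hw => h0 w hw
    rw [dd, this.deriv_eq, deriv_const, zero_div]
  push Not at h0
  obtain ⟨z, hz, h0⟩ := h0
  obtain ⟨e, he⟩ := exists_gn V L0 hF hz h0
  have e0 := he.ne
  have e1 : V e < 1 := by
    by_contra! k
    refine he.top (le_smul h e⁻¹ fun s hs => ged_lt _ ?_ _ hs)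
    change V _ ≤ 1
    rw [map_inv₀]
    exact inv_le_one_of_one_le₀ k
  have k := (((tc L V hL h9).2 _ ⟨mf_mul (mf_const e⁻¹) hF, he.mem⟩).1).int
  refine (le_smul k e fun s hs => ?_).congr fun z _ => ?_
  · rw [mul_comm]
    exact ged_lt _ hs _ e1
  · rw [dd, dd, deriv_const_mul_field]
    field_simp

theorem xyz_mk {F G : LR V.integer} (e : ∀ z : ℂ, 0 < z.im → F.1 z = G.1 z) :
    Ideal.Quotient.mk (LI V) F = Ideal.Quotient.mk (LI V) G :=
  Ideal.Quotient.eq.2 ((LE.const (AddSubgroup.zero_mem _)).congr fun z hz => by simp [e z hz])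

theorem Xy.scale {W : WeierstrassCurve ℚ} {P : Par W N} {Xf Yf Bf : ℂ → ℂ} (h : Xy P Xf Yf Bf)
    (hc : c ≠ 0) : Xy P (fun z => c * Xf z) (fun z => c * Yf z) fun z => c * Bf z := by
  obtain ⟨z, hz, h0⟩ := h.ne
  refine ⟨mf_mul (mf_const c) h.x, mf_mul (mf_const c) h.y, mf_mul (mf_const c) h.b,
    ⟨z, hz, mul_ne_zero hc h0⟩, fun w hw k => ?_⟩
  obtain ⟨a1, a2, a3⟩ := h.eq w hw (right_ne_zero_of_mul k)
  exact ⟨a1, by rw [a2, mul_assoc], by rw [a3, mul_assoc]⟩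

theorem xy_stmt (a : XYaStmt) (b : XYbStmt) (tb : TYbStmt) (tc : TYcStmt) : XYStmt := by
  intro _ P V h2 _ hg
  obtain ⟨X0, Y0, B0, h0⟩ := a Wu NN P
  obtain ⟨z0, hz0, hb0⟩ := h0.ne
  obtain ⟨c0, g0⟩ := exists_gn V NN_ne h0.b hz0 hb0
  obtain ⟨c1, n1, l1, m1, g1⟩ := xyz_up (V := V) NN_ne h0.x g0.ne
  obtain ⟨c, n, l, mY, g2⟩ := xyz_up (V := V) NN_ne h0.y n1
  have mX := xyz_sc n1 m1 l
  have mB := xyz_sc g0.ne g0.mem (l1.trans l)
  have h := h0.scale (inv_ne_zero n)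
  have top : ¬ LE (V.ltAddSubgroup 1) (fun z => c⁻¹ * X0 z) ∨
      ¬ LE (V.ltAddSubgroup 1) (fun z => c⁻¹ * Y0 z) ∨
      ¬ LE (V.ltAddSubgroup 1) fun z => c⁻¹ * B0 z := by
    rcases g2 with rfl | g2
    · rcases g1 with rfl | g1
      exacts [.inr (.inr g0.top), .inl g1.top]
    · exact .inr (.inl g2.top)
  generalize (fun z => c⁻¹ * X0 z) = Xf at *
  generalize (fun z => c⁻¹ * Y0 z) = Yf at *
  generalize (fun z => c⁻¹ * B0 z) = Bf at *
  have hL : V (9 * NN : ℕ) = 1 := xyz_odd h2 (Odd.mul (by decide) NN_odd)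
  have h9 : 9 ∣ 9 * NN := dvd_mul_right _ _
  have up : ∀ F, MF NN F → MF (9 * NN) F := fun F =>
    tb.2.1 _ _ F (mul_ne_zero (by norm_num) NN_ne) (dvd_mul_left _ _)
  have dm : ∀ F, MF NN F → F ∈ LR V.integer → dd F ∈ LR V.integer := fun F k k' =>
    ((tc _ V hL h9).2 F ⟨up F k, k'⟩).1.int
  have mh : dd P.F ∈ LR V.integer := by simpa using hg.mem
  have := li_prime (V := V)
  have z : ∀ F : LR V.integer, Ideal.Quotient.mk (LI V) F = 0 ↔ LE (V.ltAddSubgroup 1) F.1 :=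
    fun F => Ideal.Quotient.eq_zero_iff_mem
  let x : LR V.integer := ⟨Xf, mX⟩
  let y : LR V.integer := ⟨Yf, mY⟩
  let β : LR V.integer := ⟨Bf, mB⟩
  let x' : LR V.integer := ⟨_, dm _ h.x mX⟩
  let y' : LR V.integer := ⟨_, dm _ h.y mY⟩
  let β' : LR V.integer := ⟨_, dm _ h.b mB⟩
  let η : LR V.integer := ⟨_, mh⟩
  let ι : ℤ → LR V.integer := Int.cast
  have i2 : ∀ w, (2 : LR V.integer).1 w = 2 := fun w => rfl
  have i3 : ∀ w, (3 : LR V.integer).1 w = 3 := fun w => rfl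
  have e1 := xyz_mk (F := y ^ 2 * β + ι WZ.a₁ * x * y * β + ι WZ.a₃ * y * β ^ 2)
    (G := x ^ 3 + ι WZ.a₂ * x ^ 2 * β + ι WZ.a₄ * x * β ^ 2 + ι WZ.a₆ * β ^ 3) fun w hw => by
      simpa [Wu, ι, x, y, β] using (b Wu NN P Xf Yf Bf h w hw).1
  have e2 := xyz_mk (F := β * x' - x * β')
    (G := η * (β * (ι 2 * y + ι WZ.a₁ * x + ι WZ.a₃ * β))) fun w hw => by
      simpa [Wu, ι, x, y, β, x', β', η, i2] using (b Wu NN P Xf Yf Bf h w hw).2.1
  have e3 := xyz_mk (F := x * y' - y * x')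
    (G := η * (y ^ 2 + ι WZ.a₁ * x * y + ι 2 * ι WZ.a₃ * y * β - ι WZ.a₂ * x ^ 2 -
      ι 2 * ι WZ.a₄ * x * β - ι 3 * ι WZ.a₆ * β ^ 2)) fun w hw => by
      simpa [Wu, ι, x, y, β, x', y', η, i2, i3] using (b Wu NN P Xf Yf Bf h w hw).2.2
  simp only [ι, map_add, map_sub, map_mul, map_pow, map_intCast] at e1 e2 e3
  simp only [Int.cast_ofNat] at e2 e3
  have t2 : (2 : LR V.integer ⧸ LI V) = 0 := by
    have := (z (ι 2)).2 ((LE.const (c := 2) h2).congr fun w _ => by simp [ι, i2])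
    rwa [map_intCast, Int.cast_ofNat] at this
  obtain ⟨ky, kb⟩ := xyz_alg t2 a1_even a3_odd (fun k => hg.top (by simpa using (z η).1 k))
    e1 e2 e3 (fun r k => by
      have k1 := (z (x - ι r * β)).1 (by rw [map_sub, map_mul, map_intCast, k, sub_self])
      have k2 := xyz_dd (F := fun w => Xf w - r * Bf w) tc hL h9
        (up _ (mf_sub h.x (mf_mul (mf_const r) h.b))) (k1.congr fun w _ => by simp [x, β, ι])
      have k3 := (z (x' - ι r * β')).2 (k2.congr fun w hw => by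
        have d1 := LE.hol mX w hw
        have d2 := (LE.hol mB w hw).const_mul (r : ℂ)
        rw [dd, deriv_fun_sub d1 d2, deriv_const_mul_field]
        simp [x', β', ι, dd, sub_div, mul_div_assoc])
      rwa [map_sub, map_mul, map_intCast, sub_eq_zero] at k3)
    (fun k => (z y').2 (xyz_dd tc hL h9 (up _ h.y) ((z y).1 k)))
    (top.imp (fun k k' => k ((z x).1 k')) fun k =>
      k.imp (fun k k' => k ((z y).1 k')) fun k k' => k ((z β).1 k'))
  exact ⟨Xf, Yf, Bf, h, mX,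
    ⟨one_ne_zero, by simpa using mY, fun k => ky ((z y).2 (by simpa using k))⟩,
    ⟨one_ne_zero, by simpa using mB, fun k => kb ((z β).2 (by simpa using k))⟩⟩

end Pool.Agent.B8
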