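import Pool.Agent.Lib.MP_696deb_nt.B8.RPa
import Pool.Agent.Lib.MP_696deb_nt.B2.CM1
import Pool.Agent.Lib.MP_696deb_nt.B5.MH0

/-! Theta series of weight one and their value at the fixed point of the Fricke involution:
definitions and statements. -/

set_option autoImplicit false

open Complex
open scoped Classical NNReal Real

namespace Pool.Agent.B8
open Pool.Agent.Lib.MP_696deb_nt Pool.Agent.Lib.MP_696deb_nt.B2.CM

/-- The group of order three. -/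
abbrev Z3 : Type := Multiplicative (ZMod 3)

/-- The weights `1`, `-1`, `0`. -/
def bw (a : Z3) : ℤ := if a = 1 then 1 else if a = .ofAdd 1 then -1 else 0

theorem sum_bw : ∑ a, bw a = 0 := by decide

/-- The fixed point of the Fricke involution. -/
noncomputable def x0 (n : ℕ) : ℂ := I / √n

/-- The discriminants for which two is inert. -/
structure Nk (n : ℕ) : Prop where
  sqf : Squarefree n
  m8 : n % 8 = 3
  gt : 3 < n

theorem Nk.ok {n c : ℕ} (h : Nk n) (hc : c ≠ 0) : Ok n c := ⟨by have := h.m8; omega, h.gt, hc⟩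

/-- The point `τ` belongs to the class `x`. -/
structure Rp (n c : ℕ) (τ : ℂ) (x : Pc n c) : Prop where
  pos : 0 < τ.im
  iv : IsIv (Oc n c) (sp2 τ 1)
  eq : cl _ (sp2 τ 1) = x

/-- Cubic characters of conductor two. -/
def Ram {n : ℕ} (ψ : Pc n 2 →* Z3) : Prop := ∃ x, pj n 1 2 x = 1 ∧ ψ x ≠ 1

/-- The weighted number of representations. -/
noncomputable def gS {n : ℕ} [Fintype (Pc n 2)] (ψ : Pc n 2 →* Z3) (k : ℕ) : ℤ :=
  ∑ x, bw (ψ x) * rC n 2 x k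

/-- The series in the square root of the parameter. -/
noncomputable def Th (g : ℕ → ℤ) (z : ℂ) : ℂ := ∑' k : ℕ, g k * q1 (k * z / 2)

/-- The theta series of a form with a weight modulo two. -/
noncomputable def thQ (Q : Fm) (f : ZMod 2 × ZMod 2 → ℤ) (z : ℂ) : ℂ :=
  ∑' v : ℤ × ℤ, f (v.1, v.2) * q1 (fval Q v.1 v.2 * z / 2)

/-- The Gaussian sum over a lattice of area one. -/
noncomputable def Pz (τ : ℂ) : ℝ := ∑' v : ℤ × ℤ, Real.exp (-π * normSq (v.1 * τ + v.2) / τ.im)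

/-- The invariant absolute value of the squares of the theta constants. -/
noncomputable def Wc (τ : ℂ) (i : Option (Fin 2)) : ℝ :=
  (‖ph 2 i τ‖ ^ 2 * Real.exp (H3.T.Lam τ)) ^ (1 / 12 : ℝ)

/-- Every class has a point; the three neighbours of a point are the classes above it. -/
def NBStmt : Prop := ∀ n : ℕ, Nk n → (∀ (c : ℕ) (x : Pc n c), c ≠ 0 → ∃ τ, Rp n c τ x) ∧
  Rp n 2 (x0 n) 1 ∧ ∀ (τ : ℂ) (B : Pc n 1), Rp n 1 τ B → ∃ y : Option (Fin 2) → Pc n 2,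
    (∀ i, Rp n 2 (hk 2 τ i) (y i) ∧ IsIv (Oc n 2) (nb 2 1 τ i) ∧ cl _ (nb 2 1 τ i) = y i) ∧
    Function.Injective y ∧ (∀ x, pj n 1 2 x = B ↔ ∃ i, y i = x) ∧
    ∀ ψ : Pc n 2 →* Z3, Ram ψ → Function.Bijective fun i => ψ (y i)

/-- The square of the theta series is a modular form. -/
def THStmt : Prop := ∀ n : ℕ, Nk n → ∀ (ι : Type) [Fintype ι] (Q : ι → Fm)
  (f : ι → ZMod 2 × ZMod 2 → ℤ),
  (∀ i, fdisc (Q i) = -n ∧ 0 < (Q i).1 ∧ f i 0 = 0 ∧ ∑ v, f i v = 0) →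
  B5.Mk n 2 fun z => (∑ i, thQ (Q i) (f i) z) ^ 2

/-- The series of a cubic character. -/
def LKStmt : Prop := ∀ (n : ℕ) [Fintype (Pc n 2)] (ψ : Pc n 2 →* Z3) (g : ℕ → ℤ), Nk n → Ram ψ →
  (∀ k, gS ψ k = 2 * g k) → (∀ k, Even k → g k = 0) →
  B5.Mk n 2 (fun z => Th g z ^ 2) ∧
  (∃ A : PowerSeries ℤ, QE (fun z => Th g z ^ 2) (toC A) ∧ ∀ k, Even (A.coeff k - g k)) ∧
  ∀ t : Pc n 2 → ℂ, (∀ x, Rp n 2 (t x) x) →
    2 * Th g (x0 n) = ((∑ x, bw (ψ x) * Pz (t x) : ℝ) : ℂ)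

/-- The Gaussian sum in terms of theta constants. -/
def FAStmt : Prop := ∀ τ : ℂ, 0 < τ.im → ∀ i, Pz (hk 2 τ i) = (∑ j, Wc τ j - Wc τ i) / √2

/-- The modular equation of level two. -/
def MEStmt : Prop := ∀ τ : ℂ, 0 < τ.im → ∀ i, (ph 2 i τ + 16) ^ 3 = jf τ * ph 2 i τ

/-- The half periods. -/
noncomputable def hp (τ : ℂ) : Option (Fin 2) → ℂ
  | none => 1 / 2
  | some k => (τ + (k : ℕ)) / 2

/-- The modular units of level two in terms of the values at the half periods. -/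
def PEStmt : Prop := ∀ (τ : ℂ) (L : PeriodPair), 0 < τ.im → L.lattice = sp2 τ 1 →
  (2 * π) ^ 12 * Dl τ = L.g₂ ^ 3 - 27 * L.g₃ ^ 2 ∧
  ∀ i j k : Option (Fin 2), i ≠ j → i ≠ k → j ≠ k →
    ph 2 i τ * ((L.weierstrassP (hp τ i) - L.weierstrassP (hp τ j)) *
      (L.weierstrassP (hp τ i) - L.weierstrassP (hp τ k))) =
      16 * (L.weierstrassP (hp τ j) - L.weierstrassP (hp τ k)) ^ 2

/-- Valuations at the points of odd conductor. -/
def VJStmt : Prop := ∀ (n c : ℕ) (V : Valuation ℂ ℝ≥0) (τ : ℂ) (B : Pc n c), Nk n → Odd c →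
  V 2 < 1 → Rp n c τ B →
  V (jf τ) ≤ V 2 ^ 8 ∧ ∀ i, V (ph 2 i τ) = V 2 ^ 4 ∧ V (jf (hk 2 τ i)) < 1

/-- The formula of Velu for an isogeny of odd degree. -/
def EQStmt : Prop := ∀ (V : Valuation ℂ ℝ≥0) (L M : PeriodPair) (m : ℕ) (u v : ℂ), V 2 < 1 →
  V (jPer L) ≤ V 2 ^ 8 → L.lattice ≤ M.lattice → Odd m → (∀ z ∈ M.lattice, m * z ∈ L.lattice) →
  u ∉ L.lattice → v ∉ L.lattice → u - v ∉ L.lattice → 2 * u ∈ L.lattice → 2 * v ∈ L.lattice →
  V ((M.weierstrassP u - M.weierstrassP v) / (L.weierstrassP u - L.weierstrassP v) - 1) ^ 3 <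
    V 2 ^ 4

/-- The theta constants along an isogeny of odd degree. -/
def EPStmt : Prop := ∀ (V : Valuation ℂ ℝ≥0) (τ : ℂ) (M : MZ) (i i' : Option (Fin 2)), V 2 < 1 →
  0 < τ.im → 0 < M.det → Odd M.det → V (jf τ) ≤ V 2 ^ 8 → V (starRingEnd ℂ (jf τ)) ≤ V 2 ^ 8 →
  sc (den M τ) (nb 2 1 (act M τ) i') ≤ nb 2 1 τ i →
  V (((Wc (act M τ) i' / Wc τ i : ℝ) : ℂ) - 1) ^ 3 < V 2

/-- The theta constants are congruent. -/
def EXStmt : Prop := ∀ (n c c' : ℕ) (V : Valuation ℂ ℝ≥0) (τ τ' : ℂ) (B : Pc n c) (B' : Pc n c'),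
  Nk n → Odd c → Odd c' → V 2 < 1 → Rp n c τ B → Rp n c' τ' B' →
  ∀ i i', V (((Wc τ' i' / Wc τ i : ℝ) : ℂ) - 1) ^ 3 < V 2

end Pool.Agent.B8
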