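import Pool.Agent.Lib.MP_696deb_nt.B8.ZB

/-! Statements of the steps. -/

set_option autoImplicit false

open NumberField NumberTheorySymbols
open scoped Classical NNReal

namespace Pool.Agent.B8
open Pool.Agent.Lib.MP_696deb_nt Pool.Agent.Lib.MP_696deb_nt.B2 Pool.Agent.Lib.MP_696deb_nt.B2.CM
  Pool.Agent.B6 Pool.Agent.B4

section
variable [Ce]

/-- The cubic character of the action on the points of order two. -/
structure Cx (χ : Gam → ZMod 3) : Prop where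
  sm : Sm (GK NN) χ
  hom : IsHom (GK NN) χ
  ker : ∀ g ∈ GK NN, χ g = 0 ↔ ∀ i, g (er i) = er i

/-- The norms of the primes of the cubic field above `p`. -/
noncomputable def Tp (p : ℕ) : Multiset ℕ :=
  if p = 2 then {2} else if p ∣ NN then {p, p} else if J(-NN | p) = -1 then {p, p ^ 2}
  else if Rt p then {p, p, p} else {p ^ 3}

/-- The conjugates of a number of the cubic field. -/
noncomputable def al (a b c : ℤ) (i : Fin 3) : Qbar := a + b * (2 * er i) + c * (2 * er i) ^ 2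

/-- Families that are permuted like the roots. -/
def Eqv (D : Subgroup Gam) (u : Fin 3 → Qbar) : Prop :=
  ∀ g ∈ D, ∀ i j, g (er i) = er j → g (u i) = u j

/-- The cocycle of a family of square roots. -/
structure Kd (A r : Fin 3 → Qbar) (ξ : Gam → B6.EE) : Prop where
  eqv : Eqv ⊤ A
  ne : ∀ i, A i ≠ 0
  sq : ∀ i, r i ^ 2 = A i
  nrm : Fx ⊤ (r 0 * r 1 * r 2)
  two : ∀ g, 2 • ξ g = 0
  sgn : ∀ (g : Gam) (i j : Fin 3), g (er i) = er j →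
    (g (r i) = r j ↔ ξ g = 0 ∨ xco (ξ g) = er j)

/-- The family has square roots that are permuted like the roots. -/
def Sq8 (D : Subgroup Gam) (A : Fin 3 → Qbar) : Prop := ∃ u, (∀ i, u i ^ 2 = A i) ∧ Eqv D u

/-- The valuations are even. -/
def Ev8 (w : Plc) (A : Fin 3 → Qbar) : Prop :=
  ∀ i, ∃ y : Qbar, (∀ g : Gam, g (er i) = er i → g y = y) ∧ w.V (A i) = w.V y ^ 2

end

/-- The action on the roots. -/
def CFaStmt : Prop := ∀ [Ce], (∃ χ, Cx χ) ∧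
  (∀ g ∈ GK NN, ∀ i, g (er i) = er i → ∀ j, g (er j) = er j) ∧
  (∀ g ∉ GK NN, ∃ i, g (er i) = er i) ∧
  (∀ (w : Plc) (φ : Gam), ¬ w.p ∣ 2 * NN → IsFrob w w.p φ → (Rt w.p ↔ ∃ i, φ (er i) = er i)) ∧
  (∀ w : Plc, w.p ≠ 2 → ∀ σ ∈ GK NN ⊓ Ine w, ∀ i, σ (er i) = er i) ∧
  ∀ w : Plc, w.p = 2 → (∀ i, w.V (2 * er i) ^ 3 = w.V 2) ∧ Ine w ≤ GK NN ∧
    ∃ σ ∈ Ine w, ∀ i, σ (er i) ≠ er i

/-- The reciprocity law for principal primes. -/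
def CFbStmt : Prop := CFaStmt → ∀ [Ce] (χ : Gam → ZMod 3) (w : Plc) (φ : Gam) (x y : ℤ), Cx χ →
  ¬ w.p ∣ 2 * NN → 2 ∣ y → nrm NN x y = w.p → IsFrob w w.p φ → χ φ = 0

/-- The primes of the cubic field. -/
def A2aStmt : Prop := A3Stmt → ∀ [Ce] (L : Type) [Field L] [NumberField L] (θ : L), Cb L θ →
  ∀ p : ℕ, p.Prime → ∃ S : Finset (Ideal (𝓞 L)),
    (∀ P, P ∈ S ↔ P.IsMaximal ∧ (p : 𝓞 L) ∈ P) ∧ S.val.map Ideal.absNorm = Tp p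

/-- The sieve. -/
def A2bStmt : Prop := ∀ (L : Type) [Field L] [NumberField L] (p k : ℕ) (S : Finset (Ideal (𝓞 L))),
  p.Prime → k ≠ 0 → p ∣ k → (∀ P, P ∈ S ↔ P.IsMaximal ∧ (p : 𝓞 L) ∈ P) →
  ∑ U ∈ S.powerset, (-1 : ℤ) ^ U.card * (if ∏ P ∈ U, Ideal.absNorm P ∣ k then
    (Nat.card {I : Ideal (𝓞 L) // Ideal.absNorm I = k / ∏ P ∈ U, Ideal.absNorm P} : ℤ) else 0) = 0

/-- The cocycle exists. -/
def SEaStmt : Prop := ∀ [Ce] (A : Fin 3 → Qbar) (q : Qbar), Eqv ⊤ A → (∀ i, A i ≠ 0) → Fx ⊤ q →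
  A 0 * A 1 * A 2 = q ^ 2 → ∃ (r : Fin 3 → Qbar) (ξ : Gam → B6.EE), Kd A r ξ ∧ Sm ⊤ ξ ∧
    (∀ g h, ξ (g * h) = ξ g + g • ξ h) ∧ ∀ D : Subgroup Gam,
      Sq8 D A ↔ ∃ T : B6.EE, 2 • T = 0 ∧ ∀ g ∈ D, ξ g = g • T - T

/-- The cocycle of a point. -/
def SEbStmt : Prop := ∀ [Ce] (A r : Fin 3 → Qbar) (ξ : Gam → B6.EE) (D : Subgroup Gam)
  (P : B6.EE), Kd A r ξ → P ≠ 0 → cub (xco P) ≠ 0 → (∀ g ∈ D, g • P = P) →
  Sq8 D (fun i => A i * (xco P - er i)) → ∃ S : B6.EE, ∀ g ∈ D, ξ g = g • S - S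

/-- Unramified cocycles are locally trivial. -/
def SEcStmt : Prop := ∀ [Ce] (ξ : Gam → B6.EE) (w : Plc) (T : B6.EE), w.p ≠ 2 → Sm ⊤ ξ →
  (∀ g h, ξ (g * h) = ξ g + g • ξ h) → (∀ g, 2 • ξ g = 0) → 2 • T = 0 →
  (∀ σ ∈ Ine w, ξ σ = σ • T - T) → ∃ S : B6.EE, ∀ g ∈ Dec w, ξ g = g • S - S

/-- Square roots at the odd places and at infinity. -/
def SEdStmt : Prop := ∀ [Ce] (A : Fin 3 → Qbar), Eqv ⊤ A → (∀ i, A i ≠ 0) →
  (∀ w : Plc, w.p ≠ 2 → Ev8 w A → Sq8 (Ine w) A) ∧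
  ∀ q : Qbar, Fx ⊤ q → A 0 * A 1 * A 2 = q ^ 2 → Sq8 (Subgroup.zpowers cc) A

/-- Square roots at two. -/
def SEeStmt : Prop := CFaStmt → ∀ [Ce] (a b c q : ℤ) (w : Plc), w.p = 2 → Odd a → Even b →
  al a b c 0 * al a b c 1 * al a b c 2 = q ^ 2 → Sq8 (Dec w) (al a b c) ∨
    ∃ P : B6.EE, P ≠ 0 ∧ cub (xco P) ≠ 0 ∧ (∀ g ∈ Dec w, g • P = P) ∧
      Sq8 (Dec w) fun i => al a b c i * (xco P - er i)

/-- The descent. -/
def SEzStmt : Prop := ∀ [Ce] (a b c q : ℤ), Sel0 → Odd a → Even b →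
  al a b c 0 * al a b c 1 * al a b c 2 = q ^ 2 → (∀ w : Plc, w.p ≠ 2 → Ev8 w (al a b c)) →
  Sq8 ⊤ (al a b c)

/-- The descent for numbers of the cubic field. -/
def SEyStmt : Prop := ∀ [Ce] (α : Lc) (w : Plc), Sel0 → w.p = 2 → IsSquare (Algebra.norm ℚ α) →
  (∀ v : Plc, ∃ y : Lc, v.V α = v.V y ^ 2) → w.V ((α : Qbar) - 1) ^ 3 < w.V 2 → IsSquare α

/-- Valuations above two in the cubic field. -/
def SExStmt : Prop := ∀ [Ce] (α : Lc) (w : Plc), w.p = 2 → w.V α = 1 →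
  w.V ((α : Qbar) - 1) ^ 3 < w.V 2 ∨ w.V ((α : Qbar) - (1 + 2 * e0)) ^ 3 < w.V 2

end Pool.Agent.B8
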