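import Pool.Agent.Lib.MP_696deb_nt.B8.ZB

/-! Statements of the steps for the value of the newform. -/

set_option autoImplicit false

open scoped Classical NNReal

namespace Pool.Agent.B8
open Pool.Agent.Lib.MP_696deb_nt Pool.Agent.Lib.MP_696deb_nt.B2 Pool.Agent.Lib.MP_696deb_nt.B2.CM
  Pool.Agent.B6 Pool.Agent.B4

/-- From the product to the sum. -/
def UNaStmt : Prop := ∀ (V : Valuation ℂ ℝ≥0) (ι : Type) [Fintype ι] (a b : ι → ℂ) (ε : ℂ)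
  (s m : ℕ), V 2 < 1 → (∀ i, V (a i - 1) ^ 3 < V 2) → (∀ i, V (b i - 1) ^ 3 < V 2) → Odd s →
  Odd m → V (ε - 1) ^ 3 = V 2 → (∏ i, a i) ^ s * ε ^ (2 * m) = (∏ i, b i) ^ s →
  V (∑ i, (a i - b i)) ^ 3 = V 2 ^ 2

/-- The value of the series of weight one. -/
def UNbStmt : Prop := ∀ [Ce] [Fintype (Pc NN 2)] (ψ : Pc NN 2 →* Z3) (g : ℕ → ℤ) (w : Plc)
  (V : Valuation ℂ ℝ≥0), Cub ψ → (∀ k, gS ψ k = 2 * g k) → (∀ k, Even k → g k = 0) → Sel0 →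
  w.p = 2 → Ov V w → V (Th g (x0 NN) ^ 12 / Dl (x0 NN)) = 1 ∧ V (jf (x0 NN)) < 1

/-- Congruent forms have congruent values. -/
def UNcStmt : Prop := ∀ (N : ℕ) (V : Valuation ℂ ℝ≥0) (F G : ℂ → ℂ) (A B : PowerSeries ℤ) (z : ℂ),
  Odd N → V 2 < 1 → B5.Mk N 2 F → B5.Mk N 2 G → QE F (toC A) → QE G (toC B) →
  (∀ k, Even (A.coeff k - B.coeff k)) → 0 < z.im → V (jf z) ≤ 1 → V (G z ^ 6 / Dl z) = 1 →
  V (F z ^ 6 / Dl z) = 1

end Pool.Agent.B8
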